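import Mathlib
import Pool.Agent.TH881.RQ.Defs2

/-! Job 2922: the size of `mq`, lower bound for the weighted sum. -/

set_option autoImplicit false

namespace Pool.Agent.TH914.J2922

open Finset Filter Topology Polynomial
open Pool.Agent.TH881
open Pool.Agent.TH881.RG
open Pool.Agent.TH881.RQ
open Pool.Agent.H373R2.T7

/-! ### roots -/

/-- number of roots of `g - t` in the field with `p` elements -/
lemma card_roots_le {p : ℕ} (hp : p.Prime) (g : ℤ[X]) (t : ZMod p) (S : Finset (ZMod p))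
    (hS : ∀ a ∈ S, (g.map (Int.castRingHom (ZMod p))).eval a = t)
    (hne : g.map (Int.castRingHom (ZMod p)) ≠ C t) : S.card ≤ g.natDegree := by
  classical
  have : Fact p.Prime := ⟨hp⟩
  set f := g.map (Int.castRingHom (ZMod p)) - C t with hf
  have hf0 : f ≠ 0 := sub_ne_zero.2 hne
  have h1 : S ⊆ f.roots.toFinset := by
    intro a ha
    rw [Multiset.mem_toFinset, mem_roots hf0, IsRoot.def, hf, eval_sub, eval_C, hS a ha, sub_self]
  calc S.card ≤ f.roots.toFinset.card := card_le_card h1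
    _ ≤ Multiset.card f.roots := Multiset.toFinset_card_le _
    _ ≤ f.natDegree := card_roots' f
    _ ≤ (g.map (Int.castRingHom (ZMod p))).natDegree := by
        rw [hf, natDegree_sub_C]
    _ ≤ g.natDegree := natDegree_map_le

lemma nuq_le {pr : Bool} {g : ℤ[X]} {p t : ℕ} (hp : p.Prime) (h : nuq pr g p t < Aq pr p) :
    nuq pr g p t ≤ g.natDegree := by
  classical
  have : Fact p.Prime := ⟨hp⟩
  have hev : ∀ a : ℕ, (g.map (Int.castRingHom (ZMod p))).eval (a : ZMod p) = (t : ZMod p) ↔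
      (p : ℤ) ∣ g.eval (a : ℤ) - t := by
    intro a
    have h1 := eval_intCast_map (Int.castRingHom (ZMod p)) g (a : ℤ)
    simp only [Int.cast_natCast, eq_intCast] at h1
    rw [h1, ← ZMod.intCast_zmod_eq_zero_iff_dvd]
    push_cast
    rw [sub_eq_zero]
  have hinj : Set.InjOn (fun a : ℕ => (a : ZMod p)) (range p : Finset ℕ) := by
    intro a ha b hb hab
    rw [coe_range, Set.mem_Iio] at ha hb
    have h1 := (ZMod.natCast_eq_natCast_iff' a b p).1 hab
    rwa [Nat.mod_eq_of_lt ha, Nat.mod_eq_of_lt hb] at h1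
  have hne : g.map (Int.castRingHom (ZMod p)) ≠ C (t : ZMod p) := by
    intro hC
    apply h.ne
    have hall : ∀ a : ℕ, (p : ℤ) ∣ g.eval (a : ℤ) - t := by
      intro a
      rw [← hev, hC, eval_C]
    unfold nuq Aq
    cases pr with
    | false => simp [hall]
    | true =>
      have e : (range p).filter (fun a => ((true : Bool) = true → ¬ p ∣ a) ∧
          (p : ℤ) ∣ g.eval (a : ℤ) - t) = (range p).erase 0 := by
        ext a
        simp only [mem_filter, mem_range, mem_erase, forall_const, hall, and_true]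
        constructor
        · rintro ⟨h1, h2⟩
          exact ⟨by rintro rfl; exact h2 (dvd_zero p), h1⟩
        · rintro ⟨h1, h2⟩
          exact ⟨h2, fun h3 => h1 (Nat.eq_zero_of_dvd_of_lt h3 h2)⟩
      rw [e, card_erase_of_mem (mem_range.2 hp.pos), card_range, if_pos rfl]
  have h1 : nuq pr g p t = (((range p).filter (fun a => (pr = true → ¬ p ∣ a) ∧
      (p : ℤ) ∣ g.eval (a : ℤ) - t)).image (fun a : ℕ => (a : ZMod p))).card := by
    rw [card_image_of_injOn]
    · unfold nuq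
      congr
    · refine hinj.mono ?_
      exact_mod_cast filter_subset _ _
  rw [h1]
  refine card_roots_le hp g (t : ZMod p) _ ?_ hne
  intro a ha
  rw [mem_image] at ha
  obtain ⟨b, hb, rfl⟩ := ha
  rw [mem_filter] at hb
  exact (hev b).2 hb.2.2

theorem mq_le (pr : Bool) (g : ℤ[X]) (p : ℕ) (hp : p.Prime) : mq pr g p ≤ g.natDegree := by
  classical
  unfold mq
  refine Finset.sup_le fun t ht => ?_
  rw [mem_filter] at ht
  exact nuq_le hp ht.2

theorem mq_lt (pr : Bool) (g : ℤ[X]) (p : ℕ) (hp : p.Prime) : mq pr g p < Aq pr p := by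
  classical
  have hA : 0 < Aq pr p := by
    unfold Aq
    have := hp.two_le
    split_ifs <;> omega
  unfold mq
  rw [Finset.sup_lt_iff (by exact hA)]
  intro t ht
  exact (mem_filter.1 ht).2

/-! ### the product formula -/

/-- value of `g` in a ring -/
noncomputable def ev (R : Type) [CommRing R] (g : ℤ[X]) (a : R) : R :=
  (g.map (Int.castRingHom R)).eval a

lemma ev_hom {R S : Type} [CommRing R] [CommRing S] (f : R →+* S) (g : ℤ[X]) (a : R) :
    f (ev R g a) = ev S g (f a) := by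
  unfold ev
  rw [eval_map, eval_map, hom_eval₂]
  congr 1
  exact RingHom.ext_int _ _

variable (pr : Bool) (g : ℤ[X]) (σ : ℤ)

/-- the number of arguments -/
noncomputable def A (R : Type) [CommRing R] : ℕ := Nat.card {a : R // pr = true → IsUnit a}

/-- the number of arguments giving units -/
noncomputable def U (R : Type) [CommRing R] (t : R) : ℕ :=
  Nat.card {a : R // (pr = true → IsUnit a) ∧ IsUnit (t + (σ : R) * ev R g a)}

/-- the sum of the inverses -/
noncomputable def SS (R : Type) [CommRing R] : ℝ := ∑ᶠ t : R, ((U pr g σ R t : ℕ) : ℝ)⁻¹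

lemma A_congr {R S : Type} [CommRing R] [CommRing S] (e : R ≃+* S) : A pr S = A pr R := by
  unfold A
  refine (Nat.card_congr (e.toEquiv.subtypeEquiv fun a => ?_)).symm
  have h1 : IsUnit (e a) ↔ IsUnit a := MulEquiv.isUnit_map e
  show _ ↔ (pr = true → IsUnit (e a))
  rw [h1]

lemma U_congr {R S : Type} [CommRing R] [CommRing S] (e : R ≃+* S) (t : R) :
    U pr g σ S (e t) = U pr g σ R t := by
  unfold U
  refine (Nat.card_congr ?_).symm
  refine e.toEquiv.subtypeEquiv fun a => ?_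
  have h1 : IsUnit (e a) ↔ IsUnit a := MulEquiv.isUnit_map e
  have h2 : IsUnit (e (t + (σ : R) * ev R g a)) ↔ IsUnit (t + (σ : R) * ev R g a) :=
    MulEquiv.isUnit_map e
  have h3 : e (t + (σ : R) * ev R g a) = e t + (σ : S) * ev S g (e a) := by
    rw [map_add, map_mul, map_intCast]
    congr 2
    exact ev_hom (e : R →+* S) g a
  show _ ↔ (pr = true → IsUnit (e a)) ∧ IsUnit (e t + (σ : S) * ev S g (e a))
  rw [← h3, h1, h2]

lemma SS_congr {R S : Type} [CommRing R] [CommRing S] (e : R ≃+* S) :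
    SS pr g σ R = SS pr g σ S := by
  unfold SS
  rw [← finsum_comp_equiv e.toEquiv]
  refine finsum_congr fun t => ?_
  show _ = ((U pr g σ S (e t) : ℕ) : ℝ)⁻¹
  rw [U_congr]

lemma A_prod {R S : Type} [CommRing R] [CommRing S] : A pr (R × S) = A pr R * A pr S := by
  unfold A
  rw [← Nat.card_prod]
  refine Nat.card_congr ?_
  refine ⟨fun a => (⟨a.1.1, ?_⟩, ⟨a.1.2, ?_⟩), fun b => ⟨(b.1.1, b.2.1), ?_⟩, ?_, ?_⟩
  · exact fun h => (Prod.isUnit_iff.1 (a.2 h)).1
  · exact fun h => (Prod.isUnit_iff.1 (a.2 h)).2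
  · exact fun h => Prod.isUnit_iff.2 ⟨b.1.2 h, b.2.2 h⟩
  · intro a; rfl
  · intro b; rfl

lemma U_prod {R S : Type} [CommRing R] [CommRing S] (t : R × S) :
    U pr g σ (R × S) t = U pr g σ R t.1 * U pr g σ S t.2 := by
  unfold U
  rw [← Nat.card_prod]
  have h1 : ∀ a : R × S, (t + (σ : R × S) * ev (R × S) g a).1 = t.1 + (σ : R) * ev R g a.1 := by
    intro a
    rw [Prod.fst_add, Prod.fst_mul]
    have e1 : (ev (R × S) g a).1 = ev R g a.1 := ev_hom (RingHom.fst R S) g a
    rw [e1]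
    congr 1
  have h2 : ∀ a : R × S, (t + (σ : R × S) * ev (R × S) g a).2 = t.2 + (σ : S) * ev S g a.2 := by
    intro a
    rw [Prod.snd_add, Prod.snd_mul]
    have e1 : (ev (R × S) g a).2 = ev S g a.2 := ev_hom (RingHom.snd R S) g a
    rw [e1]
    congr 1
  refine Nat.card_congr ?_
  refine ⟨fun a => (⟨a.1.1, ?_⟩, ⟨a.1.2, ?_⟩), fun b => ⟨(b.1.1, b.2.1), ?_⟩, ?_, ?_⟩
  · have h := a.2
    rw [Prod.isUnit_iff, Prod.isUnit_iff, h1, h2] at h
    exact ⟨fun h' => (h.1 h').1, h.2.1⟩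
  · have h := a.2
    rw [Prod.isUnit_iff, Prod.isUnit_iff, h1, h2] at h
    exact ⟨fun h' => (h.1 h').2, h.2.2⟩
  · rw [Prod.isUnit_iff, Prod.isUnit_iff, h1, h2]
    exact ⟨fun h' => ⟨b.1.2.1 h', b.2.2.1 h'⟩, ⟨b.1.2.2, b.2.2.2⟩⟩
  · intro a; rfl
  · intro b; rfl

lemma SS_prod {R S : Type} [CommRing R] [CommRing S] [Fintype R] [Fintype S] :
    SS pr g σ (R × S) = SS pr g σ R * SS pr g σ S := by
  unfold SS
  rw [finsum_eq_sum_of_fintype, finsum_eq_sum_of_fintype, finsum_eq_sum_of_fintype,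
    Fintype.sum_prod_type, Finset.sum_mul_sum]
  refine sum_congr rfl fun x _ => sum_congr rfl fun y _ => ?_
  rw [U_prod]
  push_cast
  rw [mul_inv]

/-- the normalised sum -/
noncomputable def F (n : ℕ) : ℝ :=
  (A pr (ZMod n) : ℝ) * (Nat.totient n : ℝ) * SS pr g σ (ZMod n) / (n : ℝ) ^ 2

lemma F_mul {m n : ℕ} (hm : m ≠ 0) (hn : n ≠ 0) (h : m.Coprime n) :
    F pr g σ (m * n) = F pr g σ m * F pr g σ n := by
  have i1 : NeZero m := ⟨hm⟩
  have i2 : NeZero n := ⟨hn⟩
  unfold F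
  rw [SS_congr pr g σ (ZMod.chineseRemainder h), SS_prod, ← A_congr pr (ZMod.chineseRemainder h),
    A_prod, Nat.totient_mul h]
  push_cast
  have h1 : (m : ℝ) ≠ 0 := by exact_mod_cast hm
  have h2 : (n : ℝ) ≠ 0 := by exact_mod_cast hn
  field_simp

lemma F_one : F pr g σ 1 = 1 := by
  have hs : Subsingleton (ZMod 1) := inferInstance
  have hA : A pr (ZMod 1) = 1 := by
    unfold A
    rw [Nat.card_eq_one_iff_unique]
    exact ⟨inferInstance, ⟨⟨0, fun _ => isUnit_of_subsingleton _⟩⟩⟩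
  have hU : ∀ t : ZMod 1, U pr g σ (ZMod 1) t = 1 := by
    intro t
    unfold U
    rw [Nat.card_eq_one_iff_unique]
    exact ⟨inferInstance, ⟨⟨0, fun _ => isUnit_of_subsingleton _, isUnit_of_subsingleton _⟩⟩⟩
  unfold F SS
  rw [finsum_eq_sum_of_fintype]
  simp [hU, hA]

lemma F_nonneg (n : ℕ) : 0 ≤ F pr g σ n := by
  unfold F SS
  have : 0 ≤ ∑ᶠ t : ZMod n, ((U pr g σ (ZMod n) t : ℕ) : ℝ)⁻¹ :=
    finsum_nonneg fun t => by positivity
  positivity

lemma F_finset (s : Finset ℕ) (hs : ∀ p ∈ s, p.Prime) :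
    F pr g σ (∏ p ∈ s, p) = ∏ p ∈ s, F pr g σ p := by
  classical
  induction s using Finset.induction_on with
  | empty => simp [F_one]
  | insert p s hp ih =>
    have h1 : ∀ q ∈ s, q.Prime := fun q hq => hs q (mem_insert_of_mem hq)
    have hpp := hs p (mem_insert_self p s)
    rw [prod_insert hp, prod_insert hp, F_mul pr g σ hpp.ne_zero, ih h1]
    · exact prod_ne_zero_iff.2 fun q hq => (h1 q hq).ne_zero
    · refine Nat.Coprime.prod_right fun q hq => ?_
      rw [Nat.coprime_primes hpp (h1 q hq)]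
      rintro rfl
      exact hp hq

lemma A_prime {p : ℕ} (hp : p.Prime) : A pr (ZMod p) = Aq pr p := by
  classical
  have : Fact p.Prime := ⟨hp⟩
  unfold A Aq
  cases pr with
  | false =>
    rw [Nat.card_eq_fintype_card, Fintype.card_subtype]
    simp [ZMod.card]
  | true =>
    rw [Nat.card_eq_fintype_card, Fintype.card_subtype]
    have e : univ.filter (fun a : ZMod p => (true : Bool) = true → IsUnit a) = univ.erase 0 := by
      ext a
      simp [isUnit_iff_ne_zero]
    rw [e, card_erase_of_mem (mem_univ _), card_univ, ZMod.card, if_pos rfl]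

lemma F_prime {p : ℕ} (hσ : σ = 1 ∨ σ = -1) (hp : p.Prime) :
    F pr g σ p ≤ (if p < 2 * g.natDegree + 2 then (p : ℝ) else 1) *
      (1 + 2 * (g.natDegree : ℝ) * ((p : ℝ) ^ 2)⁻¹) := by
  classical
  have : Fact p.Prime := ⟨hp⟩
  have hp2 := hp.two_le
  have hpR : (2 : ℝ) ≤ p := by exact_mod_cast hp2
  set d := g.natDegree with hd
  have hA := A_prime pr hp
  have hAle : A pr (ZMod p) ≤ p := by
    rw [hA]; unfold Aq; split_ifs <;> omega
  have hAge : p - 1 ≤ A pr (ZMod p) := by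
    rw [hA]; unfold Aq; split_ifs <;> omega
  have hAleR : (A pr (ZMod p) : ℝ) ≤ p := by exact_mod_cast hAle
  have hAgeR : (p : ℝ) - 1 ≤ A pr (ZMod p) := by
    have : ((p - 1 : ℕ) : ℝ) ≤ A pr (ZMod p) := by exact_mod_cast hAge
    rwa [Nat.cast_sub (by omega), Nat.cast_one] at this
  set a : ℝ := (A pr (ZMod p) : ℝ) with ha
  have ha0 : 0 < a := by linarith
  set Arg : Finset (ZMod p) := univ.filter (fun x : ZMod p => pr = true → IsUnit x) with hArg
  have hArgc : Arg.card = A pr (ZMod p) := by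
    unfold A
    rw [Nat.card_eq_fintype_card, Fintype.card_subtype]
  -- the fibres
  set Nf : ZMod p → ℕ := fun τ => (Arg.filter (fun x => ev (ZMod p) g x = τ)).card with hNf
  have hNsum : ∑ τ, Nf τ = A pr (ZMod p) := by
    rw [← hArgc]
    exact (card_eq_sum_card_fiberwise (fun x _ => mem_coe.2 (mem_univ (ev (ZMod p) g x)))).symm
  have hNle : ∀ τ, Nf τ ≤ A pr (ZMod p) := fun τ => by
    rw [← hArgc]; exact card_filter_le _ _
  have hNd : ∀ τ, Nf τ < A pr (ZMod p) → Nf τ ≤ d := by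
    intro τ hτ
    refine card_roots_le hp g τ _ (fun x hx => (mem_filter.1 hx).2) ?_
    intro hC
    apply hτ.ne
    rw [← hArgc]
    simp only [hNf]
    congr 1
    rw [filter_true_of_mem]
    intro x _
    unfold ev
    rw [hC, eval_C]
  -- the values of `U`
  have hσ2 : (σ : ZMod p) * σ = 1 := by
    rcases hσ with rfl | rfl <;> simp
  have hU : ∀ t : ZMod p, U pr g σ (ZMod p) t = A pr (ZMod p) - Nf (-(σ * t)) := by
    intro t
    have e1 : U pr g σ (ZMod p) t =
        (Arg.filter (fun x => ¬ ev (ZMod p) g x = -(σ * t))).card := by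
      unfold U
      rw [Nat.card_eq_fintype_card, Fintype.card_subtype, hArg, filter_filter]
      congr 1
      ext x
      simp only [mem_filter, mem_univ, true_and, and_congr_right_iff]
      intro _
      rw [isUnit_iff_ne_zero, not_iff_not]
      constructor
      · intro h
        have h1 : (σ : ZMod p) * (t + σ * ev (ZMod p) g x) = 0 := by rw [h, mul_zero]
        have h2 : (σ : ZMod p) * (t + σ * ev (ZMod p) g x) =
            σ * t + (σ * σ) * ev (ZMod p) g x := by ring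
        rw [h2, hσ2, one_mul] at h1
        rw [eq_neg_iff_add_eq_zero, add_comm]
        exact h1
      · intro h
        rw [h]
        have h2 : t + (σ : ZMod p) * -(σ * t) = t - (σ * σ) * t := by ring
        rw [h2, hσ2, one_mul, sub_self]
    have e2 := card_filter_add_card_filter_not (s := Arg) (fun x => ev (ZMod p) g x = -(σ * t))
    rw [e1, ← hArgc]
    simp only [hNf]
    omega
  have hSS : SS pr g σ (ZMod p) = ∑ τ : ZMod p, (((A pr (ZMod p) - Nf τ : ℕ) : ℕ) : ℝ)⁻¹ := by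
    unfold SS
    rw [finsum_eq_sum_of_fintype]
    have hinv : Function.Involutive (fun t : ZMod p => -((σ : ZMod p) * t)) := by
      intro t
      show -((σ : ZMod p) * -(σ * t)) = t
      have : -((σ : ZMod p) * -(σ * t)) = (σ * σ) * t := by ring
      rw [this, hσ2, one_mul]
    refine Fintype.sum_equiv hinv.toPerm _ _ fun t => ?_
    rw [hU]
    rfl
  have hφ : (Nat.totient p : ℝ) = p - 1 := by
    rw [Nat.totient_prime hp, Nat.cast_sub (by omega), Nat.cast_one]
  unfold F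
  rw [hφ]
  have hfac : (1 : ℝ) ≤ 1 + 2 * (d : ℝ) * ((p : ℝ) ^ 2)⁻¹ := by
    have : (0 : ℝ) ≤ 2 * (d : ℝ) * ((p : ℝ) ^ 2)⁻¹ := by positivity
    linarith
  split_ifs with hsmall
  · -- small primes
    have h1 : SS pr g σ (ZMod p) ≤ p := by
      rw [hSS]
      calc ∑ τ : ZMod p, (((A pr (ZMod p) - Nf τ : ℕ) : ℕ) : ℝ)⁻¹ ≤ ∑ _τ : ZMod p, (1 : ℝ) := by
            refine sum_le_sum fun τ _ => ?_
            rcases Nat.eq_zero_or_pos (A pr (ZMod p) - Nf τ) with h | h
            · rw [h]; simp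
            · exact inv_le_one_of_one_le₀ (by exact_mod_cast h)
        _ = p := by simp [ZMod.card]
    have h2 : a * ((p : ℝ) - 1) * SS pr g σ (ZMod p) / (p : ℝ) ^ 2 ≤ p := by
      rw [div_le_iff₀ (by positivity)]
      have h0 : 0 ≤ SS pr g σ (ZMod p) := by
        rw [hSS]; exact sum_nonneg fun _ _ => by positivity
      calc a * ((p : ℝ) - 1) * SS pr g σ (ZMod p) ≤ p * p * p := by
            refine mul_le_mul (mul_le_mul hAleR (by linarith) (by linarith) (by linarith)) h1 h0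
              (by positivity)
        _ = p * (p : ℝ) ^ 2 := by ring
    calc _ ≤ (p : ℝ) := h2
      _ = p * 1 := (mul_one _).symm
      _ ≤ _ := mul_le_mul_of_nonneg_left hfac (by positivity)
  · -- large primes
    rw [one_mul]
    have hd2 : 2 * (d : ℝ) ≤ a := by
      have h1 : 2 * d + 2 ≤ p := by omega
      have h2 : (2 : ℝ) * d + 2 ≤ p := by exact_mod_cast h1
      linarith
    have hterm : ∀ τ : ZMod p, a * (((A pr (ZMod p) - Nf τ : ℕ) : ℕ) : ℝ)⁻¹ ≤
        1 + ((Nf τ : ℝ) / a) * (1 + 2 * (d : ℝ) / a) := by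
      intro τ
      rcases lt_or_eq_of_le (hNle τ) with h | h
      · have hN := hNd τ h
        have hNR : (Nf τ : ℝ) ≤ d := by exact_mod_cast hN
        have hNa : (Nf τ : ℝ) < a := by rw [ha]; exact_mod_cast h
        rw [Nat.cast_sub h.le, ← ha, ← div_eq_mul_inv, div_le_iff₀ (by linarith)]
        have hN0 : (0 : ℝ) ≤ Nf τ := Nat.cast_nonneg _
        set x : ℝ := (Nf τ : ℝ) / a with hx
        have hxa : (Nf τ : ℝ) = x * a := by rw [hx]; field_simp
        have hx0 : 0 ≤ x := div_nonneg hN0 ha0.le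
        have hxd : x ≤ (d : ℝ) / a := by rw [hx]; gcongr
        have hx2 : x ≤ 1 / 2 := by
          refine hxd.trans ?_
          rw [div_le_div_iff₀ ha0 (by norm_num)]
          linarith
        rw [hxa]
        have e1 : (1 + x * (1 + 2 * (d : ℝ) / a)) * (a - x * a) =
            a * ((1 + x * (1 + 2 * ((d : ℝ) / a))) * (1 - x)) := by ring
        rw [e1]
        have h3 : 1 ≤ (1 + x * (1 + 2 * x)) * (1 - x) := by nlinarith [mul_nonneg hx0 hx0]
        have h4 : (1 + x * (1 + 2 * x)) * (1 - x) ≤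
            (1 + x * (1 + 2 * ((d : ℝ) / a))) * (1 - x) := by
          refine mul_le_mul_of_nonneg_right ?_ (by linarith)
          have := mul_le_mul_of_nonneg_left hxd hx0
          linarith
        nlinarith
      · rw [h, Nat.sub_self, Nat.cast_zero, inv_zero, mul_zero]
        positivity
    have hsum : a * SS pr g σ (ZMod p) ≤ p + (1 + 2 * (d : ℝ) / a) := by
      rw [hSS, mul_sum]
      calc _ ≤ ∑ τ : ZMod p, (1 + ((Nf τ : ℝ) / a) * (1 + 2 * (d : ℝ) / a)) :=
            sum_le_sum fun τ _ => hterm τ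
        _ = p + (1 + 2 * (d : ℝ) / a) := by
            rw [sum_add_distrib, ← sum_mul, ← sum_div]
            have e2 : ∑ τ : ZMod p, (Nf τ : ℝ) = a := by
              rw [ha, ← hNsum]; push_cast; rfl
            rw [e2, div_self ha0.ne']
            simp [ZMod.card]
    have hda : ((p : ℝ) - 1) * (2 * (d : ℝ) / a) ≤ 2 * d := by
      rw [mul_div_assoc', div_le_iff₀ ha0]
      have : (0 : ℝ) ≤ 2 * d := by positivity
      nlinarith
    have e3 : a * ((p : ℝ) - 1) * SS pr g σ (ZMod p) / (p : ℝ) ^ 2 =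
        (a * SS pr g σ (ZMod p)) * ((p : ℝ) - 1) / (p : ℝ) ^ 2 := by ring
    rw [e3, div_le_iff₀ (by positivity)]
    have e4 : (1 + 2 * (d : ℝ) * ((p : ℝ) ^ 2)⁻¹) * (p : ℝ) ^ 2 = (p : ℝ) ^ 2 + 2 * d := by
      field_simp
    rw [e4]
    have h5 := mul_le_mul_of_nonneg_right hsum (by linarith : (0 : ℝ) ≤ (p : ℝ) - 1)
    nlinarith

lemma F_Wp (hσ : σ = 1 ∨ σ = -1) (w : ℕ) :
    F pr g σ (Wp w) ≤ ((2 * g.natDegree + 1).factorial : ℝ) *
      Real.exp (2 * (g.natDegree : ℝ)) := by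
  classical
  have hpz : ∀ p ∈ pz w, p.Prime := fun p hp => (mem_filter.1 hp).2
  have h1 : F pr g σ (Wp w) = ∏ p ∈ pz w, F pr g σ p := F_finset pr g σ _ hpz
  rw [h1]
  set d := g.natDegree with hd
  have h2 : ∏ p ∈ pz w, F pr g σ p ≤ ∏ p ∈ pz w, ((if p < 2 * d + 2 then (p : ℝ) else 1) *
      (1 + 2 * (d : ℝ) * ((p : ℝ) ^ 2)⁻¹)) :=
    prod_le_prod (fun p _ => F_nonneg pr g σ p) fun p hp => F_prime pr g σ hσ (hpz p hp)
  refine h2.trans ?_
  rw [prod_mul_distrib]
  have h3 : ∏ p ∈ pz w, (if p < 2 * d + 2 then (p : ℝ) else 1) ≤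
      ((2 * d + 1).factorial : ℝ) := by
    rw [← prod_filter]
    have h4 : (∏ p ∈ (pz w).filter (fun p => p < 2 * d + 2), (p : ℝ)) ≤
        ∏ m ∈ Ico 1 (2 * d + 1 + 1), (m : ℝ) := by
      refine prod_le_prod_of_subset_of_one_le ?_ (fun p _ => Nat.cast_nonneg p) ?_
      · intro p hp
        rw [mem_filter] at hp
        have := (hpz p hp.1).one_lt
        rw [mem_Ico]
        omega
      · intro m hm _
        rw [mem_Ico] at hm
        exact_mod_cast hm.1
    refine h4.trans (le_of_eq ?_)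
    rw [← Finset.prod_Ico_id_eq_factorial]
    push_cast
    rfl
  have h5 : ∏ p ∈ pz w, (1 + 2 * (d : ℝ) * ((p : ℝ) ^ 2)⁻¹) ≤ Real.exp (2 * (d : ℝ)) := by
    calc ∏ p ∈ pz w, (1 + 2 * (d : ℝ) * ((p : ℝ) ^ 2)⁻¹) ≤
          ∏ p ∈ pz w, Real.exp (2 * (d : ℝ) * ((p : ℝ) ^ 2)⁻¹) := by
          refine prod_le_prod (fun p _ => by positivity) fun p _ => ?_
          have := Real.add_one_le_exp (2 * (d : ℝ) * ((p : ℝ) ^ 2)⁻¹)
          linarith
      _ = Real.exp (2 * (d : ℝ) * ∑ p ∈ pz w, ((p : ℝ) ^ 2)⁻¹) := by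
          rw [← Real.exp_sum, mul_sum]
      _ ≤ Real.exp (2 * (d : ℝ)) := by
          rw [Real.exp_le_exp]
          have h6 : ∑ p ∈ pz w, ((p : ℝ) ^ 2)⁻¹ ≤ 1 := by
            calc ∑ p ∈ pz w, ((p : ℝ) ^ 2)⁻¹ ≤ ∑ p ∈ Ioo 1 (w + 1), ((p : ℝ) ^ 2)⁻¹ := by
                  refine sum_le_sum_of_subset_of_nonneg ?_ fun _ _ _ => by positivity
                  intro p hp
                  have h7 := (hpz p hp).one_lt
                  have h8 := (mem_Icc.1 (mem_filter.1 hp).1).2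
                  rw [mem_Ioo]
                  omega
              _ ≤ 2 / ((1 : ℕ) + 1 : ℝ) := by
                  have := sum_Ioo_inv_sq_le (α := ℝ) 1 (w + 1)
                  simpa using this
              _ = 1 := by norm_num
          have : (0 : ℝ) ≤ 2 * d := by positivity
          nlinarith
  refine mul_le_mul h3 h5 (prod_nonneg fun p _ => by positivity) (by positivity)

lemma card_AA (w : ℕ) : (AA pr w).card = A pr (ZMod (Wp w)) := by
  classical
  unfold AA A
  rw [Nat.card_eq_fintype_card, Fintype.card_subtype]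

lemma card_filt {n : ℕ} [NeZero n] (P Q : ZMod n → Prop) [DecidablePred P] [DecidablePred Q] :
    (((univ : Finset (ZMod n)).filter P).filter Q).card =
      Nat.card {a : ZMod n // P a ∧ Q a} := by
  classical
  rw [Nat.card_eq_fintype_card, Fintype.card_subtype, filter_filter]

lemma wtq_eq (w : ℕ) (t : ZMod (Wp w)) :
    wtq pr g σ w t = ((U pr g σ (ZMod (Wp w)) t : ℕ) : ℝ) / A pr (ZMod (Wp w)) := by
  classical
  unfold wtq
  rw [card_AA]
  congr 2
  exact card_filt (fun a : ZMod (Wp w) => pr = true → IsUnit a) (fun a => gd g σ w t a)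

theorem stWLq (pr : Bool) (g : ℤ[X]) (σ : ℤ) (hσ : σ = 1 ∨ σ = -1) : StWLq pr g σ := by
  classical
  set C₀ : ℝ := ((2 * g.natDegree + 1).factorial : ℝ) * Real.exp (2 * (g.natDegree : ℝ)) with hC₀
  have hC0 : 0 < C₀ := by
    have : (0 : ℝ) < ((2 * g.natDegree + 1).factorial : ℝ) := by
      exact_mod_cast Nat.factorial_pos _
    positivity
  refine ⟨C₀⁻¹, inv_pos.2 hC0, ?_⟩
  intro w e he0 he1 hez
  have hW : (0 : ℝ) < Wp w := by exact_mod_cast Wp_pos w
  have hφ : (0 : ℝ) < Nat.totient (Wp w) := by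
    exact_mod_cast Nat.totient_pos.2 (Wp_pos w)
  set φ : ℝ := ((Nat.totient (Wp w) : ℕ) : ℝ) with hφdef
  have hwt0 : ∀ t, 0 ≤ wtq pr g σ w t := fun t => by rw [wtq_eq]; positivity
  have hF := F_Wp pr g σ hσ w
  rw [← hC₀] at hF
  unfold F SS at hF
  rw [finsum_eq_sum_of_fintype, div_le_iff₀ (by positivity)] at hF
  have hsum : ∑ t : ZMod (Wp w), (wtq pr g σ w t)⁻¹ ≤ C₀ * (Wp w : ℝ) ^ 2 / φ := by
    have e1 : ∀ t : ZMod (Wp w), (wtq pr g σ w t)⁻¹ =
        (A pr (ZMod (Wp w)) : ℝ) * ((U pr g σ (ZMod (Wp w)) t : ℕ) : ℝ)⁻¹ := by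
      intro t
      rw [wtq_eq, inv_div, div_eq_mul_inv]
    simp only [e1]
    rw [← mul_sum, le_div_iff₀ hφ]
    calc ((A pr (ZMod (Wp w)) : ℝ) * ∑ t : ZMod (Wp w),
          ((U pr g σ (ZMod (Wp w)) t : ℕ) : ℝ)⁻¹) * φ
        = (A pr (ZMod (Wp w)) : ℝ) * φ * ∑ t : ZMod (Wp w),
          ((U pr g σ (ZMod (Wp w)) t : ℕ) : ℝ)⁻¹ := by ring
      _ ≤ _ := hF
  have hcs : (∑ t, e t) ^ 2 ≤ (∑ t, e t * wtq pr g σ w t) * ∑ t, (wtq pr g σ w t)⁻¹ := by
    have h1 := Finset.sum_mul_sq_le_sq_mul_sq univ (fun t => √(e t * wtq pr g σ w t))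
      (fun t => √(e t * (wtq pr g σ w t)⁻¹))
    have h2 : ∀ t, √(e t * wtq pr g σ w t) * √(e t * (wtq pr g σ w t)⁻¹) = e t := by
      intro t
      rw [← Real.sqrt_mul (mul_nonneg (he0 t) (hwt0 t))]
      by_cases hz : wtq pr g σ w t = 0
      · rw [hez t hz]; simp
      · have h3 : e t * wtq pr g σ w t * (e t * (wtq pr g σ w t)⁻¹) = e t ^ 2 := by field_simp
        rw [h3, Real.sqrt_sq (he0 t)]
    have h3 : ∀ t, √(e t * wtq pr g σ w t) ^ 2 = e t * wtq pr g σ w t := fun t =>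
      Real.sq_sqrt (mul_nonneg (he0 t) (hwt0 t))
    have h4 : ∀ t, √(e t * (wtq pr g σ w t)⁻¹) ^ 2 = e t * (wtq pr g σ w t)⁻¹ := fun t =>
      Real.sq_sqrt (mul_nonneg (he0 t) (inv_nonneg.2 (hwt0 t)))
    simp only [h2, h3, h4] at h1
    refine h1.trans ?_
    have h5 : 0 ≤ ∑ t, e t * wtq pr g σ w t :=
      sum_nonneg fun t _ => mul_nonneg (he0 t) (hwt0 t)
    refine mul_le_mul_of_nonneg_left ?_ h5
    refine sum_le_sum fun t _ => ?_
    calc e t * (wtq pr g σ w t)⁻¹ ≤ 1 * (wtq pr g σ w t)⁻¹ :=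
          mul_le_mul_of_nonneg_right (he1 t) (inv_nonneg.2 (hwt0 t))
      _ = _ := one_mul _
  have h5 : 0 ≤ ∑ t, e t * wtq pr g σ w t := sum_nonneg fun t _ => mul_nonneg (he0 t) (hwt0 t)
  rw [inv_mul_le_iff₀ hC0, div_pow, mul_div_assoc', div_le_div_iff₀ (by positivity) hφ]
  calc (∑ t, e t) ^ 2 * φ ≤ ((∑ t, e t * wtq pr g σ w t) * ∑ t, (wtq pr g σ w t)⁻¹) * φ := by
        gcongr
    _ ≤ ((∑ t, e t * wtq pr g σ w t) * (C₀ * (Wp w : ℝ) ^ 2 / φ)) * φ := by gcongr
    _ = _ := by field_simp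

end Pool.Agent.TH914.J2922
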