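import Mathlib
import Pool.Agent.TH881.RQ.Defs2
import Pool.Agent.TH881.Asy
import Pool.Agent.TH914.J2922

/-! Job 2925: the local constants for squares and for quadratic polynomials at the primes. -/

set_option autoImplicit false

namespace Pool.Agent.TH914.J2925

open Finset Filter Topology Polynomial
open Pool.Agent.TH881
open Pool.Agent.TH881.RG
open Pool.Agent.TH881.RQ
open Pool.Agent.H373R2.T7
open Pool.Agent.TH914.J2922 (mq_le mq_lt)

/-! ### products over primes -/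

lemma prod_lim (n0 : ℕ) (f : ℕ → ℝ) (hf : ∀ m, n0 ≤ m → 0 ≤ f m ∧ f m ≤ 1) :
    Tendsto (fun z : ℕ => ∏ p ∈ (Icc n0 z).filter Nat.Prime, f p) atTop
      (𝓝 (⨅ z : ℕ, ∏ p ∈ (Icc n0 z).filter Nat.Prime, f p)) := by
  refine tendsto_atTop_ciInf (antitone_nat_of_succ_le fun z => ?_) ⟨0, ?_⟩
  · have hsub : (Icc n0 z).filter Nat.Prime ⊆ (Icc n0 (z + 1)).filter Nat.Prime := by
      intro p hp
      rw [mem_filter, mem_Icc] at hp ⊢
      exact ⟨⟨hp.1.1, by omega⟩, hp.2⟩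
    rw [← prod_sdiff hsub]
    have h2 : ∏ m ∈ (Icc n0 (z + 1)).filter Nat.Prime \ (Icc n0 z).filter Nat.Prime, f m ≤ 1 := by
      refine prod_le_one (fun m hm => ?_) (fun m hm => ?_)
      · exact (hf m (mem_Icc.1 (mem_filter.1 (mem_sdiff.1 hm).1).1).1).1
      · exact (hf m (mem_Icc.1 (mem_filter.1 (mem_sdiff.1 hm).1).1).1).2
    have h3 : 0 ≤ ∏ m ∈ (Icc n0 z).filter Nat.Prime, f m :=
      prod_nonneg fun m hm => (hf m (mem_Icc.1 (mem_filter.1 hm).1).1).1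
    calc _ ≤ 1 * ∏ m ∈ (Icc n0 z).filter Nat.Prime, f m := mul_le_mul_of_nonneg_right h2 h3
      _ = _ := one_mul _
  · rintro _ ⟨y, rfl⟩
    exact prod_nonneg fun m hm => (hf m (mem_Icc.1 (mem_filter.1 hm).1).1).1

lemma Vz_log : Tendsto (fun w : ℕ => Vz w * Real.log w) atTop
    (𝓝 (Real.exp (-Real.eulerMascheroniConstant))) := by
  refine mert'.congr fun w => ?_
  have h1 := Gam_mul_Vz w
  have h2 : Gam 1 w ≠ 0 := by
    intro h
    rw [h, zero_mul] at h1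
    exact zero_ne_one h1
  rw [div_eq_iff h2]
  calc Real.log w = (Gam 1 w * Vz w) * Real.log w := by rw [h1, one_mul]
    _ = _ := by ring

lemma pz_three {w : ℕ} (hw : 2 ≤ w) (f : ℕ → ℝ) :
    ∏ p ∈ pz w, f p = f 2 * ∏ p ∈ (Icc 3 w).filter Nat.Prime, f p := by
  have h2 : 2 ∈ pz w := by
    unfold pz
    rw [mem_filter, mem_Icc]
    exact ⟨⟨by norm_num, hw⟩, Nat.prime_two⟩
  have he : (pz w).erase 2 = (Icc 3 w).filter Nat.Prime := by
    ext p
    unfold pz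
    rw [mem_erase, mem_filter, mem_Icc, mem_filter, mem_Icc]
    constructor
    · rintro ⟨h1, h3, h4⟩
      have := h4.two_le
      exact ⟨⟨by omega, h3.2⟩, h4⟩
    · rintro ⟨⟨h1, h2⟩, h3⟩
      exact ⟨by omega, ⟨by omega, h2⟩, h3⟩
  rw [← mul_prod_erase _ _ h2, he]

lemma pz_five {w : ℕ} (hw : 3 ≤ w) (f : ℕ → ℝ) :
    ∏ p ∈ pz w, f p = f 2 * (f 3 * ∏ p ∈ (Icc 5 w).filter Nat.Prime, f p) := by
  rw [pz_three (by omega)]
  congr 1
  have h3 : 3 ∈ (Icc 3 w).filter Nat.Prime := by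
    rw [mem_filter, mem_Icc]
    exact ⟨⟨le_rfl, hw⟩, Nat.prime_three⟩
  have he : ((Icc 3 w).filter Nat.Prime).erase 3 = (Icc 5 w).filter Nat.Prime := by
    ext p
    rw [mem_erase, mem_filter, mem_Icc, mem_filter, mem_Icc]
    constructor
    · rintro ⟨h1, h3, h4⟩
      have h5 : p ≠ 4 := by
        rintro rfl
        exact absurd h4 (by norm_num)
      exact ⟨⟨by omega, h3.2⟩, h4⟩
    · rintro ⟨⟨h1, h2⟩, h3⟩
      exact ⟨by omega, ⟨by omega, h2⟩, h3⟩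
  rw [← mul_prod_erase _ _ h3, he]

/-! ### the numbers `mq` -/

lemma card_args (pr : Bool) {p : ℕ} (hp : p.Prime) :
    ((range p).filter (fun a => pr = true → ¬ p ∣ a)).card = Aq pr p := by
  unfold Aq
  cases pr with
  | false => simp
  | true =>
    have e : (range p).filter (fun a => (true : Bool) = true → ¬ p ∣ a) = (range p).erase 0 := by
      ext a
      simp only [mem_filter, mem_range, mem_erase, forall_const]
      constructor
      · rintro ⟨h1, h2⟩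
        exact ⟨by rintro rfl; exact h2 (dvd_zero p), h1⟩
      · rintro ⟨h1, h2⟩
        exact ⟨h2, fun h3 => h1 (Nat.eq_zero_of_dvd_of_lt h3 h2)⟩
    rw [e, card_erase_of_mem (mem_range.2 hp.pos), card_range, if_pos rfl]

lemma nuq_lt {pr : Bool} {g : ℤ[X]} {p t : ℕ} (hp : p.Prime) (a : ℕ) (ha : a < p)
    (h1 : pr = true → ¬ p ∣ a) (h2 : ¬ (p : ℤ) ∣ g.eval (a : ℤ) - t) :
    nuq pr g p t < Aq pr p := by
  classical
  rw [← card_args pr hp]
  unfold nuq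
  apply card_lt_card
  rw [Finset.ssubset_iff_of_subset]
  · refine ⟨a, ?_, ?_⟩
    · rw [mem_filter, mem_range]
      exact ⟨ha, h1⟩
    · rw [mem_filter]
      exact fun h => h2 h.2.2
  · intro x hx
    rw [mem_filter] at hx ⊢
    exact ⟨hx.1, hx.2.1⟩

lemma two_le_nuq {pr : Bool} {g : ℤ[X]} {p t : ℕ} {a b : ℕ} (ha : a < p) (hb : b < p)
    (hab : a ≠ b) (h1 : pr = true → ¬ p ∣ a) (h1' : pr = true → ¬ p ∣ b)
    (h2 : (p : ℤ) ∣ g.eval (a : ℤ) - t) (h2' : (p : ℤ) ∣ g.eval (b : ℤ) - t) :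
    2 ≤ nuq pr g p t := by
  classical
  unfold nuq
  refine Finset.one_lt_card.2 ⟨a, ?_, b, ?_, hab⟩
  · rw [mem_filter, mem_range]
    exact ⟨ha, h1, h2⟩
  · rw [mem_filter, mem_range]
    exact ⟨hb, h1', h2'⟩

lemma one_le_nuq {pr : Bool} {g : ℤ[X]} {p t : ℕ} {a : ℕ} (ha : a < p)
    (h1 : pr = true → ¬ p ∣ a) (h2 : (p : ℤ) ∣ g.eval (a : ℤ) - t) : 1 ≤ nuq pr g p t := by
  classical
  unfold nuq
  refine Finset.card_pos.2 ⟨a, ?_⟩
  rw [mem_filter, mem_range]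
  exact ⟨ha, h1, h2⟩

lemma le_mq {pr : Bool} {g : ℤ[X]} {p t : ℕ} (ht : t < p) (h : nuq pr g p t < Aq pr p) :
    nuq pr g p t ≤ mq pr g p := by
  classical
  unfold mq
  refine Finset.le_sup (f := nuq pr g p) ?_
  rw [mem_filter, mem_range]
  exact ⟨ht, h⟩

lemma mq_sq_two : mq false (X ^ 2 : ℤ[X]) 2 = 1 := by
  have h1 := mq_lt false (X ^ 2 : ℤ[X]) 2 Nat.prime_two
  have h2 : Aq false 2 = 2 := by simp [Aq]
  have h3 : nuq false (X ^ 2 : ℤ[X]) 2 0 < Aq false 2 :=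
    nuq_lt Nat.prime_two 1 (by norm_num) (by simp) (by norm_num)
  have h4 := le_mq (by norm_num) h3
  have h5 : 1 ≤ nuq false (X ^ 2 : ℤ[X]) 2 0 :=
    one_le_nuq (a := 0) (by norm_num) (by simp) (by norm_num)
  omega

lemma mq_sq {p : ℕ} (hp : p.Prime) (h3 : 3 ≤ p) : mq false (X ^ 2 : ℤ[X]) p = 2 := by
  have h1 := mq_le false (X ^ 2 : ℤ[X]) p hp
  rw [natDegree_X_pow] at h1
  have h4 : nuq false (X ^ 2 : ℤ[X]) p 1 < Aq false p := by
    refine nuq_lt hp 0 hp.pos (by simp) ?_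
    simp only [eval_pow, eval_X]
    intro h
    have h5 : (p : ℤ) ∣ 1 := by
      have := h.neg_right
      simpa using this
    have := Int.le_of_dvd (by norm_num) h5
    omega
  have h5 := le_mq (by omega) h4
  have h6 : 2 ≤ nuq false (X ^ 2 : ℤ[X]) p 1 := by
    refine two_le_nuq (a := 1) (b := p - 1) (by omega) (by omega) (by omega) (by simp) (by simp)
      ?_ ?_
    · simp
    · simp only [eval_pow, eval_X]
      refine ⟨(p : ℤ) - 2, ?_⟩
      rw [Nat.cast_sub (by omega)]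
      push_cast
      ring
  omega

lemma ex_rep {p : ℕ} (hp : 0 < p) (z : ℤ) : ∃ t : ℕ, t < p ∧ (p : ℤ) ∣ z - t := by
  refine ⟨(z % p).toNat, ?_, ?_⟩
  · have h1 := Int.emod_lt_of_pos z (by exact_mod_cast hp : (0 : ℤ) < p)
    have h2 := Int.emod_nonneg z (by exact_mod_cast hp.ne' : (p : ℤ) ≠ 0)
    omega
  · have h2 := Int.emod_nonneg z (by exact_mod_cast hp.ne' : (p : ℤ) ≠ 0)
    rw [Int.toNat_of_nonneg h2]
    exact Int.dvd_self_sub_emod

lemma evalQ (b c : ℤ) (x : ℤ) :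
    (X ^ 2 + C b * X + C c : ℤ[X]).eval x = x ^ 2 + b * x + c := by
  simp

lemma mqQ_two (g : ℤ[X]) : mq true g 2 = 0 := by
  have h1 := mq_lt true g 2 Nat.prime_two
  have h2 : Aq true 2 = 1 := by simp [Aq]
  omega

lemma mqQ_three (b c : ℤ) (h3 : ¬ (3 : ℤ) ∣ b) :
    mq true (X ^ 2 + C b * X + C c : ℤ[X]) 3 = 1 := by
  have h1 := mq_lt true (X ^ 2 + C b * X + C c : ℤ[X]) 3 Nat.prime_three
  have h2 : Aq true 3 = 2 := by simp [Aq]
  obtain ⟨t, ht, hdt⟩ := ex_rep (p := 3) (by norm_num)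
    ((X ^ 2 + C b * X + C c : ℤ[X]).eval ((1 : ℕ) : ℤ))
  have h4 : nuq true (X ^ 2 + C b * X + C c : ℤ[X]) 3 t < Aq true 3 := by
    refine nuq_lt Nat.prime_three 2 (by norm_num) (by norm_num) ?_
    rw [evalQ] at hdt ⊢
    intro h
    apply h3
    obtain ⟨x1, hx1⟩ := hdt
    obtain ⟨x2, hx2⟩ := h
    push_cast at hx1 hx2
    exact ⟨x2 - x1 - 1, by linarith⟩
  have h5 := le_mq ht h4
  have h6 : 1 ≤ nuq true (X ^ 2 + C b * X + C c : ℤ[X]) 3 t :=
    one_le_nuq (a := 1) (by norm_num) (by norm_num) hdt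
  omega

lemma mqQ {p : ℕ} (hp : p.Prime) (h5 : 5 ≤ p) (b c : ℤ) :
    mq true (X ^ 2 + C b * X + C c : ℤ[X]) p = 2 := by
  set g : ℤ[X] := X ^ 2 + C b * X + C c with hg
  have h1 : mq true g p ≤ 2 := by
    refine (mq_le true g p hp).trans ?_
    rw [hg]
    compute_degree
  have hsm : ∀ k : ℤ, 0 < k → k < 5 → ¬ (p : ℤ) ∣ k := by
    intro k hk hk5 h
    have := Int.le_of_dvd hk h
    omega
  have hev : ∀ x : ℤ, g.eval x = x ^ 2 + b * x + c := evalQ b c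
  -- choice of the argument
  obtain ⟨a, ha1, ha3, hab, hab2⟩ : ∃ a : ℕ, 1 ≤ a ∧ a ≤ 3 ∧ ¬ (p : ℤ) ∣ a + b ∧
      ¬ (p : ℤ) ∣ 2 * a + b := by
    by_contra hcon
    push Not at hcon
    have c1 := hcon 1 le_rfl (by norm_num)
    have c2 := hcon 2 (by norm_num) (by norm_num)
    have c3 := hcon 3 (by norm_num) le_rfl
    push_cast at c1 c2 c3
    have d1 : (p : ℤ) ∣ 1 + b ∨ (p : ℤ) ∣ 2 * 1 + b := by
      by_cases h : (p : ℤ) ∣ 1 + b
      · exact Or.inl h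
      · exact Or.inr (c1 h)
    have d2 : (p : ℤ) ∣ 2 + b ∨ (p : ℤ) ∣ 2 * 2 + b := by
      by_cases h : (p : ℤ) ∣ 2 + b
      · exact Or.inl h
      · exact Or.inr (c2 h)
    have d3 : (p : ℤ) ∣ 3 + b ∨ (p : ℤ) ∣ 2 * 3 + b := by
      by_cases h : (p : ℤ) ∣ 3 + b
      · exact Or.inl h
      · exact Or.inr (c3 h)
    rcases d1 with d1 | d1 <;> rcases d2 with d2 | d2 <;> rcases d3 with d3 | d3
    · exact hsm 1 (by norm_num) (by norm_num) (by have := dvd_sub d2 d1; ring_nf at this; exact this)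
    · exact hsm 1 (by norm_num) (by norm_num) (by have := dvd_sub d2 d1; ring_nf at this; exact this)
    · exact hsm 2 (by norm_num) (by norm_num) (by have := dvd_sub d3 d1; ring_nf at this; exact this)
    · exact hsm 2 (by norm_num) (by norm_num) (by have := dvd_sub d3 d2; ring_nf at this; exact this)
    · exact hsm 1 (by norm_num) (by norm_num) (by have := dvd_sub d3 d2; ring_nf at this; exact this)
    · exact hsm 4 (by norm_num) (by norm_num) (by have := dvd_sub d3 d1; ring_nf at this; exact this)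
    · exact hsm 2 (by norm_num) (by norm_num) (by have := dvd_sub d2 d1; ring_nf at this; exact this)
    · exact hsm 2 (by norm_num) (by norm_num) (by have := dvd_sub d2 d1; ring_nf at this; exact this)
  obtain ⟨b', hb', hdb⟩ := ex_rep hp.pos (-b - a)
  obtain ⟨t, ht, hdt⟩ := ex_rep hp.pos (g.eval (a : ℤ))
  have hpa : ∀ x : ℕ, 1 ≤ x → x < p → ¬ p ∣ x := fun x h1 h2 h3 => by
    have := Nat.le_of_dvd h1 h3
    omega
  have hpb : ¬ p ∣ b' := by
    intro h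
    apply hab
    have h6 : (p : ℤ) ∣ b' := by exact_mod_cast h
    have h7 := (dvd_add hdb h6).neg_right
    have e : -(-b - (a : ℤ) - b' + b') = a + b := by ring
    rwa [e] at h7
  have hne : a ≠ b' := by
    rintro rfl
    apply hab2
    have h7 := hdb.neg_right
    have e : -(-b - (a : ℤ) - a) = 2 * a + b := by ring
    rwa [e] at h7
  have hdt' : (p : ℤ) ∣ g.eval (b' : ℤ) - t := by
    have h7 : (p : ℤ) ∣ (b' - a) * (b' + a + b) := by
      refine Dvd.dvd.mul_left ?_ _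
      have h8 := hdb.neg_right
      have e : -(-b - (a : ℤ) - b') = b' + a + b := by ring
      rwa [e] at h8
    have h8 := dvd_add hdt h7
    rw [hev] at h8 ⊢
    have e : (a : ℤ) ^ 2 + b * a + c - t + (b' - a) * (b' + a + b) = b' ^ 2 + b * b' + c - t := by
      ring
    rwa [e] at h8
  have h2 : 2 ≤ nuq true g p t :=
    two_le_nuq (by omega) hb' hne (fun _ => hpa a ha1 (by omega)) (fun _ => hpb) hdt hdt'
  have h4 : nuq true g p t < Aq true p := by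
    by_contra hcon
    have key : ∀ x : ℕ, 1 ≤ x → x < p → (p : ℤ) ∣ g.eval (x : ℤ) - t := by
      intro x hx1 hx2
      by_contra h
      exact hcon (nuq_lt hp x hx2 (fun _ => hpa x hx1 hx2) h)
    have k1 := key 1 le_rfl (by omega)
    have k2 := key 2 (by norm_num) (by omega)
    have k3 := key 3 (by norm_num) (by omega)
    rw [hev] at k1 k2 k3
    push_cast at k1 k2 k3
    have h7 := dvd_sub (dvd_sub k3 k2) (dvd_sub k2 k1)
    ring_nf at h7
    exact hsm 2 (by norm_num) (by norm_num) h7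
  have h6 := le_mq ht h4
  omega

/-! ### squares -/

lemma Phq_sq {w : ℕ} (hw : 2 ≤ w) : Phq (uq false (X ^ 2 : ℤ[X])) w =
    2 * (∏ p ∈ (Icc 3 w).filter Nat.Prime, (1 - 1 / ((p : ℝ) - 1) ^ 2)) * Vz w ^ 2 := by
  unfold Phq Vz
  rw [pz_three hw, pz_three hw]
  have h1 : uq false (X ^ 2 : ℤ[X]) 2 = 1 / 2 := by
    unfold uq
    rw [mq_sq_two]
    simp [Aq]
  have h2 : ∏ p ∈ (Icc 3 w).filter Nat.Prime, (1 - uq false (X ^ 2 : ℤ[X]) p) =
      (∏ p ∈ (Icc 3 w).filter Nat.Prime, (1 - 1 / ((p : ℝ) - 1) ^ 2)) *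
        (∏ p ∈ (Icc 3 w).filter Nat.Prime, (1 - 1 / (p : ℝ))) ^ 2 := by
    rw [← prod_pow, ← prod_mul_distrib]
    refine prod_congr rfl fun p hp => ?_
    rw [mem_filter, mem_Icc] at hp
    have h3 : (3 : ℝ) ≤ p := by exact_mod_cast hp.1.1
    have h4 : (p : ℝ) - 1 ≠ 0 := by linarith
    have h5 : (p : ℝ) ≠ 0 := by linarith
    unfold uq
    rw [mq_sq hp.2 hp.1.1]
    simp only [Aq]
    norm_num
    field_simp
    ring
  rw [h1, h2]
  push_cast
  ring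

theorem lim_sq : Tendsto (fun w : ℕ => Phq (uq false (X ^ 2 : ℤ[X])) w * Real.log w ^ 2) atTop
    (𝓝 (2 * C2 * Real.exp (-Real.eulerMascheroniConstant) ^ 2)) := by
  have h1 := prod_lim 3 (fun p : ℕ => 1 - 1 / ((p : ℝ) - 1) ^ 2) (by
    intro m hm
    have h3 : (3 : ℝ) ≤ m := by exact_mod_cast hm
    have h5 : (2 : ℝ) ≤ m - 1 := by linarith
    have h6 : (1 : ℝ) ≤ ((m : ℝ) - 1) ^ 2 := by nlinarith
    constructor
    · rw [sub_nonneg, div_le_one (by positivity)]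
      exact h6
    · have : 0 ≤ 1 / ((m : ℝ) - 1) ^ 2 := by positivity
      linarith)
  have h2 := (h1.const_mul 2).mul (Vz_log.pow 2)
  refine h2.congr' ?_
  filter_upwards [eventually_ge_atTop 2] with w hw
  rw [Phq_sq hw]
  ring

/-! ### quadratic polynomials at the primes -/

/-- the constant for `f(p₁) + p₂` -/
noncomputable def C3 : ℝ := ⨅ z : ℕ, ∏ p ∈ (Icc 5 z).filter Nat.Prime, (1 - (3 * (p : ℝ) - 1) / ((p : ℝ) - 1) ^ 3)

lemma fac3 (m : ℕ) (hm : 5 ≤ m) : 0 ≤ 1 - (3 * (m : ℝ) - 1) / ((m : ℝ) - 1) ^ 3 ∧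
    1 - (3 * (m : ℝ) - 1) / ((m : ℝ) - 1) ^ 3 ≤ 1 := by
  have h5 : (5 : ℝ) ≤ m := by exact_mod_cast hm
  have h4 : (0 : ℝ) < m - 1 := by linarith
  constructor
  · rw [sub_nonneg, div_le_one (by positivity)]
    nlinarith [mul_nonneg (sq_nonneg (m : ℝ)) (by linarith : (0 : ℝ) ≤ (m : ℝ) - 3)]
  · have : 0 ≤ (3 * (m : ℝ) - 1) / ((m : ℝ) - 1) ^ 3 := div_nonneg (by linarith) (by positivity)
    linarith

lemma PC3_ge (z : ℕ) : 3 / 8 ≤
    ∏ p ∈ (Icc 5 z).filter Nat.Prime, (1 - (3 * (p : ℝ) - 1) / ((p : ℝ) - 1) ^ 3) := by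
  have h1 : ∏ m ∈ Icc 5 z, (1 - (3 * (m : ℝ) - 1) / ((m : ℝ) - 1) ^ 3) ≤
      ∏ p ∈ (Icc 5 z).filter Nat.Prime, (1 - (3 * (p : ℝ) - 1) / ((p : ℝ) - 1) ^ 3) := by
    have hsub : (Icc 5 z).filter Nat.Prime ⊆ Icc 5 z := filter_subset _ _
    rw [← prod_sdiff hsub]
    have h2 : ∏ m ∈ Icc 5 z \ (Icc 5 z).filter Nat.Prime,
        (1 - (3 * (m : ℝ) - 1) / ((m : ℝ) - 1) ^ 3) ≤ 1 := by
      refine prod_le_one (fun m hm => ?_) (fun m hm => ?_)
      · exact (fac3 m (mem_Icc.1 (mem_sdiff.1 hm).1).1).1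
      · exact (fac3 m (mem_Icc.1 (mem_sdiff.1 hm).1).1).2
    have h3 : 0 ≤ ∏ m ∈ (Icc 5 z).filter Nat.Prime,
        (1 - (3 * (m : ℝ) - 1) / ((m : ℝ) - 1) ^ 3) :=
      prod_nonneg fun m hm => (fac3 m (mem_Icc.1 (mem_filter.1 hm).1).1).1
    calc _ ≤ 1 * ∏ m ∈ (Icc 5 z).filter Nat.Prime,
          (1 - (3 * (m : ℝ) - 1) / ((m : ℝ) - 1) ^ 3) := mul_le_mul_of_nonneg_right h2 h3
      _ = _ := one_mul _
  refine le_trans ?_ h1
  have key : ∀ z : ℕ, 4 ≤ z → ∏ m ∈ Icc 5 z, (1 - (3 * (m : ℝ) - 1) / ((m : ℝ) - 1) ^ 3) =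
      3 / 8 * ((z : ℝ) ^ 2 / (((z : ℝ) - 1) * ((z : ℝ) - 2))) := by
    intro z hz
    induction z, hz using Nat.le_induction with
    | base => norm_num
    | succ z hz ih =>
      rw [← insert_Icc_right_eq_Icc_add_one (by omega), prod_insert (by simp), ih]
      have h3 : (4 : ℝ) ≤ z := by exact_mod_cast hz
      have h4 : (z : ℝ) - 1 ≠ 0 := by linarith
      have h5 : (z : ℝ) ≠ 0 := by linarith
      have h6 : (z : ℝ) - 2 ≠ 0 := by linarith
      push_cast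
      have e : (z : ℝ) + 1 - 1 = z := by ring
      have e2 : (z : ℝ) + 1 - 2 = z - 1 := by ring
      rw [e, e2]
      field_simp
      ring
  rcases Nat.lt_or_ge z 4 with h | h
  · have : Icc 5 z = ∅ := by
      rw [Icc_eq_empty]; omega
    rw [this, prod_empty]
    norm_num
  · rw [key z h]
    have h3 : (4 : ℝ) ≤ z := by exact_mod_cast h
    have h4 : (0 : ℝ) < z - 1 := by linarith
    have h5 : (0 : ℝ) < z - 2 := by linarith
    have h6 : 1 ≤ (z : ℝ) ^ 2 / ((z - 1) * (z - 2)) := by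
      rw [le_div_iff₀ (by positivity)]; nlinarith
    linarith

theorem C3_pos : 0 < C3 := by
  have : 3 / 8 ≤ C3 := le_ciInf PC3_ge
  linarith

lemma Phq_quad {w : ℕ} (hw : 3 ≤ w) (b c : ℤ) (h3 : ¬ (3 : ℤ) ∣ b) :
    Phq (uq true (X ^ 2 + C b * X + C c : ℤ[X])) w =
    9 / 2 * (∏ p ∈ (Icc 5 w).filter Nat.Prime, (1 - (3 * (p : ℝ) - 1) / ((p : ℝ) - 1) ^ 3)) *
      Vz w ^ 2 := by
  unfold Phq Vz
  rw [pz_five hw, pz_five hw]
  have h1 : uq true (X ^ 2 + C b * X + C c : ℤ[X]) 2 = 0 := by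
    unfold uq
    rw [mqQ_two]
    simp
  have h1' : uq true (X ^ 2 + C b * X + C c : ℤ[X]) 3 = 1 / 2 := by
    unfold uq
    rw [mqQ_three b c h3]
    simp [Aq]
  have h2 : ∏ p ∈ (Icc 5 w).filter Nat.Prime,
      (1 - uq true (X ^ 2 + C b * X + C c : ℤ[X]) p) =
      (∏ p ∈ (Icc 5 w).filter Nat.Prime, (1 - (3 * (p : ℝ) - 1) / ((p : ℝ) - 1) ^ 3)) *
        (∏ p ∈ (Icc 5 w).filter Nat.Prime, (1 - 1 / (p : ℝ))) ^ 2 := by
    rw [← prod_pow, ← prod_mul_distrib]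
    refine prod_congr rfl fun p hp => ?_
    rw [mem_filter, mem_Icc] at hp
    have h3 : (5 : ℝ) ≤ p := by exact_mod_cast hp.1.1
    have h4 : (p : ℝ) - 1 ≠ 0 := by linarith
    have h5 : (p : ℝ) ≠ 0 := by linarith
    unfold uq
    rw [mqQ hp.2 hp.1.1]
    have e : ((Aq true p : ℕ) : ℝ) = (p : ℝ) - 1 := by
      simp only [Aq, if_true]
      rw [Nat.cast_sub (by omega), Nat.cast_one]
    rw [e]
    push_cast
    field_simp
    ring
  rw [h1, h1', h2]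
  push_cast
  ring

theorem lim_quad (b c : ℤ) (h3 : ¬ (3 : ℤ) ∣ b) (hbc : Odd (b + c)) :
    Tendsto (fun w : ℕ => Phq (uq true (X ^ 2 + C b * X + C c : ℤ[X])) w * Real.log w ^ 2) atTop
    (𝓝 (9 / 2 * C3 * Real.exp (-Real.eulerMascheroniConstant) ^ 2)) := by
  have h1 := prod_lim 5 (fun p : ℕ => 1 - (3 * (p : ℝ) - 1) / ((p : ℝ) - 1) ^ 3) fac3
  have h2 := (h1.const_mul (9 / 2)).mul (Vz_log.pow 2)
  refine h2.congr' ?_
  filter_upwards [eventually_ge_atTop 3] with w hw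
  rw [Phq_quad hw b c h3]
  ring

end Pool.Agent.TH914.J2925
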