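import Mathlib
import Pool.Agent.TH796.AL.Stms
import Pool.Agent.TH932.S2.Rc3

set_option autoImplicit false

/-!
# Numbers of linear complexity are represented, several coprime integers

The chain of digits of `Pool.Agent.TH932.S2.RC` is used for the coprime integers `b` and `b + 1`;
the germs `N / b ^ h` and the character on the axis of `b` are then expressed by the integers
`P i`.
-/

namespace Pool.Agent.TH914.AL

open Filter Topology Pool.Agent.TH932.Abs Pool.Agent.TH932.Germs Pool.Agent.TH932.Chi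
open Pool.Agent.TH932.Words Pool.Agent.TH796.AL

variable {m : ℕ} (B : Base m)

lemma ell_nat_mul {L : ℕ → ℝ} (hL : Tendsto L atTop atTop) (k : ℕ) (s : ℝ) (n : ℕ) :
    ell hL (k * s) n = k * ell hL s n := by
  induction k with
  | zero => simp [ell_zero]
  | succ k ih =>
    push_cast
    rw [add_mul, one_mul, ell_add, ih]
    ring

lemma base_cast {b : ℕ} {e : Fin m → ℕ} (hbe : b = ∏ i, B.P i ^ e i) :
    (b : ℚ) = ∏ i, (B.P i : ℚ) ^ e i := by
  rw [hbe]; push_cast; rfl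

lemma P0 (i : Fin m) : (B.P i : ℚ) ≠ 0 := by
  have := B.two i
  have : B.P i ≠ 0 := by omega
  exact_mod_cast this

/-- the character on the axis of `b` -/
lemma ch_em {b : ℕ} {e : Fin m → ℕ} (hbe : b = ∏ i, B.P i ^ e i) {L : ℕ → ℝ}
    (hL : Tendsto L atTop atTop) {q : ℕ} (hp : 2 ≤ b) (hq : 2 ≤ q) (t : ℝ) :
    Pool.Agent.TH932.S2.ch2 hL hp hq (t, 0) = ch B hL (fun i => e i * t) := by
  rw [Pool.Agent.TH932.S2.ch2_eq, ch_eq, gm_eq]
  have h1 : ∀ᶠ n in (UU : Filter ℕ), ∀ i, ((⌊ell hL (e i * t) n⌋ : ℤ) : ℚ) = ell hL (e i * t) n := by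
    rw [Filter.eventually_all]
    intro i
    exact ev_of_atTop (ell_int hL (e i * t))
  filter_upwards [h1, ev_of_atTop (ell_int hL t)] with n h1 h2
  simp only [ell_zero, Int.floor_zero, neg_zero, zpow_zero, mul_one]
  rw [base_cast B hbe, ← Finset.prod_zpow]
  refine Finset.prod_congr rfl fun i _ => ?_
  rw [← zpow_natCast, ← zpow_mul]
  congr 1
  have h4 : ((e i * ⌊ell hL t n⌋ : ℤ) : ℚ) = ((⌊ell hL (e i * t) n⌋ : ℤ) : ℚ) := by
    rw [h1 i, ell_nat_mul]
    push_cast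
    rw [h2]
  exact_mod_cast h4

lemma ev_single1 {L : ℕ → ℝ} (hL : Tendsto L atTop atTop) (g : Fin m → ℝ) (a : KK L hL) :
    ev B hL (AddMonoidAlgebra.single g a) = (a : GG) * ch B hL g := by
  unfold Pool.Agent.TH796.AL.ev
  change AddMonoidAlgebra.liftNC _ _ _ = _
  rw [AddMonoidAlgebra.liftNC_single]
  rfl

/-- combinations with exponents on the axis -/
lemma transport {b : ℕ} {e : Fin m → ℕ} (hbe : b = ∏ i, B.P i ^ e i) {L : ℕ → ℝ}
    (hL : Tendsto L atTop atTop) {q : ℕ} (hp : 2 ≤ b) (hq : 2 ≤ q)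
    (f : Pool.Agent.TH932.S2.Rg hL) (hf : ∀ g, f.coeff g ≠ 0 → ∃ t : ℝ, g = (t, 0)) :
    ∃ f' : Rg m hL, ev B hL f' = Pool.Agent.TH932.S2.ev2 hL hp hq f := by
  refine ⟨∑ g ∈ f.coeff.support, AddMonoidAlgebra.single (fun i => e i * g.1) (f.coeff g), ?_⟩
  rw [map_sum, Pool.Agent.TH932.S2.ev2_sum]
  refine Finset.sum_congr rfl fun g hg => ?_
  obtain ⟨t, rfl⟩ := hf g (Finsupp.mem_support_iff.1 hg)
  rw [ev_single1, ch_em B hbe hL hp hq]

lemma logP (i : Fin m) : 0 ≤ Real.log (B.P i) :=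
  Real.log_nonneg (by have := B.two i; exact_mod_cast (by omega : 1 ≤ B.P i))

lemma log_le {b : ℕ} {e : Fin m → ℕ} (hbe : b = ∏ i, B.P i ^ e i) (i : Fin m) :
    (e i : ℝ) * Real.log (B.P i) ≤ Real.log b := by
  have h : Real.log b = ∑ j, (e j : ℝ) * Real.log (B.P j) := by
    rw [hbe]
    push_cast
    rw [Real.log_prod]
    · exact Finset.sum_congr rfl fun j _ => Real.log_pow _ _
    · intro j _
      have := B.two j
      have : (B.P j : ℝ) ≠ 0 := by
        have : B.P j ≠ 0 := by omega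
        exact_mod_cast this
      positivity
  rw [h]
  exact Finset.single_le_sum (f := fun j => (e j : ℝ) * Real.log (B.P j))
    (fun j _ => mul_nonneg (Nat.cast_nonneg _) (logP B j)) (Finset.mem_univ i)

section block

variable {b : ℕ} {e : Fin m → ℕ} (hbe : b = ∏ i, B.P i ^ e i) (hb : 2 ≤ b) {L : ℕ → ℝ}
  (hL : Tendsto L atTop atTop) {D : ℝ} (hD : 0 ≤ D) {N : ℕ → ℤ} {h : ℕ → ℕ}
  (hh : ∀ n, (h n : ℝ) * Real.log b ≤ D * L n)
include hbe hb hL hD hh

omit hb hL hD in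
lemma exp_le (i : Fin m) (n : ℕ) : (-D) * L n ≤ ((-(e i * h n : ℕ) : ℤ) : ℝ) * Real.log (B.P i) := by
  have h1 := log_le B hbe i
  have h2 : (h n : ℝ) * ((e i : ℝ) * Real.log (B.P i)) ≤ h n * Real.log b := by gcongr
  have h3 := hh n
  push_cast
  nlinarith

/-- germs of blocks are bounded at all places -/
lemma block_mem (hN : ∀ n, |N n| ≤ (b : ℤ) ^ h n) (v : Option (Fin m)) :
    gm (fun n => (N n : ℚ) / (b : ℚ) ^ h n) ∈ Sv B L v (-D) := by
  classical
  have hbc := base_cast B hbe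
  unfold Sv
  rw [mem_SS]
  intro ε hε
  filter_upwards [L_nonneg hL] with n h1
  have h6 : 0 ≤ ε * L n := by positivity
  have h7 : 0 ≤ D * L n := by positivity
  match v with
  | some i =>
    refine ⟨1, ∏ j ∈ Finset.univ.erase i, (B.P j : ℤ) ^ (e j * h n), N n, -(e i * h n : ℕ),
      one_ne_zero, ?_, ?_, ?_, ?_⟩
    · rw [Int.cast_one, abs_one]
      exact Real.one_le_exp (by positivity)
    · change IsCoprime _ _
      exact IsCoprime.prod_left fun j hj => (B.cop j i (Finset.ne_of_mem_erase hj)).pow_left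
    · have e1 : (b : ℚ) ^ h n = (B.P i : ℚ) ^ (e i * h n) *
          ∏ j ∈ Finset.univ.erase i, (B.P j : ℚ) ^ (e j * h n) := by
        rw [hbc, ← Finset.prod_pow, ← Finset.mul_prod_erase Finset.univ _ (Finset.mem_univ i)]
        congr 1
        · rw [pow_mul]
        · exact Finset.prod_congr rfl fun j _ => by rw [pow_mul]
      have e2 : ∏ j ∈ Finset.univ.erase i, (B.P j : ℚ) ^ (e j * h n) ≠ 0 :=
        Finset.prod_ne_zero_iff.2 fun j _ => pow_ne_zero _ (P0 B j)
      have e3 := P0 B i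
      rw [e1, zpow_neg, zpow_natCast]
      push_cast
      field_simp
    · have := exp_le B hbe hh i n
      nlinarith
  | none =>
    simp only [Rv, Rinf]
    push_cast
    have hb0 : (0 : ℝ) < b := by positivity
    have h2 : |(N n : ℝ)| ≤ (b : ℝ) ^ h n := by exact_mod_cast hN n
    rw [abs_div, abs_of_pos (by positivity : (0 : ℝ) < (b : ℝ) ^ h n)]
    have h3 : |(N n : ℝ)| / (b : ℝ) ^ h n ≤ 1 := by
      rw [div_le_one (by positivity)]; exact h2
    refine h3.trans (Real.one_le_exp ?_)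
    nlinarith

lemma block_sint : Sint B L (gm (fun n => (N n : ℚ) / (b : ℚ) ^ h n)) := by
  have hbc := base_cast B hbe
  refine ⟨-D, ?_⟩
  rw [mem_SS]
  intro ε hε
  filter_upwards [L_nonneg hL] with n h1
  have h6 : 0 ≤ ε * L n := by positivity
  refine ⟨1, N n, fun i => -(e i * h n : ℕ), one_ne_zero, ?_, ?_, ?_⟩
  · rw [Int.cast_one, abs_one]
    exact Real.one_le_exp (by positivity)
  · have e1 : (b : ℚ) ^ h n = ∏ j, (B.P j : ℚ) ^ (e j * h n) := by
      rw [hbc, ← Finset.prod_pow]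
      exact Finset.prod_congr rfl fun j _ => by rw [pow_mul]
    have e2 : ∏ i, (B.P i : ℚ) ^ (-((e i * h n : ℕ) : ℤ)) = ((b : ℚ) ^ h n)⁻¹ := by
      rw [e1, ← Finset.prod_inv_distrib]
      exact Finset.prod_congr rfl fun j _ => by rw [zpow_neg, zpow_natCast]
    rw [e2]
    push_cast
    ring
  · intro i
    have := exp_le B hbe hh i n
    nlinarith

end block

/-- the germs of a chain for an integer `b = ∏ P i ^ e i` -/
theorem rep_RC (X : Pool.Agent.TH932.S2.RC) {e : Fin m → ℕ} (hbe : X.p = ∏ i, B.P i ^ e i)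
    (hbp : X.b = X.p) (hem : X.em = fun t => (-t, 0)) : Rep B X.tL X.x := by
  have hbe' : X.b = ∏ i, B.P i ^ e i := by rw [hbp, hbe]
  have hB := X.B_nonneg
  have hlb := X.logb
  have hlog : ∀ h : ℕ → ℕ, (∀ n, (h n : ℝ) ≤ (X.C + 1) * X.L n) →
      ∀ n, (h n : ℝ) * Real.log X.b ≤ X.B * X.L n := by
    intro h hh n
    have h1 := hh n
    unfold Pool.Agent.TH932.S2.RC.B
    calc (h n : ℝ) * Real.log X.b ≤ (X.C + 1) * X.L n * Real.log X.b := by gcongr
      _ = (X.C + 1) * Real.log X.b * X.L n := by ring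
  have h0 : ∀ n : ℕ, (((fun _ => 0 : ℕ → ℕ) n : ℕ) : ℝ) * Real.log X.b ≤ X.B * X.L n := by
    intro n
    have h2 := X.L1 n
    have : 0 ≤ X.B * X.L n := by positivity
    simpa using this
  have hone : (1 : GG) = gm (fun n => (((fun _ => 1 : ℕ → ℤ) n : ℤ) : ℚ) /
      (X.b : ℚ) ^ ((fun _ => 0 : ℕ → ℕ) n)) := by
    rw [← gm_one]
    congr 1
    funext n
    simp
  refine ⟨Option (Option (Fin (X.R + 1))), inferInstance, X.zf, X.B, ?_, ?_, fun E => ?_⟩
  · intro v j
    match j with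
    | none =>
      change (1 : GG) ∈ _
      rw [hone]
      exact block_mem B hbe' X.hb X.tL hB h0 (fun n => by simp) v
    | some none =>
      exact block_mem B hbe' X.hb X.tL hB (N := fun n => X.Q 0 (X.nx n 0))
        (h := fun n => X.nx n 0 - 0) (hlog _ fun n => by simpa using X.nx0_le n)
        (fun n => X.Q_abs (Nat.zero_le _)) v
    | some (some s) =>
      exact block_mem B hbe' X.hb X.tL hB (hlog _ fun n => X.len_le n s)
        (fun n => X.Qs_le n s) v
  · intro j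
    match j with
    | none =>
      change Sint B X.L (1 : GG)
      rw [hone]
      exact block_sint B hbe' X.hb X.tL hB h0
    | some none =>
      exact block_sint B hbe' X.hb X.tL hB (N := fun n => X.Q 0 (X.nx n 0))
        (h := fun n => X.nx n 0 - 0) (hlog _ fun n => by simpa using X.nx0_le n)
    | some (some s) =>
      exact block_sint B hbe' X.hb X.tL hB (N := fun n => X.Qs n s)
        (hlog _ fun n => X.len_le n s)
  · obtain ⟨S, ⟨P, hP1, hP2⟩, s, hs, hx⟩ := X.done E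
    have h1 : ∀ j, ∃ f' : Rg m X.tL, ev B X.tL f'
        = Pool.Agent.TH932.S2.ev2 X.tL X.hp X.hq (P j) := by
      intro j
      refine transport B hbe X.tL X.hp X.hq (P j) fun g hg => ?_
      obtain ⟨t, _, h2⟩ := hP1 j g hg
      exact ⟨-t, by rw [h2, hem]⟩
    choose P' hP' using h1
    refine ⟨P', s, ?_, hx⟩
    rw [← hs, hP2]
    exact Finset.sum_congr rfl fun j _ => by rw [hP' j]

theorem rep : RepStmt := by
  intro m B b hb e hbe x hx N hN2 C hC hL
  have : NeZero b := ⟨by omega⟩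
  have hC0 : 0 ≤ |C| := abs_nonneg C
  have h1 : ∀ n, ∃ l, N n ≤ 2 * l ∧ l ≤ N n ∧
      (cx (Pool.Agent.TH932.S2.dw b x) l : ℝ) ≤ 2 * |C| * l ∧
      (cx (Pool.Agent.TH932.S2.dw b x) (l + 1) : ℝ) ≤ 3 * |C|
        + cx (Pool.Agent.TH932.S2.dw b x) l := by
    intro n
    apply Pool.Agent.TH932.S2.exists_scale2 _ hC0 (hN2 n)
    refine (hC n).trans ?_
    have := le_abs_self C
    gcongr
  choose l hl1 hl2 hl3 hl4 using h1
  have g1 : ∀ n, 1 ≤ l n := fun n => by
    have h2 := hl1 n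
    have h3 := hN2 n
    omega
  have g2 : ∀ n, (l n : ℝ) ≤ (N n : ℝ) := fun n => by exact_mod_cast hl2 n
  have g3 : ∀ n, (N n : ℝ) ≤ 2 * (l n : ℝ) := fun n => by exact_mod_cast hl1 n
  have g4 : ∀ n, 2 * cx (Pool.Agent.TH932.S2.dw b x) (l n + 1)
      ≤ ⌈6 * |C|⌉₊ + 2 * cx (Pool.Agent.TH932.S2.dw b x) (l n) := fun n => by
    have h2 := hl4 n
    have h3 : 6 * |C| ≤ (⌈6 * |C|⌉₊ : ℝ) := Nat.le_ceil _
    have h4 : ((2 * cx (Pool.Agent.TH932.S2.dw b x) (l n + 1) : ℕ) : ℝ)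
        ≤ ((⌈6 * |C|⌉₊ + 2 * cx (Pool.Agent.TH932.S2.dw b x) (l n) : ℕ) : ℝ) := by
      push_cast
      linarith
    exact_mod_cast h4
  exact rep_RC B (X := { p := b, q := b + 1, hp := hb, hq := by omega, hpq := ⟨1, -1, by push_cast; ring⟩, b := b, em := fun t => (-t, 0), hem := Or.inl ⟨rfl, rfl⟩, x := x, hx := hx, l := l, L := fun n => (N n : ℝ), R := ⌈6 * |C|⌉₊, C := 2 * |C|, tL := hL, hl1 := g1, hlL := g2, hLl := g3, hcx := hl3, hR := g4 }) hbe rfl rfl

end Pool.Agent.TH914.AL
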