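import Mathlib
import Pool.Agent.TH881.RK.DefsH2

/-! Negative correlation for occupancy numbers. -/

set_option autoImplicit false

namespace Pool.Agent.TH914.J5134

open Finset Filter Topology
open Pool.Agent.TH881
open Pool.Agent.TH881.RK

theorem dd_add (m : ℕ) : ∀ N k : ℕ, k ≤ N →
    dd m (N + 1) (k + 1) + dd m N k = dd m (N + 1) k := by
  induction m with
  | zero =>
    intro N k _
    cases k with
    | zero => simp [dd]
    | succ k => simp [dd]
  | succ m ih =>
    intro N k hk
    cases k with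
    | zero =>
      have h := ih N 0 (by omega)
      simp only [dd]
      have e : N + 1 - (0 + 1) = N := by omega
      rw [e]
      calc N * dd m (N + 1) (0 + 1) + (0 + 1) * dd m (N + 1) 0 + N * dd m N 0
          = N * (dd m (N + 1) (0 + 1) + dd m N 0) + dd m (N + 1) 0 := by ring
        _ = (N + 1) * dd m (N + 1) 0 := by rw [h]; ring
    | succ k =>
      obtain ⟨r, rfl⟩ : ∃ r, N = k + 1 + r := ⟨N - (k + 1), by omega⟩
      have h1 := ih (k + 1 + r) (k + 1) (by omega)
      have h2 := ih (k + 1 + r) k (by omega)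
      simp only [dd]
      have e1 : k + 1 + r + 1 - (k + 1 + 1) = r := by omega
      have e2 : k + 1 + r - (k + 1) = r := by omega
      have e3 : k + 1 + r + 1 - (k + 1) = r + 1 := by omega
      rw [e1, e2, e3]
      calc r * dd m (k + 1 + r + 1) (k + 1 + 1) + (k + 1 + 1) * dd m (k + 1 + r + 1) (k + 1) +
            (r * dd m (k + 1 + r) (k + 1) + (k + 1) * dd m (k + 1 + r) k)
          = r * (dd m (k + 1 + r + 1) (k + 1 + 1) + dd m (k + 1 + r) (k + 1)) +
            dd m (k + 1 + r + 1) (k + 1) +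
            (k + 1) * (dd m (k + 1 + r + 1) (k + 1) + dd m (k + 1 + r) k) := by ring
        _ = (r + 1) * dd m (k + 1 + r + 1) (k + 1) + (k + 1) * dd m (k + 1 + r + 1) k := by
            rw [h1, h2]
            ring

theorem dd_mono (m : ℕ) : ∀ N k : ℕ, k ≤ N →
    dd m (N + 1) k * N ^ m ≤ dd m N k * (N + 1) ^ m := by
  induction m with
  | zero =>
    intro N k _
    cases k with
    | zero => simp [dd]
    | succ k => simp [dd]
  | succ m ih =>
    intro N k hk
    cases k with
    | zero =>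
      have h := ih N 0 (by omega)
      simp only [dd]
      calc (N + 1) * dd m (N + 1) 0 * N ^ (m + 1)
          = (N + 1) * N * (dd m (N + 1) 0 * N ^ m) := by ring
        _ ≤ (N + 1) * N * (dd m N 0 * (N + 1) ^ m) := Nat.mul_le_mul_left _ h
        _ = N * dd m N 0 * (N + 1) ^ (m + 1) := by ring
    | succ k =>
      obtain ⟨r, rfl⟩ : ∃ r, N = k + 1 + r := ⟨N - (k + 1), by omega⟩
      have h1 := ih (k + 1 + r) (k + 1) (by omega)
      have h2 := ih (k + 1 + r) k (by omega)
      have h3 := dd_add m (k + 1 + r) k (by omega)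
      have h4 : dd m (k + 1 + r + 1) (k + 1) * (k + 1 + r) ^ m ≤
          dd m (k + 1 + r + 1) k * (k + 1 + r) ^ m :=
        Nat.mul_le_mul_right _ (by omega)
      simp only [dd]
      have e2 : k + 1 + r - (k + 1) = r := by omega
      have e3 : k + 1 + r + 1 - (k + 1) = r + 1 := by omega
      rw [e2, e3]
      generalize hA1 : dd m (k + 1 + r) (k + 1) * (k + 1 + r + 1) ^ m = A1 at h1
      generalize hA0 : dd m (k + 1 + r) k * (k + 1 + r + 1) ^ m = A0 at h2
      generalize hB1 : dd m (k + 1 + r + 1) (k + 1) * (k + 1 + r) ^ m = B1 at h1 h4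
      generalize hB0 : dd m (k + 1 + r + 1) k * (k + 1 + r) ^ m = B0 at h2 h4
      have eL : ((r + 1) * dd m (k + 1 + r + 1) (k + 1) + (k + 1) * dd m (k + 1 + r + 1) k) *
          (k + 1 + r) ^ (m + 1) = (k + 1 + r) * ((r + 1) * B1 + (k + 1) * B0) := by
        rw [← hB1, ← hB0]
        ring
      have eR : (r * dd m (k + 1 + r) (k + 1) + (k + 1) * dd m (k + 1 + r) k) *
          (k + 1 + r + 1) ^ (m + 1) = (k + 1 + r + 1) * (r * A1 + (k + 1) * A0) := by
        rw [← hA1, ← hA0]
        ring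
      rw [eL, eR]
      calc (k + 1 + r) * ((r + 1) * B1 + (k + 1) * B0)
          = (k + 1 + r + 1) * (r * B1) + (k + 1) * B1 + (k + 1 + r) * ((k + 1) * B0) := by ring
        _ ≤ (k + 1 + r + 1) * (r * B1) + (k + 1) * B0 + (k + 1 + r) * ((k + 1) * B0) := by
            have := Nat.mul_le_mul_left (k + 1) h4
            omega
        _ = (k + 1 + r + 1) * (r * B1 + (k + 1) * B0) := by ring
        _ ≤ (k + 1 + r + 1) * (r * A1 + (k + 1) * A0) :=
            Nat.mul_le_mul_left _ (add_le_add (Nat.mul_le_mul_left _ h1)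
              (Nat.mul_le_mul_left _ h2))

theorem stDR : StDR := by
  intro m N k hk
  obtain ⟨n, rfl⟩ : ∃ n, N = n + 1 := ⟨N - 1, by omega⟩
  have h1 := dd_add m n k (by omega)
  have h2 := dd_mono m n k (by omega)
  have h1' : (dd m (n + 1) (k + 1) : ℝ) + dd m n k = dd m (n + 1) k := by exact_mod_cast h1
  have h2' : (dd m (n + 1) k : ℝ) * (n : ℝ) ^ m ≤ dd m n k * ((n : ℝ) + 1) ^ m := by
    exact_mod_cast h2
  have hpos : (0 : ℝ) < ((n : ℝ) + 1) ^ m := by positivity
  have h3 : (((((n + 1 : ℕ) : ℝ)) - 1) / ((n + 1 : ℕ) : ℝ)) ^ m * dd m (n + 1) k ≤ dd m n k := by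
    push_cast
    rw [add_sub_cancel_right, div_pow, div_mul_eq_mul_div, div_le_iff₀ hpos, mul_comm]
    exact h2'
  nlinarith [h3, h1']

end Pool.Agent.TH914.J5134
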