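import Mathlib
import Pool.Agent.TH974.IH.Box

/-! Job 2193: many primes below `4 ^ n`. -/

set_option autoImplicit false

open Finset MeasureTheory ProbabilityTheory Filter Topology
open scoped ENNReal NNReal

namespace Pool.Agent.TH974.IH

theorem mp_pi (n : ℕ) (hn : 1 ≤ n) : 4 ^ n ≤ 2 * (n + 1) + 2 * n * (Nat.primesLE (4 ^ n)).card := by
  set P := Nat.primesLE (4 ^ n) with hP
  have h1 := Chebyshev.two_pow_le_mul_lcmUpto (4 ^ n)
  have h2 : Nat.lcmUpto (4 ^ n) ≤ (4 ^ n) ^ P.card := by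
    rw [Nat.lcmUpto_eq_prod_pow_log]
    apply Finset.prod_le_pow_card
    intro p _
    exact Nat.pow_log_le_self p (by positivity)
  have h3 : (2 : ℕ) ^ (4 ^ n) ≤ 2 ^ (2 * (n + 1) + 2 * n * P.card) := by
    calc (2 : ℕ) ^ (4 ^ n) ≤ (4 ^ n + 1) * (4 ^ n) ^ P.card := h1.trans (Nat.mul_le_mul_left _ h2)
      _ ≤ 4 ^ (n + 1) * (4 ^ n) ^ P.card := by
          apply Nat.mul_le_mul_right
          have : 1 ≤ 4 ^ n := Nat.one_le_pow _ _ (by norm_num)
          rw [pow_succ]
          omega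
      _ = 2 ^ (2 * (n + 1) + 2 * n * P.card) := by
          rw [show (4 : ℕ) = 2 ^ 2 by norm_num, ← pow_mul, ← pow_mul, ← pow_mul, ← pow_add]
          congr 1
          ring
  exact (Nat.pow_le_pow_iff_right (by norm_num)).1 h3

theorem mp_pow {n : ℕ} (hn : 10 ≤ n) : 4 * n ^ 2 + 4 * n + 2 ≤ 2 ^ n := by
  induction n, hn using Nat.le_induction with
  | base => norm_num
  | succ n hn ih =>
    rw [pow_succ 2 n]
    nlinarith

theorem many_primes : ∃ n0 : ℕ, ∀ n ≥ n0,
    2 ^ n ≤ ((Finset.range (4 ^ n + 1)).filter fun q => q.Prime ∧ c0 < q ∧ n < q).card := by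
  obtain ⟨c, hc⟩ : ∃ c, c = c0 := ⟨_, rfl⟩
  rw [← hc]
  refine ⟨c + 10, fun n hn => ?_⟩
  set S := (Finset.range (4 ^ n + 1)).filter fun q => q.Prime ∧ c < q ∧ n < q with hS
  have h1 : (Nat.primesLE (4 ^ n)).card ≤ S.card + (n + 1) := by
    have h2 : Nat.primesLE (4 ^ n) ⊆ S ∪ Finset.range (n + 1) := by
      intro q hq
      rw [Nat.mem_primesLE] at hq
      rw [Finset.mem_union, hS, Finset.mem_filter, Finset.mem_range, Finset.mem_range]
      by_cases h : q < n + 1
      · exact Or.inr h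
      · exact Or.inl ⟨by omega, hq.2, by omega, by omega⟩
    calc (Nat.primesLE (4 ^ n)).card ≤ (S ∪ Finset.range (n + 1)).card := Finset.card_le_card h2
      _ ≤ S.card + (Finset.range (n + 1)).card := Finset.card_union_le _ _
      _ = _ := by rw [Finset.card_range]
  by_contra hcon
  push Not at hcon
  have h3 := mp_pi n (by omega)
  have h4 := mp_pow (n := n) (by omega)
  have h5 : (4 : ℕ) ^ n = 2 ^ n * 2 ^ n := by
    rw [← mul_pow]
    norm_num
  have h6 : 2 * n * (Nat.primesLE (4 ^ n)).card ≤ 2 * n * (2 ^ n + n + 1) :=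
    Nat.mul_le_mul_left _ (by omega)
  rw [h5] at h3 h6
  nlinarith

end Pool.Agent.TH974.IH
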