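import Mathlib
import Pool.Agent.TH974.IH.Box

/-! Job 2194: probabilities of the box events. -/

set_option autoImplicit false

open Finset MeasureTheory ProbabilityTheory Filter Topology
open scoped ENNReal NNReal

namespace Pool.Agent.TH974.IH

theorem c3_prob (p : ℝ) (hp0 : 0 ≤ p) (hp1 : p ≤ 1) : IsProbabilityMeasure (bern p) := by
  constructor
  have h2 : (0 : ℝ) ≤ 1 - p := by linarith
  simp only [bern, Measure.coe_add, Measure.coe_smul, Pi.add_apply, Pi.smul_apply,
    measure_univ, smul_eq_mul, mul_one]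
  rw [← ENNReal.ofReal_add hp0 h2]
  simp

theorem c3_bern (p : ℝ) (hp0 : 0 ≤ p) (hp1 : p ≤ 1) (b : Bool) :
    (bern p {b}).toReal = if b = true then p else 1 - p := by
  have h2 : (0 : ℝ) ≤ 1 - p := by linarith
  cases b
  · simp [bern, ENNReal.toReal_ofReal h2]
  · simp [bern, ENNReal.toReal_ofReal hp0]

/-- probability of a cylinder -/
theorem c3_cyl {d : ℕ} (p : ℝ) (hp0 : 0 ≤ p) (hp1 : p ≤ 1) (F : Finset (Ed d)) (β : Ed d → Bool) :
    (perc d p).real {ω | ∀ e ∈ F, ω e = β e} = ∏ e ∈ F, (if β e = true then p else 1 - p) := by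
  have hpr := c3_prob p hp0 hp1
  have h1 : {ω : Env d | ∀ e ∈ F, ω e = β e} = Set.pi (F : Set (Ed d)) (fun e => {β e}) := by
    ext ω
    simp [Set.mem_pi]
  unfold Measure.real perc
  rw [h1, Measure.infinitePi_pi _ (fun i _ => MeasurableSet.singleton _), ENNReal.toReal_prod]
  exact Finset.prod_congr rfl fun e _ => c3_bern p hp0 hp1 (β e)

theorem c3_perc {d : ℕ} (p : ℝ) (hp0 : 0 ≤ p) (hp1 : p ≤ 1) : IsProbabilityMeasure (perc d p) := by
  have hpr := c3_prob p hp0 hp1
  unfold perc
  infer_instance

theorem c3_lower {d : ℕ} (p : ℝ) (hp0 : 0 < p) (hp1 : p < 1) (F : Finset (Ed d))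
    (β : Ed d → Bool) (A : Set (Env d)) (hA : {ω | ∀ e ∈ F, ω e = β e} ⊆ A) (N : ℕ)
    (hN : F.card ≤ N) : (min p (1 - p)) ^ N ≤ (perc d p).real A := by
  have hpr := c3_perc (d := d) p hp0.le hp1.le
  have h0 : 0 ≤ min p (1 - p) := le_min hp0.le (by linarith)
  calc (min p (1 - p)) ^ N ≤ (min p (1 - p)) ^ F.card :=
        pow_le_pow_of_le_one h0 ((min_le_left _ _).trans hp1.le) hN
    _ = ∏ e ∈ F, min p (1 - p) := by rw [Finset.prod_const]
    _ ≤ ∏ e ∈ F, (if β e = true then p else 1 - p) := by
        apply Finset.prod_le_prod (fun _ _ => h0)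
        intro e _
        split_ifs
        · exact min_le_left _ _
        · exact min_le_right _ _
    _ = (perc d p).real {ω | ∀ e ∈ F, ω e = β e} := (c3_cyl p hp0.le hp1.le F β).symm
    _ ≤ (perc d p).real A := measureReal_mono hA

/-- the edges with an endpoint in `W` -/
noncomputable def c3_tch {d : ℕ} (W : Finset (Zd d)) : Finset (Ed d) := by
  classical exact (W ×ˢ Finset.univ) ∪
    (W ×ˢ Finset.univ).image (fun e : Zd d × Fin d => (e.1 - Pi.single e.2 1, e.2))

theorem c3_tch_card {d : ℕ} (W : Finset (Zd d)) : (c3_tch W).card ≤ 2 * d * W.card := by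
  classical
  unfold c3_tch
  refine (Finset.card_union_le _ _).trans ?_
  have h1 : (W ×ˢ (Finset.univ : Finset (Fin d))).card = W.card * d := by
    rw [Finset.card_product, Finset.card_univ, Fintype.card_fin]
  have h2 := Finset.card_image_le (s := W ×ˢ (Finset.univ : Finset (Fin d)))
    (f := fun e : Zd d × Fin d => (e.1 - Pi.single e.2 1, e.2))
  rw [h1] at h2 ⊢
  calc _ ≤ W.card * d + W.card * d := Nat.add_le_add_left h2 _
    _ = 2 * d * W.card := by ring

theorem c3_tch_mem {d : ℕ} (W : Finset (Zd d)) (e : Ed d) (h : e.1 ∈ W ∨ hd e ∈ W) :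
    e ∈ c3_tch W := by
  classical
  unfold c3_tch
  rw [Finset.mem_union]
  rcases h with h | h
  · left
    rw [Finset.mem_product]
    exact ⟨h, Finset.mem_univ _⟩
  · right
    rw [Finset.mem_image]
    refine ⟨(hd e, e.2), ?_, ?_⟩
    · rw [Finset.mem_product]
      exact ⟨h, Finset.mem_univ _⟩
    · unfold hd
      simp

theorem Apath_lower {d : ℕ} (p : ℝ) (hp0 : 0 < p) (hp1 : p < 1) (E : Finset (Ed d))
    (pl : List (Zd d)) :
    (min p (1 - p)) ^ (2 * d * pl.length) ≤ (perc d p).real (Apath E pl) := by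
  classical
  refine c3_lower p hp0 hp1 (c3_tch pl.toFinset) (fun e => decide (onp pl e)) _ ?_ _ ?_
  · intro ω hω e _
    have hin : (e.1 ∈ pl ∨ hd e ∈ pl) → ω e = decide (onp pl e) := by
      intro h
      apply hω
      apply c3_tch_mem
      rw [List.mem_toFinset, List.mem_toFinset]
      exact h
    constructor
    · intro h
      rw [hin ?_]
      · simpa using h
      · left
        rcases h with h | h
        · exact h.subset (by simp)
        · exact h.subset (by simp)
    · intro h h'
      rw [hin h']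
      simpa using h
  · refine (c3_tch_card _).trans ?_
    exact Nat.mul_le_mul_left _ (List.toFinset_card_le pl)

theorem Fc_card (d K : ℕ) (hd : 1 ≤ d) : (Fc d K).card ≤ 2 * d * (K + 4) ^ (d - 1) := by
  classical
  let f : Fin d × ℤ → Finset (Zd d) := fun q =>
    Fintype.piFinset fun j => if j = q.1 then {q.2} else Finset.Icc 1 ((K : ℤ) + 4)
  have h1 : Fc d K ⊆ ((Finset.univ : Finset (Fin d)) ×ˢ {1, (K : ℤ) + 4}).biUnion f := by
    intro x hx
    unfold Fc at hx
    rw [Finset.mem_filter] at hx
    obtain ⟨hx1, hx2⟩ := hx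
    have h2 : (Finset.univ.filter fun i => x i = 1 ∨ x i = (K : ℤ) + 4).Nonempty := by
      rw [← Finset.card_pos]
      unfold nex at hx2
      omega
    obtain ⟨i, hi⟩ := h2
    rw [Finset.mem_filter] at hi
    rw [Finset.mem_biUnion]
    refine ⟨(i, x i), ?_, ?_⟩
    · rw [Finset.mem_product]
      refine ⟨Finset.mem_univ _, ?_⟩
      simpa using hi.2
    · rw [Fintype.mem_piFinset]
      intro j
      by_cases hj : j = i
      · rw [if_pos hj, hj]
        simp
      · rw [if_neg hj]
        unfold cube at hx1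
        rw [Fintype.mem_piFinset] at hx1
        exact hx1 j
  have h2 : ∀ q ∈ (Finset.univ : Finset (Fin d)) ×ˢ ({1, (K : ℤ) + 4} : Finset ℤ),
      (f q).card ≤ (K + 4) ^ (d - 1) := by
    intro q _
    rw [Fintype.card_piFinset, ← Finset.mul_prod_erase Finset.univ _ (Finset.mem_univ q.1),
      if_pos rfl, Finset.card_singleton, one_mul,
      Finset.prod_congr rfl (g := fun _ => K + 4), Finset.prod_const,
      Finset.card_erase_of_mem (Finset.mem_univ _), Finset.card_univ, Fintype.card_fin]
    intro j hj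
    rw [if_neg (Finset.ne_of_mem_erase hj), Int.card_Icc]
    omega
  refine (Finset.card_le_card h1).trans ((Finset.card_biUnion_le_card_mul _ _ _ h2).trans ?_)
  apply Nat.mul_le_mul_right
  rw [Finset.card_product, Finset.card_univ, Fintype.card_fin, mul_comm]
  apply Nat.mul_le_mul_right
  exact (Finset.card_insert_le _ _).trans (by simp)

theorem c3_disj {d K : ℕ} {x : Zd d} (h1 : x ∈ Rm d K) (h2 : x ∈ Fc d K) : False := by
  classical
  unfold Fc at h2
  rw [Finset.mem_filter] at h2
  obtain ⟨_, h2⟩ := h2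
  have h3 : (Finset.univ.filter fun i => x i = 1 ∨ x i = (K : ℤ) + 4).Nonempty := by
    rw [← Finset.card_pos]
    unfold nex at h2
    omega
  obtain ⟨i, hi⟩ := h3
  rw [Finset.mem_filter] at hi
  unfold Rm cube at h1
  rw [Fintype.mem_piFinset] at h1
  have := h1 i
  rw [Finset.mem_Icc] at this
  rcases hi.2 with h | h <;> omega

theorem SR_lower {d : ℕ} (hd : 1 ≤ d) (p : ℝ) (hp0 : 0 < p) (hp1 : p < 1) (K : ℕ) :
    (min p (1 - p)) ^ (4 * d ^ 2 * (K + 4) ^ (d - 1)) ≤ (perc d p).real (SR d K) := by
  classical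
  refine c3_lower p hp0 hp1 (c3_tch (Fc d K)) (fun e => decide (e ∈ EF d K)) _ ?_ _ ?_
  · intro ω hω
    constructor
    · intro e he
      rw [hω e (c3_tch_mem _ _ (Or.inl he.1))]
      simpa using he
    · intro e he
      have h1 : e ∉ EF d K := by
        rintro ⟨h1, h2⟩
        rcases he with h | h
        · exact c3_disj h.1 h1
        · exact c3_disj h.2 h2
      rw [hω e (c3_tch_mem _ _ ?_)]
      · simpa using h1
      · rcases he with h | h
        · exact Or.inr h.2
        · exact Or.inl h.1
  · refine (c3_tch_card _).trans ?_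
    calc 2 * d * (Fc d K).card ≤ 2 * d * (2 * d * (K + 4) ^ (d - 1)) :=
          Nat.mul_le_mul_left _ (Fc_card d K hd)
      _ = 4 * d ^ 2 * (K + 4) ^ (d - 1) := by ring

/-- the points of the face -/
def c3_x (d : ℕ) (t : ℕ) : Zd d := fun i => if (i : ℕ) = 0 then 1 else if (i : ℕ) = 1 then
  (t : ℤ) + 3 else 3

theorem SR_upper {d : ℕ} (hd : 2 ≤ d) (p : ℝ) (hp0 : 0 < p) (hp1 : p < 1) (K : ℕ) :
    (perc d p).real (SR d K) ≤ (1 - p) ^ K := by
  classical
  have hpr := c3_perc (d := d) p hp0.le hp1.le
  let g : ℕ → Ed d := fun t => (c3_x d t, ⟨0, by omega⟩)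
  have hg : Function.Injective g := by
    intro t t' h
    have h1 : c3_x d t = c3_x d t' := congrArg Prod.fst h
    have h2 := congrFun h1 ⟨1, by omega⟩
    simp only [c3_x] at h2
    simpa using h2
  have h1 : SR d K ⊆ {ω | ∀ e ∈ (Finset.range K).image g, ω e = false} := by
    intro ω hω e he
    rw [Finset.mem_image] at he
    obtain ⟨t, ht, rfl⟩ := he
    rw [Finset.mem_range] at ht
    apply hω.2
    right
    constructor
    · show c3_x d t ∈ Fc d K
      unfold Fc
      rw [Finset.mem_filter]
      constructor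
      · unfold cube
        rw [Fintype.mem_piFinset]
        intro i
        rw [Finset.mem_Icc]
        unfold c3_x
        split_ifs <;> constructor <;> omega
      · unfold nex
        rw [Finset.card_eq_one]
        refine ⟨⟨0, by omega⟩, ?_⟩
        ext i
        rw [Finset.mem_filter, Finset.mem_singleton, Fin.ext_iff]
        unfold c3_x
        constructor
        · rintro ⟨_, h⟩
          show (i : ℕ) = 0
          by_contra hi
          rw [if_neg hi] at h
          split_ifs at h <;> omega
        · intro h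
          have h' : (i : ℕ) = 0 := h
          exact ⟨Finset.mem_univ _, Or.inl (by rw [if_pos h'])⟩
    · show c3_x d t + Pi.single (⟨0, by omega⟩ : Fin d) 1 ∈ Rm d K
      unfold Rm cube
      rw [Fintype.mem_piFinset]
      intro i
      rw [Finset.mem_Icc, Pi.add_apply]
      by_cases hi : (i : ℕ) = 0
      · have : i = ⟨0, by omega⟩ := Fin.ext hi
        rw [this, Pi.single_eq_same]
        unfold c3_x
        rw [if_pos rfl]
        constructor <;> omega
      · have : i ≠ ⟨0, by omega⟩ := fun h => hi (congrArg Fin.val h)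
        rw [Pi.single_eq_of_ne this]
        unfold c3_x
        rw [if_neg hi]
        split_ifs <;> constructor <;> omega
  calc (perc d p).real (SR d K)
      ≤ (perc d p).real {ω | ∀ e ∈ (Finset.range K).image g, ω e = false} := measureReal_mono h1
    _ = ∏ e ∈ (Finset.range K).image g, (if (false = true) then p else 1 - p) :=
        c3_cyl p hp0.le hp1.le _ (fun _ => false)
    _ = (1 - p) ^ K := by
        rw [Finset.prod_const, Finset.card_image_of_injective _ hg, Finset.card_range]
        simp

end Pool.Agent.TH974.IH
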