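import Mathlib
import Pool.Agent.TH974.IH.Box

/-! Job 2371: asymptotics. -/

set_option autoImplicit false

open Finset MeasureTheory ProbabilityTheory Filter Topology
open scoped ENNReal NNReal

namespace Pool.Agent.TH974.IH

theorem as_gen (D : ℕ) (hD : 1 ≤ D) (k : ℕ) (A B c : ℝ) (hA : 0 ≤ A) (hc : 0 < c) :
    Tendsto (fun m : ℕ => A * (m : ℝ) ^ k * Real.exp (B * (m : ℝ) ^ D - c * (m : ℝ) ^ (D + 1)))
      atTop (𝓝 0) := by
  have h1 : Tendsto (fun x : ℝ => A * (x ^ k * Real.exp (-x))) atTop (𝓝 0) := by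
    have := (Real.tendsto_pow_mul_exp_neg_atTop_nhds_zero k).const_mul A
    rwa [mul_zero] at this
  have h2 : Tendsto (fun m : ℕ => A * ((m : ℝ) ^ k * Real.exp (-(m : ℝ)))) atTop (𝓝 0) :=
    h1.comp tendsto_natCast_atTop_atTop
  refine squeeze_zero' (Eventually.of_forall fun m => ?_) ?_ h2
  · positivity
  · obtain ⟨N, hN⟩ := exists_nat_ge ((B + 1) / c)
    filter_upwards [eventually_ge_atTop (N + 1)] with m hm
    have hm1 : (1 : ℝ) ≤ m := by
      have : 1 ≤ m := by omega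
      exact_mod_cast this
    have hmN : (N : ℝ) ≤ m := by
      have : N ≤ m := by omega
      exact_mod_cast this
    rw [mul_assoc]
    refine mul_le_mul_of_nonneg_left (mul_le_mul_of_nonneg_left ?_ (by positivity)) hA
    rw [Real.exp_le_exp]
    have h3 : B + 1 ≤ c * m := by
      have h4 : (B + 1) / c ≤ m := hN.trans hmN
      rw [div_le_iff₀ hc] at h4
      linarith
    have h5 : (m : ℝ) ≤ (m : ℝ) ^ D := by
      calc (m : ℝ) = (m : ℝ) ^ 1 := (pow_one _).symm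
        _ ≤ (m : ℝ) ^ D := pow_le_pow_right₀ hm1 hD
    have h6 : 0 ≤ (m : ℝ) ^ D := by positivity
    rw [pow_succ]
    nlinarith

theorem as_exp {θ : ℝ} (h0 : 0 < θ) (N : ℕ) : θ ^ N = Real.exp (N * Real.log θ) := by
  rw [Real.exp_nat_mul, Real.exp_log h0]

/-- the exponent of `θ` -/
theorem as_theta (D : ℕ) (θ : ℝ) (h0 : 0 < θ) (h1 : θ ≤ 1) : ∃ B : ℝ, ∀ m : ℕ, 1 ≤ m →
    (θ ^ (4 * (D + 1) ^ 2 * (KK m + 4) ^ D + 2 * (D + 1) * (c0 + 20)))⁻¹ ≤
      Real.exp (B * (m : ℝ) ^ D) := by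
  obtain ⟨c, hc⟩ : ∃ c, c = c0 := ⟨_, rfl⟩
  rw [← hc]
  obtain ⟨a, ha⟩ : ∃ a : ℕ, a = 1310404 := ⟨_, rfl⟩
  refine ⟨((4 * (D + 1) ^ 2 * a ^ D + 2 * (D + 1) * (c + 20) : ℕ) : ℝ) * (-Real.log θ),
    fun m hm => ?_⟩
  have h2 : KK m + 4 ≤ a * m := by
    unfold KK
    rw [ha]
    omega
  have h3 : 4 * (D + 1) ^ 2 * (KK m + 4) ^ D + 2 * (D + 1) * (c + 20) ≤
      (4 * (D + 1) ^ 2 * a ^ D + 2 * (D + 1) * (c + 20)) * m ^ D := by
    have h4 : (KK m + 4) ^ D ≤ a ^ D * m ^ D := by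
      rw [← mul_pow]
      exact Nat.pow_le_pow_left h2 D
    have h5 : 1 ≤ m ^ D := Nat.one_le_pow _ _ hm
    calc 4 * (D + 1) ^ 2 * (KK m + 4) ^ D + 2 * (D + 1) * (c + 20)
        ≤ 4 * (D + 1) ^ 2 * (a ^ D * m ^ D) + 2 * (D + 1) * (c + 20) * m ^ D :=
          Nat.add_le_add (Nat.mul_le_mul_left _ h4) (Nat.le_mul_of_pos_right _ h5)
      _ = _ := by ring
  set C := 4 * (D + 1) ^ 2 * a ^ D + 2 * (D + 1) * (c + 20) with hC
  have h6 : θ ^ (C * m ^ D) ≤ θ ^ (4 * (D + 1) ^ 2 * (KK m + 4) ^ D + 2 * (D + 1) * (c + 20)) :=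
    pow_le_pow_of_le_one h0.le h1 h3
  calc (θ ^ (4 * (D + 1) ^ 2 * (KK m + 4) ^ D + 2 * (D + 1) * (c + 20)))⁻¹
      ≤ (θ ^ (C * m ^ D))⁻¹ := inv_anti₀ (by positivity) h6
    _ = Real.exp ((C : ℝ) * (-Real.log θ) * (m : ℝ) ^ D) := by
        rw [as_exp h0, ← Real.exp_neg]
        congr 1
        push_cast
        ring

theorem as_two (D n : ℕ) : Real.exp (Real.log 2 / (2 * (D + 1)) * n) / 2 ≤
    (2 : ℝ) ^ (n / (2 * (D + 1))) := by
  have hl : 0 < Real.log 2 := Real.log_pos (by norm_num)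
  have h1 : n < 2 * (D + 1) * (n / (2 * (D + 1)) + 1) := by
    have := Nat.lt_mul_div_succ n (show 0 < 2 * (D + 1) by omega)
    exact this
  set j := n / (2 * (D + 1)) with hj
  have h2 : (n : ℝ) ≤ 2 * (D + 1) * (j + 1) := by exact_mod_cast h1.le
  have h3 : (0 : ℝ) < 2 * (D + 1) := by positivity
  rw [as_exp (show (0 : ℝ) < 2 by norm_num) j]
  have h4 : Real.log 2 / (2 * (D + 1)) * n ≤ j * Real.log 2 + Real.log 2 := by
    rw [div_mul_eq_mul_div, div_le_iff₀ h3]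
    nlinarith
  calc Real.exp (Real.log 2 / (2 * (D + 1)) * n) / 2
      ≤ Real.exp (j * Real.log 2 + Real.log 2) / 2 := by
        apply div_le_div_of_nonneg_right _ (by norm_num)
        exact Real.exp_le_exp.2 h4
    _ = Real.exp (j * Real.log 2) := by
        rw [Real.exp_add, Real.exp_log (by norm_num)]
        ring

theorem asym1 (D : ℕ) (hD : 1 ≤ D) (θ : ℝ) (h0 : 0 < θ) (h1 : θ ≤ 1) :
    Tendsto (fun m : ℕ => (2 * (D + 1) * (KK m + 6 : ℝ) ^ D) /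
      (θ ^ (4 * (D + 1) ^ 2 * (KK m + 4) ^ D + 2 * (D + 1) * (c0 + 20)) *
        2 ^ (m ^ (D + 1) / (2 * (D + 1))))) atTop (𝓝 0) := by
  obtain ⟨B, hB⟩ := as_theta D θ h0 h1
  obtain ⟨a, ha⟩ : ∃ a : ℝ, a = 1310406 := ⟨_, rfl⟩
  have ha0 : 0 ≤ a := by rw [ha]; norm_num
  have hl : 0 < Real.log 2 := Real.log_pos (by norm_num)
  have key := as_gen D hD D (2 * (D + 1) * a ^ D * 2) B (Real.log 2 / (2 * (D + 1)))
    (by positivity) (by positivity)
  refine squeeze_zero' (Eventually.of_forall fun m => ?_) ?_ key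
  · positivity
  · filter_upwards [eventually_ge_atTop 1] with m hm
    have hm1 : (1 : ℝ) ≤ m := by exact_mod_cast hm
    have h2 : (KK m + 6 : ℝ) ≤ a * m := by
      unfold KK
      push_cast
      rw [ha]
      linarith
    have h3 : (KK m + 6 : ℝ) ^ D ≤ a ^ D * (m : ℝ) ^ D := by
      rw [← mul_pow]
      exact pow_le_pow_left₀ (by positivity) h2 D
    have h4 := hB m hm
    have h5 := as_two D (m ^ (D + 1))
    set T := θ ^ (4 * (D + 1) ^ 2 * (KK m + 4) ^ D + 2 * (D + 1) * (c0 + 20)) with hT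
    have hT0 : 0 < T := by positivity
    set W := (2 : ℝ) ^ (m ^ (D + 1) / (2 * (D + 1))) with hW
    have hW0 : 0 < W := by positivity
    have h6 : W⁻¹ ≤ 2 * Real.exp (-(Real.log 2 / (2 * (D + 1)) * (m : ℝ) ^ (D + 1))) := by
      rw [Real.exp_neg]
      push_cast at h5
      have h7 : 0 < Real.exp (Real.log 2 / (2 * (D + 1)) * (m : ℝ) ^ (D + 1)) := Real.exp_pos _
      calc W⁻¹ ≤ (Real.exp (Real.log 2 / (2 * (D + 1)) * (m : ℝ) ^ (D + 1)) / 2)⁻¹ :=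
            inv_anti₀ (by positivity) h5
        _ = _ := by rw [inv_div, div_eq_mul_inv]
    rw [div_eq_mul_inv, mul_inv]
    calc 2 * (D + 1) * (KK m + 6 : ℝ) ^ D * (T⁻¹ * W⁻¹)
        ≤ 2 * (D + 1) * (a ^ D * (m : ℝ) ^ D) * (Real.exp (B * (m : ℝ) ^ D) *
          (2 * Real.exp (-(Real.log 2 / (2 * (D + 1)) * (m : ℝ) ^ (D + 1))))) := by
          gcongr
      _ = _ := by
          rw [sub_eq_add_neg, Real.exp_add]
          ring

theorem asym2 (D : ℕ) (hD : 1 ≤ D) (θ : ℝ) (h0 : 0 < θ) (h1 : θ ≤ 1) :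
    Tendsto (fun m : ℕ =>
      (((2 : ℝ) ^ (m ^ (D + 1) / (2 * (D + 1)))) ^ (D + 1) * (2 * (D + 1) * (KK m + 4) ^ D) + 1) *
        ((2 * (D + 1) * (KK m + 4) ^ D + 1) * (KK m + 6) ^ (D + 1) * Real.log (4 * (D + 1)) /
          (2 ^ (m ^ (D + 1)) * Real.log 2)) /
      θ ^ (4 * (D + 1) ^ 2 * (KK m + 4) ^ D + 2 * (D + 1) * (c0 + 20))) atTop (𝓝 0) := by
  obtain ⟨B, hB⟩ := as_theta D θ h0 h1
  obtain ⟨a, ha⟩ : ∃ a : ℝ, a = 1310406 := ⟨_, rfl⟩
  have ha0 : 0 ≤ a := by rw [ha]; norm_num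
  have hl : 0 < Real.log 2 := Real.log_pos (by norm_num)
  have hl4 : 0 ≤ Real.log (4 * (D + 1)) := by
    apply Real.log_nonneg
    have : (0 : ℝ) ≤ D := Nat.cast_nonneg D
    linarith
  have key := as_gen D hD (D + D + (D + 1))
    ((2 * (D + 1) * a ^ D + 1) * (2 * (D + 1) * a ^ D + 1) * a ^ (D + 1) *
      (Real.log (4 * (D + 1)) / Real.log 2)) B (Real.log 2 / 2)
    (by positivity) (by positivity)
  refine squeeze_zero' (Eventually.of_forall fun m => ?_) ?_ key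
  · positivity
  · filter_upwards [eventually_ge_atTop 1] with m hm
    have hm1 : (1 : ℝ) ≤ m := by exact_mod_cast hm
    have h2 : (KK m + 6 : ℝ) ≤ a * m := by
      unfold KK
      push_cast
      rw [ha]
      linarith
    have h2' : (KK m + 4 : ℝ) ≤ a * m := by linarith
    have h3 : (KK m + 6 : ℝ) ^ (D + 1) ≤ a ^ (D + 1) * (m : ℝ) ^ (D + 1) := by
      rw [← mul_pow]
      exact pow_le_pow_left₀ (by positivity) h2 _
    have h3' : (KK m + 4 : ℝ) ^ D ≤ a ^ D * (m : ℝ) ^ D := by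
      rw [← mul_pow]
      exact pow_le_pow_left₀ (by positivity) h2' _
    have hmD : (1 : ℝ) ≤ (m : ℝ) ^ D := one_le_pow₀ hm1
    have h4 := hB m hm
    set T := θ ^ (4 * (D + 1) ^ 2 * (KK m + 4) ^ D + 2 * (D + 1) * (c0 + 20)) with hT
    have hT0 : 0 < T := by positivity
    set n := m ^ (D + 1) with hn
    have hW : ((2 : ℝ) ^ (n / (2 * (D + 1)))) ^ (D + 1) ≤ Real.exp (Real.log 2 / 2 * n) := by
      rw [← pow_mul, as_exp (show (0 : ℝ) < 2 by norm_num), Real.exp_le_exp]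
      have h5 : n / (2 * (D + 1)) * (2 * (D + 1)) ≤ n := Nat.div_mul_le_self _ _
      have h6 : ((n / (2 * (D + 1)) * (D + 1) : ℕ) : ℝ) ≤ (n : ℝ) / 2 := by
        rw [le_div_iff₀ (by norm_num)]
        have h7 : n / (2 * (D + 1)) * (D + 1) * 2 ≤ n := by
          calc n / (2 * (D + 1)) * (D + 1) * 2 = n / (2 * (D + 1)) * (2 * (D + 1)) := by ring
            _ ≤ n := h5
        exact_mod_cast h7
      calc ((n / (2 * (D + 1)) * (D + 1) : ℕ) : ℝ) * Real.log 2 ≤ (n : ℝ) / 2 * Real.log 2 :=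
            mul_le_mul_of_nonneg_right h6 hl.le
        _ = Real.log 2 / 2 * n := by ring
    have hP : 2 * (D + 1) * (KK m + 4 : ℝ) ^ D + 1 ≤ (2 * (D + 1) * a ^ D + 1) * (m : ℝ) ^ D := by
      calc 2 * (D + 1) * (KK m + 4 : ℝ) ^ D + 1 ≤ 2 * (D + 1) * (a ^ D * (m : ℝ) ^ D) +
            (m : ℝ) ^ D := by gcongr
        _ = _ := by ring
    have hE : 1 ≤ Real.exp (Real.log 2 / 2 * n) := Real.one_le_exp (by positivity)
    have hQ : ((2 : ℝ) ^ (n / (2 * (D + 1)))) ^ (D + 1) * (2 * (D + 1) * (KK m + 4) ^ D) + 1 ≤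
        Real.exp (Real.log 2 / 2 * n) * ((2 * (D + 1) * a ^ D + 1) * (m : ℝ) ^ D) := by
      calc ((2 : ℝ) ^ (n / (2 * (D + 1)))) ^ (D + 1) * (2 * (D + 1) * (KK m + 4) ^ D) + 1
          ≤ Real.exp (Real.log 2 / 2 * n) * (2 * (D + 1) * (KK m + 4) ^ D) +
            Real.exp (Real.log 2 / 2 * n) := by
            refine add_le_add (mul_le_mul_of_nonneg_right hW (by positivity)) hE
        _ = Real.exp (Real.log 2 / 2 * n) * (2 * (D + 1) * (KK m + 4) ^ D + 1) := by ring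
        _ ≤ _ := mul_le_mul_of_nonneg_left hP (Real.exp_pos _).le
    rw [div_eq_mul_inv _ T, div_eq_mul_inv _ ((2 : ℝ) ^ n * Real.log 2), mul_inv]
    have hn2 : ((2 : ℝ) ^ n)⁻¹ = Real.exp (-(Real.log 2 * n)) := by
      rw [as_exp (show (0 : ℝ) < 2 by norm_num), Real.exp_neg, mul_comm]
    rw [hn2]
    calc _ ≤ (Real.exp (Real.log 2 / 2 * n) * ((2 * (D + 1) * a ^ D + 1) * (m : ℝ) ^ D)) *
          (((2 * (D + 1) * a ^ D + 1) * (m : ℝ) ^ D) * (a ^ (D + 1) * (m : ℝ) ^ (D + 1)) *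
            Real.log (4 * (D + 1)) * (Real.exp (-(Real.log 2 * n)) * (Real.log 2)⁻¹)) *
          Real.exp (B * (m : ℝ) ^ D) := by
          gcongr
      _ = _ := by
          have e1 : B * (m : ℝ) ^ D - Real.log 2 / 2 * (m : ℝ) ^ (D + 1) =
              Real.log 2 / 2 * n + (-(Real.log 2 * n) + B * (m : ℝ) ^ D) := by
            rw [hn]
            push_cast
            ring
          rw [e1, Real.exp_add, Real.exp_add, div_eq_mul_inv]
          ring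

end Pool.Agent.TH974.IH
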