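import Mathlib
import Pool.Agent.TH974.IH.Box
import Pool.Agent.TH645.J2185
import Pool.Agent.TH645.J2186
import Pool.Agent.TH611.J2195
import Pool.Agent.TH611.J2197

/-! Job 2372: from quantitative estimates to the almost sure statement. -/

set_option autoImplicit false

open Finset MeasureTheory ProbabilityTheory Filter Topology
open scoped ENNReal NNReal

namespace Pool.Agent.TH974.IH

open Pool.Agent.TH645.IH (perc_prob perc_shift perc_cyl)
open Pool.Agent.TH611.J2195 (EB_fin EB_disj)
open Pool.Agent.TH611.J2197 (final_zero)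

theorem t3_lap {d : ℕ} (ω : Env d) (u : Zd d → ℤ) (z x : Zd d) :
    Lap (sh z ω) (fun y => u (y + z)) x = Lap ω u (x + z) := by
  unfold Lap sh
  refine Finset.sum_congr rfl fun i _ => ?_
  have e1 : x + Pi.single i 1 + z = x + z + Pi.single i 1 := by abel
  have e2 : x - Pi.single i 1 + z = x + z - Pi.single i 1 := by abel
  simp only [e1, e2]

/-- the origin of the box number `m` -/
def t3_z {d : ℕ} (v : Zd d) (m : ℕ) : Zd d := v - fun _ => 655200 * (m : ℤ) + 2

theorem t3_eds {d : ℕ} (V : Finset (Zd d)) (e : Ed d) (h1 : e.1 ∈ V) (h2 : hd e ∈ V) :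
    e ∈ eds V := by
  unfold eds
  rw [Finset.mem_filter, Finset.mem_product]
  exact ⟨⟨h1, Finset.mem_univ _⟩, h2⟩

theorem t3_edge {d : ℕ} (m : ℕ) (i : Fin d) :
    ((fun _ => 655200 * (m : ℤ) + 2, i) : Ed d) ∈ (X2 d (KK m)).E := by
  have h1 : (fun _ => 655200 * (m : ℤ) + 2 : Zd d) ∈ Rm d (KK m) := by
    unfold Rm cube
    rw [Fintype.mem_piFinset]
    intro j
    rw [Finset.mem_Icc]
    unfold KK
    push_cast
    constructor <;> omega
  have h2 : hd ((fun _ => 655200 * (m : ℤ) + 2, i) : Ed d) ∈ Rm d (KK m) := by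
    unfold Rm cube hd
    rw [Fintype.mem_piFinset]
    intro j
    rw [Finset.mem_Icc, Pi.add_apply]
    unfold KK
    push_cast
    by_cases hj : j = i
    · subst hj
      rw [Pi.single_eq_same]
      constructor <;> omega
    · rw [Pi.single_eq_of_ne hj]
      constructor <;> omega
  exact t3_eds _ _ (Finset.mem_union_left _ h1) (Finset.mem_union_left _ h2)

theorem main2 (D : ℕ) (hD : 1 ≤ D) (p : ℝ) (hp0 : 0 < p) (hp1 : p < 1) (qs rs : ℕ → ℕ)
    (hq : ∀ᶠ m in atTop, m < qs m)
    (h : Tendsto (fun m => (perc (D + 1) p).real {ω | ω ∈ (X2 (D + 1) (KK m)).G ∧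
      ∃ u, HarC (rs m) ω u ∧ ∃ e ∈ (X2 (D + 1) (KK m)).E, ω e = true ∧
        (u e.1 : ZMod (qs m)) ≠ u (hd e)}) atTop (𝓝 0)) :
    ∀ᵐ ω ∂(perc (D + 1) p), ∀ u : Zd (D + 1) → ℤ, (∀ x, Lap ω u x = 0) →
      ∀ e, ω e = true → u (hd e) = u e.1 := by
  classical
  have hprob := perc_prob (d := D + 1) p hp0.le hp1.le
  set d := D + 1 with hd'
  -- the bad events
  have key : ∀ (e : Ed d) (M : ℕ), perc d p {ω | ω e = true ∧ ∃ u : Zd d → ℤ,
      (∀ x, Lap ω u x = 0) ∧ u (hd e) ≠ u e.1 ∧ |u (hd e) - u e.1| ≤ M} = 0 := by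
    rintro ⟨v, i⟩ M
    choose EF' hEF' hcard using fun m => EB_fin d (KK m)
    let G : ℕ → Set (Env d) := fun m => {ω | sh (t3_z v m) ω ∈ (X2 d (KK m)).G}
    let F : ℕ → Finset (Ed d) := fun m => (EF' m).image fun f => (f.1 + t3_z v m, f.2)
    have hmem : ∀ m f, f ∈ EB d (KK m) ↔ f ∈ EF' m := fun m f => by
      rw [← hEF' m]
      exact Finset.mem_coe
    refine final_zero p hp0.le hp1.le F G ?_ ?_ (p ^ (4 * d ^ 2)) (by positivity) ?_ _ ?_
    · intro m ω ω' hω
      have h1 : ∀ f ∈ EB d (KK m), sh (t3_z v m) ω f = sh (t3_z v m) ω' f := by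
        intro f hf
        apply hω
        rw [Finset.mem_coe, Finset.mem_image]
        exact ⟨f, (hmem m f).1 hf, rfl⟩
      show (∀ f ∈ EB d (KK m), sh (t3_z v m) ω f = true) ↔
        (∀ f ∈ EB d (KK m), sh (t3_z v m) ω' f = true)
      constructor
      · intro h2 f hf
        rw [← h1 f hf]
        exact h2 f hf
      · intro h2 f hf
        rw [h1 f hf]
        exact h2 f hf
    · intro m m' hmm
      rw [Finset.disjoint_left]
      intro e he he'
      rw [Finset.mem_image] at he he'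
      obtain ⟨f, hf, rfl⟩ := he
      obtain ⟨f', hf', hff⟩ := he'
      refine EB_disj v m m' hmm (f.1 + t3_z v m, f.2) ?_ ?_
      · show (f.1 + t3_z v m - t3_z v m, f.2) ∈ EB d (KK m)
        rw [add_sub_cancel_right]
        exact (hmem m f).2 hf
      · show (f.1 + t3_z v m - t3_z v m', f.2) ∈ EB d (KK m')
        have h1 : f'.1 + t3_z v m' = f.1 + t3_z v m := (Prod.mk.inj hff).1
        have h2 : f'.2 = f.2 := (Prod.mk.inj hff).2
        rw [← h1, add_sub_cancel_right, ← h2]
        exact (hmem m' f').2 hf'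
    · intro m
      have h1 : perc d p (G m) = perc d p (X2 d (KK m)).G :=
        perc_shift p hp0.le hp1.le (t3_z v m) _
      have h2 : (X2 d (KK m)).G = {ω | ∀ e ∈ EF' m, ω e = true} := by
        ext ω
        show (∀ f ∈ EB d (KK m), ω f = true) ↔ _
        simp only [hmem]
        exact Iff.rfl
      unfold Measure.real
      rw [h1, h2]
      have h3 := perc_cyl p hp0.le hp1.le (EF' m) (fun _ => true)
      unfold Measure.real at h3
      rw [h3]
      simp only [if_true]
      rw [Finset.prod_const]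
      exact pow_le_pow_of_le_one hp0.le hp1.le (hcard m)
    · refine squeeze_zero' (Eventually.of_forall fun m => measureReal_nonneg) ?_ h
      filter_upwards [hq, eventually_ge_atTop M] with m hm1 hm2
      have h1 := perc_shift p hp0.le hp1.le (t3_z v m)
        {ω : Env d | ω ∈ (X2 d (KK m)).G ∧ ∃ u, HarC (rs m) ω u ∧
          ∃ e ∈ (X2 d (KK m)).E, ω e = true ∧ (u e.1 : ZMod (qs m)) ≠ u (hd e)}
      unfold Measure.real
      rw [← h1]
      apply ENNReal.toReal_mono (measure_ne_top _ _)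
      apply measure_mono
      rintro ω ⟨⟨hω, u, hu, hne, hM⟩, hG⟩
      refine ⟨hG, fun y => u (y + t3_z v m), fun x _ => ?_,
        ((fun _ => 655200 * (m : ℤ) + 2, i) : Ed d), t3_edge m i, ?_, ?_⟩
      · rw [t3_lap]
        exact hu _
      · show ω ((fun _ => 655200 * (m : ℤ) + 2) + t3_z v m, i) = true
        have : (fun _ => 655200 * (m : ℤ) + 2) + t3_z v m = v := by
          unfold t3_z
          abel
        rw [this]
        exact hω
      · have e1 : (fun _ => 655200 * (m : ℤ) + 2) + t3_z v m = v := by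
          unfold t3_z
          abel
        have e2 : hd ((fun _ => 655200 * (m : ℤ) + 2, i) : Ed d) + t3_z v m = hd (v, i) := by
          unfold hd
          show (fun _ => 655200 * (m : ℤ) + 2) + Pi.single i 1 + t3_z v m = v + Pi.single i 1
          rw [add_right_comm, e1]
        show ((u ((fun _ => 655200 * (m : ℤ) + 2) + t3_z v m) : ℤ) : ZMod (qs m)) ≠
          ((u (hd ((fun _ => 655200 * (m : ℤ) + 2, i) : Ed d) + t3_z v m) : ℤ) : ZMod (qs m))
        rw [e1, e2]
        intro heq
        rw [ZMod.intCast_eq_intCast_iff_dvd_sub] at heq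
        have h2 : |u (hd (v, i)) - u v| < (qs m : ℤ) := by
          have : (M : ℤ) < qs m := by exact_mod_cast lt_of_le_of_lt hm2 hm1
          exact lt_of_le_of_lt hM this
        have h3 := Int.eq_zero_of_abs_lt_dvd heq h2
        exact hne (by
          show u (hd (v, i)) = u v
          linarith)
  have h2 : ∀ᵐ ω ∂(perc d p), ∀ q : Ed d × ℕ, ¬ (ω q.1 = true ∧ ∃ u : Zd d → ℤ,
      (∀ x, Lap ω u x = 0) ∧ u (hd q.1) ≠ u q.1.1 ∧ |u (hd q.1) - u q.1.1| ≤ q.2) := by
    rw [ae_all_iff]
    rintro ⟨e, M⟩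
    rw [ae_iff]
    simp only [not_not]
    exact key e M
  filter_upwards [h2] with ω hω u hu e he
  by_contra hne
  exact hω (e, (u (hd e) - u e.1).natAbs) ⟨he, u, hu, hne, by simp⟩

end Pool.Agent.TH974.IH
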