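import Pool.Agent.TH37.SD.Defs

/-! Project SD (helper37), job 3282: three HNN extensions give the uniform embedding. -/

set_option autoImplicit false

namespace Pool.Agent.TH914.SDD3

open Pool.Agent.TH37.SD

/-- the conclusion of `ExtHStmt` for one prime -/
def ExtH (p : ℕ) : Prop :=
  ∀ (C : Type) [Group C] (z : C), AT p z → ∀ (U V : Subgroup C) (ψ : U ≃* V)
  (hU : z ∈ U) (_ : z ∈ V), (ψ ⟨z, hU⟩ : C) = z → MZ z U → MZ z V → SZ z U V →
  ∃ (C' : Type) (_ : Group C') (ι : C →* C') (t : C'),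
    Function.Injective ι ∧ AT p (ι z) ∧ (∀ u : U, t * ι u * t⁻¹ = ι (ψ u : C)) ∧
    MZ (ι z) (U.map ι) ∧
    (∀ W : Subgroup C, z ∈ W → MZ z W → SZ z W U → SZ z W V →
      MZ (ι z) (W.map ι) ∧ SZ (ι z) (W.map ι) (U.map ι)) ∧
    (∀ W W' : Subgroup C, z ∈ W → z ∈ W' → SZ z W U → SZ z W V → SZ z W W' →
      SZ (ι z) (W.map ι) (W'.map ι))

lemma sz_symm {C : Type} [Group C] {z : C} (hz : ∀ a : C, a * z = z * a) {U V : Subgroup C}
    (h : SZ z U V) : SZ z V U := by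
  intro a ha haz g hg
  have hcz : ∀ b ∈ Subgroup.zpowers z, ∀ g : C, g * b * g⁻¹ = b := by
    intro b hb g
    obtain ⟨k, rfl⟩ := Subgroup.mem_zpowers_iff.1 hb
    have h1 : Commute g (z ^ k) := Commute.zpow_right (hz g) k
    rw [h1.eq, mul_inv_cancel_right]
  have h1 : g * a * g⁻¹ ∉ Subgroup.zpowers z := by
    intro hb
    apply haz
    have h2 := hcz _ hb g⁻¹
    have h3 : g⁻¹ * (g * a * g⁻¹) * g⁻¹⁻¹ = a := by group
    rw [h3] at h2
    rw [h2]
    exact hb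
  apply h _ hg h1 g⁻¹
  have h3 : g⁻¹ * (g * a * g⁻¹) * g⁻¹⁻¹ = a := by group
  rw [h3]
  exact ha

/-- one step in transported form -/
lemma step {p : ℕ} (hE : ExtH p) {C D : Type} [Group C] [Group D] {z : C} (j : C →* D)
    (hj : Function.Injective j) (hAT : AT p (j z)) {A V : Subgroup C} (ψ : A ≃* V) (hA : z ∈ A)
    (hV : z ∈ V) (hψ : (ψ ⟨z, hA⟩ : C) = z) (mA : MZ (j z) (A.map j)) (mV : MZ (j z) (V.map j))
    (sAV : SZ (j z) (A.map j) (V.map j)) :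
    ∃ (D' : Type) (_ : Group D') (i : D →* D') (t : D'),
      Function.Injective i ∧ AT p (i (j z)) ∧
      (∀ (a : C) (ha : a ∈ A), t * i (j a) * t⁻¹ = i (j (ψ ⟨a, ha⟩ : C))) ∧
      MZ ((i.comp j) z) (A.map (i.comp j)) ∧
      (∀ W : Subgroup C, z ∈ W → MZ (j z) (W.map j) → SZ (j z) (W.map j) (A.map j) →
        SZ (j z) (W.map j) (V.map j) →
        MZ ((i.comp j) z) (W.map (i.comp j)) ∧
          SZ ((i.comp j) z) (W.map (i.comp j)) (A.map (i.comp j))) ∧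
      (∀ W W' : Subgroup C, z ∈ W → z ∈ W' → SZ (j z) (W.map j) (A.map j) →
        SZ (j z) (W.map j) (V.map j) → SZ (j z) (W.map j) (W'.map j) →
        SZ ((i.comp j) z) (W.map (i.comp j)) (W'.map (i.comp j))) := by
  set Ψ : (A.map j : Subgroup D) ≃* (V.map j : Subgroup D) :=
    (A.equivMapOfInjective j hj).symm.trans (ψ.trans (V.equivMapOfInjective j hj)) with hΨ
  have hΨv : ∀ (a : C) (ha : a ∈ A) (h : j a ∈ A.map j), (Ψ ⟨j a, h⟩ : D) = j (ψ ⟨a, ha⟩ : C) := by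
    intro a ha h
    have h1 : (A.equivMapOfInjective j hj).symm ⟨j a, h⟩ = ⟨a, ha⟩ := by
      rw [MulEquiv.symm_apply_eq]
      apply Subtype.ext
      rw [Subgroup.coe_equivMapOfInjective_apply]
    rw [hΨ]
    simp only [MulEquiv.trans_apply, h1, Subgroup.coe_equivMapOfInjective_apply]
  have hzA : j z ∈ A.map j := Subgroup.mem_map_of_mem j hA
  have hzV : j z ∈ V.map j := Subgroup.mem_map_of_mem j hV
  obtain ⟨D', gD', i, t, hi, hAT', ht, m1, m2, m3⟩ := hE D (j z) hAT (A.map j) (V.map j) Ψ hzA hzV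
    (by rw [hΨv z hA, hψ]) mA mV sAV
  refine ⟨D', gD', i, t, hi, hAT', ?_, ?_, ?_, ?_⟩
  · intro a ha
    have h1 := ht ⟨j a, Subgroup.mem_map_of_mem j ha⟩
    rw [hΨv a ha] at h1
    exact h1
  · rw [← Subgroup.map_map]
    exact m1
  · intro W hW h1 h2 h3
    rw [← Subgroup.map_map, ← Subgroup.map_map]
    exact m2 (W.map j) (Subgroup.mem_map_of_mem j hW) h1 h2 h3
  · intro W W' hW hW' h1 h2 h3
    rw [← Subgroup.map_map, ← Subgroup.map_map]
    exact m3 (W.map j) (W'.map j) (Subgroup.mem_map_of_mem j hW) (Subgroup.mem_map_of_mem j hW')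
      h1 h2 h3

theorem el (hB : BaseStmt) (hE : ExtHStmt) : ELStmt := by
  obtain ⟨pB, hB⟩ := hB
  obtain ⟨pE, hE⟩ := hE
  refine ⟨max pB pE, fun p hp hpm => ?_⟩
  intro s C _ z hz c
  have hE' : ExtH p := hE p hp ((le_max_right _ _).trans hpm)
  obtain ⟨C0, _, ι, x, y, A, At, Au, Aw, ψt, ψu, ψw, hι, hAT, ⟨zA, zt, zu, zw⟩, hψz,
    ⟨mA, mt, mu, mw⟩, ⟨sAt, sAu, sAw, stu, stw, suw⟩, hx, hr⟩ :=
    hB p hp ((le_max_left _ _).trans hpm) s C z hz c
  obtain ⟨ψtz, ψuz, ψwz⟩ := hψz zA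
  -- step 1
  have hid : ∀ W : Subgroup C0, W.map (MonoidHom.id C0) = W := fun W => Subgroup.map_id W
  obtain ⟨C1, _, i1, t, hi1, hAT1, ht, m1, n1, k1⟩ := step hE' (z := ι z) (MonoidHom.id C0)
    Function.injective_id hAT ψt zA zt ψtz (by rw [hid]; exact mA) (by rw [hid]; exact mt)
    (by rw [hid, hid]; exact sAt)
  simp only [hid, MonoidHom.comp_id, MonoidHom.id_apply] at hAT1 ht m1 n1 k1
  have c0 := hAT.cen
  obtain ⟨mu1, suA1⟩ := n1 Au zu mu (sz_symm c0 sAu) (sz_symm c0 stu)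
  obtain ⟨mw1, swA1⟩ := n1 Aw zw mw (sz_symm c0 sAw) (sz_symm c0 stw)
  have suw1 := k1 Au Aw zu zw (sz_symm c0 sAu) (sz_symm c0 stu) suw
  -- step 2
  have c1 := hAT1.cen
  obtain ⟨C2, _, i2, u, hi2, hAT2, hu, m2, n2, k2⟩ := step hE' (z := ι z) i1 hi1 hAT1 ψu zA zu ψuz
    m1 mu1 (sz_symm c1 suA1)
  obtain ⟨mw2, swA2⟩ := n2 Aw zw mw1 swA1 (sz_symm c1 suw1)
  -- step 3
  have c2 := hAT2.cen
  obtain ⟨C3, _, i3, w, hi3, hAT3, hw, m3, n3, k3⟩ := step hE' (z := ι z) (i2.comp i1)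
    (hi2.comp hi1) hAT2 ψw zA zw ψwz m2 mw2 (sz_symm c2 swA2)
  simp only [MonoidHom.comp_apply] at hAT3 hw
  -- the embedding
  set I : C0 →* C3 := i3.comp (i2.comp i1) with hI
  have hIinj : Function.Injective I := hi3.comp (hi2.comp hi1)
  set b : Fin 4 → C3 := ![I (x 0), i3 (i2 t), i3 u, w] with hb
  have b0 : b 0 = I (x 0) := rfl
  have b1 : b 1 = i3 (i2 t) := rfl
  have b2 : b 2 = i3 u := rfl
  have b3 : b 3 = w := rfl
  have cT : ∀ (a : C0) (ha : a ∈ A), b 1 * I a * (b 1)⁻¹ = I (ψt ⟨a, ha⟩ : C0) := by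
    intro a ha
    have h1 := congrArg (fun g => i3 (i2 g)) (ht a ha)
    simp only [map_mul, map_inv] at h1
    rw [b1]
    exact h1
  have cU : ∀ (a : C0) (ha : a ∈ A), b 2 * I a * (b 2)⁻¹ = I (ψu ⟨a, ha⟩ : C0) := by
    intro a ha
    have h1 := congrArg i3 (hu a ha)
    simp only [map_mul, map_inv] at h1
    rw [b2]
    exact h1
  have cW : ∀ (a : C0) (ha : a ∈ A), b 3 * I a * (b 3)⁻¹ = I (ψw ⟨a, ha⟩ : C0) := by
    intro a ha
    rw [b3]
    exact hw a ha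
  have hXW : ∀ (n : ℕ) (hn : n < s + 1), FreeGroup.lift b (XW n) = I (x ⟨n, hn⟩) := by
    intro n
    induction n with
    | zero =>
      intro hn
      rw [XW, FreeGroup.lift_apply_of, b0]
      rfl
    | succ n ih =>
      intro hn
      have hn' : n < s := by omega
      obtain ⟨ha, e1, e2, -⟩ := hx ⟨n, hn'⟩
      have ih' : FreeGroup.lift b (XW n) = I (x (Fin.castSucc ⟨n, hn'⟩)) := ih (by omega)
      rw [XW]
      simp only [map_mul, map_inv, FreeGroup.lift_apply_of]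
      rw [ih', cU _ ha, cT _ ha, e1, e2, map_mul, mul_inv_cancel_right]
      rfl
  refine ⟨C3, inferInstance, I.comp ι, b, hIinj.comp hι, hAT3, ?_, ?_⟩
  · intro i
    obtain ⟨ha, e1, -, e3⟩ := hx i
    have hXi : FreeGroup.lift b (XW i) = I (x i.castSucc) := hXW i (by omega)
    rw [TW]
    simp only [map_mul, map_inv, FreeGroup.lift_apply_of]
    rw [hXi, cW _ ha, cT _ ha, e1, e3]
    simp only [map_mul, MonoidHom.comp_apply]
    group
  · intro i j hij hmem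
    have hXi : FreeGroup.lift b (XW i) = I (x i.castSucc) := hXW i (by omega)
    have hXj : FreeGroup.lift b (XW j) = I (x j.castSucc) := hXW j (by omega)
    rw [hXi, hXj, ← map_inv, ← map_mul] at hmem
    obtain ⟨g, hg⟩ := hmem
    apply hr i j hij
    exact ⟨g, hIinj hg⟩

end Pool.Agent.TH914.SDD3
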