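import Mathlib
import Pool.Agent.TH109.M.Defs

/-!
Basic facts about alternating sums, chains and cochains of `Pool.Agent.TH109.M.Defs`
(used by jobs 1551 and 1552).
-/

set_option autoImplicit false
set_option linter.unusedSectionVars false
open scoped Classical
namespace Pool.Agent.TH914.AltB
open Pool.Agent.Helper943.LM (UA wpow)
open Pool.Agent.TH109.M

section alt
variable {ι M N : Type} [AddCommGroup M] [AddCommGroup N]

theorem alt_nil (F : ι → List ι → M) : alt F [] = 0 := rfl
theorem alt_cons (F : ι → List ι → M) (b : ι) (bs : List ι) :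
    alt F (b :: bs) = F b bs - alt (fun a l => F a (b :: l)) bs := rfl

theorem alt_congr (l : List ι) : ∀ (F F' : ι → List ι → M)
    (_ : ∀ a l', a ∈ l → (∀ x ∈ l', x ∈ l) → l'.length + 1 = l.length → F a l' = F' a l'),
    alt F l = alt F' l := by
  induction l with
  | nil => intro F F' _; rfl
  | cons b bs ih =>
    intro F F' h
    rw [alt_cons, alt_cons]
    congr 1
    · exact h b bs (by simp) (fun x hx => List.mem_cons_of_mem _ hx) (by simp)
    · apply ih
      intro a l' ha hl' hlen
      apply h a (b :: l') (List.mem_cons_of_mem _ ha)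
      · intro x hx
        rcases List.mem_cons.mp hx with rfl | hx
        · simp
        · exact List.mem_cons_of_mem _ (hl' x hx)
      · simpa using hlen

theorem map_alt {F : Type} [FunLike F M N] [AddMonoidHomClass F M N] (φ : F) (l : List ι) :
    ∀ (f : ι → List ι → M), φ (alt f l) = alt (fun a l' => φ (f a l')) l := by
  induction l with
  | nil => intro f; exact map_zero φ
  | cons b bs ih =>
    intro f
    rw [alt_cons, alt_cons, map_sub, ih]

theorem alt_zero (l : List ι) : alt (fun (_ : ι) (_ : List ι) => (0 : M)) l = 0 := by
  induction l with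
  | nil => rfl
  | cons b bs ih => rw [alt_cons, ih, sub_zero]

theorem alt_add (l : List ι) : ∀ (f g : ι → List ι → M),
    alt (fun a l' => f a l' + g a l') l = alt f l + alt g l := by
  induction l with
  | nil => intro f g; simp [alt_nil]
  | cons b bs ih =>
    intro f g
    rw [alt_cons, alt_cons, alt_cons, ih]
    abel

theorem alt_neg (l : List ι) : ∀ (f : ι → List ι → M),
    alt (fun a l' => - f a l') l = - alt f l := by
  induction l with
  | nil => intro f; simp [alt_nil]
  | cons b bs ih =>
    intro f
    rw [alt_cons, alt_cons, ih]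
    abel

theorem alt_sub (l : List ι) (f g : ι → List ι → M) :
    alt (fun a l' => f a l' - g a l') l = alt f l - alt g l := by
  have h := alt_add l f (fun a l' => - g a l')
  rw [alt_neg] at h
  simpa [sub_eq_add_neg] using h

theorem alt_mul_left {K : Type} [Ring K] (c : K) (l : List ι) (f : ι → List ι → K) :
    alt (fun a l' => c * f a l') l = c * alt f l :=
  (map_alt (AddMonoidHom.mulLeft c) l f).symm

theorem alt_ofFn {n : ℕ} : ∀ (F : ι → List ι → M) (b : Fin (n + 1) → ι),
    alt F (List.ofFn b) =
      ∑ j : Fin (n + 1), ((-1 : ℤ) ^ (j : ℕ)) • F (b j) (List.ofFn (b ∘ j.succAbove)) := by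
  induction n with
  | zero =>
    intro F b
    simp [alt_cons, alt_nil]
  | succ n ih =>
    intro F b
    rw [List.ofFn_succ, alt_cons, ih, Fin.sum_univ_succ (n := n + 1)]
    have h1 : (List.ofFn (b ∘ (0 : Fin (n + 2)).succAbove)) = List.ofFn (fun i => b i.succ) := by
      congr 1
    rw [h1]
    simp only [Fin.val_zero, pow_zero, one_smul]
    rw [sub_eq_add_neg, ← Finset.sum_neg_distrib]
    congr 1
    apply Finset.sum_congr rfl
    intro j _
    have h2 : List.ofFn (b ∘ j.succ.succAbove) =
        b 0 :: List.ofFn ((fun i => b i.succ) ∘ j.succAbove) := by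
      rw [List.ofFn_succ]
      congr 1
      congr 1
      funext i
      simp [Fin.succ_succAbove_succ]
    rw [h2, Fin.val_succ, pow_succ]
    simp

end alt

section chains
variable {G : Type} [Group G]

theorem bd_single (l : List G) (n : ℤ) :
    bd (Finsupp.single l n) = n • alt (fun _ l' => Finsupp.single l' (1 : ℤ)) l := by
  simp [bd]

theorem pa_single {K : Type} [AddCommGroup K] (ψ : List G → K) (l : List G) (n : ℤ) :
    pa ψ (Finsupp.single l n) = n • ψ l := by
  simp [pa]

theorem pa_dl {K : Type} [AddCommGroup K] (ψ : List G → K) (c : Ch G) :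
    pa (dl ψ) c = pa ψ (bd c) := by
  induction c using Finsupp.induction_linear with
  | zero => simp
  | add f g hf hg => rw [map_add, map_add, map_add, hf, hg]
  | single l n =>
    rw [pa_single, bd_single, map_zsmul, map_alt]
    simp [dl, pa_single]

theorem pa_tr {K : Type} [AddCommGroup K] (ψ : List G → K) (b : G) (c : Ch G) :
    pa ψ (tr b c) = pa (tc b ψ) c := by
  induction c using Finsupp.induction_linear with
  | zero => simp
  | add f g hf hg => rw [map_add, map_add, map_add, hf, hg]
  | single l n =>
    rw [pa_single]
    simp [tr, tc, Finsupp.lmapDomain_apply, Finsupp.mapDomain_single, pa_single]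

theorem pa_sub {K : Type} [AddCommGroup K] (φ ψ : List G → K) (c : Ch G) :
    pa (fun x => φ x - ψ x) c = pa φ c - pa ψ c := by
  induction c using Finsupp.induction_linear with
  | zero => simp
  | add f g hf hg => rw [map_add, map_add, map_add, hf, hg]; abel
  | single l n => simp [pa_single, smul_sub]

theorem pa_congr {K : Type} [AddCommGroup K] (φ ψ : List G → K) (c : Ch G)
    (h : ∀ l ∈ c.support, φ l = ψ l) : pa φ c = pa ψ c := by
  simp only [pa, Finsupp.linearCombination_apply]
  exact Finsupp.sum_congr fun l hl => by rw [h l hl]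

theorem pa_zero {K : Type} [AddCommGroup K] (c : Ch G) :
    pa (fun _ : List G => (0 : K)) c = 0 := by
  simp [pa, Finsupp.linearCombination_apply]

theorem pa_mul {K : Type} [CommRing K] (x : K) (φ : List G → K) (c : Ch G) :
    pa (fun l => x * φ l) c = x * pa φ c := by
  induction c using Finsupp.induction_linear with
  | zero => simp
  | add f g hf hg => rw [map_add, map_add, hf, hg]; ring
  | single l n =>
    simp only [pa_single, zsmul_eq_mul]
    ring

end chains

end Pool.Agent.TH914.AltB
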