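import Mathlib
import Pool.Agent.TH109.M.Defs
import Pool.Agent.TH914.AltB

/-! Job 1551 (METAB-1): boxes: size bounds and boundary formula. -/

set_option autoImplicit false
set_option linter.unusedSectionVars false
open scoped Classical
namespace Pool.Agent.TH914.J1551
open Pool.Agent.Helper943.LM (UA wpow lenS)
open Pool.Agent.TH109.M
open Pool.Agent.TH914.AltB
variable {G : Type} [Group G]

/-! ### lengths -/

theorem len_letters (U : UA G) (φ : U.A → G) : ∃ C : ℕ, ∀ (g : G) (a : U.A),
    len U (g * φ a) ≤ len U g + C := by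
  have := U.finA
  choose C hC using fun a : U.A => lenS U (φ a)
  obtain ⟨R, hR⟩ := (Set.finite_range C).bddAbove
  refine ⟨R, fun g a => ?_⟩
  have h1 := hC a (nf U g) (nf_mem U g) (nf U (g * φ a)) (nf_mem U _)
    (by rw [nf_ev, nf_ev])
  have h2 : C a ≤ R := hR ⟨a, rfl⟩
  unfold len
  omega

theorem len_ev (U : UA G) : ∃ C : ℕ, ∀ (w : List U.A) (g : G),
    len U (g * U.ev w) ≤ len U g + C * w.length := by
  obtain ⟨C, hC⟩ := len_letters U U.mu
  refine ⟨C, fun w => ?_⟩
  induction w with
  | nil => intro g; simp [UA.ev]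
  | cons a w ih =>
    intro g
    have e : g * U.ev (a :: w) = (g * U.mu a) * U.ev w := by simp [UA.ev, mul_assoc]
    rw [e]
    have h1 := ih (g * U.mu a)
    have h2 := hC g a
    rw [List.length_cons]
    calc _ ≤ len U (g * U.mu a) + C * w.length := h1
      _ ≤ len U g + C + C * w.length := by omega
      _ = _ := by ring

theorem len_ev_inv (U : UA G) : ∃ C : ℕ, ∀ (w : List U.A) (g : G),
    len U (g * (U.ev w)⁻¹) ≤ len U g + C * w.length := by
  obtain ⟨C, hC⟩ := len_letters U (fun a => (U.mu a)⁻¹)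
  refine ⟨C, fun w => ?_⟩
  induction w with
  | nil => intro g; simp [UA.ev]
  | cons a w ih =>
    intro g
    have e : g * (U.ev (a :: w))⁻¹ = (g * (U.ev w)⁻¹) * (U.mu a)⁻¹ := by
      simp [UA.ev, mul_assoc]
    rw [e]
    have h1 := ih g
    have h2 := hC (g * (U.ev w)⁻¹) a
    rw [List.length_cons]
    calc _ ≤ len U (g * (U.ev w)⁻¹) + C := h2
      _ ≤ len U g + C * w.length + C := by omega
      _ = _ := by ring

/-- facts about lengths of normal forms -/
theorem lenF (U : UA G) : LenF U := by
  refine ⟨?_, ?_, ?_⟩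
  · obtain ⟨C, hC⟩ := len_ev U
    refine ⟨C, fun g h => ?_⟩
    have := hC (nf U h) g
    rwa [nf_ev] at this
  · obtain ⟨C, hC⟩ := len_ev_inv U
    refine ⟨len U 1 + C, fun g => ?_⟩
    have := hC (nf U g) 1
    rw [nf_ev, one_mul] at this
    refine this.trans ?_
    show len U 1 + C * len U g ≤ _
    nlinarith [Nat.zero_le (len U 1 * len U g), Nat.zero_le C]
  · intro n
    refine Set.Finite.subset ((U.finite_le n).image U.ev) ?_
    intro g hg
    exact ⟨nf U g, hg, nf_ev U g⟩

/-! ### norms and supports -/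

theorem nrm_add (c d : Ch G) : nrm (c + d) ≤ nrm c + nrm d := by
  unfold nrm
  rw [Finsupp.sum_of_support_subset (c + d) Finsupp.support_add _ (by simp),
    Finsupp.sum_of_support_subset c Finset.subset_union_left (s := c.support ∪ d.support) _ (by simp),
    Finsupp.sum_of_support_subset d Finset.subset_union_right (s := c.support ∪ d.support) _ (by simp),
    ← Finset.sum_add_distrib]
  apply Finset.sum_le_sum
  intro i _
  exact Int.natAbs_add_le _ _

theorem nrm_neg (c : Ch G) : nrm (-c) = nrm c := by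
  unfold nrm
  rw [Finsupp.sum_neg_index (by simp)]
  simp

theorem nrm_sub (c d : Ch G) : nrm (c - d) ≤ nrm c + nrm d := by
  rw [sub_eq_add_neg]
  exact (nrm_add c (-d)).trans (by rw [nrm_neg])

theorem nrm_zero : nrm (0 : Ch G) = 0 := by simp [nrm]

theorem nrm_single (l : List G) (n : ℤ) : nrm (Finsupp.single l n : Ch G) = n.natAbs := by
  simp [nrm]

theorem nrm_smul (n : ℤ) (c : Ch G) : nrm (n • c) ≤ n.natAbs * nrm c := by
  by_cases hn : n = 0
  · subst hn; simp [nrm_zero]
  unfold nrm
  rw [Finsupp.sum_smul_index (by simp)]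
  rw [Finsupp.sum, Finsupp.sum, Finset.mul_sum]
  apply Finset.sum_le_sum
  intro i _
  rw [Int.natAbs_mul]

theorem nrm_sum {κ : Type} (s : Finset κ) (f : κ → Ch G) :
    nrm (∑ i ∈ s, f i) ≤ ∑ i ∈ s, nrm (f i) := by
  induction s using Finset.induction_on with
  | empty => simp [nrm_zero]
  | insert a s ha ih =>
    rw [Finset.sum_insert ha, Finset.sum_insert ha]
    exact (nrm_add _ _).trans (Nat.add_le_add_left ih _)

theorem nrm_lc (f : List G → Ch G) (K : ℕ) (c : Ch G) (h : ∀ l ∈ c.support, nrm (f l) ≤ K) :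
    nrm (Finsupp.linearCombination ℤ f c) ≤ K * nrm c := by
  rw [Finsupp.linearCombination_apply, Finsupp.sum]
  refine (nrm_sum _ _).trans ?_
  unfold nrm
  rw [Finsupp.sum, Finset.mul_sum]
  apply Finset.sum_le_sum
  intro l hl
  refine (nrm_smul _ _).trans ?_
  rw [mul_comm]
  exact Nat.mul_le_mul_right _ (h l hl)

theorem nrm_map (f : List G → List G) (c : Ch G) : nrm (c.mapDomain f) ≤ nrm c := by
  have h1 : c.mapDomain f = Finsupp.linearCombination ℤ (fun l => Finsupp.single (f l) (1 : ℤ)) c := by
    rw [Finsupp.linearCombination_apply, Finsupp.mapDomain]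
    simp
  rw [h1]
  refine (nrm_lc _ 1 c ?_).trans (by rw [one_mul])
  intro l _
  rw [nrm_single]
  rfl

theorem nrm_alt (K : ℕ) (l : List G) : ∀ (F : G → List G → Ch G)
    (_ : ∀ a l', a ∈ l → (∀ x ∈ l', x ∈ l) → l'.length + 1 = l.length → nrm (F a l') ≤ K),
    nrm (alt F l) ≤ l.length * K := by
  induction l with
  | nil => intro F _; simp [alt_nil, nrm_zero]
  | cons b bs ih =>
    intro F h
    rw [alt_cons]
    refine (nrm_sub _ _).trans ?_
    have h1 := h b bs (by simp) (fun x hx => List.mem_cons_of_mem _ hx) (by simp)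
    have h2 := ih (fun a l => F a (b :: l)) (by
      intro a l' ha hl' hlen
      apply h a (b :: l') (List.mem_cons_of_mem _ ha)
      · intro x hx
        rcases List.mem_cons.mp hx with rfl | hx
        · simp
        · exact List.mem_cons_of_mem _ (hl' x hx)
      · simpa using hlen)
    rw [List.length_cons]
    calc _ ≤ K + bs.length * K := Nat.add_le_add h1 h2
      _ = _ := by ring

theorem supp_alt (P : List G → Prop) (l : List G) : ∀ (F : G → List G → Ch G)
    (_ : ∀ a l', a ∈ l → (∀ x ∈ l', x ∈ l) → l'.length + 1 = l.length →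
      ∀ x ∈ (F a l').support, P x), ∀ x ∈ (alt F l).support, P x := by
  induction l with
  | nil => intro F _ x hx; simp [alt_nil] at hx
  | cons b bs ih =>
    intro F h x hx
    rw [alt_cons] at hx
    have hx := Finsupp.support_sub hx
    rcases Finset.mem_union.mp hx with hx | hx
    · exact h b bs (by simp) (fun x hx => List.mem_cons_of_mem _ hx) (by simp) x hx
    · refine ih (fun a l => F a (b :: l)) ?_ x hx
      intro a l' ha hl' hlen
      apply h a (b :: l') (List.mem_cons_of_mem _ ha)
      · intro x hx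
        rcases List.mem_cons.mp hx with rfl | hx
        · simp
        · exact List.mem_cons_of_mem _ (hl' x hx)
      · simpa using hlen

theorem supp_map (f : List G → List G) (c : Ch G) (x : List G) (hx : x ∈ (c.mapDomain f).support) :
    ∃ y ∈ c.support, f y = x := by
  have h := Finsupp.mapDomain_support hx
  rw [Finset.mem_image] at h
  exact h

theorem pr1_supp (f h : G → G) (l : List G) : ∀ x ∈ (pr1 f h l).support,
    x.length = l.length + 1 ∧ ∀ v ∈ x, ∃ a ∈ l, v = f a ∨ v = h a := by
  induction l with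
  | nil => intro x hx; simp [pr1] at hx
  | cons a l ih =>
    intro x hx
    have hx := Finsupp.support_sub hx
    rcases Finset.mem_union.mp hx with hx | hx
    · have h1 := Finsupp.support_single_subset hx
      rw [Finset.mem_singleton] at h1
      subst h1
      refine ⟨by simp, ?_⟩
      intro v hv
      rcases List.mem_cons.mp hv with rfl | hv
      · exact ⟨a, by simp, Or.inl rfl⟩
      rcases List.mem_cons.mp hv with rfl | hv
      · exact ⟨a, by simp, Or.inr rfl⟩
      obtain ⟨b, hb, rfl⟩ := List.mem_map.mp hv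
      exact ⟨b, List.mem_cons_of_mem _ hb, Or.inr rfl⟩
    · obtain ⟨y, hy, rfl⟩ := supp_map _ _ _ hx
      obtain ⟨h1, h2⟩ := ih y hy
      refine ⟨by simp [h1], ?_⟩
      intro v hv
      rcases List.mem_cons.mp hv with rfl | hv
      · exact ⟨a, by simp, Or.inl rfl⟩
      obtain ⟨b, hb, hv⟩ := h2 v hv
      exact ⟨b, List.mem_cons_of_mem _ hb, hv⟩

theorem pr1_nrm (f h : G → G) (l : List G) : nrm (pr1 f h l) ≤ l.length := by
  induction l with
  | nil => simp [pr1, nrm_zero]
  | cons a l ih =>
    refine (nrm_sub _ _).trans ?_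
    rw [nrm_single]
    have h1 := nrm_map (f a :: ·) (pr1 f h l)
    rw [List.length_cons]
    have : (1 : ℤ).natAbs = 1 := rfl
    omega

theorem pr_supp (f h : G → G) (c : Ch G) : ∀ x ∈ (pr f h c).support,
    ∃ l ∈ c.support, x.length = l.length + 1 ∧ ∀ v ∈ x, ∃ a ∈ l, v = f a ∨ v = h a := by
  intro x hx
  rw [pr, Finsupp.linearCombination_apply] at hx
  have h1 := Finsupp.support_sum hx
  rw [Finset.mem_biUnion] at h1
  obtain ⟨l, hl, hx⟩ := h1
  exact ⟨l, hl, pr1_supp f h l x (Finsupp.support_smul hx)⟩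

theorem cone_supp (U : UA G) (c : Ch G) : ∀ x ∈ (cone U c).support,
    ∃ t, ∃ l ∈ c.support, x.length = l.length + 1 ∧
      ∀ v ∈ x, ∃ a ∈ l, v = ct U t a ∨ v = ct U (t + 1) a := by
  intro x hx
  have h1 := Finsupp.support_finsetSum hx
  rw [Finset.mem_biUnion] at h1
  obtain ⟨t, _, hx⟩ := h1
  obtain ⟨l, hl, h2⟩ := pr_supp _ _ c x hx
  exact ⟨t, l, hl, h2⟩

theorem cone_nrm (U : UA G) (c : Ch G) (m : ℕ) (h : ∀ l ∈ c.support, l.length ≤ m) :
    nrm (cone U c) ≤ rad U c * (m * nrm c) := by
  unfold cone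
  refine (nrm_sum _ _).trans ?_
  refine (Finset.sum_le_card_nsmul _ _ (m * nrm c) ?_).trans ?_
  · intro t _
    refine nrm_lc _ m c ?_
    intro l hl
    exact (pr1_nrm _ _ l).trans (h l hl)
  · simp

theorem foldr_max_le (l : List ℕ) (N : ℕ) (h : ∀ x ∈ l, x ≤ N) : l.foldr max 0 ≤ N := by
  induction l with
  | nil => simp
  | cons a l ih =>
    rw [List.foldr_cons]
    exact max_le (h a (by simp)) (ih fun x hx => h x (List.mem_cons_of_mem _ hx))

theorem le_foldr_max (l : List ℕ) (x : ℕ) (h : x ∈ l) : x ≤ l.foldr max 0 := by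
  induction l with
  | nil => simp at h
  | cons a l ih =>
    rw [List.foldr_cons]
    rcases List.mem_cons.mp h with rfl | h
    · exact le_max_left _ _
    · exact (ih h).trans (le_max_right _ _)

theorem rad_le (U : UA G) (c : Ch G) (N : ℕ) (h : ∀ l ∈ c.support, ∀ v ∈ l, len U v ≤ N) :
    rad U c ≤ N := by
  unfold rad
  apply Finset.sup_le
  intro l hl
  apply foldr_max_le
  intro x hx
  obtain ⟨v, hv, rfl⟩ := List.mem_map.mp hx
  exact h l hl v hv

theorem le_rad (U : UA G) (c : Ch G) (l : List G) (hl : l ∈ c.support) (v : G) (hv : v ∈ l) :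
    len U v ≤ rad U c := by
  unfold rad
  refine (le_foldr_max (l.map (len U)) _ (List.mem_map.mpr ⟨v, hv, rfl⟩)).trans ?_
  exact Finset.le_sup (f := fun l : List G => (l.map (len U)).foldr max 0) hl

theorem ct_succ (U : UA G) (t : ℕ) (g : G) :
    ∃ e ∈ insert 1 (Set.range U.mu), ct U (t + 1) g = ct U t g * e := by
  unfold ct
  rcases lt_or_ge t (nf U g).length with h | h
  · refine ⟨U.mu (nf U g)[t], Set.mem_insert_of_mem _ ⟨_, rfl⟩, ?_⟩
    rw [List.take_succ_eq_append_getElem h, UA.ev_append]
    simp [UA.ev]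
  · refine ⟨1, Set.mem_insert _ _, ?_⟩
    rw [List.take_of_length_le h, List.take_of_length_le (by omega), mul_one]

theorem ct_diff (U : UA G) (W : Set G) (hW : W.Finite) : ∃ D : Set G, D.Finite ∧
    ∀ a b : G, a⁻¹ * b ∈ W → ∀ t, (ct U t a)⁻¹ * ct U t b ∈ D := by
  choose D hD hD' using fun g : G => U.ft' g
  refine ⟨⋃ g ∈ W, D g, hW.biUnion fun g _ => hD g, ?_⟩
  intro a b hab t
  rw [Set.mem_iUnion₂]
  refine ⟨_, hab, ?_⟩
  exact hD' (a⁻¹ * b) (nf U a) (nf_mem U a) (nf U b) (nf_mem U b)
    (by rw [nf_ev, nf_ev]; group) t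

theorem ct_diff' (U : UA G) (W : Set G) (hW : W.Finite) : ∃ W' : Set G, W'.Finite ∧
    ∀ a b : G, a⁻¹ * b ∈ W → ∀ t v w, (v = ct U t a ∨ v = ct U (t + 1) a) →
      (w = ct U t b ∨ w = ct U (t + 1) b) → v⁻¹ * w ∈ W' := by
  obtain ⟨D, hD, h⟩ := ct_diff U W hW
  have := U.finA
  have hE : (insert (1 : G) (Set.range U.mu)).Finite := (Set.finite_range _).insert _
  refine ⟨(fun p : G × G × G => p.1⁻¹ * p.2.1 * p.2.2) ''
    ((insert (1 : G) (Set.range U.mu)) ×ˢ (D ×ˢ (insert (1 : G) (Set.range U.mu)))),
    (hE.prod (hD.prod hE)).image _, ?_⟩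
  intro a b hab t v w hv hw
  have hv' : ∃ e ∈ insert 1 (Set.range U.mu), v = ct U t a * e := by
    rcases hv with hv | hv
    · exact ⟨1, Set.mem_insert _ _, by rw [hv, mul_one]⟩
    · rw [hv]; exact ct_succ U t a
  have hw' : ∃ e ∈ insert 1 (Set.range U.mu), w = ct U t b * e := by
    rcases hw with hw | hw
    · exact ⟨1, Set.mem_insert _ _, by rw [hw, mul_one]⟩
    · rw [hw]; exact ct_succ U t b
  obtain ⟨e, he, rfl⟩ := hv'
  obtain ⟨e', he', rfl⟩ := hw'
  refine ⟨(e, (ct U t a)⁻¹ * ct U t b, e'), ⟨he, h a b hab t, he'⟩, ?_⟩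
  simp only
  group

theorem box_eq (U : UA G) (bs : List G) (h : bs ≠ []) :
    box U bs = cone U (alt (fun b l => tr b (box U l) - box U l) bs) := by
  match bs, h with
  | b :: bs, _ =>
    have h1 : alt (fun b l => tr b (eb U bs.length l) - eb U bs.length l) (b :: bs) =
        alt (fun b l => tr b (box U l) - box U l) (b :: bs) := by
      apply alt_congr
      intro a l' _ _ hl
      have h2 : l'.length = bs.length := by simpa using hl
      have h3 : eb U bs.length l' = box U l' := by rw [← h2]; rfl
      rw [h3]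
    have h4 : box U (b :: bs) =
        cone U (alt (fun b l => tr b (eb U bs.length l) - eb U bs.length l) (b :: bs)) := rfl
    rw [h4, h1]

/-- boxes have linear size and polynomial norm -/
theorem boxB (U : UA G) (h : LenF U) : BoxB U := by
  intro j
  induction j with
  | zero =>
    refine ⟨1 + len U 1, {1}, Set.finite_singleton _, ?_⟩
    intro n bs hn hbs _
    have : bs = [] := List.length_eq_zero_iff.mp hbs
    subst this
    have e : box U [] = Finsupp.single [1] 1 := rfl
    rw [e]
    refine ⟨?_, ?_⟩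
    · rw [nrm_single]
      simp
    · intro l hl
      have h1 := Finsupp.support_single_subset hl
      rw [Finset.mem_singleton] at h1
      subst h1
      refine ⟨rfl, ?_, ?_⟩
      · intro v hv
        rw [List.mem_singleton] at hv
        subst hv
        nlinarith
      · intro v hv w hw
        rw [List.mem_singleton] at hv hw
        subst hv hw
        simp
  | succ j ih =>
    obtain ⟨C, W, hW, hC⟩ := ih
    obtain ⟨⟨C0, hC0⟩, -, -⟩ := h
    obtain ⟨C1, hC1⟩ := len_ev U
    obtain ⟨W', hW', hWW⟩ := ct_diff' U W hW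
    -- bound for vertices of `z`
    set C2 : ℕ := 1 + C0 * C + C with hC2
    refine ⟨C2 * ((j + 1) * ((j + 1) * (2 * C))) + (len U 1 + C1 * C2), W', hW', ?_⟩
    intro n bs hn hbs hlen
    have hne : bs ≠ [] := by
      intro h0; rw [h0] at hbs; simp at hbs
    rw [box_eq U bs hne]
    set z := alt (fun b l => tr b (box U l) - box U l) bs with hz
    -- properties of the support of `z`
    have hzs : ∀ l ∈ z.support, l.length = j + 1 ∧ (∀ v ∈ l, len U v ≤ C2 * n) ∧
        ∀ v ∈ l, ∀ w ∈ l, v⁻¹ * w ∈ W := by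
      apply supp_alt (fun l => l.length = j + 1 ∧ (∀ v ∈ l, len U v ≤ C2 * n) ∧
        ∀ v ∈ l, ∀ w ∈ l, v⁻¹ * w ∈ W)
      intro b l hb hl hll x hx
      have h1 := (hC n l hn (by omega) (fun c hc => hlen c (hl c hc))).2
      have hx := Finsupp.support_sub hx
      rcases Finset.mem_union.mp hx with hx | hx
      · obtain ⟨y, hy, rfl⟩ := supp_map _ _ _ hx
        obtain ⟨h2, h3, h4⟩ := h1 y hy
        refine ⟨by simpa using h2, ?_, ?_⟩
        · intro v0 hv0
          obtain ⟨v, hv, rfl⟩ := List.mem_map.mp hv0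
          have h5 := hC0 b v
          have h6 := h3 v hv
          have h7 := hlen b hb
          calc len U (b * v) ≤ len U b + C0 * len U v := h5
            _ ≤ n + C0 * (C * n) := Nat.add_le_add h7 (Nat.mul_le_mul_left _ h6)
            _ ≤ C2 * n := by rw [hC2]; nlinarith [Nat.zero_le (C * n)]
        · intro v0 hv0 w0 hw0
          obtain ⟨v, hv, rfl⟩ := List.mem_map.mp hv0
          obtain ⟨w, hw, rfl⟩ := List.mem_map.mp hw0
          have h5 := h4 v hv w hw
          have : (b * v)⁻¹ * (b * w) = v⁻¹ * w := by group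
          rw [this]
          exact h5
      · obtain ⟨h2, h3, h4⟩ := h1 x hx
        refine ⟨h2, ?_, h4⟩
        intro v hv
        refine (h3 v hv).trans ?_
        rw [hC2]
        exact Nat.mul_le_mul_right _ (by omega)
    have hzn : nrm z ≤ (j + 1) * (2 * C * n ^ j) := by
      rw [← hbs]
      apply nrm_alt
      intro b l hb hl hll
      have h1 := (hC n l hn (by omega) (fun c hc => hlen c (hl c hc))).1
      refine (nrm_sub _ _).trans ?_
      have h2 : nrm (tr b (box U l)) ≤ nrm (box U l) := nrm_map _ _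
      calc _ ≤ C * n ^ j + C * n ^ j := Nat.add_le_add (h2.trans h1) h1
        _ = _ := by ring
    have hzr : rad U z ≤ C2 * n := rad_le U z _ fun l hl => (hzs l hl).2.1
    refine ⟨?_, ?_⟩
    · refine (cone_nrm U z (j + 1) fun l hl => (hzs l hl).1.le).trans ?_
      calc rad U z * ((j + 1) * nrm z)
          ≤ (C2 * n) * ((j + 1) * ((j + 1) * (2 * C * n ^ j))) :=
            Nat.mul_le_mul hzr (Nat.mul_le_mul_left _ hzn)
        _ = (C2 * ((j + 1) * ((j + 1) * (2 * C)))) * n ^ (j + 1) := by ring
        _ ≤ _ := Nat.mul_le_mul_right _ (Nat.le_add_right _ _)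
    · intro x hx
      obtain ⟨t, l, hl, hxl, hv⟩ := cone_supp U z x hx
      obtain ⟨h2, h3, h4⟩ := hzs l hl
      refine ⟨by rw [hxl, h2], ?_, ?_⟩
      · intro v hvx
        obtain ⟨a, ha, hva⟩ := hv v hvx
        have h5 : ∀ s, len U (ct U s a) ≤ len U 1 + C1 * (C2 * n) := by
          intro s
          have h6 := hC1 ((nf U a).take s) 1
          rw [one_mul] at h6
          refine h6.trans ?_
          apply Nat.add_le_add_left
          apply Nat.mul_le_mul_left
          rw [List.length_take]
          exact (min_le_right _ _).trans (h3 a ha)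
        have h6 : len U v ≤ len U 1 + C1 * (C2 * n) := by
          rcases hva with rfl | rfl
          · exact h5 t
          · exact h5 (t + 1)
        refine h6.trans ?_
        calc len U 1 + C1 * (C2 * n) ≤ (len U 1 + C1 * C2) * n := by nlinarith
          _ ≤ _ := Nat.mul_le_mul_right _ (Nat.le_add_left _ _)
      · intro v hvx w hwx
        obtain ⟨a, ha, hva⟩ := hv v hvx
        obtain ⟨b, hb, hwb⟩ := hv w hwx
        exact hWW a b (h4 a ha b hb) t v w hva hwb

/-! ### the boundary formula -/

/-- prepend a vertex -/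
noncomputable def cM (a : G) : Ch G →ₗ[ℤ] Ch G := Finsupp.lmapDomain ℤ ℤ (List.cons a)
/-- apply a map to all vertices -/
noncomputable def mM (f : G → G) : Ch G →ₗ[ℤ] Ch G := Finsupp.lmapDomain ℤ ℤ (List.map f)

theorem cM_single (a : G) (l : List G) (n : ℤ) :
    cM a (Finsupp.single l n) = Finsupp.single (a :: l) n := by
  simp [cM, Finsupp.lmapDomain_apply, Finsupp.mapDomain_single]

theorem mM_single (f : G → G) (l : List G) (n : ℤ) :
    mM f (Finsupp.single l n) = Finsupp.single (l.map f) n := by
  simp [mM, Finsupp.lmapDomain_apply, Finsupp.mapDomain_single]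

theorem bd_one (l : List G) :
    bd (Finsupp.single l 1) = alt (fun _ l' => Finsupp.single l' (1 : ℤ)) l := by
  rw [bd_single, one_smul]

theorem bd_cons (a : G) (l : List G) :
    bd (Finsupp.single (a :: l) 1) = Finsupp.single l 1 - cM a (bd (Finsupp.single l 1)) := by
  rw [bd_one, alt_cons, bd_one, map_alt]
  congr 1
  apply alt_congr
  intro b l' _ _ _
  rw [cM_single]

/-- two linear maps on chains agreeing on the basis are equal -/
theorem ch_ext {M : Type} [AddCommGroup M] (φ ψ : Ch G →ₗ[ℤ] M)
    (h : ∀ l, φ (Finsupp.single l 1) = ψ (Finsupp.single l 1)) (c : Ch G) : φ c = ψ c := by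
  have : φ = ψ := by
    apply Finsupp.lhom_ext'
    intro l
    apply LinearMap.ext_ring
    exact h l
  rw [this]

theorem bd_cM (a : G) (c : Ch G) : bd (cM a c) = c - cM a (bd c) := by
  refine ch_ext (bd ∘ₗ cM a) (LinearMap.id - cM a ∘ₗ bd) ?_ c
  intro l
  show bd (cM a (Finsupp.single l 1)) = Finsupp.single l 1 - cM a (bd (Finsupp.single l 1))
  rw [cM_single, bd_cons]

theorem alt_map {M : Type} [AddCommGroup M] (f : G → G) (l : List G) : ∀ (F : G → List G → M),
    alt F (l.map f) = alt (fun a l' => F (f a) (l'.map f)) l := by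
  induction l with
  | nil => intro F; rfl
  | cons b bs ih =>
    intro F
    rw [List.map_cons, alt_cons, alt_cons, ih]
    rfl

theorem bd_mM (f : G → G) (c : Ch G) : bd (mM f c) = mM f (bd c) := by
  refine ch_ext (bd ∘ₗ mM f) (mM f ∘ₗ bd) ?_ c
  intro l
  show bd (mM f (Finsupp.single l 1)) = mM f (bd (Finsupp.single l 1))
  rw [mM_single, bd_one, bd_one, map_alt, alt_map]
  apply alt_congr
  intro b l' _ _ _
  rw [mM_single]

theorem mM_cM (f : G → G) (a : G) (c : Ch G) : mM f (cM a c) = cM (f a) (mM f c) := by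
  refine ch_ext (mM f ∘ₗ cM a) (cM (f a) ∘ₗ mM f) ?_ c
  intro l
  show mM f (cM a (Finsupp.single l 1)) = cM (f a) (mM f (Finsupp.single l 1))
  rw [cM_single, mM_single, mM_single, cM_single, List.map_cons]

theorem pr_one (f h : G → G) (l : List G) : pr f h (Finsupp.single l 1) = pr1 f h l := by
  simp [pr]

theorem pr1_cons (f h : G → G) (a : G) (l : List G) : pr1 f h (a :: l) =
    cM (f a) (cM (h a) (mM h (Finsupp.single l 1))) - cM (f a) (pr1 f h l) := by
  rw [mM_single, cM_single, cM_single]
  rfl

theorem pr_cM (f h : G → G) (a : G) (c : Ch G) : pr f h (cM a c) =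
    cM (f a) (cM (h a) (mM h c)) - cM (f a) (pr f h c) := by
  refine ch_ext (pr f h ∘ₗ cM a) (cM (f a) ∘ₗ cM (h a) ∘ₗ mM h - cM (f a) ∘ₗ pr f h) ?_ c
  intro l
  show pr f h (cM a (Finsupp.single l 1)) =
    cM (f a) (cM (h a) (mM h (Finsupp.single l 1))) - cM (f a) (pr f h (Finsupp.single l 1))
  rw [cM_single, pr_one, pr_one, pr1_cons]

theorem prism1 (f h : G → G) (l : List G) :
    bd (pr1 f h l) + pr f h (bd (Finsupp.single l 1)) =
      mM h (Finsupp.single l 1) - mM f (Finsupp.single l 1) := by
  induction l with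
  | nil =>
    rw [bd_one, alt_nil, mM_single, mM_single]
    simp [pr1]
  | cons a l ih =>
    rw [pr1_cons, bd_cons, map_sub, map_sub, bd_cM, bd_cM, bd_cM, pr_cM, bd_mM, pr_one,
      ← cM_single, mM_cM, mM_cM]
    rw [map_sub (cM (f a))]
    have h1 : cM (f a) (bd (pr1 f h l)) = cM (f a) (mM h (Finsupp.single l 1)) -
        cM (f a) (mM f (Finsupp.single l 1)) - cM (f a) (pr f h (bd (Finsupp.single l 1))) := by
      rw [← map_sub, ← map_sub]
      congr 1
      rw [← ih]
      abel
    rw [h1]
    abel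

theorem prism (f h : G → G) (c : Ch G) :
    bd (pr f h c) + pr f h (bd c) = mM h c - mM f c := by
  refine ch_ext (bd ∘ₗ pr f h + pr f h ∘ₗ bd) (mM h - mM f) ?_ c
  intro l
  show bd (pr f h (Finsupp.single l 1)) + pr f h (bd (Finsupp.single l 1)) =
    mM h (Finsupp.single l 1) - mM f (Finsupp.single l 1)
  rw [pr_one, prism1]

theorem bd_cone (U : UA G) (z : Ch G) (h1 : bd z = 0) (h2 : mM (fun _ => 1) z = 0) :
    bd (cone U z) = z := by
  unfold cone
  rw [map_sum]
  have h3 : ∀ t, bd (pr (ct U t) (ct U (t + 1)) z) = mM (ct U (t + 1)) z - mM (ct U t) z := by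
    intro t
    have := prism (ct U t) (ct U (t + 1)) z
    rw [h1, map_zero, add_zero] at this
    exact this
  simp only [h3]
  rw [Finset.sum_range_sub (fun t => mM (ct U t) z)]
  have h4 : mM (ct U 0) z = 0 := by
    have : ct U 0 = fun _ => 1 := by
      funext g
      simp [ct, UA.ev]
    rw [this, h2]
  have h5 : mM (ct U (rad U z)) z = z := by
    unfold mM
    rw [Finsupp.lmapDomain_apply]
    have h6 : z.mapDomain (List.map (ct U (rad U z))) = z.mapDomain id := by
      apply Finsupp.mapDomain_congr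
      intro l hl
      show List.map (ct U (rad U z)) l = l
      conv_rhs => rw [← List.map_id l]
      apply List.map_congr_left
      intro v hv
      have h7 := le_rad U z l hl v hv
      show U.ev ((nf U v).take (rad U z)) = v
      rw [List.take_of_length_le h7, nf_ev]
    rw [h6, Finsupp.mapDomain_id]
  rw [h4, h5, sub_zero]

/-- translations of commuting elements commute -/
theorem tr_comm (a b : G) (hab : a * b = b * a) (c : Ch G) : tr a (tr b c) = tr b (tr a c) := by
  refine ch_ext (tr a ∘ₗ tr b) (tr b ∘ₗ tr a) ?_ c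
  intro l
  show tr a (tr b (Finsupp.single l 1)) = tr b (tr a (Finsupp.single l 1))
  simp only [tr, Finsupp.lmapDomain_apply, Finsupp.mapDomain_single, List.map_map]
  congr 1
  apply List.map_congr_left
  intro x _
  show a * (b * x) = b * (a * x)
  rw [← mul_assoc, ← mul_assoc, hab]

theorem alt_alt (bs : List G) : ∀ (e : List G → Ch G)
    (_ : ∀ a ∈ bs, ∀ b ∈ bs, a * b = b * a),
    alt (fun b l => tr b (alt (fun b' l' => tr b' (e l') - e l') l) -
      alt (fun b' l' => tr b' (e l') - e l') l) bs = 0 := by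
  induction bs with
  | nil => intro e _; rfl
  | cons b bs ih =>
    intro e hc
    rw [alt_cons]
    have hc' : ∀ a ∈ bs, ∀ b ∈ bs, a * b = b * a := fun x hx y hy =>
      hc x (List.mem_cons_of_mem _ hx) y (List.mem_cons_of_mem _ hy)
    have h1 := ih (fun l => e (b :: l)) hc'
    have h2 : alt (fun a l => tr a (alt (fun b' l' => tr b' (e l') - e l') (b :: l)) -
        alt (fun b' l' => tr b' (e l') - e l') (b :: l)) bs =
        alt (fun a l => ((tr b (tr a (e l) - e l)) - (tr a (e l) - e l)) -
          (tr a (alt (fun b' l' => tr b' (e (b :: l')) - e (b :: l')) l) -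
            alt (fun b' l' => tr b' (e (b :: l')) - e (b :: l')) l)) bs := by
      apply alt_congr
      intro a l ha _ _
      rw [alt_cons]
      simp only [map_sub]
      rw [tr_comm a b (hc a (List.mem_cons_of_mem _ ha) b (by simp)) (e l)]
      abel
    have h3 : alt (fun a l => ((tr b (tr a (e l) - e l)) - (tr a (e l) - e l)) -
          (tr a (alt (fun b' l' => tr b' (e (b :: l')) - e (b :: l')) l) -
            alt (fun b' l' => tr b' (e (b :: l')) - e (b :: l')) l)) bs =
        alt (fun a l => ((tr b (tr a (e l) - e l)) - (tr a (e l) - e l))) bs -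
        alt (fun a l => (tr a (alt (fun b' l' => tr b' (e (b :: l')) - e (b :: l')) l) -
            alt (fun b' l' => tr b' (e (b :: l')) - e (b :: l')) l)) bs := alt_sub bs _ _
    have h4 : alt (fun a l => ((tr b (tr a (e l) - e l)) - (tr a (e l) - e l))) bs =
        alt (fun a l => tr b (tr a (e l) - e l)) bs - alt (fun a l => (tr a (e l) - e l)) bs :=
      alt_sub bs _ _
    rw [h2, h3, h1, sub_zero, h4, map_alt]
    exact sub_self _

theorem mM_tr (b : G) (c : Ch G) : mM (fun _ => (1 : G)) (tr b c) = mM (fun _ => 1) c := by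
  refine ch_ext (mM (fun _ => 1) ∘ₗ tr b) (mM (fun _ => 1)) ?_ c
  intro l
  show mM (fun _ => (1 : G)) (tr b (Finsupp.single l 1)) = mM (fun _ => 1) (Finsupp.single l 1)
  simp only [tr, mM, Finsupp.lmapDomain_apply, Finsupp.mapDomain_single, List.map_map]
  congr 1

theorem bd_tr (b : G) (c : Ch G) : bd (tr b c) = tr b (bd c) := bd_mM (b * ·) c

/-- boundary of a box -/
theorem boxD (U : UA G) : BoxD U := by
  have key : ∀ (n : ℕ) (bs : List G), bs.length = n → bs ≠ [] →
      (∀ a ∈ bs, ∀ b ∈ bs, a * b = b * a) →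
      bd (box U bs) = alt (fun b l => tr b (box U l) - box U l) bs := by
    intro n
    induction n with
    | zero =>
      intro bs hbs hne
      exact absurd (List.length_eq_zero_iff.mp hbs) hne
    | succ n ih =>
      intro bs hbs hne hc
      rw [box_eq U bs hne]
      apply bd_cone
      · rw [map_alt]
        by_cases hn : n = 0
        · subst hn
          match bs, hbs with
          | [b], _ =>
            rw [alt_cons, alt_nil, sub_zero]
            have e : box U [] = Finsupp.single [1] 1 := rfl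
            rw [e, map_sub, bd_tr, bd_cons, bd_one, alt_nil, map_zero, sub_zero]
            simp [tr, Finsupp.lmapDomain_apply, Finsupp.mapDomain_single]
        · rw [← alt_alt bs (box U) hc]
          apply alt_congr
          intro a l ha hl hll
          have hne' : l ≠ [] := by
            intro h0
            rw [h0] at hll
            simp at hll
            omega
          rw [map_sub, bd_tr, ih l (by omega) hne'
            (fun x hx y hy => hc x (hl x hx) y (hl y hy))]
      · rw [map_alt]
        have h1 : alt (fun b l => mM (fun _ => (1 : G)) (tr b (box U l) - box U l)) bs =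
            alt (fun _ _ => (0 : Ch G)) bs := by
          apply alt_congr
          intro a l _ _ _
          rw [map_sub, mM_tr, sub_self]
        rw [h1, alt_zero]
  intro bs hne hc
  exact key bs.length bs rfl hne hc

end Pool.Agent.TH914.J1551
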