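import Mathlib
import Pool.Agent.TH109.M.Defs
import Pool.Agent.TH914.AltB

/-! Job 1552 (METAB-2): Stokes formula and pairing of cup products with boxes. -/

set_option autoImplicit false
set_option linter.unusedSectionVars false
open scoped Classical
namespace Pool.Agent.TH914.J1552
open Pool.Agent.Helper943.LM (UA wpow)
open Pool.Agent.TH109.M
open Pool.Agent.TH914.AltB
variable {G : Type} [Group G]

theorem pa_dl {K : Type} [AddCommGroup K] (ψ : List G → K) (c : Ch G) :
    pa (dl ψ) c = pa ψ (bd c) := AltB.pa_dl ψ c

/-- Stokes for boxes -/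
theorem boxP {K : Type} [AddCommGroup K] (U : UA G) (h : BoxD U) : BoxP U K := by
  intro ψ bs hne hcomm
  rw [pa_dl, h bs hne hcomm, map_alt]
  apply alt_congr
  intro b l _ _ _
  rw [map_sub, pa_tr, pa_sub]

theorem dl_cons {K : Type} [AddCommGroup K] (ψ : List G → K) (a : G) (l : List G) :
    dl ψ (a :: l) = ψ l - dl (fun l' => ψ (a :: l')) l := rfl

theorem dl_congr {K : Type} [AddCommGroup K] (ψ φ : List G → K) (l : List G)
    (h : ∀ l', l'.length + 1 = l.length → ψ l' = φ l') : dl ψ l = dl φ l := by
  unfold dl
  apply alt_congr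
  intro a l' _ _ hl
  exact h l' hl

theorem dl_sub {K : Type} [AddCommGroup K] (ψ φ : List G → K) (l : List G) :
    dl (fun x => ψ x - φ x) l = dl ψ l - dl φ l := alt_sub l _ _

theorem dl_mul {K : Type} [CommRing K] (x : K) (ψ : List G → K) (l : List G) :
    dl (fun y => x * ψ y) l = x * dl ψ l := alt_mul_left x l _

/-- Leibniz rules used for `dl_cupd` and by other jobs -/
theorem dl_cup0 {K : Type} [CommRing K] (u : G → K) (β : List G → K) (l : List G)
    (hl : 2 ≤ l.length) : dl (cup0 u β) l = cup1 u β l + cup0 u (dl β) l := by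
  match l, hl with
  | h :: k :: l', _ =>
    rw [dl_cons]
    have h1 : (fun l'' => cup0 u β (h :: l'')) = fun l'' => u h * β (h :: l'') := rfl
    rw [h1, dl_mul]
    have h2 : cup0 u (dl β) (h :: k :: l') = u h * dl β (h :: k :: l') := rfl
    rw [h2, dl_cons β]
    have h3 : cup0 u β (k :: l') = u k * β (k :: l') := rfl
    have h4 : cup1 u β (h :: k :: l') = (u k - u h) * β (k :: l') := rfl
    rw [h3, h4]
    ring

theorem dl_cup1 {K : Type} [CommRing K] (f : G → K) (β : List G → K) (l : List G)
    (hl : 3 ≤ l.length) : dl (cup1 f β) l = - cup1 f (dl β) l := by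
  match l, hl with
  | g :: h :: k :: l', _ =>
    rw [dl_cons]
    have h1 : dl (fun l'' => cup1 f β (g :: l'')) (h :: k :: l') =
        dl (cup0 (fun x => f x - f g) β) (h :: k :: l') := by
      apply dl_congr
      intro l'' hl''
      match l'', hl'' with
      | y :: l3, _ => rfl
    rw [h1, dl_cup0 _ _ _ (by simp)]
    have h2 : cup1 (fun x => f x - f g) β (h :: k :: l') = cup1 f β (h :: k :: l') := by
      show (f k - f g - (f h - f g)) * β (k :: l') = (f k - f h) * β (k :: l')
      ring
    rw [h2]
    have h3 : cup0 (fun x => f x - f g) (dl β) (h :: k :: l') =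
      cup1 f (dl β) (g :: h :: k :: l') := rfl
    rw [h3]
    ring

theorem cupd_cons {K : Type} [CommRing K] (X : G → K) (Xs : List (G → K)) (l : List G)
    (hl : 2 ≤ l.length) : cupd (X :: Xs) l = cup1 X (cupd Xs) l := by
  match l, hl with
  | g :: h :: l', _ => rfl

theorem cup1_congr {K : Type} [CommRing K] (X : G → K) (β γ : List G → K) (l : List G)
    (h : ∀ l', l'.length + 1 = l.length → β l' = γ l') : cup1 X β l = cup1 X γ l := by
  match l, h with
  | [], _ => rfl
  | [_], _ => rfl
  | g :: k :: l', h =>
    show (X k - X g) * β (k :: l') = (X k - X g) * γ (k :: l')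
    rw [h (k :: l') (by simp)]

theorem cup0_congr {K : Type} [CommRing K] (X : G → K) (β γ : List G → K) (l : List G)
    (h : β l = γ l) : cup0 X β l = cup0 X γ l := by
  match l, h with
  | [], _ => rfl
  | g :: l', h =>
    show (X g) * β (g :: l') = (X g) * γ (g :: l')
    rw [h]

theorem dl_cupd {K : Type} [CommRing K] (Xs : List (G → K)) : ∀ (l : List G)
    (_ : l.length = Xs.length + 2), dl (cupd Xs) l = 0 := by
  induction Xs with
  | nil =>
    intro l hl
    match l, hl with
    | [a, b], _ =>
      simp [dl, alt_cons, alt_nil, cupd]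
  | cons X Xs ih =>
    intro l hl
    have h1 : dl (cupd (X :: Xs)) l = dl (cup1 X (cupd Xs)) l := by
      apply dl_congr
      intro l' hl'
      apply cupd_cons
      simp only [List.length_cons] at hl
      omega
    rw [h1, dl_cup1 _ _ _ (by simp only [List.length_cons] at hl; omega)]
    rw [cup1_congr X (dl (cupd Xs)) (fun _ => 0) l]
    · match l with
      | [] => simp [cup1]
      | [_] => simp [cup1]
      | g :: k :: l' => simp [cup1]
    · intro l' hl'
      apply ih
      simp only [List.length_cons] at hl
      omega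

theorem detA_ofFn {K : Type} [CommRing K] (n : ℕ) : ∀ (X : Fin n → G → K) (b : Fin n → G),
    detA (List.ofFn X) (List.ofFn b) = (Matrix.of fun k j => X k (b j)).det := by
  induction n with
  | zero =>
    intro X b
    simp [detA]
  | succ n ih =>
    intro X b
    rw [Matrix.det_succ_row_zero, List.ofFn_succ (f := X)]
    show alt (fun b l => X 0 b * detA (List.ofFn fun i => X i.succ) l) (List.ofFn b) = _
    rw [alt_ofFn]
    apply Finset.sum_congr rfl
    intro j _
    rw [ih (fun i => X i.succ) (b ∘ j.succAbove)]
    simp only [zsmul_eq_mul, Int.cast_pow, Int.cast_neg, Int.cast_one, Matrix.of_apply]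
    rw [← mul_assoc]
    rfl

/-! ### lengths of the lists in a box -/

theorem mapDomain_len (f : List G → List G) (m m' : ℕ) (c : Ch G)
    (hc : ∀ l ∈ c.support, l.length = m) (hf : ∀ l : List G, l.length = m → (f l).length = m') :
    ∀ l ∈ (c.mapDomain f).support, l.length = m' := by
  intro l hl
  have h := Finsupp.mapDomain_support hl
  rw [Finset.mem_image] at h
  obtain ⟨l0, h0, rfl⟩ := h
  exact hf l0 (hc l0 h0)

theorem alt_len (m : ℕ) (l : List G) : ∀ (F : G → List G → Ch G)
    (_ : ∀ a l', l'.length + 1 = l.length → ∀ x ∈ (F a l').support, x.length = m),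
    ∀ x ∈ (alt F l).support, x.length = m := by
  induction l with
  | nil => intro F _ x hx; simp [alt_nil] at hx
  | cons b bs ih =>
    intro F h x hx
    rw [alt_cons] at hx
    have hx := Finsupp.support_sub hx
    rcases Finset.mem_union.mp hx with hx | hx
    · exact h b bs (by simp) x hx
    · refine ih (fun a l => F a (b :: l)) ?_ x hx
      intro a l' hl'
      apply h
      simpa using hl'

theorem pr1_len (f h : G → G) (l : List G) : ∀ x ∈ (pr1 f h l).support, x.length = l.length + 1 := by
  induction l with
  | nil => intro x hx; simp [pr1] at hx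
  | cons a l ih =>
    intro x hx
    have hx := Finsupp.support_sub hx
    rcases Finset.mem_union.mp hx with hx | hx
    · have h1 := Finsupp.support_single_subset hx
      rw [Finset.mem_singleton] at h1
      subst h1
      simp
    · exact mapDomain_len (f a :: ·) (l.length + 1) _ _ ih (fun l hl => by simpa using hl) x hx

theorem pr_len (f h : G → G) (m : ℕ) (c : Ch G) (hc : ∀ l ∈ c.support, l.length = m) :
    ∀ x ∈ (pr f h c).support, x.length = m + 1 := by
  intro x hx
  rw [pr, Finsupp.linearCombination_apply] at hx
  have h1 := Finsupp.support_sum hx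
  rw [Finset.mem_biUnion] at h1
  obtain ⟨l, hl, hx⟩ := h1
  have h2 := Finsupp.support_smul hx
  rw [← hc l hl]
  exact pr1_len f h l x h2

theorem cone_len (U : UA G) (m : ℕ) (c : Ch G) (hc : ∀ l ∈ c.support, l.length = m) :
    ∀ x ∈ (cone U c).support, x.length = m + 1 := by
  intro x hx
  have h1 := Finsupp.support_finsetSum hx
  rw [Finset.mem_biUnion] at h1
  obtain ⟨t, _, hx⟩ := h1
  exact pr_len _ _ m c hc x hx

theorem eb_len (U : UA G) (n : ℕ) : ∀ (bs : List G), ∀ x ∈ (eb U n bs).support,
    x.length = n + 1 := by
  induction n with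
  | zero =>
    intro bs x hx
    have h1 := Finsupp.support_single_subset hx
    rw [Finset.mem_singleton] at h1
    subst h1
    simp
  | succ n ih =>
    intro bs x hx
    refine cone_len U (n + 1) _ ?_ x hx
    apply alt_len
    intro a l' _ y hy
    have hy := Finsupp.support_sub hy
    rcases Finset.mem_union.mp hy with hy | hy
    · exact mapDomain_len _ (n + 1) (n + 1) _ (ih l') (fun l hl => by simpa using hl) y hy
    · exact ih l' y hy

theorem box_len (U : UA G) (bs : List G) : ∀ x ∈ (box U bs).support, x.length = bs.length + 1 :=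
  eb_len U bs.length bs

theorem tc_cupd {K : Type} [CommRing K] (b : G) (Xs : List (G → K)) : ∀ (l : List G)
    (_ : ∀ X ∈ Xs, ∀ g, X (b * g) = X b + X g), cupd Xs (l.map (b * ·)) = cupd Xs l := by
  induction Xs with
  | nil => intro l _; simp [cupd]
  | cons X Xs ih =>
    intro l h
    match l with
    | [] => rfl
    | [_] => rfl
    | g :: k :: l' =>
      show (X (b * k) - X (b * g)) * cupd Xs ((k :: l').map (b * ·)) =
        (X k - X g) * cupd Xs (k :: l')
      rw [ih (k :: l') (fun Y hY => h Y (List.mem_cons_of_mem _ hY)), h X (by simp), h X (by simp)]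
      ring

/-- pairing of cup products with boxes -/
theorem cupB {K : Type} [CommRing K] (U : UA G) (h : BoxP U K) : CupB U K := by
  intro Xs
  induction Xs with
  | nil =>
    intro bs hlen _ _
    have : bs = [] := by
      rw [← List.length_eq_zero_iff, ← hlen]
      rfl
    subst this
    show pa (cupd []) (Finsupp.single [1] 1) = 1
    rw [pa_single]
    simp [cupd]
  | cons X Xs ih =>
    intro bs hlen hcomm hX
    have hne : bs ≠ [] := by
      intro h0
      rw [h0] at hlen
      simp at hlen
    have h1 : pa (cupd (X :: Xs)) (box U bs) = pa (dl (cup0 X (cupd Xs))) (box U bs) := by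
      apply pa_congr
      intro l hl
      have hl' := box_len U bs l hl
      simp only [List.length_cons] at hlen
      rw [cupd_cons X Xs l (by omega), dl_cup0 X (cupd Xs) l (by omega)]
      rw [cup0_congr X (dl (cupd Xs)) (fun _ => 0) l (dl_cupd Xs l (by omega))]
      match l with
      | [] => simp [cup0]
      | g :: l' => simp [cup0]
    rw [h1, h _ bs hne hcomm]
    show _ = alt (fun b l => X b * detA Xs l) bs
    apply alt_congr
    intro b l hb hl hll
    have hsub : ∀ x ∈ l, x ∈ bs := hl
    have h2 : pa (fun x => tc b (cup0 X (cupd Xs)) x - cup0 X (cupd Xs) x) (box U l) =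
        pa (fun x => X b * cupd Xs x) (box U l) := by
      apply pa_congr
      intro x hx
      have hx' := box_len U l x hx
      match x, hx' with
      | g :: x', _ =>
        show X (b * g) * cupd Xs ((g :: x').map (b * ·)) - X g * cupd Xs (g :: x') =
          X b * cupd Xs (g :: x')
        rw [tc_cupd b Xs (g :: x') (fun Y hY => hX Y (List.mem_cons_of_mem _ hY) b hb),
          hX X (by simp) b hb]
        ring
    rw [h2, pa_mul, ih l (by simp only [List.length_cons] at hlen; omega)
      (fun a ha c hc => hcomm a (hsub a ha) c (hsub c hc))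
      (fun Y hY c hc => hX Y (List.mem_cons_of_mem _ hY) c (hsub c hc))]

end Pool.Agent.TH914.J1552
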