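import Pool.Agent.TH605.AP.WF

/-! Job 2843: invariance of the set of tangency points; escape lemma. -/

set_option autoImplicit false

open Set Topology Filter

namespace Pool.Agent.TH914.J2843

open Pool.Agent.TH605.AP

theorem s_Tan (B : BF) (i : Fin 4) (z : OnePoint ℂ) : s i z ∈ Tan ↔ z ∈ Tan := by
  have key : ∀ z, z ∈ Tan → s i z ∈ Tan := by
    rintro z ⟨w, a, b, hab, rfl⟩
    exact ⟨i :: w, a, b, hab, rfl⟩
  refine ⟨fun h => ?_, key z⟩
  have := key _ h
  rwa [B.s_s] at this

theorem s_clTan (B : BF) (i : Fin 4) (z : OnePoint ℂ) :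
    s i z ∈ closure Tan ↔ z ∈ closure Tan := by
  have key : ∀ z, z ∈ closure Tan → s i z ∈ closure Tan := by
    intro z hz
    have h1 := image_closure_subset_closure_image (B.cont i) (mem_image_of_mem (s i) hz)
    refine closure_mono ?_ h1
    rintro _ ⟨y, hy, rfl⟩
    exact (s_Tan B i y).2 hy
  refine ⟨fun h => ?_, key z⟩
  have := key _ h
  rwa [B.s_s] at this

theorem escape (B : BF) (W : WF) (hsh : Shrink) (S : Set (OnePoint ℂ))
    (h1 : ∀ z ∈ S, ∀ i, z ∈ DiscI i → s i z ∈ S)
    (h2 : S ∩ Fd ⊆ closure Tan) : S ⊆ closure Tan := by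
  intro z hz
  by_contra hzn
  have key : ∀ n : ℕ, ∃ w y, IsRed w ∧ w.length = n ∧ y ∈ S ∧ y ∉ closure Tan ∧ z = sg w y ∧
      (∀ a ∈ w.getLast?, y ∉ DiscI a) ∧ (1 ≤ n → z ∈ DL w) := by
    intro n
    induction n with
    | zero =>
      exact ⟨[], z, List.isChain_nil, rfl, hz, hzn, rfl, by simp, by simp⟩
    | succ n ih =>
      obtain ⟨w, y, hw, hl, hy, hyn, hzy, hlast, -⟩ := ih
      have hyF : y ∉ Fd := fun h => hyn (h2 ⟨hy, h⟩)
      have hyF' : ∃ i, y ∈ DiscI i := by
        by_contra hcon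
        push Not at hcon
        apply hyF
        intro i
        have := hcon i
        exact not_lt.1 this
      obtain ⟨i, hi⟩ := hyF'
      refine ⟨w ++ [i], s i y, ?_, by simp [hl], h1 y hy i hi, ?_, ?_, ?_, ?_⟩
      · refine List.isChain_append.2 ⟨hw, List.isChain_singleton _, ?_⟩
        intro a ha b hb
        simp only [List.head?_cons, Option.mem_def, Option.some.injEq] at hb
        subst hb
        rintro rfl
        exact hlast a ha hi
      · rw [s_clTan B]; exact hyn
      · rw [W.sg_append]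
        show z = sg w (s i (s i y))
        rw [B.s_s]
        exact hzy
      · intro a ha
        simp only [List.getLast?_append, List.getLast?_singleton, Option.some_or, Option.mem_def,
          Option.some.injEq] at ha
        subst ha
        rw [B.s_DiscI]
        exact fun h => h (B.sub i hi)
      · intro _
        rw [W.DL_append w [i] (by simp)]
        exact ⟨y, B.sub i hi, hzy.symm⟩
  obtain ⟨N, hN⟩ := hsh z (closure Tan)ᶜ (isClosed_closure.isOpen_compl.mem_nhds hzn)
  obtain ⟨w, y, hw, hl, -, -, -, -, hDL⟩ := key (N + 1)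
  have hsub := hN w hw (by omega) (hDL (by omega))
  have hwne : w ≠ [] := by
    rintro rfl
    simp at hl
  obtain ⟨w', i, rfl⟩ : ∃ w' i, w = w' ++ [i] :=
    ⟨w.dropLast, w.getLast hwne, (List.dropLast_append_getLast hwne).symm⟩
  have hex : ∀ i : Fin 4, ∃ j : Fin 4, i ≠ j := by decide
  obtain ⟨j, hj⟩ := hex i
  have hmem : sg w' (tp i j) ∈ DL (w' ++ [i]) := by
    rw [W.DL_append w' [i] (by simp)]
    exact ⟨tp i j, (B.tp_mem i j hj).le, rfl⟩
  exact hsub hmem (subset_closure ⟨w', i, j, hj, rfl⟩)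

end Pool.Agent.TH914.J2843
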