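import Pool.Agent.TH605.AP.WF
import Pool.Agent.TH914.AP.Alt

/-! Job 2848: every reduced word has an extension whose disc misses `KK`. -/

set_option autoImplicit false

open Set Topology Filter

namespace Pool.Agent.TH914.J2848

open Pool.Agent.TH605.AP Pool.Agent.TH914.AP

lemma RL_eq : RL = Cir 2 := by
  ext z
  induction z using OnePoint.rec with
  | infty =>
    refine ⟨fun _ => ?_, fun _ => Or.inl rfl⟩
    show E (vC 2) OnePoint.infty = 0
    simp [E, vC]
  | coe z =>
    constructor
    · rintro (h | ⟨x, hx⟩)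
      · exact absurd h (OnePoint.coe_ne_infty z)
      · have hx' : (x : ℂ) = z := OnePoint.coe_injective hx
        show E (vC 2) (z : OnePoint ℂ) = 0
        rw [← hx']
        simp [E, vC]
    · intro h
      have h' : E (vC 2) (z : OnePoint ℂ) = 0 := h
      have h2 : z.im = 0 := by
        simp [E, vC] at h'
        exact h'
      right
      exact ⟨z.re, congrArg OnePoint.some (Complex.ext (by simp) (by simp [h2]))⟩

lemma notMem (B : BF) (W : WF) {b : Fin 4} {y : OnePoint ℂ} (hy : y ∈ Disc b) (hy2 : y ∉ Cir 2)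
    (w : List (Fin 4)) : IsRed (w ++ [b]) → sg w y ∉ Cir 2 := by
  induction w with
  | nil => intro _; exact hy2
  | cons i w ih =>
    intro h
    by_cases hi : i = 2
    · subst hi
      have h1 : sg (2 :: w) y ∈ DL (2 :: (w ++ [b])) := by
        have := W.DL_append (2 :: w) [b] (by simp)
        rw [List.cons_append] at this
        rw [this]
        exact ⟨y, hy, rfl⟩
      have h2 := W.DL_head 2 (w ++ [b]) h h1
      exact fun h3 => (B.Cir_Disc 2).ne_of_mem h3 h2 rfl
    · have h1 : IsRed (w ++ [b]) := by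
        have h' : List.IsChain (· ≠ ·) (i :: (w ++ [b])) := h
        exact (List.isChain_cons.1 h').2
      intro h3
      apply ih h1
      have h4 : s i (sg w y) ∈ s i '' Cir 2 := by
        rw [B.s_Cir i 2 hi]
        exact h3
      obtain ⟨x, hx, hxe⟩ := h4
      have h5 : x = sg w y := by
        rw [← B.s_s i x, hxe, B.s_s]
      rwa [← h5]

theorem extend (B : BF) (W : WF) (hsh : Shrink) (K : KF) (w : List (Fin 4)) (hne : w ≠ [])
    (hw : IsRed w) : ∃ v, IsRed v ∧ w <+: v ∧ Disjoint (DL v) KK := by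
  have hbc : ∀ a : Fin 4, ∃ b c : Fin 4, b ≠ a ∧ c ≠ b ∧ (b = 2 ∨ c = 2) := by decide
  obtain ⟨b, c, hba, hcb, h2⟩ := hbc (w.getLast hne)
  have hmem := tp_Disc B hcb.symm
  have hy2 : tp b c ∉ Cir 2 := by
    intro h
    rcases h2 with rfl | rfl
    · exact (B.Cir_Disc 2).ne_of_mem h hmem.1 rfl
    · exact (B.Cir_Disc 2).ne_of_mem h hmem.2 rfl
  have hlast : ∀ x ∈ w.getLast?, x = w.getLast hne := by
    intro x hx
    rw [List.getLast?_eq_some_getLast hne] at hx
    simpa using hx.symm
  have hwb : IsRed (w ++ [b]) := by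
    refine List.isChain_append.2 ⟨hw, List.isChain_singleton _, ?_⟩
    intro x hx y hy
    simp only [List.head?_cons, Option.mem_def, Option.some.injEq] at hy
    subst hy
    rw [hlast x hx]
    exact hba.symm
  have hz : sg w (tp b c) ∉ KK := by
    intro h
    have h3 := K.Tan_KK _ ⟨w, b, c, hcb.symm, rfl⟩ h
    rw [RL_eq] at h3
    exact notMem B W hmem.1 hy2 w hwb h3
  obtain ⟨N, hN⟩ := hsh _ KKᶜ (K.closed_KK.isOpen_compl.mem_nhds hz)
  refine ⟨w ++ alt b c (N + 1), ?_, List.prefix_append _ _, ?_⟩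
  · refine List.isChain_append.2 ⟨hw, alt_red _ b c hcb.symm, ?_⟩
    intro x hx y hy
    rw [hlast x hx, alt_head b c _ y hy]
    exact hba.symm
  · have h4 := hN (w ++ alt b c (N + 1)) (List.isChain_append.2 ⟨hw, alt_red _ b c hcb.symm, by
      intro x hx y hy
      rw [hlast x hx, alt_head b c _ y hy]
      exact hba.symm⟩) (by rw [List.length_append, alt_length]; omega)
      (mem_DL_alt B W w hcb.symm N)
    exact Set.disjoint_left.2 fun x hx hxK => h4 hx hxK

end Pool.Agent.TH914.J2848
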