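import Pool.Agent.TH605.AP.WF

/-! Job 2849: Zorn. -/

set_option autoImplicit false

open Set Topology Filter

namespace Pool.Agent.TH914.J2849

open Pool.Agent.TH605.AP

theorem exists_good (hext : ∀ w : List (Fin 4), w ≠ [] → IsRed w →
      ∃ v, IsRed v ∧ w <+: v ∧ Disjoint (DL v) KK) :
    ∃ T : Set (Option (List (Fin 4))), Good T ∧ Dns T := by
  have h0 : Good {none} := by
    refine ⟨rfl, ?_, ?_, ?_, ?_⟩
    · intro v hv; simp at hv
    · intro v hv; simp at hv
    · intro v hv; simp at hv
    · intro t ht t' ht' hne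
      rw [mem_singleton_iff] at ht ht'
      exact absurd (ht.trans ht'.symm) hne
  obtain ⟨T, -, hT⟩ := zorn_subset_nonempty {T : Set (Option (List (Fin 4))) | Good T} (by
    intro c hc hch hne
    refine ⟨⋃₀ c, ?_, fun A hA => subset_sUnion_of_mem hA⟩
    obtain ⟨A₀, hA₀⟩ := hne
    refine ⟨⟨A₀, hA₀, (hc hA₀).none_mem⟩, ?_, ?_, ?_, ?_⟩
    · rintro v ⟨A, hA, hv⟩
      exact (hc hA).ne v hv
    · rintro v ⟨A, hA, hv⟩
      exact (hc hA).red v hv
    · rintro v ⟨A, hA, hv⟩
      exact (hc hA).avoid v hv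
    · rintro t ⟨A, hA, ht⟩ t' ⟨A', hA', ht'⟩ hne x y hx hy
      rcases hch.total hA hA' with h | h
      · exact (hc hA').anti t (h ht) t' ht' hne x y hx hy
      · exact (hc hA).anti t ht t' (h ht') hne x y hx hy) {none} h0
  refine ⟨T, hT.1, ?_⟩
  intro w hw hr
  by_contra hcon
  push Not at hcon
  obtain ⟨v, hv, hwv, hdis⟩ := hext w hw hr
  have hpre : ∀ x, gw (some v) x → w <+: x := by
    rintro x (rfl | rfl)
    · exact hwv.trans (List.prefix_append _ _)
    · exact hwv.trans (List.prefix_append _ _)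
  have hvne : v ≠ [] := by
    rintro rfl
    exact hw (List.prefix_nil.1 hwv)
  have hG : Good (insert (some v) T) := by
    refine ⟨Or.inr hT.1.none_mem, ?_, ?_, ?_, ?_⟩
    · rintro u (hu | hu)
      · rw [Option.some.injEq] at hu
        rw [hu]; exact hvne
      · exact hT.1.ne u hu
    · rintro u (hu | hu)
      · rw [Option.some.injEq] at hu
        rw [hu]; exact hv
      · exact hT.1.red u hu
    · rintro u (hu | hu)
      · rw [Option.some.injEq] at hu
        rw [hu]; exact hdis
      · exact hT.1.avoid u hu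
    · rintro t (rfl | ht) t' (rfl | ht') hne x y hx hy hxy
      · exact hne rfl
      · exact (hcon t' ht' y hy).2 ((hpre x hx).trans hxy)
      · rcases List.prefix_or_prefix_of_prefix hxy (hpre y hy) with h | h
        · exact (hcon t ht x hx).1 h
        · exact (hcon t ht x hx).2 h
      · exact hT.1.anti t ht t' ht' hne x y hx hy hxy
  have hmem : some v ∈ T := hT.2 hG (subset_insert _ _) (mem_insert _ _)
  exact (hcon (some v) hmem _ (Or.inl rfl)).2 (hpre _ (Or.inl rfl))

end Pool.Agent.TH914.J2849
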