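import Pool.Agent.TH605.AP.WF
import Pool.Agent.TH914.AP.Alt

/-! Job 2853: tangency points are accumulation points. -/

set_option autoImplicit false

open Set Topology Filter

namespace Pool.Agent.TH914.J2853

open Pool.Agent.TH605.AP Pool.Agent.TH914.AP

lemma normal_form (B : BF) {i j : Fin 4} (hij : i ≠ j) (w : List (Fin 4)) :
    ∃ w', IsRed w' ∧ (∀ a ∈ w'.getLast?, a ≠ i ∧ a ≠ j) ∧ sg w' (tp i j) = sg w (tp i j) := by
  induction w with
  | nil => exact ⟨[], List.isChain_nil, by simp, rfl⟩
  | cons a w ih =>
    obtain ⟨w', h1, h2, h3⟩ := ih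
    have hfix := fix_tp B hij
    cases w' with
    | nil =>
      by_cases ha : a = i ∨ a = j
      · refine ⟨[], List.isChain_nil, by simp, ?_⟩
        show tp i j = s a (sg w (tp i j))
        rw [← h3]
        show tp i j = s a (tp i j)
        rcases ha with rfl | rfl
        · exact hfix.1.symm
        · exact hfix.2.symm
      · refine ⟨[a], List.isChain_singleton _, ?_, ?_⟩
        · intro x hx
          simp only [List.getLast?_singleton, Option.mem_def, Option.some.injEq] at hx
          subst hx
          push Not at ha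
          exact ha
        · show s a (tp i j) = s a (sg w (tp i j))
          rw [← h3]
          rfl
    | cons b w'' =>
      have h1' : List.IsChain (· ≠ ·) (b :: w'') := h1
      by_cases hab : a = b
      · subst hab
        refine ⟨w'', (List.isChain_cons.1 h1').2, ?_, ?_⟩
        · intro x hx
          apply h2
          cases w'' with
          | nil => simp at hx
          | cons c w₃ => rw [List.getLast?_cons_cons]; exact hx
        · show sg w'' (tp i j) = s a (sg w (tp i j))
          rw [← h3]
          show sg w'' (tp i j) = s a (s a (sg w'' (tp i j)))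
          rw [B.s_s]
      · refine ⟨a :: b :: w'', ?_, ?_, ?_⟩
        · show List.IsChain (· ≠ ·) (a :: b :: w'')
          rw [List.isChain_cons]
          refine ⟨fun y hy => ?_, h1'⟩
          simp only [List.head?_cons, Option.mem_def, Option.some.injEq] at hy
          subst hy
          exact hab
        · intro x hx
          rw [List.getLast?_cons_cons] at hx
          exact h2 x hx
        · show s a (sg (b :: w'') (tp i j)) = s a (sg w (tp i j))
          rw [h3]

theorem Tan_derived (B : BF) (W : WF) (hsh : Shrink)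
    (G : Subgroup (Matrix.GeneralLinearGroup (Fin 2) ℂ)) (z : OnePoint ℂ)
    (hits : ∀ w : List (Fin 4), w ≠ [] → IsRed w → ∃ γ ∈ G, γ • z ∈ DL w) :
    Tan ⊆ derivedSet {w : OnePoint ℂ | ∃ g ∈ G, w = g • z} := by
  rintro p ⟨w₀, i, j, hij, rfl⟩
  obtain ⟨w, hw, hlast, he⟩ := normal_form B hij w₀
  rw [← he, mem_derivedSet, accPt_iff_nhds]
  intro U hU
  obtain ⟨N, hN⟩ := hsh _ U hU
  have hk : ∀ i j : Fin 4, ∃ k : Fin 4, k ≠ i ∧ k ≠ j := by decide
  obtain ⟨k, hki, hkj⟩ := hk i j
  set v := w ++ alt i j (N + 1) with hv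
  have hvr : IsRed v := by
    refine List.isChain_append.2 ⟨hw, alt_red _ i j hij, ?_⟩
    intro x hx y hy
    rw [alt_head i j _ y hy]
    exact (hlast x hx).1
  have hvU : DL v ⊆ U := hN v hvr (by rw [hv, List.length_append, alt_length]; omega)
    (mem_DL_alt B W w hij N)
  have hvne : alt i j (N + 1) ≠ [] := alt_ne i j N
  have hvk : IsRed (v ++ [k]) := by
    refine List.isChain_append.2 ⟨hvr, List.isChain_singleton _, ?_⟩
    intro x hx y hy
    simp only [List.head?_cons, Option.mem_def, Option.some.injEq] at hy
    subst hy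
    have hx' : x ∈ (alt i j (N + 1)).getLast? := by
      rw [hv, List.getLast?_append_of_ne_nil _ hvne] at hx
      exact hx
    rcases alt_last _ i j x hx' with rfl | rfl
    · exact hki.symm
    · exact hkj.symm
  obtain ⟨γ, hγ, hγz⟩ := hits (v ++ [k]) (by simp) hvk
  refine ⟨γ • z, ⟨hvU (W.DL_prefix v _ hvk (List.prefix_append _ _) hγz), γ, hγ, rfl⟩, ?_⟩
  intro heq
  rw [heq, W.DL_append v [k] (by simp)] at hγz
  obtain ⟨y, hy, hye⟩ := hγz
  have h1 : sg w (tp i j) = sg v (tp i j) := by
    rw [hv, W.sg_append, alt_fix _ _ i j (fix_tp B hij).1 (fix_tp B hij).2]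
  rw [h1] at hye
  have h2 := sg_inj W v hye
  rw [h2] at hy
  exact B.tp_not i j k hij hki hkj hy

end Pool.Agent.TH914.J2853
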