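import Pool.Agent.TH168.Mil.Geo

/-! Job 1809 (MIL-G1): chain rule for the Mercator support function of a smooth function. -/

set_option autoImplicit false

namespace Pool.Agent.TH914.Mil

open Set Filter Topology MeasureTheory
open scoped ContDiff
open Pool.Agent.TH168.Mil

theorem two_le : (2 : WithTop ℕ∞) ≤ ∞ := by
  show ((2 : ℕ∞) : WithTop ℕ∞) ≤ ((⊤ : ℕ∞) : WithTop ℕ∞)
  exact WithTop.coe_le_coe.mpr le_top

theorem diff_fderiv {G : ℝ × ℝ → ℝ} (hG : ContDiff ℝ ∞ G) : Differentiable ℝ (fderiv ℝ G) := by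
  have h : ContDiff ℝ 1 (fderiv ℝ G) := hG.fderiv_right (by rw [one_add_one_eq_two]; exact two_le)
  exact h.differentiable (by norm_num)

theorem hess_eq {G : ℝ × ℝ → ℝ} (hG : ContDiff ℝ ∞ G) (P v w : ℝ × ℝ) :
    hess G P v w = fderiv ℝ (fderiv ℝ G) P w v := by
  unfold hess
  have h1 : HasFDerivAt (fun Q => fderiv ℝ G Q v)
      ((ContinuousLinearMap.apply ℝ ℝ v).comp (fderiv ℝ (fderiv ℝ G) P)) P :=
    (ContinuousLinearMap.apply ℝ ℝ v).hasFDerivAt.comp P (diff_fderiv hG P).hasFDerivAt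
  rw [h1.fderiv]
  rfl

theorem hess_symm {G : ℝ × ℝ → ℝ} (hG : ContDiff ℝ ∞ G) (P v w : ℝ × ℝ) :
    hess G P v w = hess G P w v := by
  rw [hess_eq hG, hess_eq hG]
  have h : IsSymmSndFDerivAt ℝ G P := by
    apply (hG.contDiffAt).isSymmSndFDerivAt
    simp only [minSmoothness_of_isRCLikeNormedField]
    exact two_le
  exact h w v

theorem hess_add_left {G : ℝ × ℝ → ℝ} (hG : ContDiff ℝ ∞ G) (P v w z : ℝ × ℝ) :
    hess G P (v + w) z = hess G P v z + hess G P w z := by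
  rw [hess_eq hG, hess_eq hG, hess_eq hG, map_add]

theorem hess_smul_left {G : ℝ × ℝ → ℝ} (hG : ContDiff ℝ ∞ G) (P v z : ℝ × ℝ) (c : ℝ) :
    hess G P (c • v) z = c * hess G P v z := by
  rw [hess_eq hG, hess_eq hG, map_smul, smul_eq_mul]

theorem hess_smul_right {G : ℝ × ℝ → ℝ} (P v z : ℝ × ℝ) (c : ℝ) :
    hess G P v (c • z) = c * hess G P v z := by
  unfold hess
  rw [map_smul, smul_eq_mul]

/-- derivative of `fderiv G` along a curve, applied to a moving vector -/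
theorem deriv_along {G : ℝ × ℝ → ℝ} (hG : ContDiff ℝ ∞ G) {γ V : ℝ → ℝ × ℝ} {γ' V' : ℝ × ℝ}
    {t : ℝ} (hγ : HasDerivAt γ γ' t) (hV : HasDerivAt V V' t) :
    HasDerivAt (fun t => fderiv ℝ G (γ t) (V t))
      (hess G (γ t) (V t) γ' + fderiv ℝ G (γ t) V') t := by
  have h1 : HasDerivAt (fun t => fderiv ℝ G (γ t)) (fderiv ℝ (fderiv ℝ G) (γ t) γ') t :=
    (diff_fderiv hG (γ t)).hasFDerivAt.comp_hasDerivAt t hγ
  have h2 := h1.clm_apply hV
  rw [hess_eq hG]
  exact h2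

theorem deriv_G {G : ℝ × ℝ → ℝ} (hG : ContDiff ℝ ∞ G) {γ : ℝ → ℝ × ℝ} {γ' : ℝ × ℝ}
    {t : ℝ} (hγ : HasDerivAt γ γ' t) :
    HasDerivAt (fun t => G (γ t)) (fderiv ℝ G (γ t) γ') t :=
  ((hG.differentiable (by norm_num)) (γ t)).hasFDerivAt.comp_hasDerivAt t hγ

/-- radial vector -/
noncomputable def er (θ : ℝ) : ℝ × ℝ := (Real.cos θ, Real.sin θ)
/-- angular vector -/
noncomputable def et (θ : ℝ) : ℝ × ℝ := (-Real.sin θ, Real.cos θ)

theorem deriv_er (θ : ℝ) : HasDerivAt er (et θ) θ :=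
  (Real.hasDerivAt_cos θ).prodMk (Real.hasDerivAt_sin θ)

theorem deriv_et (θ : ℝ) : HasDerivAt et (-(er θ)) θ := by
  have h := ((Real.hasDerivAt_sin θ).neg).prodMk (Real.hasDerivAt_cos θ)
  exact h

theorem pt_eq (θ y : ℝ) : pt θ y = (Real.sinh y)⁻¹ • er θ := by
  unfold pt er
  ext <;> simp [div_eq_inv_mul]

theorem deriv_pt_θ (θ y : ℝ) : HasDerivAt (fun a => pt a y) ((Real.sinh y)⁻¹ • et θ) θ := by
  simp only [pt_eq]
  exact (deriv_er θ).const_smul (Real.sinh y)⁻¹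

theorem deriv_pt_y (θ : ℝ) {y : ℝ} (hy : 0 < y) :
    HasDerivAt (fun b => pt θ b) ((-Real.cosh y / Real.sinh y ^ 2) • er θ) y := by
  simp only [pt_eq]
  have hs : Real.sinh y ≠ 0 := (Real.sinh_pos_iff.mpr hy).ne'
  exact ((Real.hasDerivAt_sinh y).inv hs).smul_const _

theorem d1 {G : ℝ × ℝ → ℝ} (hG : ContDiff ℝ ∞ G) (θ : ℝ) {y : ℝ} (hy : 0 < y) :
    HasDerivAt (fun a => fG G a y) (fderiv ℝ G (pt θ y) (et θ)) θ := by
  have hs : Real.sinh y ≠ 0 := (Real.sinh_pos_iff.mpr hy).ne'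
  have h := (deriv_G hG (deriv_pt_θ θ y)).const_mul (Real.sinh y)
  rw [map_smul, smul_eq_mul, ← mul_assoc, mul_inv_cancel₀ hs, one_mul] at h
  exact h

theorem d2 {G : ℝ × ℝ → ℝ} (hG : ContDiff ℝ ∞ G) (θ : ℝ) {y : ℝ} (hy : 0 < y) :
    HasDerivAt (fun b => fG G θ b) (Real.cosh y * G (pt θ y) -
        Real.cosh y / Real.sinh y * fderiv ℝ G (pt θ y) (er θ)) y := by
  have hs : Real.sinh y ≠ 0 := (Real.sinh_pos_iff.mpr hy).ne'
  have h := (Real.hasDerivAt_sinh y).mul (deriv_G hG (deriv_pt_y θ hy))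
  rw [map_smul, smul_eq_mul] at h
  have h' : HasDerivAt (fun b => fG G θ b) _ y := h
  refine h'.congr_deriv ?_
  field_simp
  ring

/-- two-jet of the Mercator support function in terms of the derivatives of `G` -/
theorem hasJet_fG {G : ℝ × ℝ → ℝ} (hG : ContDiff ℝ ∞ G) (θ : ℝ) {y : ℝ} (hy : 0 < y) :
    HasJet (fG G) θ y (Real.sinh y * G (pt θ y))
      (fderiv ℝ G (pt θ y) (-Real.sin θ, Real.cos θ))
      (Real.cosh y * G (pt θ y) -
        Real.cosh y / Real.sinh y * fderiv ℝ G (pt θ y) (Real.cos θ, Real.sin θ))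
      (hess G (pt θ y) (-Real.sin θ, Real.cos θ) (-Real.sin θ, Real.cos θ) / Real.sinh y -
        fderiv ℝ G (pt θ y) (Real.cos θ, Real.sin θ))
      (-(Real.cosh y / Real.sinh y ^ 2) *
        hess G (pt θ y) (Real.cos θ, Real.sin θ) (-Real.sin θ, Real.cos θ))
      (Real.sinh y * G (pt θ y) - fderiv ℝ G (pt θ y) (Real.cos θ, Real.sin θ) +
        Real.cosh y ^ 2 / Real.sinh y ^ 3 *
          hess G (pt θ y) (Real.cos θ, Real.sin θ) (Real.cos θ, Real.sin θ)) := by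
  have hs : Real.sinh y ≠ 0 := (Real.sinh_pos_iff.mpr hy).ne'
  refine ⟨fun a b => fderiv ℝ G (pt a b) (et a),
    fun a b => Real.cosh b * G (pt a b) - Real.cosh b / Real.sinh b * fderiv ℝ G (pt a b) (er a),
    ?_, rfl, rfl, rfl, ?_, ?_, ?_⟩
  · have h0 : ∀ᶠ p : ℝ × ℝ in 𝓝 (θ, y), 0 < p.2 :=
      (continuous_snd.tendsto (θ, y)).eventually (lt_mem_nhds hy)
    filter_upwards [h0] with p hp
    exact ⟨d1 hG p.1 hp, d2 hG p.1 hp⟩
  · have h := deriv_along hG (deriv_pt_θ θ y) (deriv_et θ)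
    rw [hess_smul_right, map_neg] at h
    refine h.congr_deriv ?_
    show _ = hess G (pt θ y) (et θ) (et θ) / Real.sinh y - fderiv ℝ G (pt θ y) (er θ)
    rw [div_eq_inv_mul]
    ring
  · have h1 := (deriv_G hG (deriv_pt_θ θ y)).const_mul (Real.cosh y)
    have h2 := (deriv_along hG (deriv_pt_θ θ y) (deriv_er θ)).const_mul
      (Real.cosh y / Real.sinh y)
    have h := h1.sub h2
    rw [hess_smul_right, map_smul, smul_eq_mul] at h
    have h' : HasDerivAt (fun a => Real.cosh y * G (pt a y) -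
      Real.cosh y / Real.sinh y * fderiv ℝ G (pt a y) (er a)) _ θ := h
    refine h'.congr_deriv ?_
    show _ = -(Real.cosh y / Real.sinh y ^ 2) * hess G (pt θ y) (er θ) (et θ)
    field_simp
    ring
  · have h1 := (Real.hasDerivAt_cosh y).mul (deriv_G hG (deriv_pt_y θ hy))
    have h2 := ((Real.hasDerivAt_cosh y).div (Real.hasDerivAt_sinh y) hs).mul
      (deriv_along hG (deriv_pt_y θ hy) (hasDerivAt_const y (er θ)))
    have h := h1.sub h2
    rw [hess_smul_right, map_smul, smul_eq_mul, map_zero] at h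
    have h' : HasDerivAt (fun b => Real.cosh b * G (pt θ b) -
      Real.cosh b / Real.sinh b * fderiv ℝ G (pt θ b) (er θ)) _ y := h
    refine h'.congr_deriv ?_
    show _ = Real.sinh y * G (pt θ y) - fderiv ℝ G (pt θ y) (er θ) +
        Real.cosh y ^ 2 / Real.sinh y ^ 3 * hess G (pt θ y) (er θ) (er θ)
    have hc : Real.cosh y ^ 2 = Real.sinh y ^ 2 + 1 := Real.cosh_sq y
    simp only [Pi.div_apply]
    generalize hess G (pt θ y) (er θ) (er θ) = H
    generalize fderiv ℝ G (pt θ y) (er θ) = D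
    generalize G (pt θ y) = g
    generalize Real.cosh y = c at hc ⊢
    generalize Real.sinh y = s at hs hc ⊢
    field_simp
    ring

end Pool.Agent.TH914.Mil
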