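import Pool.Agent.TH598.GV.Defs

set_option autoImplicit false

/-!
# Gaussian integrals of monomials
-/

namespace Pool.Agent.TH914.GVC

open Finset MeasureTheory Pool.Agent.TH598.GV
open scoped ComplexConjugate ComplexOrder

/-- the radial integral -/
lemma radial (k : ℕ) :
    ∫ x : ℂ, ‖x‖ ^ k * Real.exp (-‖x‖ ^ 2) = Real.pi * Real.Gamma ((k + 2) / 2) := by
  have h := Complex.integral_rpow_mul_exp_neg_rpow (p := 2) (q := k) (by norm_num)
    (by have : (0 : ℝ) ≤ k := Nat.cast_nonneg k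
        linarith)
  have e : ∀ x : ℂ, ‖x‖ ^ (k : ℝ) * Real.exp (-‖x‖ ^ (2 : ℝ)) = ‖x‖ ^ k * Real.exp (-‖x‖ ^ 2) := by
    intro x
    rw [Real.rpow_natCast, Real.rpow_two]
  simp only [e] at h
  rw [h]
  ring

lemma radial_integrable (k : ℕ) : Integrable (fun x : ℂ => ‖x‖ ^ k * Real.exp (-‖x‖ ^ 2)) := by
  by_contra h
  have h1 := radial k
  rw [integral_undef h] at h1
  have h2 : 0 < Real.Gamma (((k : ℝ) + 2) / 2) := Real.Gamma_pos_of_pos (by positivity)
  have h3 := mul_pos Real.pi_pos h2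
  linarith

/-- one coordinate -/
noncomputable def f1 (a b : ℕ) (z : ℂ) : ℂ := z ^ a * conj (z ^ b) * (Real.exp (-‖z‖ ^ 2) : ℂ)

lemma f1_cont (a b : ℕ) : Continuous (f1 a b) := by
  unfold f1
  fun_prop

lemma f1_norm (a b : ℕ) (z : ℂ) : ‖f1 a b z‖ = ‖z‖ ^ (a + b) * Real.exp (-‖z‖ ^ 2) := by
  unfold f1
  rw [norm_mul, norm_mul, norm_pow, RCLike.norm_conj, norm_pow, ← pow_add, Complex.norm_real,
    Real.norm_eq_abs, abs_of_pos (Real.exp_pos _)]

lemma f1_integrable (a b : ℕ) : Integrable (f1 a b) :=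
  (radial_integrable (a + b)).mono' (f1_cont a b).aestronglyMeasurable
    (Filter.Eventually.of_forall fun z => (f1_norm a b z).le)

lemma f1_rot (a b : ℕ) (c : Circle) :
    ∫ z : ℂ, f1 a b z = ((c : ℂ) ^ a * conj ((c : ℂ) ^ b)) * ∫ z : ℂ, f1 a b z := by
  have h1 : ∫ z : ℂ, f1 a b (rotation c z) = ∫ z : ℂ, f1 a b z :=
    (rotation c).measurePreserving.integral_comp
      (rotation c).toHomeomorph.measurableEmbedding (f1 a b)
  rw [← integral_const_mul]
  conv_lhs => rw [← h1]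
  congr 1
  funext z
  unfold f1
  rw [rotation_apply, norm_mul, Circle.norm_coe, one_mul, mul_pow, mul_pow, map_mul]
  ring

lemma f1_integral (a b : ℕ) :
    ∫ z : ℂ, f1 a b z = if a = b then (Real.pi : ℂ) * (a.factorial : ℂ) else 0 := by
  split_ifs with h
  · subst h
    have e : ∀ z : ℂ, f1 a a z = ((‖z‖ ^ (2 * a) * Real.exp (-‖z‖ ^ 2) : ℝ) : ℂ) := by
      intro z
      unfold f1
      rw [Complex.mul_conj, Complex.normSq_eq_norm_sq, norm_pow]
      push_cast
      ring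
    simp only [e]
    rw [integral_complex_ofReal, radial (2 * a)]
    have : (((2 * a : ℕ) : ℝ) + 2) / 2 = a + 1 := by push_cast; ring
    rw [this, Real.Gamma_nat_eq_factorial]
    push_cast
    rfl
  · -- rotation
    by_contra hne
    have h0 : ∀ c : Circle, (c : ℂ) ^ a * conj ((c : ℂ) ^ b) = 1 := by
      intro c
      have h1 := f1_rot a b c
      have h2 : ((c : ℂ) ^ a * conj ((c : ℂ) ^ b) - 1) * ∫ z : ℂ, f1 a b z = 0 := by
        linear_combination -h1
      rcases mul_eq_zero.1 h2 with h3 | h3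
      · linear_combination h3
      · exact absurd h3 hne
    have h4 : ∀ t : ℝ, Complex.exp ((((a : ℤ) - (b : ℤ) : ℤ) : ℂ) * t * Complex.I) = 1 := by
      intro t
      have h5 := h0 (Circle.exp t)
      rw [Circle.coe_exp, map_pow, ← Complex.exp_conj, ← Complex.exp_nat_mul,
        ← Complex.exp_nat_mul, ← Complex.exp_add] at h5
      rw [← h5]
      congr 1
      simp only [map_mul, Complex.conj_ofReal, Complex.conj_I]
      push_cast
      ring
    have h6 : (((a : ℤ) - (b : ℤ) : ℤ) : ℝ) ≠ 0 := by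
      have : ((a : ℤ) - (b : ℤ) : ℤ) ≠ 0 := by omega
      exact_mod_cast this
    have h7 := h4 (Real.pi / (((a : ℤ) - (b : ℤ) : ℤ) : ℝ))
    have h8 : (((a : ℤ) - (b : ℤ) : ℤ) : ℂ) * ((Real.pi / (((a : ℤ) - (b : ℤ) : ℤ) : ℝ) : ℝ) : ℂ)
        * Complex.I = Real.pi * Complex.I := by
      have h9 : (((a : ℤ) - (b : ℤ) : ℤ) : ℂ) ≠ 0 := by
        have : ((a : ℤ) - (b : ℤ) : ℤ) ≠ 0 := by omega
        exact_mod_cast this
      push_cast at h9 ⊢
      field_simp
    rw [h8, Complex.exp_pi_mul_I] at h7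
    norm_num at h7

section prod

variable {S : Type} [Fintype S]

lemma gw_prod (α β : S → ℕ) (ξ : S → ℂ) :
    (∏ s, ξ s ^ α s) * conj (∏ s, ξ s ^ β s) * (gw ξ : ℂ) = ∏ s, f1 (α s) (β s) (ξ s) := by
  unfold gw f1
  rw [Finset.prod_mul_distrib, Finset.prod_mul_distrib, map_prod, ← Finset.sum_neg_distrib,
    Real.exp_sum]
  push_cast
  rfl

theorem mono_integrable (α β : S → ℕ) : Integrable (fun ξ : S → ℂ =>
    (∏ s, ξ s ^ α s) * conj (∏ s, ξ s ^ β s) * (gw ξ : ℂ)) := by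
  simp only [gw_prod]
  exact Integrable.fintype_prod_dep fun s => f1_integrable (α s) (β s)

theorem mono_integral [DecidableEq S] (α β : S → ℕ) :
    ∫ ξ : S → ℂ, (∏ s, ξ s ^ α s) * conj (∏ s, ξ s ^ β s) * (gw ξ : ℂ) =
      if α = β then (Real.pi : ℂ) ^ Fintype.card S * ∏ s, ((α s).factorial : ℂ) else 0 := by
  simp only [gw_prod]
  rw [integral_fintype_prod_volume_eq_prod (fun s => f1 (α s) (β s))]
  simp only [f1_integral]
  split_ifs with h
  · subst h
    simp only [if_true]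
    rw [Finset.prod_mul_distrib, Finset.prod_const, Finset.card_univ]
  · obtain ⟨s, hs⟩ := Function.ne_iff.1 h
    exact Finset.prod_eq_zero (Finset.mem_univ s) (if_neg hs)

end prod

end Pool.Agent.TH914.GVC
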