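import Pool.Agent.TH914.J3414a
import Pool.Agent.TH914.J3414b

set_option autoImplicit false

/-!
# Job GV-C: Wick's formula
-/

namespace Pool.Agent.TH914.GVC

open Finset MeasureTheory Pool.Agent.TH598.GV
open scoped ComplexConjugate ComplexOrder

/-- J4: Wick's formula -/
theorem wick {S : Type} [Fintype S] [DecidableEq S] (n : ℕ) (p q : (Fin n → S) → ℂ)
    (_hp : ∀ (π : Equiv.Perm (Fin n)) a, p (a ∘ π) = p a)
    (hq : ∀ (π : Equiv.Perm (Fin n)) a, q (a ∘ π) = q a) :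
    ∫ ξ : S → ℂ, (∑ a, p a * ∏ i, ξ (a i)) * conj (∑ a, q a * ∏ i, ξ (a i)) * (gw ξ : ℂ) =
      (Real.pi : ℂ) ^ Fintype.card S * n.factorial * ∑ a, p a * conj (q a) :=
  wick_of mono_integrable mono_integral n p q hq

end Pool.Agent.TH914.GVC
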