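import Pool.Agent.TH37.HG.Stmts

/-! Jobs 1747, 1748, 1750, 1753 of helper37: generic freeness lemmas, divisible modules, Fitting. -/

set_option autoImplicit false
set_option linter.unusedSectionVars false

namespace Pool.Agent.TH914.HG

open Pool.Agent.TH37.HG

theorem union : UnionStmt := by
  intro J M _ _ _ f N hN hG B hB
  choose ι b hb hind hspan using hG
  refine ⟨(Σ k, ι k), fun x => b x.1 x.2, ?_, ?_, ?_⟩
  · rintro ⟨k, i⟩
    exact (hB _).mpr ⟨k + 1, hb k i⟩
  · intro l hl
    by_contra hne
    have hsup : l.splitSupport.Nonempty := by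
      have h0 : l.support.Nonempty := Finsupp.support_nonempty_iff.mpr hne
      obtain ⟨⟨k, i⟩, hki⟩ := h0
      rw [Finsupp.sigma_support, Finset.mem_sigma] at hki
      exact ⟨k, hki.1⟩
    obtain ⟨K, hK, hmax⟩ := l.splitSupport.exists_max_image id hsup
    have hsum : Finsupp.linearCombination J (fun x : Σ k, ι k => b x.1 x.2) l =
        ∑ k ∈ l.splitSupport, Finsupp.linearCombination J (b k) (l.split k) := by
      rw [Finsupp.linearCombination_apply, Finsupp.sigma_sum]
      rfl
    have hlev : ∀ k (m : ι k →₀ J), Finsupp.linearCombination J (b k) m ∈ N (k + 1) := by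
      intro k m
      rw [Finsupp.linearCombination_apply]
      exact Submodule.sum_mem _ fun i _ => Submodule.smul_mem _ _ (hb k i)
    rw [hsum, ← Finset.add_sum_erase _ _ hK] at hl
    have h1 : ∑ k ∈ l.splitSupport.erase K, Finsupp.linearCombination J (b k) (l.split k) ∈
        N K := by
      refine Submodule.sum_mem _ fun k hk => ?_
      have hk1 : k ∈ l.splitSupport := Finset.mem_of_mem_erase hk
      have hk2 : k ≤ K := hmax k hk1
      have hk3 : k ≠ K := Finset.ne_of_mem_erase hk
      exact hN (show k + 1 ≤ K by omega) (hlev k _)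
    have h2 : Finsupp.linearCombination J (b K) (l.split K) ∈ N K := by
      have h3 := Submodule.sub_mem _ (hN (Nat.zero_le K) hl) h1
      rwa [add_sub_cancel_right] at h3
    have h3 := hind K _ h2
    rw [Finsupp.mem_splitSupport_iff_nonzero, h3] at hK
    exact hK rfl
  · intro x hx
    obtain ⟨k, hk⟩ := (hB x).mp hx
    have key : ∀ k, ∀ x ∈ N k, ∃ n : ℕ, f ^ n • x ∈
        N 0 ⊔ Submodule.span J (Set.range fun x : Σ k, ι k => b x.1 x.2) := by
      intro k
      induction k with
      | zero =>
        intro x hx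
        exact ⟨0, by rw [pow_zero, one_smul]; exact Submodule.mem_sup_left hx⟩
      | succ k ih =>
        intro x hx
        obtain ⟨n, hn⟩ := hspan k x hx
        obtain ⟨y, hy, s, hs, hys⟩ := Submodule.mem_sup.mp hn
        obtain ⟨m, hm⟩ := ih y hy
        refine ⟨m + n, ?_⟩
        rw [pow_add, mul_smul, ← hys, smul_add]
        refine Submodule.add_mem _ hm (Submodule.mem_sup_right (Submodule.smul_mem _ _ ?_))
        refine Submodule.span_mono ?_ hs
        rintro _ ⟨i, rfl⟩
        exact ⟨⟨k, i⟩, rfl⟩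
    exact key k x hk

/-- the section `B / B` is free on the empty family -/
theorem gfs_empty {J M : Type} [CommRing J] [AddCommGroup M] [Module J M] (f : J)
    (C B : Submodule J M) (h : ∀ x ∈ B, ∃ n : ℕ, f ^ n • x ∈ C) : GFs f C B := by
  refine ⟨Empty, fun i => i.elim, fun i => i.elim, ?_, ?_⟩
  · intro l _
    exact Subsingleton.elim _ _
  · intro x hx
    obtain ⟨n, hn⟩ := h x hx
    exact ⟨n, Submodule.mem_sup_left hn⟩

theorem trans : TransStmt := by
  intro J M _ _ _ f C B D hCB hBD h1 h2
  let N : ℕ → Submodule J M := fun k => if k = 0 then C else if k = 1 then B else D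
  have hN0 : N 0 = C := rfl
  have hN1 : N 1 = B := rfl
  have hN2 : ∀ k, N (k + 2) = D := fun k => by
    show (if k + 2 = 0 then C else if k + 2 = 1 then B else D) = D
    rw [if_neg (by omega), if_neg (by omega)]
  have hmono : Monotone N := by
    refine monotone_nat_of_le_succ fun k => ?_
    match k with
    | 0 => exact hCB
    | 1 => rw [hN1, hN2 0]; exact hBD
    | k + 2 => rw [hN2 k, show k + 2 + 1 = (k + 1) + 2 by ring, hN2 (k + 1)]
  have h := union J M f N hmono ?_ D ?_
  · rwa [hN0] at h
  · intro k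
    match k with
    | 0 => exact h1
    | 1 => rw [hN1, hN2 0]; exact h2
    | k + 2 =>
      rw [hN2 k, show k + 2 + 1 = (k + 1) + 2 by ring, hN2 (k + 1)]
      exact gfs_empty f D D fun x hx => ⟨0, by rwa [pow_zero, one_smul]⟩
  · intro x
    constructor
    · intro hx
      exact ⟨2, by rw [hN2 0]; exact hx⟩
    · rintro ⟨k, hk⟩
      match k with
      | 0 => exact hBD (hCB hk)
      | 1 => exact hBD hk
      | k + 2 => rwa [hN2 k] at hk

theorem mul : MulStmt := by
  intro J M _ _ _ f g C B h
  obtain ⟨ι, b, hb, hind, hspan⟩ := h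
  refine ⟨ι, b, hb, hind, ?_⟩
  intro x hx
  obtain ⟨n, hn⟩ := hspan x hx
  refine ⟨n, ?_⟩
  rw [mul_comm, mul_pow, mul_smul]
  exact Submodule.smul_mem _ _ hn

theorem iso : IsoStmt := by
  intro J M _ _ _ f A D h
  obtain ⟨ι, b, hb, hind, hspan⟩ := h
  refine ⟨ι, b, fun i => Submodule.mem_sup_right (hb i), ?_, ?_⟩
  · intro l hl
    apply hind
    refine ⟨?_, hl⟩
    rw [Finsupp.linearCombination_apply]
    exact Submodule.sum_mem _ fun i _ => Submodule.smul_mem _ _ (hb i)
  · intro x hx
    obtain ⟨d, hd, a, ha, rfl⟩ := Submodule.mem_sup.mp hx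
    obtain ⟨n, hn⟩ := hspan a ha
    refine ⟨n, ?_⟩
    rw [smul_add]
    refine Submodule.add_mem _ (Submodule.mem_sup_left (Submodule.smul_mem _ _ hd)) ?_
    exact sup_le_sup_right (inf_le_right : A ⊓ D ≤ D) _ hn

theorem map' : MapStmt := by
  intro J M _ _ _ φ f C B h
  obtain ⟨ι, b, hb, hind, hspan⟩ := h
  refine ⟨ι, fun i => φ (b i), fun i => ⟨b i, hb i, rfl⟩, ?_, ?_⟩
  · intro l hl
    apply hind
    have h1 : Finsupp.linearCombination J (fun i => φ (b i)) l =
        φ (Finsupp.linearCombination J b l) := by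
      rw [Finsupp.linearCombination_apply, Finsupp.linearCombination_apply, Finsupp.sum,
        Finsupp.sum, map_sum]
      simp
    rw [h1] at hl
    obtain ⟨y, hy, hyl⟩ := hl
    have : y = Finsupp.linearCombination J b l := φ.injective hyl
    rwa [← this]
  · rintro x ⟨y, hy, rfl⟩
    obtain ⟨n, hn⟩ := hspan y hy
    refine ⟨n, ?_⟩
    have h1 : f ^ n • φ.toLinearMap y = φ.toLinearMap (f ^ n • y) := by
      rw [map_smul]
    rw [h1]
    have h2 := Submodule.mem_map_of_mem (f := φ.toLinearMap) hn
    rw [Submodule.map_sup, Submodule.map_span] at h2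
    have h3 : φ.toLinearMap '' Set.range b = Set.range fun i => φ (b i) := by
      rw [← Set.range_comp]
      rfl
    rwa [h3] at h2

theorem fgs (hT : TransStmt) (hM : MulStmt) : FgStmt := by
  classical
  intro J M _ _ _ _ C S
  induction S using Finset.induction_on with
  | empty =>
    refine ⟨1, one_ne_zero, gfs_empty 1 C _ ?_⟩
    intro x hx
    refine ⟨0, ?_⟩
    rw [pow_zero, one_smul]
    simpa using hx
  | insert s S' _ ih =>
    obtain ⟨f, hf, hG⟩ := ih
    have hle : C ⊔ Submodule.span J (S' : Set M) ≤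
        C ⊔ Submodule.span J ((insert s S' : Finset M) : Set M) := by
      refine sup_le_sup_left (Submodule.span_mono ?_) _
      rw [Finset.coe_insert]
      exact Set.subset_insert _ _
    have hdec : ∀ x ∈ C ⊔ Submodule.span J ((insert s S' : Finset M) : Set M),
        ∃ y ∈ C ⊔ Submodule.span J (S' : Set M), ∃ a : J, x = y + a • s := by
      intro x hx
      rw [Finset.coe_insert, Submodule.span_insert, ← sup_assoc, sup_comm C, sup_assoc] at hx
      obtain ⟨u, hu, y, hy, rfl⟩ := Submodule.mem_sup.mp hx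
      obtain ⟨a, rfl⟩ := Submodule.mem_span_singleton.mp hu
      exact ⟨y, hy, a, add_comm _ _⟩
    by_cases h : ∃ c : J, c ≠ 0 ∧ c • s ∈ C ⊔ Submodule.span J (S' : Set M)
    · obtain ⟨c, hc, hcs⟩ := h
      refine ⟨f * c, mul_ne_zero hf hc, ?_⟩
      refine hT J M (f * c) C (C ⊔ Submodule.span J (S' : Set M)) _ le_sup_left hle
        (hM J M f c C _ hG) (gfs_empty _ _ _ ?_)
      intro x hx
      obtain ⟨y, hy, a, rfl⟩ := hdec x hx
      refine ⟨1, ?_⟩
      rw [pow_one, smul_add]
      refine Submodule.add_mem _ (Submodule.smul_mem _ _ hy) ?_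
      rw [mul_smul, smul_comm c a s]
      exact Submodule.smul_mem _ _ (Submodule.smul_mem _ _ hcs)
    · push Not at h
      refine ⟨f, hf, ?_⟩
      refine hT J M f C (C ⊔ Submodule.span J (S' : Set M)) _ le_sup_left hle hG ?_
      refine ⟨Unit, fun _ => s, ?_, ?_, ?_⟩
      · intro _
        refine Submodule.mem_sup_right (Submodule.subset_span ?_)
        simp
      · intro l hl
        rw [Finsupp.linearCombination_apply, Finsupp.sum_fintype _ _ (by simp)] at hl
        simp only [Finset.univ_unique, Finset.sum_singleton] at hl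
        have h0 : l default = 0 := by
          by_contra h1
          exact h _ h1 hl
        refine Finsupp.ext fun x => ?_
        rw [Subsingleton.elim x default, h0]
        rfl
      · intro x hx
        obtain ⟨y, hy, a, rfl⟩ := hdec x hx
        refine ⟨0, ?_⟩
        rw [pow_zero, one_smul]
        refine Submodule.add_mem _ (Submodule.mem_sup_left hy)
          (Submodule.mem_sup_right (Submodule.smul_mem _ _ (Submodule.subset_span ⟨(), rfl⟩)))

theorem div' : DivStmt := by
  intro J M _ _ _ f q hq hcop hf htf hdiv hG x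
  obtain ⟨ι, b, -, hind, hspan⟩ := hG
  have hemp : IsEmpty ι := by
    refine ⟨fun i => hq ?_⟩
    obtain ⟨y, hy⟩ := hdiv (b i)
    obtain ⟨n, hn⟩ := hspan y trivial
    rw [bot_sup_eq] at hn
    obtain ⟨a, c, hac⟩ := hcop.pow_right (n := n)
    have hyF : y ∈ Submodule.span J (Set.range b) := by
      have h1 : y = a • (q • y) + c • (f ^ n • y) := by
        rw [smul_smul, smul_smul, ← add_smul, hac, one_smul]
      rw [h1, hy]
      exact Submodule.add_mem _ (Submodule.smul_mem _ _ (Submodule.subset_span ⟨i, rfl⟩))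
        (Submodule.smul_mem _ _ hn)
    obtain ⟨l, hl⟩ := Finsupp.mem_span_range_iff_exists_finsupp.mp hyF
    have h2 : Finsupp.linearCombination J b (Finsupp.single i 1 - q • l) ∈
        (⊥ : Submodule J M) := by
      rw [Submodule.mem_bot, map_sub, map_smul, Finsupp.linearCombination_single, one_smul,
        Finsupp.linearCombination_apply, hl, hy, sub_self]
    have h3 := hind _ h2
    have h4 := DFunLike.congr_fun h3 i
    simp only [Finsupp.coe_sub, Finsupp.coe_smul, Pi.sub_apply, Pi.smul_apply,
      Finsupp.single_eq_same, smul_eq_mul, Finsupp.coe_zero, Pi.zero_apply] at h4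
    exact IsUnit.of_mul_eq_one (l i) (sub_eq_zero.mp h4).symm
  obtain ⟨n, hn⟩ := hspan x trivial
  rw [Set.range_eq_empty, Submodule.span_empty, sup_bot_eq, Submodule.mem_bot] at hn
  induction n with
  | zero => rwa [pow_zero, one_smul] at hn
  | succ n ih =>
    rw [pow_succ', mul_smul] at hn
    rcases htf f _ hn with h | h
    · exact absurd h hf
    · exact ih h

open Pool.Agent.Helper294.HallC (Stb Noe) in
theorem fit : FitStmt := by
  intro Q A _ _ _ hnoe r hr φ hφ hφr
  obtain ⟨ψ, hψ⟩ : ∃ ψ : ℕ → A →+ A, ∀ n x, ψ n x = φ^[n] x := by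
    refine ⟨fun n => Nat.rec (AddMonoidHom.id A) (fun _ g => φ.comp g) n, ?_⟩
    intro n
    induction n with
    | zero => intro x; rfl
    | succ n ih =>
      intro x
      rw [Function.iterate_succ_apply', ← ih]
      rfl
  have hstab : ∀ n (g : Q) x, ψ n (g • x) = g • ψ n x := by
    intro n
    induction n with
    | zero => intro g x; rw [hψ, hψ]; rfl
    | succ n ih =>
      intro g x
      have e : ∀ y, ψ (n + 1) y = φ (ψ n y) := fun y => by
        rw [hψ, hψ, Function.iterate_succ_apply']
      rw [e, e, ih, hφ]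
  obtain ⟨n0, hn0⟩ := hnoe (fun n => (ψ n).ker) (by
      refine monotone_nat_of_le_succ fun n => ?_
      intro x hx
      rw [AddMonoidHom.mem_ker, hψ] at hx ⊢
      rw [Function.iterate_succ_apply', hx, map_zero]) (by
      intro n g x hx
      rw [AddMonoidHom.mem_ker] at hx ⊢
      rw [hstab, hx, smul_zero])
  refine ⟨n0 + 1, fun x => ?_⟩
  by_contra hne
  have himg : r ∈ (ψ (n0 + 1)).range := by
    refine hr.2 _ ?_ ?_
    · rintro g _ ⟨y, rfl⟩
      exact ⟨g • y, hstab _ _ _⟩
    · intro h0
      have h1 : ψ (n0 + 1) x ∈ (ψ (n0 + 1)).range := ⟨x, rfl⟩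
      rw [h0, AddSubgroup.mem_bot, hψ] at h1
      exact hne h1
  obtain ⟨y, hy⟩ := himg
  have h1 : φ^[n0 + 1] r = 0 := by
    rw [Function.iterate_succ_apply, hφr, ← hψ, map_zero]
  have h2 : y ∈ (ψ ((n0 + 1) + (n0 + 1))).ker := by
    rw [AddMonoidHom.mem_ker, hψ, Function.iterate_add_apply, ← hψ (n0 + 1) y, hy, h1]
  have h3 : y ∈ (ψ (n0 + 1)).ker := by
    have e1 := hn0 ((n0 + 1) + (n0 + 1)) (by omega)
    have e2 := hn0 (n0 + 1) (by omega)
    have e3 : (ψ ((n0 + 1) + (n0 + 1))).ker = (ψ (n0 + 1)).ker := e1.trans e2.symm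
    rwa [e3] at h2
  rw [AddMonoidHom.mem_ker, hy] at h3
  exact hr.1 h3

end Pool.Agent.TH914.HG
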