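import Pool.Agent.TH489.PL.Defs
import Pool.Agent.W45.PC.PT1
import Pool.Agent.W975.PC.GR1
import Pool.Agent.W424.PC.Russo
import Pool.Agent.W402.PC.Simon
import Pool.Agent.H974R2.BK

/-! Job 1909 (PL-BK): universal tightness from the BK inequality. -/

set_option autoImplicit false

namespace Pool.Agent.TH914.PLB

/-! ### A splitting lemma for finite graphs -/

section split
variable {V : Type}

/-- the graph with edge set `F` -/
def gr (F : Finset (Sym2 V)) : SimpleGraph V := SimpleGraph.fromEdgeSet (F : Set (Sym2 V))

theorem gr_adj (F : Finset (Sym2 V)) (a b : V) : (gr F).Adj a b ↔ s(a, b) ∈ F ∧ a ≠ b := by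
  unfold gr
  rw [SimpleGraph.fromEdgeSet_adj]
  simp

theorem gr_mono {F F' : Finset (Sym2 V)} (h : F ⊆ F') : gr F ≤ gr F' := by
  intro a b hab
  rw [gr_adj] at hab ⊢
  exact ⟨h hab.1, hab.2⟩

open Classical in
/-- number of marks reachable from `x` -/
noncomputable def mk (I : Finset V) (F : Finset (Sym2 V)) (x : V) : ℕ :=
  (I.filter fun y => (gr F).Reachable x y).card

theorem mk_mono (I : Finset V) {F F' : Finset (Sym2 V)} (h : F ⊆ F') (x : V) :
    mk I F x ≤ mk I F' x := by
  classical
  unfold mk
  apply Finset.card_le_card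
  intro y hy
  rw [Finset.mem_filter] at hy ⊢
  exact ⟨hy.1, hy.2.mono (gr_mono h)⟩

theorem reach_rtg (F : Finset (Sym2 V)) (x y : V) :
    (gr F).Reachable x y ↔ Relation.ReflTransGen (gr F).Adj x y :=
  SimpleGraph.reachable_iff_reflTransGen x y

/-- the cluster of `x` is unchanged when edges away from it are removed -/
theorem keep [DecidableEq V] (F1 F' : Finset (Sym2 V)) (x : V)
    (h : ∀ e ∈ F', ∀ u ∈ e, ¬ (gr F1).Reachable x u) (z : V) (hz : (gr F1).Reachable x z) :
    (gr (F1 \ F')).Reachable x z := by
  rw [reach_rtg] at hz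
  have key : (gr F1).Reachable x z ∧ (gr (F1 \ F')).Reachable x z := by
    induction hz with
    | refl => exact ⟨SimpleGraph.Reachable.refl _, SimpleGraph.Reachable.refl _⟩
    | @tail b c _ hbc ih =>
      refine ⟨ih.1.trans hbc.reachable, ih.2.trans ?_⟩
      apply SimpleGraph.Adj.reachable
      rw [gr_adj] at hbc ⊢
      refine ⟨?_, hbc.2⟩
      rw [Finset.mem_sdiff]
      refine ⟨hbc.1, fun hF => ?_⟩
      exact h _ hF b (Sym2.mem_mk_left b c) ih.1
  exact key.2

/-- reachability when one edge at `x` is removed -/
theorem reach_erase [DecidableEq V] (F : Finset (Sym2 V)) (x y : V) (hxy : x ≠ y)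
    (he : s(x, y) ∈ F) (z : V) : (gr F).Reachable x z ↔
      (gr (F.erase s(x, y))).Reachable x z ∨ (gr (F.erase s(x, y))).Reachable y z := by
  have hle : gr (F.erase s(x, y)) ≤ gr F := gr_mono (Finset.erase_subset _ _)
  have hadj : (gr F).Adj x y := (gr_adj F x y).mpr ⟨he, hxy⟩
  constructor
  · intro h
    rw [reach_rtg] at h
    induction h with
    | refl => exact Or.inl (SimpleGraph.Reachable.refl _)
    | @tail b c _ hbc ih =>
      by_cases hbe : s(b, c) = s(x, y)
      · rw [Sym2.eq_iff] at hbe
        rcases hbe with ⟨_, rfl⟩ | ⟨_, rfl⟩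
        · exact Or.inr (SimpleGraph.Reachable.refl _)
        · exact Or.inl (SimpleGraph.Reachable.refl _)
      · have h1 : (gr (F.erase s(x, y))).Adj b c := by
          rw [gr_adj] at hbc ⊢
          exact ⟨Finset.mem_erase.mpr ⟨hbe, hbc.1⟩, hbc.2⟩
        rcases ih with ih | ih
        · exact Or.inl (ih.trans h1.reachable)
        · exact Or.inr (ih.trans h1.reachable)
  · rintro (h | h)
    · exact h.mono hle
    · exact hadj.reachable.trans (h.mono hle)

theorem splitting [DecidableEq V] (I : Finset V) (M : ℕ) (hM : 1 ≤ M) (N : ℕ) :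
    ∀ (F : Finset (Sym2 V)) (x : V), F.card = N → M ≤ mk I F x →
    ∃ F' ⊆ F, ∃ v : V, (∀ e ∈ F', ∀ u ∈ e, (gr F).Reachable x u) ∧ M ≤ mk I F' v ∧
      mk I F x ≤ mk I (F \ F') x + 2 * M := by
  classical
  induction N with
  | zero =>
    intro F x hF hm
    have hF0 : F = ∅ := Finset.card_eq_zero.mp hF
    refine ⟨∅, Finset.empty_subset _, x, by simp, ?_, ?_⟩
    · rwa [hF0] at hm
    · rw [Finset.sdiff_empty]
      omega
  | succ N ih =>
    intro F x hF hm
    by_cases hsmall : mk I F x ≤ 2 * M
    · -- small cluster
      refine ⟨F.filter fun e => ∀ u ∈ e, (gr F).Reachable x u, Finset.filter_subset _ _, x,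
        fun e he => (Finset.mem_filter.mp he).2, ?_, by omega⟩
      refine hm.trans ?_
      unfold mk
      apply Finset.card_le_card
      intro z hz
      rw [Finset.mem_filter] at hz ⊢
      refine ⟨hz.1, ?_⟩
      have key : ∀ w, Relation.ReflTransGen (gr F).Adj x w → (gr F).Reachable x w ∧
          (gr (F.filter fun e => ∀ u ∈ e, (gr F).Reachable x u)).Reachable x w := by
        intro w h1
        induction h1 with
        | refl => exact ⟨SimpleGraph.Reachable.refl _, SimpleGraph.Reachable.refl _⟩
        | @tail b c _ hbc ih' =>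
          have hc : (gr F).Reachable x c := ih'.1.trans hbc.reachable
          refine ⟨hc, ih'.2.trans ?_⟩
          apply SimpleGraph.Adj.reachable
          rw [gr_adj] at hbc ⊢
          refine ⟨?_, hbc.2⟩
          rw [Finset.mem_filter]
          refine ⟨hbc.1, fun u hu => ?_⟩
          rcases Sym2.mem_iff.mp hu with rfl | rfl
          · exact ih'.1
          · exact hc
      exact (key z ((reach_rtg F x z).mp hz.2)).2
    · push Not at hsmall
      -- an edge at `x`
      obtain ⟨y, hxy, he⟩ : ∃ y, x ≠ y ∧ s(x, y) ∈ F := by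
        have h2 : 1 < (I.filter fun y => (gr F).Reachable x y).card := by
          have : mk I F x = (I.filter fun y => (gr F).Reachable x y).card := rfl
          omega
        obtain ⟨z, hz, hzx⟩ := Finset.exists_mem_ne h2 x
        have h3 := (Finset.mem_filter.mp hz).2
        rw [reach_rtg] at h3
        rcases Relation.ReflTransGen.cases_head h3 with h4 | ⟨y, hy, _⟩
        · exact absurd h4.symm hzx
        · rw [gr_adj] at hy
          exact ⟨y, hy.2, hy.1⟩
      set F1 := F.erase s(x, y) with hF1
      have hF1c : F1.card = N := by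
        rw [hF1, Finset.card_erase_of_mem he, hF]
        rfl
      have hF1F : F1 ⊆ F := Finset.erase_subset _ _
      have hre := reach_erase F x y hxy he
      by_cases hr : (gr F1).Reachable x y
      · -- the cluster does not change
        have h1 : ∀ z, (gr F).Reachable x z ↔ (gr F1).Reachable x z := by
          intro z
          rw [hre z]
          constructor
          · rintro (h | h)
            · exact h
            · exact hr.trans h
          · exact Or.inl
        have h2 : mk I F x = mk I F1 x := by
          unfold mk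
          simp only [h1]
        obtain ⟨F', hF', v, hv1, hv2, hv3⟩ := ih F1 x hF1c (by omega)
        refine ⟨F', hF'.trans hF1F, v, fun e he u hu => (h1 u).mpr (hv1 e he u hu), hv2, ?_⟩
        have h3 : mk I (F1 \ F') x ≤ mk I (F \ F') x :=
          mk_mono I (Finset.sdiff_subset_sdiff hF1F (Finset.Subset.refl _)) x
        omega
      · -- the cluster splits
        have hdisj : ∀ z, (gr F1).Reachable x z → (gr F1).Reachable y z → False :=
          fun z h1 h2 => hr (h1.trans h2.symm)
        have hm12 : mk I F x = mk I F1 x + mk I F1 y := by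
          unfold mk
          simp only [hre]
          rw [Finset.filter_or, Finset.card_union_of_disjoint]
          rw [Finset.disjoint_left]
          intro z hz hz'
          exact hdisj z (Finset.mem_filter.mp hz).2 (Finset.mem_filter.mp hz').2
        have hadj : ∀ F' ⊆ F1, (gr (F \ F')).Adj x y := by
          intro F' hF'
          rw [gr_adj, Finset.mem_sdiff]
          exact ⟨⟨he, fun h => (Finset.mem_erase.mp (hF' h)).1 rfl⟩, hxy⟩
        by_cases hm2 : M ≤ mk I F1 y
        · obtain ⟨F', hF', v, hv1, hv2, hv3⟩ := ih F1 y hF1c hm2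
          refine ⟨F', hF'.trans hF1F, v, fun e he u hu => (hre u).mpr (Or.inr (hv1 e he u hu)),
            hv2, ?_⟩
          have h3 : mk I F1 x + mk I (F1 \ F') y ≤ mk I (F \ F') x := by
            unfold mk
            rw [← Finset.card_union_of_disjoint]
            · apply Finset.card_le_card
              intro z hz
              have hsub : F1 \ F' ⊆ F \ F' := Finset.sdiff_subset_sdiff hF1F (Finset.Subset.refl _)
              rcases Finset.mem_union.mp hz with hz | hz
              · obtain ⟨hz1, hz2⟩ := Finset.mem_filter.mp hz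
                refine Finset.mem_filter.mpr ⟨hz1, ?_⟩
                exact (keep F1 F' x (fun e he u hu h => hdisj u h (hv1 e he u hu)) z hz2).mono
                  (gr_mono hsub)
              · obtain ⟨hz1, hz2⟩ := Finset.mem_filter.mp hz
                refine Finset.mem_filter.mpr ⟨hz1, ?_⟩
                exact (hadj F' hF').reachable.trans (hz2.mono (gr_mono hsub))
            · rw [Finset.disjoint_left]
              intro z hz hz'
              exact hdisj z (Finset.mem_filter.mp hz).2
                ((Finset.mem_filter.mp hz').2.mono (gr_mono Finset.sdiff_subset))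
          omega
        · push Not at hm2
          obtain ⟨F', hF', v, hv1, hv2, hv3⟩ := ih F1 x hF1c (by omega)
          refine ⟨F', hF'.trans hF1F, v, fun e he u hu => (hre u).mpr (Or.inl (hv1 e he u hu)),
            hv2, ?_⟩
          have h3 : mk I (F1 \ F') x + mk I F1 y ≤ mk I (F \ F') x := by
            unfold mk
            rw [← Finset.card_union_of_disjoint]
            · apply Finset.card_le_card
              intro z hz
              have hsub : F1 \ F' ⊆ F \ F' := Finset.sdiff_subset_sdiff hF1F (Finset.Subset.refl _)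
              rcases Finset.mem_union.mp hz with hz | hz
              · obtain ⟨hz1, hz2⟩ := Finset.mem_filter.mp hz
                exact Finset.mem_filter.mpr ⟨hz1, hz2.mono (gr_mono hsub)⟩
              · obtain ⟨hz1, hz2⟩ := Finset.mem_filter.mp hz
                refine Finset.mem_filter.mpr ⟨hz1, ?_⟩
                exact (hadj F' hF').reachable.trans ((keep F1 F' y
                  (fun e he u hu h => hdisj u (hv1 e he u hu) h) z hz2).mono (gr_mono hsub))
            · rw [Finset.disjoint_left]
              intro z hz hz'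
              exact hdisj z ((Finset.mem_filter.mp hz).2.mono (gr_mono Finset.sdiff_subset))
                (Finset.mem_filter.mp hz').2
          omega

theorem disj [DecidableEq V] (I : Finset V) (M k : ℕ) (hM : 1 ≤ M) (F : Finset (Sym2 V)) (x : V)
    (h : k + 2 * M ≤ mk I F x) :
    H974.DisjOcc (fun F => k ≤ mk I F x) (fun F => ∃ v ∈ I, M ≤ mk I F v) F := by
  classical
  obtain ⟨F', hF', v, _, hv2, hv3⟩ := splitting I M hM F.card F x rfl (by omega)
  refine ⟨F \ F', F', Finset.sdiff_subset, hF', Finset.sdiff_disjoint, ?_, ?_⟩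
  · show k ≤ mk I (F \ F') x
    omega
  · have h1 : 0 < (I.filter fun y => (gr F').Reachable v y).card := lt_of_lt_of_le hM hv2
    obtain ⟨y, hy⟩ := Finset.card_pos.mp h1
    obtain ⟨hy1, hy2⟩ := Finset.mem_filter.mp hy
    refine ⟨y, hy1, ?_⟩
    have h2 : mk I F' y = mk I F' v := by
      unfold mk
      congr 1
      apply Finset.filter_congr
      intro z _
      exact ⟨fun h => hy2.trans h, fun h => hy2.symm.trans h⟩
    show M ≤ mk I F' y
    omega

theorem bkfin [DecidableEq V] (p : Sym2 V → ℝ) (hp : H974.Ok p) (S : Finset (Sym2 V))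
    (I : Finset V) (M k : ℕ) (hM : 1 ≤ M) (x : V) :
    H974.Pr p S (fun F => k + 2 * M ≤ mk I F x) ≤
      H974.Pr p S (fun F => k ≤ mk I F x) * H974.Pr p S (fun F => ∃ v ∈ I, M ≤ mk I F v) := by
  refine (H974.Pr_mono hp fun F _ h => disj I M k hM F x h).trans (H974.bk hp ?_ ?_)
  · intro F G hFG _ h
    exact h.trans (mk_mono I hFG x)
  · rintro F G hFG _ ⟨v, hv, h⟩
    exact ⟨v, hv, h.trans (mk_mono I hFG v)⟩

end split

/-! ### Transfer to the infinite product measure -/

open MeasureTheory Set
open Pool.Agent.W783.PC
open Pool.Agent.W402.PC (op pm_op reach_mono reach_univ)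

section transfer
variable {n : ℕ}

open Classical in
theorem tr_meas (S : Finset (Sym2 (V n))) (P : Finset (Sym2 (V n)) → Prop) :
    MeasurableSet {ω : Cfg n | P (S.filter fun e => ω (Sum.inr e) = true)} := by
  apply Pool.Agent.W45.PC.s_depmeas (Ix n) (S.image Sum.inr)
  intro ω ω' h
  have h1 : (S.filter fun e => ω (Sum.inr e) = true) = S.filter fun e => ω' (Sum.inr e) = true := by
    apply Finset.filter_congr
    intro e he
    rw [h (Sum.inr e) (by simpa using he)]
  show P _ ↔ P _
  rw [h1]

open Classical in
theorem transfer (r : Ix n → unitInterval) (S : Finset (Sym2 (V n)))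
    (P : Finset (Sym2 (V n)) → Prop) :
    (pm r).real {ω : Cfg n | P (S.filter fun e => ω (Sum.inr e) = true)} =
      H974.Pr (fun e => (r (Sum.inr e) : ℝ)) S P := by
  induction S using Finset.induction_on generalizing P with
  | empty =>
    unfold H974.Pr
    rw [H974.Ex_empty]
    by_cases h : P ∅
    · rw [H974.ind_of h]
      have : {ω : Cfg n | P ((∅ : Finset (Sym2 (V n))).filter fun e => ω (Sum.inr e) = true)}
          = univ := by
        ext ω
        simp [h]
      rw [this]
      simp
    · rw [H974.ind_not_of h]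
      have : {ω : Cfg n | P ((∅ : Finset (Sym2 (V n))).filter fun e => ω (Sum.inr e) = true)}
          = ∅ := by
        ext ω
        simp [h]
      rw [this]
      simp
  | insert a S ha ih =>
    unfold H974.Pr
    rw [H974.Ex_insert _ ha, Pool.Agent.W424.PC.pm_split Pool.Agent.W45.PC.s_indep r
      (tr_meas (insert a S) P) (Sum.inr a)]
    have i1 := ih (fun F => P (insert a F))
    have i2 := ih P
    unfold H974.Pr at i1 i2
    rw [← i1, ← i2]
    have e1 : {ω : Cfg n | Pool.Agent.W424.PC.upd (Sum.inr a) true ω ∈
        {ω : Cfg n | P ((insert a S).filter fun e => ω (Sum.inr e) = true)}} =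
        {ω | P (insert a (S.filter fun e => ω (Sum.inr e) = true))} := by
      ext ω
      show P _ ↔ P _
      have : ((insert a S).filter fun e =>
          Pool.Agent.W424.PC.upd (Sum.inr a) true ω (Sum.inr e) = true) =
          insert a (S.filter fun e => ω (Sum.inr e) = true) := by
        rw [Finset.filter_insert, if_pos (Pool.Agent.W424.PC.upd_self _ _ _)]
        congr 1
        apply Finset.filter_congr
        intro e he
        rw [Pool.Agent.W424.PC.upd_ne]
        intro h
        have h2 : e = a := Sum.inr.inj h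
        exact ha (h2 ▸ he)
      rw [this]
    have e2 : {ω : Cfg n | Pool.Agent.W424.PC.upd (Sum.inr a) false ω ∈
        {ω : Cfg n | P ((insert a S).filter fun e => ω (Sum.inr e) = true)}} =
        {ω | P (S.filter fun e => ω (Sum.inr e) = true)} := by
      ext ω
      show P _ ↔ P _
      have : ((insert a S).filter fun e =>
          Pool.Agent.W424.PC.upd (Sum.inr a) false ω (Sum.inr e) = true) =
          (S.filter fun e => ω (Sum.inr e) = true) := by
        rw [Finset.filter_insert, if_neg]
        · apply Finset.filter_congr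
          intro e he
          rw [Pool.Agent.W424.PC.upd_ne]
          intro h
          have h2 : e = a := Sum.inr.inj h
          exact ha (h2 ▸ he)
        · rw [Pool.Agent.W424.PC.upd_self]
          simp
      rw [this]
    rw [e1, e2]

open Classical in
/-- edges of the region -/
noncomputable def SR (E : Set (Sym2 (V n))) (R : Finset (V n)) : Finset (Sym2 (V n)) :=
  R.sym2.filter (· ∈ E)

open Classical in
theorem G_eq (E : Set (Sym2 (V n))) (R : Finset (V n)) (ω : Cfg n) :
    G E (op ω) (R : Set (V n)) = gr ((SR E R).filter fun e => ω (Sum.inr e) = true) := by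
  ext a b
  rw [gr_adj, Finset.mem_filter]
  unfold SR
  rw [Finset.mem_filter, Finset.mk_mem_sym2_iff]
  constructor
  · rintro ⟨h1, h2, h3, h4, _, _, h7⟩
    exact ⟨⟨⟨⟨h2, h3⟩, h4⟩, h7⟩, h1⟩
  · rintro ⟨⟨⟨⟨h2, h3⟩, h4⟩, h7⟩, h1⟩
    exact ⟨h1, h2, h3, h4, rfl, rfl, h7⟩

open Classical in
theorem fin_real (r : Ix n → unitInterval) (hr : ∀ v, r (Sum.inl v) = 1)
    (E : Set (Sym2 (V n))) (R : Finset (V n)) (Q : SimpleGraph (V n) → Prop) :
    (pm r).real {ω | Q (G E ω (R : Set (V n)))} =
      H974.Pr (fun e => (r (Sum.inr e) : ℝ)) (SR E R) (fun F => Q (gr F)) := by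
  rw [← transfer]
  unfold Measure.real
  rw [pm_op r hr]
  congr 2
  ext ω
  show Q (G E (op ω) R) ↔ Q _
  rw [G_eq]

open Classical in
theorem fin_bk (r : Ix n → unitInterval) (hr : ∀ v, r (Sum.inl v) = 1)
    (E : Set (Sym2 (V n))) (R : Finset (V n)) (I : Finset (V n)) (x : V n) (M k : ℕ)
    (hM : 1 ≤ M) :
    (pm r).real {ω | k + 2 * M ≤
      (I.filter (fun y => (G E ω (R : Set (V n))).Reachable x y)).card} ≤
    (pm r).real {ω | k ≤ (I.filter (fun y => (G E ω (R : Set (V n))).Reachable x y)).card} *
    (pm r).real {ω | ∃ v ∈ I, M ≤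
      (I.filter (fun y => (G E ω (R : Set (V n))).Reachable v y)).card} := by
  rw [fin_real r hr E R (fun g => k + 2 * M ≤ (I.filter (fun y => g.Reachable x y)).card),
    fin_real r hr E R (fun g => k ≤ (I.filter (fun y => g.Reachable x y)).card),
    fin_real r hr E R (fun g => ∃ v ∈ I, M ≤ (I.filter (fun y => g.Reachable v y)).card)]
  exact bkfin (fun e => (r (Sum.inr e) : ℝ)) (fun e => ⟨(r (Sum.inr e)).2.1, (r (Sum.inr e)).2.2⟩)
    (SR E R) I M k hM x

end transfer

theorem s_bkT : Pool.Agent.TH489.PL.S_bkT := by
  intro n r hr E I x M k hM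
  classical
  -- monotonicity of the counts
  have mono : ∀ (ω : Cfg n) (R R' : Set (V n)), R ⊆ R' → ∀ v,
      (I.filter (fun y => (G E ω R).Reachable v y)).card ≤
        (I.filter (fun y => (G E ω R').Reachable v y)).card := by
    intro ω R R' h v
    apply Finset.card_le_card
    intro y hy
    rw [Finset.mem_filter] at hy ⊢
    exact ⟨hy.1, reach_mono h hy.2⟩
  set A : Finset (V n) → Set (Cfg n) := fun R => {ω | k + 2 * M ≤
      (I.filter (fun y => (G E ω (R : Set (V n))).Reachable x y)).card} with hA
  have hun : {ω | k + 2 * M ≤ (I.filter (fun y => (G E ω univ).Reachable x y)).card} =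
      ⋃ R : Finset (V n), A R := by
    ext ω
    rw [mem_iUnion]
    constructor
    · intro h
      have h1 : ∀ y : V n, ∃ R : Finset (V n), (G E ω univ).Reachable x y →
          (G E ω (R : Set (V n))).Reachable x y := by
        intro y
        by_cases hy : (G E ω univ).Reachable x y
        · obtain ⟨R, hR⟩ := reach_univ hy
          exact ⟨R, fun _ => hR⟩
        · exact ⟨∅, fun h => absurd h hy⟩
      choose R hR using h1
      refine ⟨I.biUnion R, ?_⟩
      show k + 2 * M ≤ _
      refine le_trans h (Finset.card_le_card ?_)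
      intro y hy
      rw [Finset.mem_filter] at hy ⊢
      refine ⟨hy.1, reach_mono ?_ (hR y hy.2)⟩
      intro z hz
      exact Finset.mem_coe.2 (Finset.mem_biUnion.2 ⟨y, hy.1, Finset.mem_coe.1 hz⟩)
    · rintro ⟨R, hR⟩
      exact le_trans hR (mono ω _ _ (subset_univ _) x)
  have hdir : Directed (· ⊆ ·) A := by
    apply Monotone.directed_le
    intro R R' h ω hω
    exact le_trans hω (mono ω _ _ (Finset.coe_subset.2 h) x)
  have hfin : ∀ R, (pm r).real (A R) ≤
      (pm r).real {ω | k ≤ (I.filter (fun y => (G E ω univ).Reachable x y)).card} *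
      (pm r).real {ω | ∃ v ∈ I, M ≤ (I.filter (fun y => (G E ω univ).Reachable v y)).card} := by
    intro R
    refine (fin_bk r hr E R I x M k hM).trans ?_
    apply mul_le_mul
    · apply measureReal_mono
      · intro ω hω
        exact le_trans hω (mono ω _ _ (subset_univ _) x)
      · exact measure_ne_top _ _
    · apply measureReal_mono
      · rintro ω ⟨v, hv, hω⟩
        exact ⟨v, hv, le_trans hω (mono ω _ _ (subset_univ _) v)⟩
      · exact measure_ne_top _ _
    · exact measureReal_nonneg
    · exact measureReal_nonneg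
  set c := (pm r).real {ω | k ≤ (I.filter (fun y => (G E ω univ).Reachable x y)).card} *
      (pm r).real {ω | ∃ v ∈ I, M ≤ (I.filter (fun y => (G E ω univ).Reachable v y)).card} with hc
  have hc0 : 0 ≤ c := mul_nonneg measureReal_nonneg measureReal_nonneg
  have key : pm r (⋃ R : Finset (V n), A R) ≤ ENNReal.ofReal c := by
    rw [hdir.measure_iUnion]
    apply iSup_le
    intro R
    rw [← ENNReal.ofReal_toReal (measure_ne_top (pm r) (A R))]
    exact ENNReal.ofReal_le_ofReal (hfin R)
  rw [hun]
  unfold Measure.real
  calc (pm r (⋃ R : Finset (V n), A R)).toReal ≤ (ENNReal.ofReal c).toReal :=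
        ENNReal.toReal_mono ENNReal.ofReal_ne_top key
    _ = c := ENNReal.toReal_ofReal hc0

end Pool.Agent.TH914.PLB
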