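import Pool.Agent.TH489.PL.Defs
import Pool.Agent.W45.PC.PT1
import Pool.Agent.W975.PC.GR1
import Pool.Agent.W424.PC.Russo
import Pool.Agent.W402.PC.Simon

/-! Job 1910 (PL-TILT): second moments on small clusters by tilting. -/

set_option autoImplicit false

open MeasureTheory Set

namespace Pool.Agent.TH914.PLT

open Pool.Agent.W783.PC Pool.Agent.TH489.PL
open Pool.Agent.W45.PC (gl gl_in gl_out measurable_gl s_indep s_depmeas)
open Pool.Agent.W424.PC (upd upd_self upd_ne upd_of measurable_upd meas_coord pm_coord pm_split)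

open scoped Classical in
theorem map_gl2 {ι : Type} (r r' : ι → unitInterval) (J : Set ι) :
    ((pm r).prod (pm r')).map (gl J) = pm (fun c => if c ∈ J then r c else r' c) := by
  conv_rhs => unfold pm
  apply Measure.eq_infinitePi
  intro s t ht
  rw [Measure.map_apply (measurable_gl J) (MeasurableSet.pi s.countable_toSet fun i _ => ht i)]
  have h : gl J ⁻¹' (Set.pi (s : Set ι) t) =
      (Set.pi ((s.filter (· ∈ J) : Finset ι) : Set ι) t) ×ˢ
      (Set.pi ((s.filter (· ∉ J) : Finset ι) : Set ι) t) := by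
    ext x
    simp only [mem_preimage, Set.mem_pi, Finset.mem_coe, mem_prod, Finset.mem_filter, and_imp]
    constructor
    · intro h
      refine ⟨fun i hi hJ => ?_, fun i hi hJ => ?_⟩
      · have := h i hi; rwa [gl_in hJ] at this
      · have := h i hi; rwa [gl_out hJ] at this
    · rintro ⟨h1, h2⟩ i hi
      by_cases hJ : i ∈ J
      · rw [gl_in hJ]; exact h1 i hi hJ
      · rw [gl_out hJ]; exact h2 i hi hJ
  rw [h, Measure.prod_prod]
  unfold pm
  rw [Measure.infinitePi_pi _ (fun i _ => ht i), Measure.infinitePi_pi _ (fun i _ => ht i)]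
  rw [← Finset.prod_filter_mul_prod_filter_not s (· ∈ J)]
  congr 1
  · refine Finset.prod_congr rfl fun i hi => ?_
    have h' := (Finset.mem_filter.mp hi).2
    simp only [h', if_true]
  · refine Finset.prod_congr rfl fun i hi => ?_
    have h' := (Finset.mem_filter.mp hi).2
    simp only [h', if_false]

/-- Two product measures whose parameters agree on `J` give the same mass to events depending
only on `J`. -/
theorem pm_agree {ι : Type} (r r' : ι → unitInterval) (J : Set ι) (h : ∀ c ∈ J, r c = r' c)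
    {A : Set (ι → Bool)} (hA : MeasurableSet A) (hd : DepOn A J) : pm r A = pm r' A := by
  classical
  have h1 : (fun c => if c ∈ J then r c else r' c) = r' := by
    funext c
    by_cases hc : c ∈ J
    · rw [if_pos hc, h c hc]
    · rw [if_neg hc]
  have h2 := map_gl2 r r' J
  rw [h1] at h2
  rw [← h2, Measure.map_apply (measurable_gl J) hA]
  have h3 : gl J ⁻¹' A = A ×ˢ univ := by
    ext x
    simp only [mem_preimage, mem_prod, mem_univ, and_true]
    exact hd _ _ fun i hi => gl_in hi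
  rw [h3, Measure.prod_prod, measure_univ, mul_one]

theorem real_agree {ι : Type} (r r' : ι → unitInterval) (J : Set ι) (h : ∀ c ∈ J, r c = r' c)
    {A : Set (ι → Bool)} (hA : MeasurableSet A) (hd : DepOn A J) :
    (pm r).real A = (pm r').real A := by
  unfold Measure.real
  rw [pm_agree r r' J h hA hd]

/-- normalising factor -/
noncomputable def nf (t q : ℝ) : ℝ := q * Real.exp (t * (q - 1)) + (1 - q) * Real.exp (t * q)

theorem nf_pos (t : ℝ) (q : unitInterval) : 0 < nf t q := by
  unfold nf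
  have h0 : (0 : ℝ) ≤ q := q.2.1
  have h1 : (0 : ℝ) ≤ 1 - q := by linarith [q.2.2]
  have e1 := Real.exp_pos (t * ((q : ℝ) - 1))
  have e2 := Real.exp_pos (t * (q : ℝ))
  rcases h0.lt_or_eq with h | h
  · have : 0 < (q : ℝ) * Real.exp (t * ((q : ℝ) - 1)) := mul_pos h e1
    have : 0 ≤ (1 - (q : ℝ)) * Real.exp (t * (q : ℝ)) := mul_nonneg h1 e2.le
    linarith
  · rw [← h]
    simp

theorem nf_le (t : ℝ) (ht : |t| ≤ 1) (q : unitInterval) : nf t q ≤ Real.exp (t ^ 2 * q) := by
  have h0 : (0 : ℝ) ≤ q := q.2.1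
  have h1 : nf t q = Real.exp (t * q) * (1 - q + q * Real.exp (-t)) := by
    unfold nf
    have : Real.exp (t * ((q : ℝ) - 1)) = Real.exp (t * q) * Real.exp (-t) := by
      rw [← Real.exp_add]; ring_nf
    rw [this]; ring
  have h2 : 1 - (q : ℝ) + q * Real.exp (-t) ≤ Real.exp (q * (Real.exp (-t) - 1)) := by
    have := Real.add_one_le_exp ((q : ℝ) * (Real.exp (-t) - 1))
    linarith
  have h3 : Real.exp (-t) - 1 + t ≤ t ^ 2 := by
    have h := Real.abs_exp_sub_one_sub_id_le (x := -t) (by rwa [abs_neg])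
    have h' := (abs_le.mp h).2
    nlinarith
  rw [h1]
  calc Real.exp (t * q) * (1 - q + q * Real.exp (-t))
      ≤ Real.exp (t * q) * Real.exp (q * (Real.exp (-t) - 1)) :=
        mul_le_mul_of_nonneg_left h2 (Real.exp_pos _).le
    _ = Real.exp (q * (Real.exp (-t) - 1 + t)) := by rw [← Real.exp_add]; ring_nf
    _ ≤ Real.exp (t ^ 2 * q) := by
        apply Real.exp_le_exp.mpr
        rw [mul_comm (t ^ 2)]
        exact mul_le_mul_of_nonneg_left h3 h0

/-- tilted parameter -/
noncomputable def tl (t : ℝ) (q : unitInterval) : unitInterval :=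
  ⟨q * Real.exp (t * (q - 1)) / nf t q, by
    have h0 : (0 : ℝ) ≤ q := q.2.1
    have h1 : (0 : ℝ) ≤ 1 - q := by linarith [q.2.2]
    have e1 := Real.exp_pos (t * ((q : ℝ) - 1))
    have e2 := Real.exp_pos (t * (q : ℝ))
    constructor
    · exact div_nonneg (mul_nonneg h0 e1.le) (nf_pos t q).le
    · rw [div_le_one (nf_pos t q)]
      unfold nf
      have : 0 ≤ (1 - (q : ℝ)) * Real.exp (t * (q : ℝ)) := mul_nonneg h1 e2.le
      linarith⟩

theorem tl_mul (t : ℝ) (q : unitInterval) :
    (tl t q : ℝ) * nf t q = q * Real.exp (t * (q - 1)) :=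
  div_mul_cancel₀ _ (nf_pos t q).ne'

theorem tl_mul' (t : ℝ) (q : unitInterval) :
    (1 - (tl t q : ℝ)) * nf t q = (1 - q) * Real.exp (t * q) := by
  rw [sub_mul, tl_mul, one_mul]
  unfold nf
  ring

variable {ι : Type}

/-- splitting a slice -/
theorem slice (r : ι → unitInterval) {A : Set (ι → Bool)} (hA : MeasurableSet A) (e : ι)
    (b : Bool) : (pm r).real (A ∩ {ω | ω e = b}) =
      (if b = true then (r e : ℝ) else 1 - r e) * (pm r).real {ω | upd e b ω ∈ A} := by
  have hE : A ∩ {ω | ω e = b} = {ω | ω e = b} ∩ {ω | upd e b ω ∈ A} := by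
    ext ω
    simp only [mem_inter_iff, mem_setOf_eq]
    constructor
    · rintro ⟨h1, h2⟩
      exact ⟨h2, by rwa [upd_of h2]⟩
    · rintro ⟨h1, h2⟩
      rw [upd_of h1] at h2
      exact ⟨h2, h1⟩
  have d1 : DepOn {ω : ι → Bool | ω e = b} {e} := fun ω ω' h => by
    simp only [mem_setOf_eq, h e rfl]
  have d2 : DepOn {ω : ι → Bool | upd e b ω ∈ A} ({e}ᶜ : Set ι) := fun ω ω' h => by
    have : upd e b ω = upd e b ω' := by
      funext i
      by_cases hi : i = e
      · subst hi; rw [upd_self, upd_self]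
      · rw [upd_ne hi, upd_ne hi]; exact h i hi
    show upd e b ω ∈ A ↔ upd e b ω' ∈ A
    rw [this]
  rw [hE]
  have i1 : (pm r).real ({ω | ω e = b} ∩ {ω | upd e b ω ∈ A}) =
      (pm r).real {ω | ω e = b} * (pm r).real {ω | upd e b ω ∈ A} := by
    unfold Measure.real
    rw [s_indep ι r {e} {e}ᶜ _ _ d1 d2 disjoint_compl_right (meas_coord e b)
      (measurable_upd e b hA), ENNReal.toReal_mul]
  rw [i1]
  congr 1
  cases b
  · rw [if_neg (by simp), (pm_coord r e).2]
  · rw [if_pos rfl, (pm_coord r e).1]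

theorem upd_agree (r r' : ι → unitInterval) {A : Set (ι → Bool)} (hA : MeasurableSet A) (e : ι)
    (b : Bool) (h : ∀ c, c ≠ e → r c = r' c) :
    (pm r).real {ω | upd e b ω ∈ A} = (pm r').real {ω | upd e b ω ∈ A} := by
  refine real_agree r r' {e}ᶜ (fun c hc => h c hc) (measurable_upd e b hA) ?_
  intro ω ω' h
  have : upd e b ω = upd e b ω' := by
    funext i
    by_cases hi : i = e
    · subst hi; rw [upd_self, upd_self]
    · rw [upd_ne hi, upd_ne hi]; exact h i hi
  show upd e b ω ∈ A ↔ upd e b ω' ∈ A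
  rw [this]

/-- indicator of an open coordinate -/
noncomputable def xi (b : Bool) : ℝ := if b = true then 1 else 0

theorem meas_xi (e : ι) : Measurable fun ω : ι → Bool => xi (ω e) :=
  (measurable_of_countable xi).comp (measurable_pi_apply e)

/-- centred sum -/
noncomputable def cs (r : ι → unitInterval) (F : Finset ι) (ω : ι → Bool) : ℝ :=
  ∑ c ∈ F, ((r c : ℝ) - xi (ω c))

theorem meas_cs (r : ι → unitInterval) (F : Finset ι) : Measurable (cs r F) := by
  unfold cs
  exact Finset.measurable_sum _ fun c _ => measurable_const.sub (meas_xi c)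

theorem abs_cs (r : ι → unitInterval) (F : Finset ι) (ω : ι → Bool) : |cs r F ω| ≤ F.card := by
  unfold cs
  refine (Finset.abs_sum_le_sum_abs _ _).trans ?_
  rw [Finset.card_eq_sum_ones]
  push_cast
  refine Finset.sum_le_sum fun c _ => ?_
  have h0 : (0 : ℝ) ≤ r c := (r c).2.1
  have h1 : (r c : ℝ) ≤ 1 := (r c).2.2
  rw [abs_le]
  unfold xi
  split_ifs <;> constructor <;> linarith

theorem int_exp (r : ι → unitInterval) (F : Finset ι) (t : ℝ) :
    Integrable (fun ω => Real.exp (t * cs r F ω)) (pm r) := by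
  refine Integrable.of_bound ((meas_cs r F).const_mul t).exp.aestronglyMeasurable
    (Real.exp (|t| * F.card)) ?_
  filter_upwards with ω
  rw [Real.norm_eq_abs, abs_of_pos (Real.exp_pos _)]
  apply Real.exp_le_exp.mpr
  calc t * cs r F ω ≤ |t * cs r F ω| := le_abs_self _
    _ = |t| * |cs r F ω| := abs_mul _ _
    _ ≤ |t| * F.card := mul_le_mul_of_nonneg_left (abs_cs r F ω) (abs_nonneg t)

open scoped Classical in
/-- parameters tilted on a set -/
noncomputable def tF (r : ι → unitInterval) (t : ℝ) (F : Set ι) : ι → unitInterval :=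
  fun c => if c ∈ F then tl t (r c) else r c

theorem tF_in (r : ι → unitInterval) (t : ℝ) (F : Set ι) {c : ι} (h : c ∈ F) :
    tF r t F c = tl t (r c) := by unfold tF; rw [if_pos h]

theorem tF_out (r : ι → unitInterval) (t : ℝ) (F : Set ι) {c : ι} (h : c ∉ F) :
    tF r t F c = r c := by unfold tF; rw [if_neg h]

open scoped Classical in
/-- exponential tilting of finitely many coordinates -/
theorem tilt (r : ι → unitInterval) (t : ℝ) (F : Finset ι) : ∀ (A : Set (ι → Bool))
    (_ : MeasurableSet A), ∫ ω in A, Real.exp (t * cs r F ω) ∂(pm r) =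
      (∏ c ∈ F, nf t (r c)) * (pm (tF r t (F : Set ι))).real A := by
  induction F using Finset.induction_on with
  | empty =>
    intro A hA
    have h0 : tF r t ((∅ : Finset ι) : Set ι) = r := by
      funext c
      exact tF_out r t _ (by simp)
    rw [h0]
    simp [cs]
  | insert e F he ih =>
    intro A hA
    set rF : ι → unitInterval := tF r t (F : Set ι) with hrF
    set rF' : ι → unitInterval := tF r t ((insert e F : Finset ι) : Set ι) with hrF'
    have m1 : ∀ b, MeasurableSet {ω : ι → Bool | ω e = b} := fun b => meas_coord e b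
    have hU : A = (A ∩ {ω | ω e = true}) ∪ (A ∩ {ω | ω e = false}) := by
      ext ω
      simp only [mem_union, mem_inter_iff, mem_setOf_eq]
      cases ω e <;> simp
    have hdis : Disjoint (A ∩ {ω | ω e = true}) (A ∩ {ω | ω e = false}) := by
      rw [Set.disjoint_left]
      rintro ω ⟨_, h⟩ ⟨_, h'⟩
      simp only [mem_setOf_eq] at h h'
      rw [h] at h'; exact absurd h' (by simp)
    have hslice : ∀ b, ∫ ω in A ∩ {ω | ω e = b}, Real.exp (t * cs r (insert e F) ω) ∂(pm r) =
        Real.exp (t * ((r e : ℝ) - xi b)) * ((∏ c ∈ F, nf t (r c)) *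
          (pm rF).real (A ∩ {ω | ω e = b})) := by
      intro b
      rw [← ih _ (hA.inter (m1 b)), ← integral_const_mul]
      refine setIntegral_congr_fun (hA.inter (m1 b)) ?_
      intro ω hω
      have hb : ω e = b := hω.2
      show Real.exp (t * cs r (insert e F) ω) = Real.exp (t * ((r e : ℝ) - xi b)) *
        Real.exp (t * cs r F ω)
      unfold cs
      rw [Finset.sum_insert he, mul_add, Real.exp_add, hb]
    have hsplit := slice rF hA e
    have hsplit' : (pm rF').real A = (tl t (r e) : ℝ) * (pm rF').real {ω | upd e true ω ∈ A} +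
        (1 - (tl t (r e) : ℝ)) * (pm rF').real {ω | upd e false ω ∈ A} := by
      have h := pm_split s_indep rF' hA e
      have h2 : rF' e = tl t (r e) := tF_in r t _ (by simp)
      rw [h2] at h
      exact h
    have hag : ∀ b, (pm rF).real {ω | upd e b ω ∈ A} = (pm rF').real {ω | upd e b ω ∈ A} := by
      intro b
      refine upd_agree rF rF' hA e b fun c hc => ?_
      rw [hrF, hrF']
      by_cases h : c ∈ F
      · rw [tF_in r t _ (by simpa using h), tF_in r t _ (by simp [h])]
      · rw [tF_out r t _ (by simpa using h), tF_out r t _ (by simp [h, hc])]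
    have hre : rF e = r e := tF_out r t _ (by simpa using he)
    conv_lhs => rw [hU]
    rw [setIntegral_union hdis (hA.inter (m1 false)) (int_exp r _ t).integrableOn
      (int_exp r _ t).integrableOn, hslice, hslice, hsplit, hsplit, if_pos rfl,
      if_neg (by simp), hre, hag, hag, hsplit', Finset.prod_insert he]
    have e1 := tl_mul t (r e)
    have e2 := tl_mul' t (r e)
    have x1 : xi true = 1 := rfl
    have x0 : xi false = 0 := by simp [xi]
    rw [x1, x0, sub_zero]
    linear_combination (-(∏ c ∈ F, nf t (r c)) * (pm rF').real {ω | upd e true ω ∈ A}) * e1 -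
      ((∏ c ∈ F, nf t (r c)) * (pm rF').real {ω | upd e false ω ∈ A}) * e2

/-! ### The events -/

/-- the cluster of the origin is `B` -/
def AB {n : ℕ} (E : Set (Sym2 (V n))) (B : Finset (V n)) : Set (Cfg n) :=
  {ω | cl E ω univ (0 : V n) = (B : Set (V n))}

theorem meas_AB {n : ℕ} (E : Set (Sym2 (V n))) (B : Finset (V n)) : MeasurableSet (AB E B) := by
  have h : AB E B = ⋂ y : V n, {ω | (G E ω univ).Reachable 0 y ↔ y ∈ B} := by
    ext ω
    simp only [AB, cl, mem_setOf_eq, mem_iInter, Set.ext_iff, Finset.mem_coe]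
  rw [h]
  refine MeasurableSet.iInter fun y => ?_
  by_cases hy : y ∈ B
  · simp only [hy, iff_true]
    exact Pool.Agent.W975.PC.s_reach_meas n E univ 0 y
  · simp only [hy, iff_false]
    exact (Pool.Agent.W975.PC.s_reach_meas n E univ 0 y).compl

/-- the long bonds with lengths in `(R, 2R]` -/
def DD (n R : ℕ) : Set (Ix n) := {c | ∃ k ∈ Finset.Ioc R (2 * R), ∃ z : V n, c = bd k z}

open scoped Classical in
/-- those touching `B` -/
noncomputable def FB {n : ℕ} (R : ℕ) (B : Finset (V n)) : Finset (Ix n) :=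
  ((Finset.Ioc R (2 * R)).sigma fun k => nb k B).image fun p => bd p.1 p.2

theorem mem_FB {n : ℕ} (R : ℕ) (B : Finset (V n)) (c : Ix n) :
    c ∈ FB R B ↔ ∃ k ∈ Finset.Ioc R (2 * R), ∃ z ∈ nb k B, c = bd k z := by
  unfold FB
  rw [Finset.mem_image]
  constructor
  · rintro ⟨⟨k, z⟩, h, rfl⟩
    rw [Finset.mem_sigma] at h
    exact ⟨k, h.1, z, h.2, rfl⟩
  · rintro ⟨k, hk, z, hz, rfl⟩
    exact ⟨⟨k, z⟩, Finset.mem_sigma.mpr ⟨hk, hz⟩, rfl⟩

theorem FB_sub {n : ℕ} (R : ℕ) (B : Finset (V n)) (c : Ix n) (h : c ∈ FB R B) : c ∈ DD n R := by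
  obtain ⟨k, hk, z, _, rfl⟩ := (mem_FB R B c).mp h
  exact ⟨k, hk, z, rfl⟩

theorem bd_inj {n : ℕ} {k k' : ℕ} {z z' : V n} (hk : 0 < k) (hk' : 0 < k')
    (h : (bd k z : Ix n) = bd k' z') : k = k' ∧ z = z' := by
  unfold bd at h
  have h1 := Sum.inr_injective h
  rw [Sym2.eq_iff] at h1
  rcases h1 with ⟨h1, h2⟩ | ⟨h1, h2⟩
  · subst h1
    have h3 := add_left_cancel h2
    have h4 := congrArg Prod.fst h3
    simp only [kv] at h4
    exact ⟨by exact_mod_cast h4, rfl⟩
  · exfalso
    have h3 := congrArg Prod.fst h1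
    have h4 := congrArg Prod.fst h2
    simp only [kv, Prod.fst_add] at h3 h4
    omega

/-- an element of `DD` touching `B` is in `FB` -/
theorem touch {n : ℕ} (R : ℕ) (B : Finset (V n)) (x y : V n) (hx : x ∈ B)
    (h : (Sum.inr s(x, y) : Ix n) ∈ DD n R) : (Sum.inr s(x, y) : Ix n) ∈ FB R B := by
  classical
  obtain ⟨k, hk, z, hz⟩ := h
  rw [mem_FB]
  refine ⟨k, hk, z, ?_, hz⟩
  unfold bd at hz
  have h1 := Sum.inr_injective hz
  unfold nb
  rw [Finset.mem_union, Finset.mem_image]
  rw [Sym2.eq_iff] at h1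
  rcases h1 with ⟨h1, h2⟩ | ⟨h1, h2⟩
  · left
    rwa [← h1]
  · right
    exact ⟨x, hx, by rw [h1]; abel⟩

theorem AB_dep {n : ℕ} (E : Set (Sym2 (V n))) (R : ℕ) (B : Finset (V n)) :
    DepOn (AB E B) {c | c ∈ DD n R → c ∈ FB R B} := by
  have key : ∀ ω ω' : Cfg n, (∀ c ∈ {c | c ∈ DD n R → c ∈ FB R B}, ω c = ω' c) →
      ω ∈ AB E B → ω' ∈ AB E B := by
    intro ω ω' h hω
    have hsite : ∀ v : V n, ω (Sum.inl v) = ω' (Sum.inl v) := by
      intro v
      refine h _ fun hc => ?_
      obtain ⟨k, _, z, hz⟩ := hc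
      simp [bd] at hz
    have hbond : ∀ x y : V n, x ∈ B → ω (Sum.inr s(x, y)) = ω' (Sum.inr s(x, y)) :=
      fun x y hx => h _ fun hc => touch R B x y hx hc
    have hadj : ∀ x y : V n, x ∈ B → ((G E ω univ).Adj x y ↔ (G E ω' univ).Adj x y) := by
      intro x y hx
      unfold G
      simp only [hsite, hbond x y hx]
    have hω' : ∀ y, (G E ω univ).Reachable 0 y ↔ y ∈ B := by
      intro y
      have := Set.ext_iff.mp (show cl E ω univ 0 = (B : Set (V n)) from hω) y
      exact this
    have h0 : (0 : V n) ∈ B := (hω' 0).mp (SimpleGraph.Reachable.refl _)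
    have fwd : ∀ y, Relation.ReflTransGen (G E ω' univ).Adj 0 y → y ∈ B := by
      intro y hy
      induction hy with
      | refl => exact h0
      | tail _ hbc ih =>
        exact (hω' _).mp (((hω' _).mpr ih).trans (((hadj _ _ ih).mpr hbc).reachable))
    have bwd : ∀ y, Relation.ReflTransGen (G E ω univ).Adj 0 y →
        y ∈ B ∧ Relation.ReflTransGen (G E ω' univ).Adj 0 y := by
      intro y hy
      induction hy with
      | refl => exact ⟨h0, Relation.ReflTransGen.refl⟩
      | tail _ hbc ih =>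
        exact ⟨(hω' _).mp (((hω' _).mpr ih.1).trans hbc.reachable),
          ih.2.tail ((hadj _ _ ih.1).mp hbc)⟩
    show cl E ω' univ 0 = (B : Set (V n))
    ext y
    constructor
    · intro hy
      have hy' : (G E ω' univ).Reachable 0 y := hy
      rw [SimpleGraph.reachable_iff_reflTransGen] at hy'
      exact fwd y hy'
    · intro hy
      have hy' : (G E ω univ).Reachable 0 y := (hω' y).mpr hy
      show (G E ω' univ).Reachable 0 y
      rw [SimpleGraph.reachable_iff_reflTransGen] at hy' ⊢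
      exact (bwd y hy').2
  intro ω ω' h
  exact ⟨key ω ω' h, key ω' ω fun c hc => (h c hc).symm⟩

theorem prob_bd {n : ℕ} (a p : unitInterval) (β : NNReal) (s : ℝ) {k : ℕ} (hk : 2 ≤ k) (z : V n) :
    prob a p β s 1 (bd k z) = lrp β s k := by
  have h1 : ¬ isNN s(z, z + kv n k) := by
    rw [Pool.Agent.W402.PC.isNN_iff]
    unfold NN kv
    simp only [Prod.fst_add, Prod.snd_add, Pi.add_apply, Pi.zero_apply, add_zero, sub_self,
      abs_zero, Finset.sum_const_zero]
    intro h
    have : z.1 - (z.1 + (k : ℤ)) = -(k : ℤ) := by ring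
    rw [this, abs_neg] at h
    have h2 : |(k : ℤ)| = k := abs_of_nonneg (by positivity)
    rw [h2] at h
    omega
  have h2 : isLg 1 s(z, z + kv n k) := by
    rw [Pool.Agent.W402.PC.isLg_iff]
    refine ⟨?_, ?_, ?_⟩
    · simp [kv]
    · intro i
      exact one_dvd _
    · simp only [kv, Prod.fst_add]
      omega
  have h3 : len s(z, z + kv n k) = k := by
    show (z.1 - (z + kv n k).1).natAbs = k
    simp only [kv, Prod.fst_add]
    omega
  show prob a p β s 1 (Sum.inr s(z, z + kv n k)) = _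
  simp only [prob]
  rw [if_neg h1, if_pos h2, h3]

theorem sum_FB {n : ℕ} (R : ℕ) (B : Finset (V n)) (f : Ix n → ℝ) :
    ∑ c ∈ FB R B, f c = ∑ k ∈ Finset.Ioc R (2 * R), ∑ z ∈ nb k B, f (bd k z) := by
  classical
  unfold FB
  rw [Finset.sum_image, Finset.sum_sigma]
  rintro ⟨k, z⟩ h ⟨k', z'⟩ h' he
  have hk := (Finset.mem_Ioc.mp (Finset.mem_sigma.mp h).1).1
  have hk' := (Finset.mem_Ioc.mp (Finset.mem_sigma.mp h').1).1
  simp only at hk hk' he
  obtain ⟨h1, h2⟩ := bd_inj (by omega) (by omega) he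
  subst h1 h2
  rfl

theorem SS_eq {n : ℕ} (a p : unitInterval) (β : NNReal) (s : ℝ) {R : ℕ} (hR : 1 ≤ R)
    (B : Finset (V n)) (ω : Cfg n) :
    SS β s R B ω = cs (prob a p β s 1) (FB R B) ω := by
  unfold cs SS
  rw [sum_FB]
  refine Finset.sum_congr rfl fun k hk => Finset.sum_congr rfl fun z _ => ?_
  rw [prob_bd a p β s (by have := (Finset.mem_Ioc.mp hk).1; omega) z]
  rfl

theorem nb_card {n : ℕ} (k : ℕ) (B : Finset (V n)) : (nb k B).card ≤ 2 * B.card := by
  classical
  unfold nb
  refine (Finset.card_union_le _ _).trans ?_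
  have := Finset.card_image_le (s := B) (f := fun z => z - kv n k)
  omega

theorem sum_prob {n : ℕ} (a p : unitInterval) (β : NNReal) (s : ℝ) {R m : ℕ} (hR : 1 ≤ R)
    (B : Finset (V n)) (hB : B.card ≤ m) :
    ∑ c ∈ FB R B, (prob a p β s 1 c : ℝ) ≤ 2 * m * sg β s R := by
  rw [sum_FB]
  unfold sg
  rw [Finset.mul_sum]
  refine Finset.sum_le_sum fun k hk => ?_
  have h1 : ∑ z ∈ nb k B, (prob a p β s 1 (bd k z) : ℝ) = (nb k B).card * (lrp β s k : ℝ) := by
    rw [Finset.sum_congr rfl fun z _ => by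
      rw [prob_bd a p β s (by have := (Finset.mem_Ioc.mp hk).1; omega) z]]
    rw [Finset.sum_const, nsmul_eq_mul]
  rw [h1]
  apply mul_le_mul_of_nonneg_right _ (lrp β s k).2.1
  have := nb_card k B
  have h2 : (nb k B).card ≤ 2 * m := this.trans (by omega)
  exact_mod_cast h2

theorem sg_nonneg (β : NNReal) (s : ℝ) (R : ℕ) : 0 ≤ sg β s R :=
  Finset.sum_nonneg fun k _ => (lrp β s k).2.1

open scoped Classical in
/-- exponential moments on the clusters -/
theorem expo {n : ℕ} (a p : unitInterval) (β : NNReal) (s : ℝ) {R m : ℕ} (hR : 1 ≤ R)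
    (𝓑 : Finset (Finset (V n))) (hB : ∀ B ∈ 𝓑, B.card ≤ m) (t : ℝ) (ht : |t| ≤ 1) :
    ∑ B ∈ 𝓑, ∫ ω in AB (EdI 1) B, Real.exp (t * cs (prob a p β s 1) (FB R B) ω)
      ∂(pm (prob (n := n) a p β s 1)) ≤ Real.exp (2 * t ^ 2 * (m * sg β s R)) := by
  set r : Ix n → unitInterval := prob a p β s 1 with hr
  set rD : Ix n → unitInterval := tF r t (DD n R) with hrD
  have h1 : ∀ B ∈ 𝓑, ∫ ω in AB (EdI 1) B, Real.exp (t * cs r (FB R B) ω) ∂(pm r) ≤
      Real.exp (2 * t ^ 2 * (m * sg β s R)) * (pm rD).real (AB (EdI 1) B) := by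
    intro B hBm
    rw [tilt r t (FB R B) (AB (EdI 1) B) (meas_AB _ _)]
    have h2 : (pm (tF r t (FB R B : Set (Ix n)))).real (AB (EdI 1) B) =
        (pm rD).real (AB (EdI 1) B) := by
      refine real_agree _ _ {c | c ∈ DD n R → c ∈ FB R B} ?_ (meas_AB _ _) (AB_dep _ R B)
      intro c hc
      rw [hrD]
      by_cases hcD : c ∈ DD n R
      · rw [tF_in r t _ hcD, tF_in r t _ (by simpa using hc hcD)]
      · rw [tF_out r t _ hcD, tF_out r t _ (by
          intro h
          exact hcD (FB_sub R B c (by simpa using h)))]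
    rw [h2]
    apply mul_le_mul_of_nonneg_right _ measureReal_nonneg
    calc ∏ c ∈ FB R B, nf t (r c) ≤ ∏ c ∈ FB R B, Real.exp (t ^ 2 * (r c : ℝ)) :=
          Finset.prod_le_prod (fun c _ => (nf_pos t (r c)).le) fun c _ => nf_le t ht (r c)
      _ = Real.exp (t ^ 2 * ∑ c ∈ FB R B, (r c : ℝ)) := by
          rw [← Real.exp_sum, Finset.mul_sum]
      _ ≤ Real.exp (2 * t ^ 2 * (m * sg β s R)) := by
          apply Real.exp_le_exp.mpr
          have h3 := sum_prob a p β s hR B (hB B hBm)
          have h4 : 0 ≤ t ^ 2 := sq_nonneg t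
          nlinarith [mul_le_mul_of_nonneg_left h3 h4]
  refine (Finset.sum_le_sum h1).trans ?_
  rw [← Finset.mul_sum]
  have h5 : ∑ B ∈ 𝓑, (pm rD).real (AB (EdI 1) B) ≤ 1 := by
    rw [← measureReal_biUnion_finset]
    · exact measureReal_le_one
    · intro B _ B' _ hne
      show Disjoint (AB (EdI 1) B) (AB (EdI 1) B')
      rw [Set.disjoint_left]
      intro ω h h'
      have h6 : (B : Set (V n)) = (B' : Set (V n)) := (show cl (EdI 1) ω univ 0 = _ from h).symm.trans h'
      exact hne (Finset.coe_injective h6)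
    · intro B _
      exact meas_AB _ _
  calc Real.exp (2 * t ^ 2 * (m * sg β s R)) * ∑ B ∈ 𝓑, (pm rD).real (AB (EdI 1) B)
      ≤ Real.exp (2 * t ^ 2 * (m * sg β s R)) * 1 :=
        mul_le_mul_of_nonneg_left h5 (Real.exp_pos _).le
    _ = _ := mul_one _

theorem sq_le_exp (x : ℝ) : x ^ 2 ≤ Real.exp x + Real.exp (-x) := by
  have h1 : Real.cosh x = 1 + 2 * Real.sinh (x / 2) ^ 2 := by
    have := Real.cosh_two_mul (x / 2)
    rw [mul_div_cancel₀ x two_ne_zero, Real.cosh_sq] at this
    linarith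
  have h2 : (x / 2) ^ 2 ≤ Real.sinh (x / 2) ^ 2 := by
    rw [sq_le_sq]
    rw [Real.abs_sinh]
    exact Real.self_le_sinh_iff.mpr (abs_nonneg _)
  have h3 := Real.cosh_eq x
  nlinarith

theorem s_tilt : S_tilt := by
  classical
  intro n a p β s R m hR 𝓑 hB
  have hsg := sg_nonneg β s R
  set M : ℝ := 1 + m * sg β s R with hM
  have hM1 : 1 ≤ M := by
    rw [hM]
    have : 0 ≤ (m : ℝ) * sg β s R := by positivity
    linarith
  set t : ℝ := (Real.sqrt M)⁻¹ with ht
  have hsq : 1 ≤ Real.sqrt M := Real.one_le_sqrt.mpr hM1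
  have ht0 : 0 < t := by rw [ht]; positivity
  have ht1 : t ≤ 1 := by rw [ht]; exact inv_le_one_of_one_le₀ hsq
  have ht2 : t ^ 2 * M = 1 := by
    rw [ht, inv_pow, Real.sq_sqrt (by linarith)]
    exact inv_mul_cancel₀ (by linarith)
  have habs : |t| ≤ 1 := by rw [abs_of_pos ht0]; exact ht1
  have habs' : |-t| ≤ 1 := by rw [abs_neg]; exact habs
  have e1 := expo a p β s hR 𝓑 hB t habs
  have e2 := expo a p β s hR 𝓑 hB (-t) habs'
  set r : Ix n → unitInterval := prob a p β s 1 with hr
  have hpt : ∀ B ∈ 𝓑, ∫ ω in AB (EdI 1) B, (SS β s R B ω) ^ 2 ∂(pm r) ≤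
      M * ((∫ ω in AB (EdI 1) B, Real.exp (t * cs r (FB R B) ω) ∂(pm r)) +
        ∫ ω in AB (EdI 1) B, Real.exp (-t * cs r (FB R B) ω) ∂(pm r)) := by
    intro B _
    rw [← integral_add (int_exp r _ t).integrableOn (int_exp r _ (-t)).integrableOn,
      ← integral_const_mul]
    refine setIntegral_mono_on ?_ ?_ (meas_AB _ _) ?_
    · have h0 : Integrable (fun ω => (SS β s R B ω) ^ 2) (pm r) := by
        have h1 : (fun ω => (SS β s R B ω) ^ 2) = fun ω => (cs r (FB R B) ω) ^ 2 := by
          funext ω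
          rw [SS_eq a p β s hR B ω]
        rw [h1]
        refine Integrable.of_bound ((meas_cs r _).pow_const 2).aestronglyMeasurable
          (((FB R B).card : ℝ) ^ 2) ?_
        filter_upwards with ω
        rw [Real.norm_eq_abs, abs_pow]
        exact pow_le_pow_left₀ (abs_nonneg _) (abs_cs r _ ω) 2
      exact h0.integrableOn
    · exact (((int_exp r _ t).add (int_exp r _ (-t))).const_mul M).integrableOn
    · intro ω _
      rw [SS_eq a p β s hR B ω]
      have h3 := sq_le_exp (t * cs r (FB R B) ω)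
      have h4 : -t * cs r (FB R B) ω = -(t * cs r (FB R B) ω) := by ring
      rw [h4]
      calc (cs r (FB R B) ω) ^ 2 = M * (t * cs r (FB R B) ω) ^ 2 := by
            rw [mul_pow, ← mul_assoc, mul_comm M, ht2, one_mul]
        _ ≤ _ := mul_le_mul_of_nonneg_left h3 (by linarith)
  have hfin : ∑ B ∈ 𝓑, ∫ ω in AB (EdI 1) B, (SS β s R B ω) ^ 2 ∂(pm r) ≤
      M * (Real.exp 2 + Real.exp 2) := by
    refine (Finset.sum_le_sum hpt).trans ?_
    rw [← Finset.mul_sum, Finset.sum_add_distrib]
    apply mul_le_mul_of_nonneg_left _ (by linarith)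
    have h6 : 2 * t ^ 2 * (m * sg β s R) ≤ 2 := by
      have : t ^ 2 * (m * sg β s R) ≤ t ^ 2 * M := by
        apply mul_le_mul_of_nonneg_left _ (sq_nonneg t)
        rw [hM]; linarith
      nlinarith
    apply add_le_add
    · exact e1.trans (Real.exp_le_exp.mpr h6)
    · refine e2.trans (Real.exp_le_exp.mpr ?_)
      rw [neg_sq]
      exact h6
  refine hfin.trans ?_
  have h7 : Real.exp 2 ≤ 7.5 := by
    have h8 : Real.exp 2 = Real.exp 1 * Real.exp 1 := by rw [← Real.exp_add]; norm_num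
    rw [h8]
    have h9 := Real.exp_one_lt_d9
    have h10 := Real.exp_pos 1
    nlinarith
  nlinarith

end Pool.Agent.TH914.PLT
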