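import Pool.Agent.TH806.LS.Defs
import Pool.Agent.TH914.LS.OF

set_option autoImplicit false

/-!
JOB LS OSC of the LS project (helper806): the mean of Hardy's function against a monomial is small.
-/

namespace Pool.Agent.TH914.LS_OSC

open MeasureTheory Filter Topology

/-- the two forms of Hardy's function -/
lemma Zr_eq (t : ℝ) : Pool.Agent.TH806.LS.Zr t = Pool.Agent.TH914.LS.Zz t := by
  unfold Pool.Agent.TH806.LS.Zr
  rw [← Pool.Agent.TH914.LS.Zz_eq t, Complex.ofReal_re]

/-- the mean of Hardy's function against a monomial -/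
theorem t_OSC : Pool.Agent.TH806.LS.P_OSC := by
  unfold Pool.Agent.TH806.LS.P_OSC
  filter_upwards [Pool.Agent.TH914.LS.osc_ev] with T hT κ hκ h l hh hl _ _
  simp only [Zr_eq]
  exact hT κ hκ h l hh hl

end Pool.Agent.TH914.LS_OSC
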