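import Pool.Agent.TH986.LK_B
import Pool.Agent.TH328.LK_ALG
import Pool.Agent.TH263.LK_AV1
import Pool.Agent.TH806.LS.Defs

set_option autoImplicit false

/-!
JOB LS OZ of the LS project (helper806): the mean of Hardy's function against the weights is small.
Port of `Pool.Agent.TH263.LK_AV1` and `Pool.Agent.TH55.LS_U4s`.
-/

namespace Pool.Agent.TH914.LS_OZ

open Finset Filter Topology MeasureTheory MonoidAlgebra
open Pool.Agent.W184.NZ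
open Pool.Agent.TH806 Pool.Agent.TH806.LK Pool.Agent.TH806.LS
open Pool.Agent.TH328.LK_ALG (EP EP_NC norm_half PB_of_EP)
open Pool.Agent.TH263.LK_AV1 (Fc_eq sq_le_four_pow ev_cont ev_le)
open Pool.Agent.TH986.LK_B (NC_conj_real NC_cont' pf_cont' zz_cont zz_le hh_cont hh_bd norm_e DK_conj swap2 dbl_le
  len_le)
open Pool.Agent.H306R2.SM (om cl Yf)
open Pool.Agent.H262R4.TM (Rng Ck)

noncomputable section

/-! ### the local factor -/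

/-- the one-variable polynomial -/
def Pc (K : ℕ) (a b θ₁ θ₂ : ℝ) (z : ℂ) : ℂ :=
  (NC K ((a:ℂ) / 2) z * NC K ((b:ℂ) / 2) z) *
    (NC K (θ₁ / 2 * Complex.I) z * NC K (θ₂ / 2 * Complex.I) z)

/-- the local factor -/
def Bz (K : ℕ) (a b θ₁ θ₂ : ℝ) (z : ℂ) : ℂ :=
  (NC K ((a:ℂ) / 2) z * NC K ((a:ℂ) / 2) (starRingEnd ℂ z)) *
    (NC K ((b:ℂ) / 2) z * NC K ((b:ℂ) / 2) (starRingEnd ℂ z)) * (pf K θ₁ z * pf K θ₂ z)

lemma Bz_eq (K : ℕ) (a b θ₁ θ₂ : ℝ) (z : ℂ) :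
    Bz K a b θ₁ θ₂ z = Pc K a b θ₁ θ₂ z * Pc K a b θ₁ θ₂ (starRingEnd ℂ z) := by
  unfold Bz Pc pf; ring

lemma EP_Pc {n K : ℕ} {a b θ₁ θ₂ : ℝ} (ha : |a| ≤ n) (hb : |b| ≤ n) (h1 : |θ₁| ≤ 1)
    (h2 : |θ₂| ≤ 1) : EP (4 * K) (n + 1) (Pc K a b θ₁ θ₂) := by
  have half : ∀ {x : ℝ}, |x| ≤ n → ‖(x:ℂ) / 2‖ ≤ (n:ℝ) / 2 := by
    intro x hx
    rw [norm_div, Complex.norm_real, Real.norm_eq_abs]
    have : ‖(2:ℂ)‖ = 2 := by norm_num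
    rw [this]; linarith
  have e0 := (EP_NC K (half ha)).mul (EP_NC K (half hb)) (by positivity)
  have e1 := EP_NC K (norm_half h1)
  have e2 := EP_NC K (norm_half h2)
  have e3 := e0.mul (e1.mul e2 (by norm_num)) (by positivity)
  exact e3.mono (by omega) (by positivity) (by linarith)

lemma PB_Bz {n K : ℕ} (hK : n + 1 ≤ K) {a b θ₁ θ₂ : ℝ} (ha : |a| ≤ n) (hb : |b| ≤ n)
    (h1 : |θ₁| ≤ 1) (h2 : |θ₂| ≤ 1) : PB (4 * K) (Bz K a b θ₁ θ₂) := by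
  have e := EP_Pc (K := K) ha hb h1 h2
  have hK' : ((n:ℝ) + 1) ≤ K := by exact_mod_cast hK
  have q := PB_of_EP e e (by positivity) (by positivity) (by push_cast; linarith)
  obtain ⟨c, hc1, hc2⟩ := q
  exact ⟨c, hc1, fun z => (Bz_eq K a b θ₁ θ₂ z).trans (hc2 z)⟩

lemma Bz_cont' {X : Type*} [TopologicalSpace X] (K : ℕ) (a b : ℝ) {f g : X → ℝ} {h : X → ℂ}
    (hf : Continuous f) (hg : Continuous g) (hh : Continuous h) :
    Continuous fun x => Bz K a b (f x) (g x) (h x) := by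
  unfold Bz
  have h2 : Continuous fun x => starRingEnd ℂ (h x) := Complex.continuous_conj.comp hh
  exact (((NC_cont' K continuous_const hh).mul (NC_cont' K continuous_const h2)).mul
    ((NC_cont' K continuous_const hh).mul (NC_cont' K continuous_const h2))).mul
    ((pf_cont' K hf hh).mul (pf_cont' K hg hh))

/-- the integrand -/
def FZ (n Rs J : ℕ) (I : ℕ → Finset ℕ) (a b u : ℝ) (t θ₁ θ₂ : ℝ) : ℂ :=
  ((hh θ₁ * hh θ₂ : ℝ) : ℂ) * (Complex.exp (-(((θ₁ + θ₂) * u : ℝ) : ℂ) * Complex.I) *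
    ∏ i ∈ range J, Bz (KK n Rs i) a b θ₁ θ₂ (zz I t i))

lemma prodZ_cont (n Rs J : ℕ) {I : ℕ → Finset ℕ} (hI : ∀ i, ∀ p ∈ I i, p.Prime) (a b : ℝ) :
    Continuous fun x : ℝ × ℝ × ℝ => ∏ i ∈ range J, Bz (KK n Rs i) a b x.2.1 x.2.2 (zz I x.1 i) := by
  refine continuous_finsetProd _ fun i _ => ?_
  have h1 : Continuous fun x : ℝ × ℝ × ℝ => x.2.1 := by fun_prop
  have h2 : Continuous fun x : ℝ × ℝ × ℝ => x.2.2 := by fun_prop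
  have h3 : Continuous fun x : ℝ × ℝ × ℝ => zz I x.1 i := (zz_cont hI i).comp continuous_fst
  exact Bz_cont' (KK n Rs i) a b h1 h2 h3

lemma FZ_cont (n Rs J : ℕ) {I : ℕ → Finset ℕ} (hI : ∀ i, ∀ p ∈ I i, p.Prime) (a b u : ℝ) :
    Continuous fun x : ℝ × ℝ × ℝ => FZ n Rs J I a b u x.1 x.2.1 x.2.2 := by
  unfold FZ
  have h1 := prodZ_cont n Rs J hI a b
  have h2 := hh_cont
  fun_prop

lemma prodZ_bd (n Rs J : ℕ) {I : ℕ → Finset ℕ} (hI : ∀ i, ∀ p ∈ I i, p.Prime) (a b : ℝ) :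
    ∃ B : ℝ, 0 ≤ B ∧ ∀ t, ∀ θ₁ ∈ Set.Icc (-1:ℝ) 1, ∀ θ₂ ∈ Set.Icc (-1:ℝ) 1,
      ‖∏ i ∈ range J, Bz (KK n Rs i) a b θ₁ θ₂ (zz I t i)‖ ≤ B := by
  have h1 : ∀ i, ∃ B : ℝ, ∀ t, ∀ θ₁ ∈ Set.Icc (-1:ℝ) 1, ∀ θ₂ ∈ Set.Icc (-1:ℝ) 1,
      ‖Bz (KK n Rs i) a b θ₁ θ₂ (zz I t i)‖ ≤ B := by
    intro i
    have hK : IsCompact (Set.Icc (-1:ℝ) 1 ×ˢ Set.Icc (-1:ℝ) 1 ×ˢ Metric.closedBall (0:ℂ) (I i).card) :=
      isCompact_Icc.prod (isCompact_Icc.prod (isCompact_closedBall _ _))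
    have hcB : Continuous fun x : ℝ × ℝ × ℂ => Bz (KK n Rs i) a b x.1 x.2.1 x.2.2 :=
      Bz_cont' (KK n Rs i) a b (by fun_prop) (by fun_prop) (by fun_prop)
    obtain ⟨B, hB⟩ := hK.exists_bound_of_continuousOn hcB.continuousOn
    refine ⟨B, fun t θ₁ h1 θ₂ h2 => hB (θ₁, θ₂, zz I t i) ⟨h1, h2, ?_⟩⟩
    rw [mem_closedBall_zero_iff]
    exact zz_le hI i t
  choose B hB using h1
  refine ⟨∏ i ∈ range J, |B i|, by positivity, fun t θ₁ h1 θ₂ h2 => ?_⟩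
  rw [norm_prod]
  exact prod_le_prod (fun i _ => norm_nonneg _) fun i _ => (hB i t θ₁ h1 θ₂ h2).trans (le_abs_self _)

lemma FZ_bd (n Rs J : ℕ) {I : ℕ → Finset ℕ} (hI : ∀ i, ∀ p ∈ I i, p.Prime) (a b u : ℝ) :
    ∃ B : ℝ, ∀ t, ∀ θ₁ ∈ Set.Icc (-1:ℝ) 1, ∀ θ₂ ∈ Set.Icc (-1:ℝ) 1, ‖FZ n Rs J I a b u t θ₁ θ₂‖ ≤ B := by
  obtain ⟨B, hB0, hB⟩ := prodZ_bd n Rs J hI a b
  refine ⟨B, fun t θ₁ h1 θ₂ h2 => ?_⟩
  unfold FZ
  rw [norm_mul, norm_mul, norm_e, one_mul, Complex.norm_real, Real.norm_eq_abs, abs_mul,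
    abs_of_nonneg (hh_bd h1).1, abs_of_nonneg (hh_bd h2).1]
  have h4 : hh θ₁ * hh θ₂ ≤ 1 := mul_le_one₀ (hh_bd h1).2 (hh_bd h2).1 (hh_bd h2).2
  calc hh θ₁ * hh θ₂ * ‖∏ i ∈ range J, Bz (KK n Rs i) a b θ₁ θ₂ (zz I t i)‖ ≤ 1 * B :=
        mul_le_mul h4 (hB t θ₁ h1 θ₂ h2) (norm_nonneg _) zero_le_one
    _ = B := one_mul B

lemma AQ_norm (n Rs J : ℕ) (a : ℝ) (z : ℕ → ℂ) : ((‖AQ n Rs J a z‖ : ℝ) : ℂ) =
    ∏ i ∈ range J, (NC (KK n Rs i) ((a:ℂ) / 2) (z i) *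
      NC (KK n Rs i) ((a:ℂ) / 2) (starRingEnd ℂ (z i))) := by
  unfold AQ NS
  rw [norm_prod, Complex.ofReal_prod]
  refine prod_congr rfl fun i _ => ?_
  rw [norm_pow, Complex.ofReal_pow, ← Complex.mul_conj']
  congr 1
  have h : ((a:ℂ) / 2) = ((a / 2 : ℝ) : ℂ) := by push_cast; ring
  rw [h, NC_conj_real]

lemma DKz_sq (n Rs J : ℕ) (a b u : ℝ) (z : ℕ → ℂ) :
    ((‖AQ n Rs J a z‖ * ‖AQ n Rs J b z‖ * ‖DK n Rs J hh u z‖ ^ 2 : ℝ) : ℂ) =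
      ∫ θ₁ in (-1:ℝ)..1, ∫ θ₂ in (-1:ℝ)..1, ((hh θ₁ * hh θ₂ : ℝ) : ℂ) *
        (Complex.exp (-(((θ₁ + θ₂) * u : ℝ) : ℂ) * Complex.I) *
          ∏ i ∈ range J, Bz (KK n Rs i) a b θ₁ θ₂ (z i)) := by
  have h1 : ((‖DK n Rs J hh u z‖ ^ 2 : ℝ) : ℂ) = DK n Rs J hh u z * DK n Rs J hh u z := by
    have := Complex.mul_conj' (DK n Rs J hh u z)
    rw [DK_conj] at this
    rw [this]; push_cast; rfl
  set A : ℂ := ((‖AQ n Rs J a z‖ : ℝ) : ℂ) * ((‖AQ n Rs J b z‖ : ℝ) : ℂ) with hA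
  have h2 : ∀ θ₁ θ₂ : ℝ, ((hh θ₁ * hh θ₂ : ℝ) : ℂ) *
        (Complex.exp (-(((θ₁ + θ₂) * u : ℝ) : ℂ) * Complex.I) *
          ∏ i ∈ range J, Bz (KK n Rs i) a b θ₁ θ₂ (z i)) =
      (A * ((hh θ₁ : ℂ) * (Complex.exp (-((θ₁ * u : ℝ) : ℂ) * Complex.I) *
          ∏ i ∈ range J, pf (KK n Rs i) θ₁ (z i)))) *
        ((hh θ₂ : ℂ) * (Complex.exp (-((θ₂ * u : ℝ) : ℂ) * Complex.I) *
          ∏ i ∈ range J, pf (KK n Rs i) θ₂ (z i))) := by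
    intro θ₁ θ₂
    have e1 : Complex.exp (-(((θ₁ + θ₂) * u : ℝ) : ℂ) * Complex.I) =
        Complex.exp (-((θ₁ * u : ℝ) : ℂ) * Complex.I) * Complex.exp (-((θ₂ * u : ℝ) : ℂ) * Complex.I) := by
      rw [← Complex.exp_add]; congr 1; push_cast; ring
    have e2 : ∏ i ∈ range J, Bz (KK n Rs i) a b θ₁ θ₂ (z i) = A *
        ((∏ i ∈ range J, pf (KK n Rs i) θ₁ (z i)) * ∏ i ∈ range J, pf (KK n Rs i) θ₂ (z i)) := by
      rw [hA, AQ_norm, AQ_norm, ← prod_mul_distrib, ← prod_mul_distrib, ← prod_mul_distrib]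
      rfl
    rw [e1, e2]
    push_cast
    ring
  simp_rw [h2, intervalIntegral.integral_const_mul, intervalIntegral.integral_mul_const]
  rw [intervalIntegral.integral_const_mul, Complex.ofReal_mul, Complex.ofReal_mul, h1, ← hA]
  unfold DK
  ring

/-! ### expansions -/

/-- expansion data -/
def Ex (N L : ℝ) (F : ℝ → ℂ) : Prop :=
  ∃ (ι : Type) (s : Finset ι) (a : ι → ℂ) (M : ι → DA),
    (∀ x ∈ s, Bd N (M x)) ∧ (∀ t, F t = ∑ x ∈ s, a x * ev t (M x)) ∧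
    ∑ x ∈ s, ‖a x‖ * l1 (M x) ≤ L

theorem Ex.one : Ex 1 1 (fun _ => 1) := by
  refine ⟨Unit, {()}, fun _ => 1, fun _ => 1, ?_, ?_, ?_⟩
  · intro x _
    exact Bd.one
  · intro t
    rw [sum_singleton, map_one, one_mul]
  · rw [sum_singleton, l1_one, norm_one, one_mul]

theorem Ex.block {N L : ℝ} {F : ℝ → ℂ} (h : Ex N L F) {I : Finset ℕ} {b : ℝ} (hb : 10 ≤ b)
    (hI : ∀ p ∈ I, p.Prime ∧ (p:ℝ) ≤ b) {K : ℕ} (hK : 1 ≤ K) {f : ℂ → ℂ} (hf : PB K f) :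
    Ex (N * b ^ (2 * K)) (L * b ^ (3 * K)) (fun t => F t * f (PI I (1 / 2 + t * Complex.I))) := by
  classical
  obtain ⟨ι, s, a, M, h1, h2, h4⟩ := h
  obtain ⟨c, hc, hfc⟩ := hf
  have hb0 : 0 ≤ b := by linarith
  have hb1 : 1 ≤ b := by linarith
  have hI' : ∀ p ∈ I, p.Prime := fun p hp => (hI p hp).1
  set R := range (K + 1) ×ˢ range (K + 1) with hR
  refine ⟨ι × (ℕ × ℕ), s ×ˢ R, fun y => a y.1 * c y.2.1 y.2.2,
    fun y => M y.1 * (xI I ^ y.2.1 * yI I ^ y.2.2), ?_, ?_, ?_⟩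
  · intro y hy
    rw [mem_product] at hy
    obtain ⟨hy1, hy2⟩ := hy
    rw [hR, mem_product, mem_range, mem_range] at hy2
    refine (h1 _ hy1).mul ?_
    refine (((xI_Bd hI).pow y.2.1).mul ((yI_Bd hI).pow y.2.2)).mono ?_
    rw [← pow_add]
    exact pow_le_pow_right₀ hb1 (by omega)
  · intro t
    simp only
    rw [h2, hfc, Fc_eq, sum_mul_sum, sum_product]
    refine sum_congr rfl fun x _ => sum_congr rfl fun q _ => ?_
    simp only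
    rw [map_mul, map_mul, map_pow, map_pow, ev_xI, ev_yI t hI']
    ring
  · have e1 : ∀ q ∈ R, ‖c q.1 q.2‖ * l1 (xI I ^ q.1 * yI I ^ q.2) ≤ 2 ^ K * b ^ (2 * K) := by
      intro q hq
      rw [hR, mem_product, mem_range, mem_range] at hq
      refine mul_le_mul (hc _ _) ?_ (l1_nonneg _) (by positivity)
      refine (l1_mul _ _).trans ?_
      calc l1 (xI I ^ q.1) * l1 (yI I ^ q.2) ≤ b ^ q.1 * b ^ q.2 := by
            refine mul_le_mul ((l1_pow _ _).trans ?_) ((l1_pow _ _).trans ?_) (l1_nonneg _)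
              (by positivity)
            · exact pow_le_pow_left₀ (l1_nonneg _) (xI_l1 hb0 hI) _
            · exact pow_le_pow_left₀ (l1_nonneg _) (yI_l1 hb0 hI) _
        _ = b ^ (q.1 + q.2) := (pow_add _ _ _).symm
        _ ≤ b ^ (2 * K) := pow_le_pow_right₀ hb1 (by omega)
    have e2 : ∑ q ∈ R, ‖c q.1 q.2‖ * l1 (xI I ^ q.1 * yI I ^ q.2) ≤ b ^ (3 * K) := by
      refine (sum_le_sum e1).trans ?_
      rw [sum_const, nsmul_eq_mul, hR, card_product, card_range]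
      have h5 := sq_le_four_pow hK
      have h6 : (8:ℝ) ^ K ≤ b ^ K := pow_le_pow_left₀ (by norm_num) (by linarith) K
      calc (((K + 1) * (K + 1) : ℕ) : ℝ) * (2 ^ K * b ^ (2 * K))
          = ((K : ℝ) + 1) ^ 2 * (2 ^ K * b ^ (2 * K)) := by push_cast; ring
        _ ≤ 4 ^ K * (2 ^ K * b ^ (2 * K)) := by gcongr
        _ = 8 ^ K * b ^ (2 * K) := by
            rw [← mul_assoc, ← mul_pow]; norm_num
        _ ≤ b ^ K * b ^ (2 * K) := by gcongr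
        _ = b ^ (3 * K) := by rw [← pow_add]; congr 1; ring
    have e3 : ∑ y ∈ s ×ˢ R, ‖a y.1 * c y.2.1 y.2.2‖ * l1 (M y.1 * (xI I ^ y.2.1 * yI I ^ y.2.2)) ≤
        (∑ x ∈ s, ‖a x‖ * l1 (M x)) * ∑ q ∈ R, ‖c q.1 q.2‖ * l1 (xI I ^ q.1 * yI I ^ q.2) := by
      rw [sum_mul_sum, sum_product]
      refine sum_le_sum fun x _ => sum_le_sum fun q _ => ?_
      simp only
      rw [norm_mul]
      calc ‖a x‖ * ‖c q.1 q.2‖ * l1 (M x * (xI I ^ q.1 * yI I ^ q.2))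
          ≤ ‖a x‖ * ‖c q.1 q.2‖ * (l1 (M x) * l1 (xI I ^ q.1 * yI I ^ q.2)) :=
            mul_le_mul_of_nonneg_left (l1_mul _ _) (by positivity)
        _ = _ := by ring
    refine e3.trans ?_
    exact mul_le_mul h4 e2 (sum_nonneg fun q _ => mul_nonneg (norm_nonneg _) (l1_nonneg _))
      (le_trans (sum_nonneg fun x _ => mul_nonneg (norm_nonneg _) (l1_nonneg _)) h4)

theorem ex_prod {c : ℝ} {J : ℕ} {I : ℕ → Finset ℕ} {b : ℕ → ℝ} {K : ℕ → ℕ} {f : ℕ → ℂ → ℂ}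
    (hR : Rg c J I b) (hf : ∀ i < J, 1 ≤ K i ∧ PB (K i) (f i)) (m : ℕ) (hm : m ≤ J) :
    Ex (∏ i ∈ range m, b i ^ (2 * K i)) (∏ i ∈ range m, b i ^ (3 * K i))
      (fun t => ∏ i ∈ range m, f i (zz I t i)) := by
  classical
  induction m with
  | zero =>
    simp only [range_zero, prod_empty]
    exact Ex.one
  | succ m ih =>
    have hmJ : m < J := hm
    have h := (ih (by omega)).block (hR.b10 m hmJ)
      (fun p hp => ⟨(hR.pr m p hp).1, (hR.pr m p hp).2.2⟩) (hf m hmJ).1 (hf m hmJ).2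
    simp only [prod_range_succ]
    exact h

theorem prod_bd' {J : ℕ} {b : ℕ → ℝ} (hb : ∀ i < J, 10 ≤ b i) (K : ℕ → ℕ) (r : ℕ) {T ε : ℝ}
    (hT : 1 < T)
    (h : ∑ i ∈ range J, (K i : ℝ) * Real.log (b i) ≤ ε * Real.log T) :
    ∏ i ∈ range J, b i ^ (r * K i) ≤ T ^ ((r : ℝ) * ε) := by
  have h0 : ∀ i ∈ range J, (0:ℝ) < b i := fun i hi => by
    have := hb i (mem_range.mp hi); linarith
  have e1 : ∏ i ∈ range J, b i ^ (r * K i)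
      = Real.exp (r * ∑ i ∈ range J, (K i : ℝ) * Real.log (b i)) := by
    rw [mul_sum, Real.exp_sum]
    refine prod_congr rfl fun i hi => ?_
    rw [← Real.rpow_natCast, Real.rpow_def_of_pos (h0 i hi)]
    congr 1
    push_cast
    ring
  rw [e1, Real.rpow_def_of_pos (by linarith)]
  refine Real.exp_le_exp.mpr ?_
  have := mul_le_mul_of_nonneg_left h (Nat.cast_nonneg r : (0:ℝ) ≤ r)
  linarith

/-! ### integrals -/

/-- the density times Hardy's function is integrable -/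
theorem w_int (hZ : P_ZR) (κ : ℕ) {δ : ℝ} (hδ : 0 < δ) :
    Integrable (fun t : ℝ => ((om κ δ t : ℝ) : ℂ) * ((Zr t : ℝ) : ℂ)) (volume.restrict (Set.Ioi 0)) := by
  have h2 := Pool.Agent.H262R4.TM.TTW.int2 κ hδ
  have h0 := om_int0 κ hδ
  refine Integrable.mono' (h0.add h2) ?_ ?_
  · exact ((Complex.continuous_ofReal.comp (Pool.Agent.H262R4.TM.TTW.om_cont κ δ)).mul
      (Complex.continuous_ofReal.comp hZ.2.2)).aestronglyMeasurable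
  · refine (ae_restrict_iff' measurableSet_Ioi).mpr (Eventually.of_forall fun t ht => ?_)
    have ht0 : (0:ℝ) ≤ t := le_of_lt ht
    have h1 := om_nn κ hδ ht0
    have h4 : ‖riemannZeta (cl t)‖ ≤ 1 + ‖riemannZeta (cl t)‖ ^ 2 := by
      nlinarith [norm_nonneg (riemannZeta (cl t)), sq_nonneg (‖riemannZeta (cl t)‖ - 1)]
    have h5 : ‖((Zr t : ℝ) : ℂ)‖ = ‖riemannZeta (cl t)‖ := by
      rw [Complex.norm_real, Real.norm_eq_abs, hZ.2.1 t]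
      rfl
    rw [norm_mul, h5, Complex.norm_real, Real.norm_of_nonneg h1]
    simp only [Pi.add_apply]
    calc om κ δ t * ‖riemannZeta (cl t)‖ ≤ om κ δ t * (1 + ‖riemannZeta (cl t)‖ ^ 2) :=
          mul_le_mul_of_nonneg_left h4 h1
      _ = _ := by ring

theorem int_w (hZ : P_ZR) (κ : ℕ) {δ : ℝ} (hδ : 0 < δ) {g : ℝ → ℂ} {B : ℝ} (hg : Continuous g)
    (hB : ∀ t, ‖g t‖ ≤ B) :
    IntegrableOn (fun t : ℝ => ((om κ δ t : ℝ) : ℂ) * (((Zr t : ℝ) : ℂ) * g t)) (Set.Ioi 0) := by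
  have h := (w_int hZ κ hδ).mul_bdd (c := B) hg.aestronglyMeasurable (Eventually.of_forall hB)
  refine h.congr (Eventually.of_forall fun t => ?_)
  simp only
  ring

/-- one element of the algebra -/
theorem one_elt {T : ℝ} {κ : ℕ} (hδ : 0 < (κ : ℝ) / T) (hZ : P_ZR)
    (hO : ∀ h l : ℕ, 1 ≤ h → 1 ≤ l →
      (h : ℝ) ≤ T ^ (1 / 100 : ℝ) → (l : ℝ) ≤ T ^ (1 / 100 : ℝ) →
      ‖∫ t in Set.Ioi (0 : ℝ), ((om κ (κ / T) t : ℝ) : ℂ) * (((Zr t : ℝ) : ℂ) * mh t (h, l))‖ ≤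
        T ^ (-(1 / 8) : ℝ))
    {N : ℝ} (hN : N ≤ T ^ (1 / 100 : ℝ)) {M : DA} (hM : Bd N M) :
    ‖∫ t in Set.Ioi (0 : ℝ), ((om κ (κ / T) t : ℝ) : ℂ) * (((Zr t : ℝ) : ℂ) * ev t M)‖ ≤
      T ^ (-(1 / 8) : ℝ) * l1 M := by
  have e1 : ∀ t : ℝ, ((om κ (κ / T) t : ℝ) : ℂ) * (((Zr t : ℝ) : ℂ) * ev t M) =
      ∑ x ∈ M.coeff.support, (M.coeff x : ℂ) *
        (((om κ (κ / T) t : ℝ) : ℂ) * (((Zr t : ℝ) : ℂ) * mh t x)) := by
    intro t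
    rw [ev_apply, mul_sum, mul_sum]
    refine sum_congr rfl fun x _ => ?_
    ring
  have hi : ∀ x ∈ M.coeff.support, Integrable (fun t : ℝ => (M.coeff x : ℂ) *
        (((om κ (κ / T) t : ℝ) : ℂ) * (((Zr t : ℝ) : ℂ) * mh t x)))
        (volume.restrict (Set.Ioi 0)) := by
    intro x hx
    refine Integrable.const_mul ?_ _
    exact int_w hZ κ hδ (mh_cont (hM x hx).1.1 (hM x hx).1.2) (B := 1)
      fun t => mh_norm_le (hM x hx).1.1 (hM x hx).1.2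
  rw [integral_congr_ae (Eventually.of_forall e1), integral_finsetSum _ hi, l1, mul_sum]
  refine (norm_sum_le _ _).trans (sum_le_sum fun x hx => ?_)
  rw [integral_const_mul, norm_mul, Complex.norm_real, Real.norm_eq_abs,
    mul_comm (T ^ (-(1 / 8) : ℝ))]
  refine mul_le_mul_of_nonneg_left ?_ (abs_nonneg _)
  have h := hM x hx
  exact hO x.1 x.2 (Nat.pos_of_ne_zero h.1.1) (Nat.pos_of_ne_zero h.1.2) (h.2.1.trans hN)
    (h.2.2.trans hN)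

/-- a product of polynomials -/
theorem ex_elt {T : ℝ} {κ : ℕ} (hδ : 0 < (κ : ℝ) / T) (hT : 0 < T) (hZ : P_ZR)
    (hO : ∀ h l : ℕ, 1 ≤ h → 1 ≤ l →
      (h : ℝ) ≤ T ^ (1 / 100 : ℝ) → (l : ℝ) ≤ T ^ (1 / 100 : ℝ) →
      ‖∫ t in Set.Ioi (0 : ℝ), ((om κ (κ / T) t : ℝ) : ℂ) * (((Zr t : ℝ) : ℂ) * mh t (h, l))‖ ≤
        T ^ (-(1 / 8) : ℝ))
    {N L : ℝ} (hN : N ≤ T ^ (1 / 100 : ℝ)) {F : ℝ → ℂ} (hF : Ex N L F) :
    ‖∫ t in Set.Ioi (0 : ℝ), ((om κ (κ / T) t : ℝ) : ℂ) * (((Zr t : ℝ) : ℂ) * F t)‖ ≤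
      T ^ (-(1 / 8) : ℝ) * L := by
  obtain ⟨ι, s, a, M, h1, h2, h4⟩ := hF
  have e1 : ∀ t : ℝ, ((om κ (κ / T) t : ℝ) : ℂ) * (((Zr t : ℝ) : ℂ) * F t) =
      ∑ x ∈ s, a x * (((om κ (κ / T) t : ℝ) : ℂ) * (((Zr t : ℝ) : ℂ) * ev t (M x))) := by
    intro t
    rw [h2 t, mul_sum, mul_sum]
    refine sum_congr rfl fun x _ => ?_
    ring
  have hi : ∀ x ∈ s, Integrable (fun t : ℝ => a x *
        (((om κ (κ / T) t : ℝ) : ℂ) * (((Zr t : ℝ) : ℂ) * ev t (M x))))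
        (volume.restrict (Set.Ioi 0)) := by
    intro x hx
    refine Integrable.const_mul ?_ _
    exact int_w hZ κ hδ (ev_cont (h1 x hx)) (B := l1 (M x)) fun t => ev_le (h1 x hx) t
  rw [integral_congr_ae (Eventually.of_forall e1), integral_finsetSum _ hi]
  calc ‖∑ x ∈ s, ∫ t in Set.Ioi (0:ℝ), a x *
        (((om κ (κ / T) t : ℝ) : ℂ) * (((Zr t : ℝ) : ℂ) * ev t (M x)))‖
      ≤ ∑ x ∈ s, ‖a x‖ * (T ^ (-(1 / 8) : ℝ) * l1 (M x)) := by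
        refine (norm_sum_le _ _).trans (sum_le_sum fun x hx => ?_)
        rw [integral_const_mul, norm_mul]
        exact mul_le_mul_of_nonneg_left (one_elt hδ hZ hO hN (h1 x hx)) (norm_nonneg _)
    _ = T ^ (-(1 / 8) : ℝ) * ∑ x ∈ s, ‖a x‖ * l1 (M x) := by
        rw [mul_sum]
        refine sum_congr rfl fun x _ => ?_
        ring
    _ ≤ T ^ (-(1 / 8) : ℝ) * L := mul_le_mul_of_nonneg_left h4 (by positivity)

lemma len4_le {y : ℝ} (hy : 1 ≤ y) (n Rs J : ℕ) :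
    ∑ i ∈ range J, ((4 * KK n Rs i : ℕ) : ℝ) * Real.log (bb y i) ≤ 320 * (n * ((Rs:ℝ) + 1) * Real.log y) := by
  have h := len_le hy n Rs J
  have h1 : ∑ i ∈ range J, ((4 * KK n Rs i : ℕ) : ℝ) * Real.log (bb y i) =
      4 / 3 * ∑ i ∈ range J, ((3 * KK n Rs i : ℕ) : ℝ) * Real.log (bb y i) := by
    rw [mul_sum]
    refine sum_congr rfl fun i _ => ?_
    push_cast
    ring
  rw [h1]
  linarith

/-- the mean of Hardy's function against the weights -/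
theorem t_OZ : Pool.Agent.TH806.LS.P_OSC → Pool.Agent.TH806.LS.P_ZR → Pool.Agent.TH806.LS.P_OZ := by
  intro hO hZ n hn
  have hn0 : (1:ℝ) ≤ n := by exact_mod_cast hn
  refine ⟨1 / 96000, by norm_num, fun Rs hRs => ?_⟩
  have hbig : ∀ᶠ T : ℝ in atTop, 4 ≤ T ^ (1 / 100 : ℝ) :=
    (tendsto_rpow_atTop (by norm_num : (0:ℝ) < 1 / 100)).eventually_ge_atTop _
  filter_upwards [hO, hbig, eventually_gt_atTop (3:ℝ)]
    with T hT hbT hT3 κ hκ c e P₀ y J I hCfg hlen a b u ha hb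
  have hI : ∀ i, ∀ p ∈ I i, p.Prime := fun i p hp => (hCfg.rg.pr i p hp).1
  have hT0 : 0 < T := by linarith
  have hT1 : 1 < T := by linarith
  have hlogT : 0 < Real.log T := Real.log_pos hT1
  have hk0 : (0:ℝ) < κ := lt_of_lt_of_le (by positivity) hκ.1
  have hδ : 0 < (κ:ℝ) / T := by positivity
  have hlen2 : ∑ i ∈ range J, ((4 * KK n Rs i : ℕ) : ℝ) * Real.log (bb y i) ≤ 1 / 300 * Real.log T := by
    refine (len4_le (by linarith [hCfg.y1]) n Rs J).trans ?_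
    linarith
  have hO' := hT κ hκ
  -- the inner bound
  have hin : ∀ θ₁ θ₂ : ℝ, |θ₁| ≤ 1 → |θ₂| ≤ 1 →
      ‖∫ t in Set.Ioi (0:ℝ), ((om κ (κ / T) t : ℝ) : ℂ) * (((Zr t : ℝ) : ℂ) *
        ∏ i ∈ range J, Bz (KK n Rs i) a b θ₁ θ₂ (zz I t i))‖ ≤
        T ^ (-(1 / 8) : ℝ) * T ^ (1 / 100 : ℝ) := by
    intro θ₁ θ₂ h1 h2
    have hex := ex_prod (K := fun i => 4 * KK n Rs i) (f := fun i => Bz (KK n Rs i) a b θ₁ θ₂)
      hCfg.rg (fun i _ => by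
        have hKn : n + 1 ≤ KK n Rs i := by
          unfold KK RR
          nlinarith [Nat.zero_le i, Nat.zero_le (n * i), Nat.mul_le_mul hn hRs]
        exact ⟨by omega, PB_Bz hKn ha hb h1 h2⟩) J le_rfl
    have hN := prod_bd' hCfg.rg.b10 (fun i => 4 * KK n Rs i) 2 hT1 hlen2
    have hL := prod_bd' hCfg.rg.b10 (fun i => 4 * KK n Rs i) 3 hT1 hlen2
    have e2 : T ^ (((2:ℕ):ℝ) * (1 / 300)) ≤ T ^ (1 / 100 : ℝ) :=
      Real.rpow_le_rpow_of_exponent_le hT1.le (by norm_num)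
    have e3 : T ^ (((3:ℕ):ℝ) * (1 / 300)) = T ^ (1 / 100 : ℝ) := by
      congr 1; norm_num
    rw [e3] at hL
    refine (ex_elt hδ hT0 hZ hO' (hN.trans e2) hex).trans ?_
    exact mul_le_mul_of_nonneg_left hL (by positivity)
  -- the integral
  have hWc := w_int hZ κ hδ
  obtain ⟨B, hB⟩ := FZ_bd n Rs J hI a b u
  have hsw := swap2 hWc (FZ_cont n Rs J hI a b u) hB
  have hAD : ∀ t, ((‖AQ n Rs J a (zz I t)‖ * ‖AQ n Rs J b (zz I t)‖ *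
      ‖DK n Rs J hh u (zz I t)‖ ^ 2 : ℝ) : ℂ) =
      ∫ θ₁ in (-1:ℝ)..1, ∫ θ₂ in (-1:ℝ)..1, FZ n Rs J I a b u t θ₁ θ₂ := by
    intro t
    unfold FZ
    exact DKz_sq n Rs J a b u (zz I t)
  have hmain : ((∫ t in Set.Ioi (0:ℝ), om κ (κ / T) t * (Zr t *
        (‖AQ n Rs J a (zz I t)‖ * ‖AQ n Rs J b (zz I t)‖ * ‖DK n Rs J hh u (zz I t)‖ ^ 2)) : ℝ) : ℂ) =
      ∫ θ₁ in (-1:ℝ)..1, ∫ θ₂ in (-1:ℝ)..1, ∫ t in Set.Ioi (0:ℝ),
        (((om κ (κ / T) t : ℝ) : ℂ) * ((Zr t : ℝ) : ℂ)) * FZ n Rs J I a b u t θ₁ θ₂ := by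
    rw [← hsw.1, ← integral_complex_ofReal]
    refine integral_congr_ae (Eventually.of_forall fun t => ?_)
    simp only
    rw [← hAD]
    push_cast
    ring
  rw [← Real.norm_eq_abs, ← Complex.norm_real, hmain]
  refine (dbl_le (G := fun _ _ => T ^ (-(1 / 8) : ℝ) * T ^ (1 / 100 : ℝ)) (by fun_prop)
    fun θ₁ h1 θ₂ h2 => ?_).trans ?_
  · have e1 : ∀ t : ℝ, (((om κ (κ / T) t : ℝ) : ℂ) * ((Zr t : ℝ) : ℂ)) * FZ n Rs J I a b u t θ₁ θ₂ =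
        (((hh θ₁ * hh θ₂ : ℝ) : ℂ) * Complex.exp (-(((θ₁ + θ₂) * u : ℝ) : ℂ) * Complex.I)) *
        (((om κ (κ / T) t : ℝ) : ℂ) * (((Zr t : ℝ) : ℂ) *
          ∏ i ∈ range J, Bz (KK n Rs i) a b θ₁ θ₂ (zz I t i))) := by
      intro t; unfold FZ; ring
    simp_rw [e1]
    rw [integral_const_mul, norm_mul, norm_mul, norm_e, mul_one, Complex.norm_real, Real.norm_eq_abs, abs_mul,
      abs_of_nonneg (hh_bd h1).1, abs_of_nonneg (hh_bd h2).1]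
    have h3 := hin θ₁ θ₂ (abs_le.mpr h1) (abs_le.mpr h2)
    have h4 : hh θ₁ * hh θ₂ ≤ 1 := mul_le_one₀ (hh_bd h1).2 (hh_bd h2).1 (hh_bd h2).2
    calc _ ≤ 1 * ‖∫ t in Set.Ioi (0:ℝ), ((om κ (κ / T) t : ℝ) : ℂ) * (((Zr t : ℝ) : ℂ) *
          ∏ i ∈ range J, Bz (KK n Rs i) a b θ₁ θ₂ (zz I t i))‖ :=
            mul_le_mul_of_nonneg_right h4 (norm_nonneg _)
      _ = _ := one_mul _
      _ ≤ _ := h3
  · have e4 : (∫ _θ₁ in (-1:ℝ)..1, ∫ _θ₂ in (-1:ℝ)..1, T ^ (-(1 / 8) : ℝ) * T ^ (1 / 100 : ℝ)) =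
        4 * (T ^ (-(1 / 8) : ℝ) * T ^ (1 / 100 : ℝ)) := by
      simp only [intervalIntegral.integral_const, smul_eq_mul]
      ring
    rw [e4]
    calc 4 * (T ^ (-(1 / 8) : ℝ) * T ^ (1 / 100 : ℝ)) ≤
        T ^ (1 / 100 : ℝ) * (T ^ (-(1 / 8) : ℝ) * T ^ (1 / 100 : ℝ)) := by gcongr
      _ = T ^ ((1 / 100 : ℝ) + (-(1 / 8) + 1 / 100)) := by
          rw [Real.rpow_add hT0, Real.rpow_add hT0]
      _ ≤ T ^ (-(1 / 16) : ℝ) := Real.rpow_le_rpow_of_exponent_le hT1.le (by norm_num)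

end

end Pool.Agent.TH914.LS_OZ
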