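import Pool.Agent.TH598.GV.Defs

set_option autoImplicit false

/-!
# Wick's formula for symmetric coefficient tensors, from the integrals of monomials
-/

namespace Pool.Agent.TH914.GVC

open Finset MeasureTheory Pool.Agent.TH598.GV
open scoped ComplexConjugate ComplexOrder

variable {S : Type} [Fintype S] [DecidableEq S]

/-- multiplicities of a word -/
def mult {n : ℕ} (a : Fin n → S) (s : S) : ℕ := (univ.filter (fun i => a i = s)).card

lemma prod_mult {n : ℕ} (a : Fin n → S) (ξ : S → ℂ) :
    ∏ i, ξ (a i) = ∏ s, ξ s ^ mult a s := by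
  rw [← Finset.prod_fiberwise_of_maps_to (s := univ) (t := univ) (g := a)
    (fun i _ => mem_univ (a i))]
  refine prod_congr rfl fun s _ => ?_
  exact prod_eq_pow_card fun i hi => by rw [(mem_filter.1 hi).2]

omit [Fintype S] in
lemma mult_comp {n : ℕ} (a : Fin n → S) (π : Equiv.Perm (Fin n)) : mult (a ∘ π) = mult a := by
  funext s
  unfold mult
  rw [card_filter, card_filter]
  exact Equiv.sum_comp π (fun i => if a i = s then 1 else 0)

omit [Fintype S] in
lemma exists_perm {n : ℕ} {a b : Fin n → S} (h : mult a = mult b) :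
    ∃ π : Equiv.Perm (Fin n), a ∘ π = b := by
  have hc : ∀ s, Fintype.card {i // b i = s} = Fintype.card {i // a i = s} := by
    intro s
    rw [Fintype.card_subtype, Fintype.card_subtype]
    exact (congrFun h s).symm
  let e : ∀ s, {i // b i = s} ≃ {i // a i = s} := fun s => Fintype.equivOfCardEq (hc s)
  refine ⟨(Equiv.sigmaFiberEquiv b).symm.trans ((Equiv.sigmaCongrRight e).trans
    (Equiv.sigmaFiberEquiv a)), ?_⟩
  funext i
  exact (e (b i) ⟨i, rfl⟩).2

lemma count {n : ℕ} (a b : Fin n → S) :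
    (∑ π : Equiv.Perm (Fin n), if a ∘ π = b then (1 : ℂ) else 0) =
      if mult a = mult b then ∏ s, ((mult a s).factorial : ℂ) else 0 := by
  split_ifs with h
  · obtain ⟨π₀, hπ⟩ := exists_perm h
    have h1 : (∑ π : Equiv.Perm (Fin n), if a ∘ π = b then (1 : ℂ) else 0) =
        ∑ π : Equiv.Perm (Fin n), if a ∘ π = a then (1 : ℂ) else 0 := by
      rw [← Equiv.sum_comp (Equiv.mulRight π₀)]
      refine sum_congr rfl fun π _ => ?_
      have : (a ∘ ⇑(Equiv.mulRight π₀ π) = b) ↔ a ∘ ⇑π = a := by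
        rw [← hπ]
        constructor
        · intro h2
          funext i
          have := congrFun h2 (π₀.symm i)
          simpa using this
        · intro h2
          funext i
          have := congrFun h2 (π₀ i)
          simpa using this
      simp only [this]
    have h2 := DomMulAct.stabilizer_card a
    rw [h1, Finset.sum_boole, ← Fintype.card_subtype, h2]
    push_cast
    refine prod_congr rfl fun s _ => ?_
    rw [Fintype.card_subtype]
    rfl
  · refine sum_eq_zero fun π _ => ?_
    rw [if_neg]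
    rintro rfl
    exact h (mult_comp a π).symm

theorem wick_of
    (hig : ∀ α β : S → ℕ, Integrable (fun ξ : S → ℂ =>
      (∏ s, ξ s ^ α s) * conj (∏ s, ξ s ^ β s) * (gw ξ : ℂ)))
    (hmi : ∀ α β : S → ℕ, ∫ ξ : S → ℂ, (∏ s, ξ s ^ α s) * conj (∏ s, ξ s ^ β s) * (gw ξ : ℂ) =
      if α = β then (Real.pi : ℂ) ^ Fintype.card S * ∏ s, ((α s).factorial : ℂ) else 0)
    (n : ℕ) (p q : (Fin n → S) → ℂ)
    (hq : ∀ (π : Equiv.Perm (Fin n)) a, q (a ∘ π) = q a) :
    ∫ ξ : S → ℂ, (∑ a, p a * ∏ i, ξ (a i)) * conj (∑ a, q a * ∏ i, ξ (a i)) * (gw ξ : ℂ) =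
      (Real.pi : ℂ) ^ Fintype.card S * n.factorial * ∑ a, p a * conj (q a) := by
  have e1 : ∀ ξ : S → ℂ,
      (∑ a, p a * ∏ i, ξ (a i)) * conj (∑ a, q a * ∏ i, ξ (a i)) * (gw ξ : ℂ) =
      ∑ a : Fin n → S, ∑ b : Fin n → S, (p a * conj (q b)) *
        ((∏ s, ξ s ^ mult a s) * conj (∏ s, ξ s ^ mult b s) * (gw ξ : ℂ)) := by
    intro ξ
    rw [map_sum, Finset.sum_mul_sum, Finset.sum_mul]
    refine sum_congr rfl fun a _ => ?_
    rw [Finset.sum_mul]
    refine sum_congr rfl fun b _ => ?_
    rw [map_mul, prod_mult a, prod_mult b]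
    ring
  have hi : ∀ a b : Fin n → S, Integrable (fun ξ : S → ℂ => (p a * conj (q b)) *
      ((∏ s, ξ s ^ mult a s) * conj (∏ s, ξ s ^ mult b s) * (gw ξ : ℂ))) :=
    fun a b => (hig _ _).const_mul _
  calc ∫ ξ : S → ℂ, (∑ a, p a * ∏ i, ξ (a i)) * conj (∑ a, q a * ∏ i, ξ (a i)) * (gw ξ : ℂ)
      = ∫ ξ : S → ℂ, ∑ a : Fin n → S, ∑ b : Fin n → S, (p a * conj (q b)) *
        ((∏ s, ξ s ^ mult a s) * conj (∏ s, ξ s ^ mult b s) * (gw ξ : ℂ)) := by
        congr 1; funext ξ; exact e1 ξ
    _ = ∑ a : Fin n → S, ∑ b : Fin n → S, (p a * conj (q b)) *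
        ((Real.pi : ℂ) ^ Fintype.card S *
          ∑ π : Equiv.Perm (Fin n), if a ∘ π = b then (1 : ℂ) else 0) := by
        rw [integral_finsetSum _ (fun a _ => integrable_finsetSum _ fun b _ => hi a b)]
        refine sum_congr rfl fun a _ => ?_
        rw [integral_finsetSum _ (fun b _ => hi a b)]
        refine sum_congr rfl fun b _ => ?_
        rw [integral_const_mul, hmi, count]
        split_ifs <;> simp
    _ = (Real.pi : ℂ) ^ Fintype.card S * ∑ a : Fin n → S, ∑ π : Equiv.Perm (Fin n),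
          p a * conj (q (a ∘ π)) := by
        rw [Finset.mul_sum]
        refine sum_congr rfl fun a _ => ?_
        rw [Finset.mul_sum]
        have e2 : ∀ b : Fin n → S, (p a * conj (q b)) * ((Real.pi : ℂ) ^ Fintype.card S *
            ∑ π : Equiv.Perm (Fin n), if a ∘ π = b then (1 : ℂ) else 0) =
            ∑ π : Equiv.Perm (Fin n), if a ∘ π = b then
              (Real.pi : ℂ) ^ Fintype.card S * (p a * conj (q b)) else 0 := by
          intro b
          rw [← mul_assoc, Finset.mul_sum]
          refine sum_congr rfl fun π _ => ?_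
          split_ifs <;> ring
        rw [sum_congr rfl fun b _ => e2 b, Finset.sum_comm]
        refine sum_congr rfl fun π _ => ?_
        rw [Finset.sum_ite_eq univ (a ∘ π)
          (fun b => (Real.pi : ℂ) ^ Fintype.card S * (p a * conj (q b))), if_pos (mem_univ _)]
    _ = (Real.pi : ℂ) ^ Fintype.card S * n.factorial * ∑ a, p a * conj (q a) := by
        rw [mul_assoc]
        congr 1
        rw [Finset.mul_sum]
        refine sum_congr rfl fun a _ => ?_
        simp only [hq]
        rw [sum_const, card_univ, Fintype.card_perm, Fintype.card_fin, nsmul_eq_mul]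

end Pool.Agent.TH914.GVC
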