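import Pool.Agent.TH83.SQ.Expt

/-! Job 1827 (SQ-expt1): base experiment and one re-splitting step. -/

set_option autoImplicit false

namespace Pool.Agent.TH914.SQ

open Pool.Agent.TH83.SQ
open Finset
open scoped Classical

theorem expt_base (A : Finset (Finset ℕ)) (hA : A.Nonempty) :
    ∃ E : Expt A, Fintype.card E.Λ = 1 := by
  refine ⟨⟨A, Unit, inferInstance, inferInstance, fun _ => 1 / (A.card : ℝ), fun a => a.1,
    fun a _ => a.1, fun a _ => a.1, ?_, ?_, ?_, ?_, ?_, ?_, ?_⟩, ?_⟩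
  · intro _
    positivity
  · intro a
    exact a.2
  · intro f
    rw [← Finset.mul_sum, Finset.sum_coe_sort A f]
    ring
  · intro h
    simp only [Finset.univ_unique, Finset.prod_singleton]
    rw [← Finset.mul_sum, Finset.sum_coe_sort A (fun a => h default a)]
    ring
  · intro _ _
    exact Finset.Subset.refl _
  · intro _ _
    exact Finset.Subset.refl _
  · intro a
    simp
  · exact Fintype.card_unit

theorem mem_sg {k : ℕ} (y : Fin k → Finset ℕ) (q : ℕ) : q ∈ sg y ↔ ∃ i, q ∈ y i := by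
  unfold sg
  rw [Multiset.mem_sum]
  simp

/-- sum over the products -/
theorem sum_prod {k : ℕ} {Ω : Type} [Fintype Ω] (g : Fin k → Ω → ℝ) :
    ∑ z : Fin k → Ω, ∏ i, g i (z i) = ∏ i, ∑ ω, g i ω := by
  rw [Finset.prod_univ_sum, Fintype.piFinset_univ]

theorem sum_tup {k : ℕ} (A : Finset (Finset ℕ)) (g : Fin k → Finset ℕ → ℝ) :
    ∑ x ∈ tup k A, ∏ i, g i (x i) = ∏ i, ∑ a ∈ A, g i a := by
  rw [Finset.prod_univ_sum]
  rfl

theorem law_tup {A : Finset (Finset ℕ)} (E : Expt A) (k : ℕ) (F : (Fin k → Finset ℕ) → ℝ) :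
    ∑ z : Fin k → E.Ω, (∏ i, E.w (z i)) * F (fun i => E.root (z i)) =
      (∑ x ∈ tup k A, F x) / (A.card : ℝ) ^ k := by
  have h1 : ∀ z : Fin k → E.Ω, F (fun i => E.root (z i)) =
      ∑ x ∈ tup k A, F x * ∏ i, (if E.root (z i) = x i then (1 : ℝ) else 0) := by
    intro z
    have hz : (fun i => E.root (z i)) ∈ tup k A := by
      unfold tup
      rw [Fintype.mem_piFinset]
      exact fun i => E.root_mem _
    rw [Finset.sum_eq_single_of_mem _ hz]
    · simp
    · intro x _ hx
      have : ∃ i, E.root (z i) ≠ x i := by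
        by_contra hc
        push Not at hc
        exact hx (funext fun i => (hc i).symm)
      obtain ⟨i, hi⟩ := this
      rw [Finset.prod_eq_zero (Finset.mem_univ i) (if_neg hi), mul_zero]
  have h2 : ∀ x ∈ tup k A, ∑ z : Fin k → E.Ω, (∏ i, E.w (z i)) *
      (F x * ∏ i, (if E.root (z i) = x i then (1 : ℝ) else 0)) = F x * (1 / (A.card : ℝ)) ^ k := by
    intro x hx
    have h3 : ∀ z : Fin k → E.Ω, (∏ i, E.w (z i)) *
        (F x * ∏ i, (if E.root (z i) = x i then (1 : ℝ) else 0)) =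
        F x * ∏ i, (E.w (z i) * (if E.root (z i) = x i then (1 : ℝ) else 0)) := by
      intro z
      rw [Finset.prod_mul_distrib]
      ring
    simp only [h3]
    rw [← Finset.mul_sum, sum_prod (fun i ω => E.w ω * (if E.root ω = x i then (1 : ℝ) else 0))]
    congr 1
    have h4 : ∀ i : Fin k, ∑ ω, E.w ω * (if E.root ω = x i then (1 : ℝ) else 0) =
        1 / (A.card : ℝ) := by
      intro i
      have hxi : x i ∈ A := by
        unfold tup at hx
        rw [Fintype.mem_piFinset] at hx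
        exact hx i
      rw [E.root_law (fun a => if a = x i then (1 : ℝ) else 0)]
      congr 1
      rw [Finset.sum_ite_eq' A (x i), if_pos hxi]
    rw [Finset.prod_congr rfl fun i _ => h4 i]
    simp
  calc ∑ z : Fin k → E.Ω, (∏ i, E.w (z i)) * F (fun i => E.root (z i))
      = ∑ z : Fin k → E.Ω, ∑ x ∈ tup k A, (∏ i, E.w (z i)) *
          (F x * ∏ i, (if E.root (z i) = x i then (1 : ℝ) else 0)) := by
        refine Finset.sum_congr rfl fun z _ => ?_
        rw [h1 z, Finset.mul_sum]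
    _ = ∑ x ∈ tup k A, F x * (1 / (A.card : ℝ)) ^ k := by
        rw [Finset.sum_comm]
        exact Finset.sum_congr rfl h2
    _ = _ := by
        rw [← Finset.sum_mul, one_div, inv_pow, div_eq_mul_inv]

theorem mem_rep {k : ℕ} {A : Finset (Finset ℕ)} {x y : Fin k → Finset ℕ} :
    y ∈ rep A x ↔ y ∈ tup k A ∧ sg y = sg x := by
  unfold rep
  rw [Finset.mem_filter]

theorem rep_congr {k : ℕ} {A : Finset (Finset ℕ)} {x y : Fin k → Finset ℕ} (h : sg y = sg x) :
    rep A y = rep A x := by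
  unfold rep
  rw [h]

theorem self_mem_rep {k : ℕ} {A : Finset (Finset ℕ)} {x : Fin k → Finset ℕ} (h : x ∈ tup k A) :
    x ∈ rep A x := mem_rep.mpr ⟨h, rfl⟩

/-- averages over the classes of `sg` do not change the sum -/
theorem avg {k : ℕ} (A : Finset (Finset ℕ)) (f : (Fin k → Finset ℕ) → ℝ) :
    ∑ x ∈ tup k A, (∑ y ∈ rep A x, f y) / ((rep A x).card : ℝ) = ∑ y ∈ tup k A, f y := by
  have h1 : ∑ x ∈ tup k A, (∑ y ∈ rep A x, f y) / ((rep A x).card : ℝ) =
      ∑ x ∈ tup k A, ∑ y ∈ rep A x, f y / ((rep A y).card : ℝ) := by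
    refine Finset.sum_congr rfl fun x _ => ?_
    rw [Finset.sum_div]
    refine Finset.sum_congr rfl fun y hy => ?_
    rw [rep_congr (mem_rep.mp hy).2]
  rw [h1, Finset.sum_comm' (t' := tup k A) (s' := fun y => rep A y)]
  · refine Finset.sum_congr rfl fun y hy => ?_
    rw [Finset.sum_const, nsmul_eq_mul]
    have : 0 < ((rep A y).card : ℝ) := by
      exact_mod_cast Finset.card_pos.mpr ⟨y, self_mem_rep hy⟩
    field_simp
  · intro x y
    rw [mem_rep, mem_rep]
    constructor
    · rintro ⟨hx, hy, h⟩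
      exact ⟨⟨hx, h.symm⟩, hy⟩
    · rintro ⟨⟨hx, h⟩, hy⟩
      exact ⟨hx, hy, h.symm⟩

theorem sum_coord {k : ℕ} (A : Finset (Finset ℕ)) (i0 : Fin k) (f : Finset ℕ → ℝ) :
    (∑ y ∈ tup k A, f (y i0)) * A.card = (∑ a ∈ A, f a) * (A.card : ℝ) ^ k := by
  have h1 : ∀ y : Fin k → Finset ℕ, f (y i0) = ∏ i, (if i = i0 then f (y i) else 1) := by
    intro y
    rw [Finset.prod_ite_eq' Finset.univ i0 (fun i => f (y i)), if_pos (Finset.mem_univ _)]
  simp only [h1]
  rw [sum_tup A (fun i a => if i = i0 then f a else 1)]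
  have h2 : ∀ i : Fin k, ∑ a ∈ A, (if i = i0 then f a else 1) =
      if i = i0 then ∑ a ∈ A, f a else (A.card : ℝ) := by
    intro i
    split_ifs <;> simp
  rw [Finset.prod_congr rfl fun i _ => h2 i, ← Finset.mul_prod_erase Finset.univ _ (Finset.mem_univ i0),
    if_pos rfl]
  have h3 : ∏ i ∈ Finset.univ.erase i0, (if i = i0 then ∑ a ∈ A, f a else (A.card : ℝ)) =
      (A.card : ℝ) ^ (k - 1) := by
    rw [Finset.prod_congr rfl fun i hi => if_neg (Finset.ne_of_mem_erase hi)]
    rw [Finset.prod_const, Finset.card_erase_of_mem (Finset.mem_univ _), Finset.card_univ,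
      Fintype.card_fin]
  have hk : 0 < k := i0.pos
  have h4 : (A.card : ℝ) ^ k = (A.card : ℝ) ^ (k - 1) * A.card := by
    rw [← pow_succ]
    congr 1
    omega
  rw [h3, h4]
  ring

theorem rep_swap {k : ℕ} (A : Finset (Finset ℕ)) (x : Fin k → Finset ℕ) (i0 j : Fin k)
    (G : Finset ℕ → ℝ) : ∑ y ∈ rep A x, G (y j) = ∑ y ∈ rep A x, G (y i0) := by
  have hmem : ∀ y, y ∈ rep A x → (fun i => y (Equiv.swap i0 j i)) ∈ rep A x := by
    intro y hy
    rw [mem_rep] at hy ⊢
    refine ⟨?_, ?_⟩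
    · have h1 := hy.1
      unfold tup at h1 ⊢
      rw [Fintype.mem_piFinset] at h1 ⊢
      exact fun i => h1 _
    · rw [← hy.2]
      unfold sg
      exact Equiv.sum_comp (Equiv.swap i0 j) fun i => (y i).val
  refine Finset.sum_nbij' (fun y i => y (Equiv.swap i0 j i)) (fun y i => y (Equiv.swap i0 j i))
    hmem hmem ?_ ?_ ?_
  · intro y _
    funext i
    simp
  · intro y _
    funext i
    simp
  · intro y _
    simp

/-- the new experiment -/
noncomputable def stepE {A : Finset (Finset ℕ)} (hA : A.Nonempty) (E : Expt A) (k : ℕ)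
    (i0 : Fin k) : Expt A where
  Ω := Σ z : Fin k → E.Ω, {y // y ∈ rep A (fun i => E.root (z i))}
  Λ := Fin k × E.Λ
  iΩ := inferInstance
  iΛ := inferInstance
  w := fun p => (∏ i, E.w (p.1 i)) / ((rep A (fun i => E.root (p.1 i))).card : ℝ)
  root := fun p => p.2.1 i0
  leaf := fun p q => E.leaf (p.1 q.1) q.2
  piece := fun p q => E.piece (p.1 q.1) q.2 ∩ p.2.1 i0
  w_nonneg := fun p => div_nonneg (Finset.prod_nonneg fun i _ => E.w_nonneg _) (by positivity)
  root_mem := fun p => by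
    have h := (mem_rep.mp p.2.2).1
    unfold tup at h
    rw [Fintype.mem_piFinset] at h
    exact h i0
  root_law := fun f => by
    have hAc : (0 : ℝ) < A.card := by exact_mod_cast hA.card_pos
    rw [Fintype.sum_sigma]
    have h1 : ∀ z : Fin k → E.Ω,
        ∑ y : {y // y ∈ rep A (fun i => E.root (z i))},
          (∏ i, E.w (z i)) / ((rep A (fun i => E.root (z i))).card : ℝ) * f (y.1 i0) =
        (∏ i, E.w (z i)) * ((fun x : Fin k → Finset ℕ =>
          (∑ y ∈ rep A x, f (y i0)) / ((rep A x).card : ℝ)) (fun i => E.root (z i))) := by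
      intro z
      rw [Finset.sum_coe_sort (rep A (fun i => E.root (z i)))
        (fun y => (∏ i, E.w (z i)) / ((rep A (fun i => E.root (z i))).card : ℝ) * f (y i0)),
        ← Finset.mul_sum]
      simp only
      ring
    refine (Finset.sum_congr rfl fun z _ => h1 z).trans ((law_tup E k (fun x =>
      (∑ y ∈ rep A x, f (y i0)) / ((rep A x).card : ℝ))).trans ?_)
    rw [avg A (fun y => f (y i0))]
    have h2 := sum_coord A i0 f
    rw [div_eq_div_iff (by positivity) hAc.ne']
    exact h2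
  leaf_law := fun h => by
    rw [Fintype.sum_sigma]
    have h1 : ∀ z : Fin k → E.Ω,
        ∑ y : {y // y ∈ rep A (fun i => E.root (z i))},
          (∏ i, E.w (z i)) / ((rep A (fun i => E.root (z i))).card : ℝ) *
            ∏ q : Fin k × E.Λ, h q (E.leaf (z q.1) q.2) =
        ∏ i, (E.w (z i) * ∏ l, h (i, l) (E.leaf (z i) l)) := by
      intro z
      rw [Finset.sum_const, nsmul_eq_mul, Finset.card_univ, Fintype.card_coe,
        Fintype.prod_prod_type, Finset.prod_mul_distrib]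
      have hz : (fun i => E.root (z i)) ∈ tup k A := by
        unfold tup
        rw [Fintype.mem_piFinset]
        exact fun i => E.root_mem _
      have hpos : 0 < ((rep A (fun i => E.root (z i))).card : ℝ) := by
        exact_mod_cast Finset.card_pos.mpr ⟨_, self_mem_rep hz⟩
      field_simp
    rw [Finset.sum_congr rfl fun z _ => h1 z,
      sum_prod (fun i ω => E.w ω * ∏ l, h (i, l) (E.leaf ω l)), Fintype.prod_prod_type]
    refine Finset.prod_congr rfl fun i _ => ?_
    exact E.leaf_law fun l => h (i, l)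
  piece_leaf := fun p q => Finset.inter_subset_left.trans (E.piece_leaf _ _)
  piece_root := fun p q => Finset.inter_subset_right
  cover := fun p => by
    intro q hq
    have h1 : q ∈ sg p.2.1 := (mem_sg _ _).mpr ⟨i0, hq⟩
    rw [(mem_rep.mp p.2.2).2, mem_sg] at h1
    obtain ⟨i, hi⟩ := h1
    have h2 := E.cover (p.1 i) hi
    rw [Finset.mem_biUnion] at h2 ⊢
    obtain ⟨l, _, hl⟩ := h2
    exact ⟨(i, l), Finset.mem_univ _, Finset.mem_inter.mpr ⟨hl, hq⟩⟩

theorem expt_step {A : Finset (Finset ℕ)} (hA : A.Nonempty) (E : Expt A) (k : ℕ) (hk : 0 < k) :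
    ∃ E' : Expt A, Fintype.card E'.Λ = k * Fintype.card E.Λ ∧
      E'.pot = (∑ z : Fin k → E.Ω, (∏ i, E.w (z i)) *
        ((∑ y ∈ rep A (fun i => E.root (z i)), ∑ i, ∑ l, ∑ j,
          Real.sqrt ((E.piece (z i) l ∩ y j).card : ℝ)) /
            (rep A (fun i => E.root (z i))).card)) / k := by
  refine ⟨stepE hA E k ⟨0, hk⟩, ?_, ?_⟩
  · show Fintype.card (Fin k × E.Λ) = _
    rw [Fintype.card_prod, Fintype.card_fin]
  · have hk' : (0 : ℝ) < k := by exact_mod_cast hk
    have e1 : (stepE hA E k ⟨0, hk⟩).pot =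
        ∑ p : (Σ z : Fin k → E.Ω, {y // y ∈ rep A (fun i => E.root (z i))}),
          (∏ i, E.w (p.1 i)) / ((rep A (fun i => E.root (p.1 i))).card : ℝ) *
            ∑ q : Fin k × E.Λ, Real.sqrt ((E.piece (p.1 q.1) q.2 ∩ p.2.1 ⟨0, hk⟩).card : ℝ) := rfl
    rw [e1, Fintype.sum_sigma, Finset.sum_div]
    refine Finset.sum_congr rfl fun z _ => ?_
    rw [Finset.sum_coe_sort (rep A (fun i => E.root (z i)))
      (fun y => (∏ i, E.w (z i)) / ((rep A (fun i => E.root (z i))).card : ℝ) *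
        ∑ q : Fin k × E.Λ, Real.sqrt ((E.piece (z q.1) q.2 ∩ y ⟨0, hk⟩).card : ℝ)),
      ← Finset.mul_sum]
    have h1 : ∑ y ∈ rep A (fun i => E.root (z i)), ∑ i, ∑ l, ∑ j,
          Real.sqrt ((E.piece (z i) l ∩ y j).card : ℝ) =
        k * ∑ y ∈ rep A (fun i => E.root (z i)),
          ∑ q : Fin k × E.Λ, Real.sqrt ((E.piece (z q.1) q.2 ∩ y ⟨0, hk⟩).card : ℝ) := by
      have h2 : ∀ y : Fin k → Finset ℕ, ∑ i, ∑ l, ∑ j : Fin k,
          Real.sqrt ((E.piece (z i) l ∩ y j).card : ℝ) =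
          ∑ j : Fin k, ∑ q : Fin k × E.Λ,
            Real.sqrt ((E.piece (z q.1) q.2 ∩ y j).card : ℝ) := by
        intro y
        rw [Finset.sum_comm (s := (Finset.univ : Finset (Fin k)))
          (t := (Finset.univ : Finset (Fin k × E.Λ))), Fintype.sum_prod_type]
      rw [Finset.sum_congr rfl fun y _ => h2 y, Finset.sum_comm]
      rw [Finset.sum_congr rfl fun j _ => rep_swap A (fun i => E.root (z i)) ⟨0, hk⟩ j
        (fun b => ∑ q : Fin k × E.Λ, Real.sqrt ((E.piece (z q.1) q.2 ∩ b).card : ℝ))]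
      rw [Finset.sum_const, nsmul_eq_mul, Finset.card_univ, Fintype.card_fin]
    rw [h1]
    field_simp

end Pool.Agent.TH914.SQ
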