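import Pool.Agent.TH83.SQ.Expt

/-! Job 1828 (SQ-expt2): union bound and potential bound for an experiment. -/

set_option autoImplicit false

namespace Pool.Agent.TH914.SQ

open Pool.Agent.TH83.SQ
open Finset
open scoped Classical

theorem total {A : Finset (Finset ℕ)} (hA : A.Nonempty) (E : Expt A) : ∑ ω, E.w ω = 1 := by
  have h := E.root_law (fun _ => 1)
  simp only [mul_one, sum_const, nsmul_eq_mul] at h
  rw [h, div_self]
  have : 0 < A.card := hA.card_pos
  positivity

theorem expt_union {A : Finset (Finset ℕ)} (hA : A.Nonempty) (E : Expt A) (m : ℕ) (v ρ : ℝ)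
    (hρ : ∀ a ∈ A, ((A.filter fun b => v ≤ ((a ∩ b).card : ℝ)).card : ℝ) ≤ ρ * A.card)
    (hρ0 : 0 ≤ ρ) :
    E.many m v ≤ 2 ^ Fintype.card E.Λ * A.card * ρ ^ m := by
  have hAc : (0 : ℝ) < A.card := by exact_mod_cast hA.card_pos
  let h : Finset E.Λ → Finset ℕ → E.Λ → Finset ℕ → ℝ := fun J a l b =>
    if l ∈ J then (if v ≤ ((a ∩ b).card : ℝ) then 1 else 0) else 1
  have hnn : ∀ J a l b, 0 ≤ h J a l b := by
    intro J a l b
    show 0 ≤ (if l ∈ J then (if v ≤ ((a ∩ b).card : ℝ) then (1 : ℝ) else 0) else 1)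
    split_ifs <;> norm_num
  -- pointwise bound
  have hpt : ∀ ω, (if m ≤ (Finset.univ.filter fun l => v ≤ ((E.piece ω l).card : ℝ)).card
      then (1 : ℝ) else 0) ≤
      ∑ J ∈ (Finset.univ : Finset E.Λ).powersetCard m, ∑ a ∈ A, ∏ l, h J a l (E.leaf ω l) := by
    intro ω
    have hnn2 : ∀ J ∈ (Finset.univ : Finset E.Λ).powersetCard m,
        0 ≤ ∑ a ∈ A, ∏ l, h J a l (E.leaf ω l) := fun J _ =>
      Finset.sum_nonneg fun a _ => Finset.prod_nonneg fun l _ => hnn J a l _
    split_ifs with hm
    · obtain ⟨J, hJ, hJc⟩ := Finset.exists_subset_card_eq hm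
      have hJm : J ∈ (Finset.univ : Finset E.Λ).powersetCard m :=
        Finset.mem_powersetCard.mpr ⟨Finset.subset_univ _, hJc⟩
      refine le_trans ?_ (Finset.single_le_sum hnn2 hJm)
      refine le_trans ?_ (Finset.single_le_sum
        (fun a _ => Finset.prod_nonneg fun l _ => hnn J a l _) (E.root_mem ω))
      have h1 : ∀ l ∈ Finset.univ, h J (E.root ω) l (E.leaf ω l) = 1 := by
        intro l _
        show (if l ∈ J then (if v ≤ ((E.root ω ∩ E.leaf ω l).card : ℝ) then (1 : ℝ) else 0)
          else 1) = 1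
        split_ifs with h2 h3
        · rfl
        · exfalso
          apply h3
          have h4 := (Finset.mem_filter.mp (hJ h2)).2
          refine h4.trans ?_
          exact_mod_cast Finset.card_le_card
            (Finset.subset_inter (E.piece_root ω l) (E.piece_leaf ω l))
        · rfl
      rw [Finset.prod_congr rfl h1]
      simp
    · exact Finset.sum_nonneg hnn2
  have h1 : E.many m v ≤ ∑ ω, E.w ω *
      ∑ J ∈ (Finset.univ : Finset E.Λ).powersetCard m, ∑ a ∈ A, ∏ l, h J a l (E.leaf ω l) := by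
    unfold Expt.many
    exact Finset.sum_le_sum fun ω _ => mul_le_mul_of_nonneg_left (hpt ω) (E.w_nonneg ω)
  have h2 : ∑ ω, E.w ω *
      ∑ J ∈ (Finset.univ : Finset E.Λ).powersetCard m, ∑ a ∈ A, ∏ l, h J a l (E.leaf ω l) =
      ∑ J ∈ (Finset.univ : Finset E.Λ).powersetCard m, ∑ a ∈ A,
        ∏ l, ((∑ b ∈ A, h J a l b) / A.card) := by
    simp only [Finset.mul_sum]
    rw [Finset.sum_comm]
    refine Finset.sum_congr rfl fun J _ => ?_
    rw [Finset.sum_comm]
    refine Finset.sum_congr rfl fun a _ => ?_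
    exact E.leaf_law (h J a)
  have h3 : ∀ J ∈ (Finset.univ : Finset E.Λ).powersetCard m, ∀ a ∈ A,
      ∏ l, ((∑ b ∈ A, h J a l b) / A.card) ≤ ρ ^ m := by
    intro J hJ a ha
    have hJc : J.card = m := (Finset.mem_powersetCard.mp hJ).2
    have h4 : ∀ l, (∑ b ∈ A, h J a l b) / A.card ≤ if l ∈ J then ρ else 1 := by
      intro l
      by_cases hl : l ∈ J
      · rw [if_pos hl, div_le_iff₀ hAc]
        have h5 : ∑ b ∈ A, h J a l b = ((A.filter fun b => v ≤ ((a ∩ b).card : ℝ)).card : ℝ) := by
          rw [Finset.card_filter]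
          push_cast
          refine Finset.sum_congr rfl fun b _ => ?_
          show (if l ∈ J then (if v ≤ ((a ∩ b).card : ℝ) then (1 : ℝ) else 0) else 1) = _
          rw [if_pos hl]
        rw [h5]
        exact hρ a ha
      · rw [if_neg hl, div_le_iff₀ hAc, one_mul]
        have h5 : ∑ b ∈ A, h J a l b = A.card := by
          rw [Finset.card_eq_sum_ones]
          push_cast
          refine Finset.sum_congr rfl fun b _ => ?_
          show (if l ∈ J then (if v ≤ ((a ∩ b).card : ℝ) then (1 : ℝ) else 0) else 1) = _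
          rw [if_neg hl]
        rw [h5]
    calc ∏ l, ((∑ b ∈ A, h J a l b) / A.card) ≤ ∏ l : E.Λ, (if l ∈ J then ρ else 1) := by
          refine Finset.prod_le_prod (fun l _ => ?_) fun l _ => h4 l
          exact div_nonneg (Finset.sum_nonneg fun b _ => hnn J a l b) hAc.le
      _ = ρ ^ m := by
          rw [Finset.prod_ite, Finset.prod_const_one, mul_one, Finset.prod_const]
          congr 1
          rw [← hJc]
          congr 1
          ext l
          simp
  calc E.many m v ≤ _ := h1
    _ = _ := h2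
    _ ≤ ∑ J ∈ (Finset.univ : Finset E.Λ).powersetCard m, ∑ a ∈ A, ρ ^ m :=
        Finset.sum_le_sum fun J hJ => Finset.sum_le_sum fun a ha => h3 J hJ a ha
    _ = ((Finset.univ : Finset E.Λ).powersetCard m).card * (A.card * ρ ^ m) := by
        simp only [Finset.sum_const, nsmul_eq_mul]
    _ ≤ 2 ^ Fintype.card E.Λ * (A.card * ρ ^ m) := by
        apply mul_le_mul_of_nonneg_right _ (by positivity)
        have : ((Finset.univ : Finset E.Λ).powersetCard m).card ≤ 2 ^ Fintype.card E.Λ := by
          rw [← Finset.card_univ (α := E.Λ), ← Finset.card_powerset]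
          exact Finset.card_le_card fun J hJ =>
            Finset.mem_powerset.mpr (Finset.mem_powersetCard.mp hJ).1
        exact_mod_cast this
    _ = _ := by ring

theorem expt_pot_le {A : Finset (Finset ℕ)} (hA : A.Nonempty) (E : Expt A) (m : ℕ) (v K : ℝ)
    (hv : 0 ≤ v) (hK : ∀ a ∈ A, (a.card : ℝ) ≤ K) :
    E.pot ≤ m * Real.sqrt K + Fintype.card E.Λ * Real.sqrt v +
      E.many m v * (Fintype.card E.Λ * Real.sqrt K) := by
  have hpt : ∀ ω, ∑ l, Real.sqrt ((E.piece ω l).card : ℝ) ≤
      (m * Real.sqrt K + Fintype.card E.Λ * Real.sqrt v) +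
      (if m ≤ (Finset.univ.filter fun l => v ≤ ((E.piece ω l).card : ℝ)).card
        then (1 : ℝ) else 0) * (Fintype.card E.Λ * Real.sqrt K) := by
    intro ω
    have hle : ∀ l, Real.sqrt ((E.piece ω l).card : ℝ) ≤ Real.sqrt K := by
      intro l
      apply Real.sqrt_le_sqrt
      refine le_trans ?_ (hK _ (E.root_mem ω))
      exact_mod_cast Finset.card_le_card (E.piece_root ω l)
    have hs0 : 0 ≤ Real.sqrt K := Real.sqrt_nonneg _
    have hs1 : 0 ≤ Real.sqrt v := Real.sqrt_nonneg _
    split_ifs with hm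
    · have h1 : ∑ l, Real.sqrt ((E.piece ω l).card : ℝ) ≤ ∑ _l : E.Λ, Real.sqrt K :=
        Finset.sum_le_sum fun l _ => hle l
      rw [Finset.sum_const, nsmul_eq_mul, Finset.card_univ] at h1
      have : 0 ≤ m * Real.sqrt K + Fintype.card E.Λ * Real.sqrt v := by positivity
      linarith
    · rw [zero_mul, add_zero]
      rw [← Finset.sum_filter_add_sum_filter_not Finset.univ
        (fun l => v ≤ ((E.piece ω l).card : ℝ))]
      apply add_le_add
      · refine (Finset.sum_le_sum fun l _ => hle l).trans ?_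
        rw [Finset.sum_const, nsmul_eq_mul]
        apply mul_le_mul_of_nonneg_right _ hs0
        push Not at hm
        exact_mod_cast hm.le
      · have h1 : ∀ l ∈ Finset.univ.filter (fun l => ¬ v ≤ ((E.piece ω l).card : ℝ)),
            Real.sqrt ((E.piece ω l).card : ℝ) ≤ Real.sqrt v := by
          intro l hl
          apply Real.sqrt_le_sqrt
          have := (Finset.mem_filter.mp hl).2
          linarith
        refine (Finset.sum_le_sum h1).trans ?_
        rw [Finset.sum_const, nsmul_eq_mul]
        apply mul_le_mul_of_nonneg_right _ hs1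
        exact_mod_cast (Finset.card_filter_le _ _).trans (Finset.card_univ).le
  have ht := total hA E
  unfold Expt.pot
  calc ∑ ω, E.w ω * ∑ l, Real.sqrt ((E.piece ω l).card : ℝ)
      ≤ ∑ ω, E.w ω * ((m * Real.sqrt K + Fintype.card E.Λ * Real.sqrt v) +
      (if m ≤ (Finset.univ.filter fun l => v ≤ ((E.piece ω l).card : ℝ)).card
        then (1 : ℝ) else 0) * (Fintype.card E.Λ * Real.sqrt K)) :=
        Finset.sum_le_sum fun ω _ => mul_le_mul_of_nonneg_left (hpt ω) (E.w_nonneg ω)
    _ = (∑ ω, E.w ω) * (m * Real.sqrt K + Fintype.card E.Λ * Real.sqrt v) +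
        E.many m v * (Fintype.card E.Λ * Real.sqrt K) := by
        unfold Expt.many
        rw [Finset.sum_mul, Finset.sum_mul, ← Finset.sum_add_distrib]
        refine Finset.sum_congr rfl fun ω _ => ?_
        ring
    _ = _ := by rw [ht, one_mul]

theorem rare (k : ℕ) (A : Finset (Finset ℕ)) (M : ℝ) (hM : 0 ≤ M) :
    (((tup k A).filter fun x => ((rep A x).card : ℝ) < M).card : ℝ) ≤
      ((tup k A).image sg).card * M := by
  have h1 : ((tup k A).filter fun x => ((rep A x).card : ℝ) < M).card =
      ∑ s ∈ (tup k A).image sg,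
        (((tup k A).filter fun x => ((rep A x).card : ℝ) < M).filter fun x => sg x = s).card := by
    apply Finset.card_eq_sum_card_fiberwise
    intro x hx
    have hx' := Finset.mem_coe.mp hx
    exact Finset.mem_coe.mpr
      (Finset.mem_image_of_mem _ (Finset.mem_filter.mp hx').1)
  rw [h1]
  push_cast
  have h2 : ∀ s ∈ (tup k A).image sg,
      ((((tup k A).filter fun x => ((rep A x).card : ℝ) < M).filter
        fun x => sg x = s).card : ℝ) ≤ M := by
    intro s _
    rcases Finset.eq_empty_or_nonempty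
      (((tup k A).filter fun x => ((rep A x).card : ℝ) < M).filter fun x => sg x = s) with h | h
    · rw [h]
      simpa using hM
    · obtain ⟨x, hx⟩ := h
      obtain ⟨hx1, hx2⟩ := Finset.mem_filter.mp hx
      have hx3 := (Finset.mem_filter.mp hx1).2
      refine le_trans ?_ hx3.le
      norm_cast
      apply Finset.card_le_card
      intro y hy
      obtain ⟨hy1, hy2⟩ := Finset.mem_filter.mp hy
      unfold rep
      rw [Finset.mem_filter]
      exact ⟨(Finset.mem_filter.mp hy1).1, hy2.trans hx2.symm⟩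
  refine (Finset.sum_le_sum h2).trans ?_
  rw [Finset.sum_const, nsmul_eq_mul]

end Pool.Agent.TH914.SQ
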